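import Pool.Agent.Helper73.BR.DefsB

/-!
# Module B-BASE of project BR (MP_70674c_lc, Q2): germ calculus and parametrisations
-/

open Set Filter Topology MeasureTheory
open scoped ContDiff

namespace Pool.Agent.Helper73.BR

variable {m : ℕ}

section
variable {X : Set (E m)} {M N : Type} [TopologicalSpace M] [TopologicalSpace N]

theorem ROpen.mem_nhdsWithin {U : Set (E m)} (h : ROpen X U) {x : E m} (hx : x ∈ U) :
    U ∈ 𝓝[X] x := by
  obtain ⟨V, hV, rfl⟩ := h
  exact _root_.mem_nhdsWithin.2 ⟨V, hV, hx.1, Subset.rfl⟩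

theorem ROpen.subset {U : Set (E m)} (h : ROpen X U) : U ⊆ X := by
  obtain ⟨V, hV, rfl⟩ := h
  exact inter_subset_right

theorem ropen_iff {U : Set (E m)} : ROpen X U ↔ U ⊆ X ∧ ∀ x ∈ U, U ∈ 𝓝[X] x := by
  refine ⟨fun h => ⟨h.subset, fun x hx => h.mem_nhdsWithin hx⟩, ?_⟩
  rintro ⟨h1, h2⟩
  choose! V hVo hxV hVU using fun x hx => mem_nhdsWithin.1 (h2 x hx)
  refine ⟨⋃ x ∈ U, V x, isOpen_biUnion hVo, ?_⟩
  apply Subset.antisymm
  · intro x hx
    exact ⟨mem_biUnion hx (hxV x hx), h1 hx⟩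
  · rintro x ⟨hx, hxX⟩
    obtain ⟨y, hy, hxy⟩ := mem_iUnion₂.1 hx
    exact hVU y hy ⟨hxy, hxX⟩

theorem ROpen.inter {U V : Set (E m)} (h : ROpen X U) (h' : ROpen X V) : ROpen X (U ∩ V) := by
  refine ropen_iff.2 ⟨fun x hx => h.subset hx.1, fun x hx => ?_⟩
  exact inter_mem (h.mem_nhdsWithin hx.1) (h'.mem_nhdsWithin hx.2)

namespace Base

/-- The value of a transition germ. -/
theorem tr_self {M' : Type} {u v : E m → M'} {V : Set (E m)} {x y : E m} {g : E m → E m}
    (hx : x ∈ X) (hinj : InjOn v V) (hg : ∀ᶠ z in 𝓝[X] x, g z ∈ V ∧ u z = v (g z)) (hy : y ∈ V)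
    (hxy : u x = v y) : g x = y := by
  have h := hg.self_of_nhdsWithin hx
  exact hinj h.1 hy (h.2.symm.trans hxy)

theorem tendsto_tr {V : Set (E m)} {x : E m} {g : E m → E m} (hV : V ⊆ X)
    (hc : ContDiffWithinAt ℝ ∞ g X x) (hg : ∀ᶠ z in 𝓝[X] x, g z ∈ V) :
    Tendsto g (𝓝[X] x) (𝓝[X] (g x)) :=
  tendsto_nhdsWithin_iff.2 ⟨hc.continuousWithinAt, hg.mono fun _ hz => hV hz⟩

/-- Composition of germs, general form. -/
theorem tr_comp {M' M'' : Type} {u v : E m → M'} (h : M' → M'') {w : E m → M''}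
    {V W : Set (E m)} {x y : E m}
    (hx : x ∈ X) (hV : V ⊆ X) (hinj : InjOn v V) (h1 : Tr X u x v V) (hy : y ∈ V)
    (hxy : u x = v y) (h2 : Tr X (h ∘ v) y w W) : Tr X (h ∘ u) x w W := by
  obtain ⟨g1, hg1, he1⟩ := h1
  obtain ⟨g2, hg2, he2⟩ := h2
  have hgx : g1 x = y := tr_self hx hinj he1 hy hxy
  subst hgx
  have ht := tendsto_tr hV hg1 (he1.mono fun _ hz => hz.1)
  refine ⟨g2 ∘ g1, hg2.comp_of_preimage_mem_nhdsWithin x hg1
    (he1.mono fun z hz => hV hz.1), ?_⟩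
  filter_upwards [he1, ht.eventually he2] with z hz1 hz2
  refine ⟨hz2.1, ?_⟩
  rw [Function.comp_apply, Function.comp_apply, ← hz2.2, Function.comp_apply, hz1.2]

theorem tr_map {M' M'' : Type} {u v : E m → M'} (h : M' → M'') {V : Set (E m)} {x : E m}
    (h1 : Tr X u x v V) : Tr X (h ∘ u) x (h ∘ v) V := by
  obtain ⟨g, hg, he⟩ := h1
  refine ⟨g, hg, he.mono fun z hz => ⟨hz.1, ?_⟩⟩
  rw [Function.comp_apply, Function.comp_apply, hz.2]

end Base

/-- composition of germs -/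
theorem Tr.comp {M' : Type} {u v : E m → M'} {w : E m → M'} {V W : Set (E m)} {x y : E m}
    (hx : x ∈ X) (hV : V ⊆ X) (hinj : InjOn v V) (h1 : Tr X u x v V) (hy : y ∈ V)
    (hxy : u x = v y) (h2 : Tr X v y w W) : Tr X u x w W :=
  Base.tr_comp id hx hV hinj h1 hy hxy h2

theorem param_chart (A : Man X M) (l : ℕ) : Param A (A.pt l) (A.U l) :=
  ⟨A.ropen l, A.inj l, A.nhds_pt l, fun x hx l' y hy h =>
    ⟨A.trans l l' x y hx hy h, A.trans l' l y x hy hx h.symm⟩⟩

theorem Param.mono {A : Man X M} {u : E m → M} {W W' : Set (E m)} (h : Param A u W)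
    (hW : ROpen X W') (hs : W' ⊆ W) : Param A u W' := by
  refine ⟨hW, h.2.1.mono hs, fun x hx => h.2.2.1 x (hs hx), fun x hx l y hy hxy => ?_⟩
  obtain ⟨h1, g, hg, he⟩ := h.2.2.2 x (hs hx) l y hy hxy
  refine ⟨h1, g, hg, ?_⟩
  have hyX : y ∈ X := (A.ropen l).subset hy
  have hgy : g y = x := Base.tr_self hyX h.2.1 he (hs hx) hxy.symm
  have ht := Base.tendsto_tr h.1.subset hg (he.mono fun _ hz => hz.1)
  rw [hgy] at ht
  filter_upwards [he, ht (hW.mem_nhdsWithin hx)] with z hz1 hz2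
  exact ⟨hz2, hz1.2⟩

theorem Param.isOpen_image {A : Man X M} {u : E m → M} {W : Set (E m)} (h : Param A u W) :
    IsOpen (u '' W) := by
  rw [isOpen_iff_mem_nhds]
  rintro _ ⟨x, hx, rfl⟩
  rw [h.2.2.1 x hx]
  exact image_mem_map (h.1.mem_nhdsWithin hx)

theorem Param.continuousOn {A : Man X M} {u : E m → M} {W : Set (E m)} (h : Param A u W) :
    ContinuousOn u W := by
  intro x hx
  rw [ContinuousWithinAt, h.2.2.1 x hx]
  exact map_mono (nhdsWithin_mono x h.1.subset)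

/-- transition between two parametrisations -/
theorem Param.tr {A : Man X M} {u v : E m → M} {W V : Set (E m)} (h : Param A u W)
    (h' : Param A v V) {x y : E m} (hx : x ∈ W) (hy : y ∈ V) (hxy : u x = v y) :
    Tr X u x v V := by
  obtain ⟨l, w, hw, hwx⟩ := A.cover (u x)
  exact ((h.2.2.2 x hx l w hw hwx.symm).1).comp (h.1.subset hx) (A.ropen l).subset (A.inj l) hw
    hwx.symm (h'.2.2.2 y hy l w hw (hxy.symm.trans hwx.symm)).2

namespace Base

theorem ropen_pre {A : Man X M} {u : E m → M} {W : Set (E m)} (h : Param A u W)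
    {O : Set M} (hO : IsOpen O) : ROpen X {x ∈ W | u x ∈ O} := by
  refine ropen_iff.2 ⟨fun x hx => h.1.subset hx.1, fun x hx => ?_⟩
  have h1 : O ∈ 𝓝 (u x) := hO.mem_nhds hx.2
  rw [h.2.2.1 x hx.1] at h1
  exact inter_mem (h.1.mem_nhdsWithin hx.1) h1

theorem trans_aux {A : Man X M} {u v : E m → M} {W V : Set (E m)}
    (h : Param A u W) (h' : Param A v V) {x : E m} (hx : x ∈ W) (hxV : u x ∈ v '' V) :
    ContDiffWithinAt ℝ ∞ (fun z => Function.invFunOn v V (u z)) X x ∧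
      Function.invFunOn v V (u x) ∈ V ∧ v (Function.invFunOn v V (u x)) = u x := by
  obtain ⟨y, hy, hyx⟩ := hxV
  obtain ⟨g, hg, he⟩ := h.tr h' hx hy hyx.symm
  have hev : (fun z => Function.invFunOn v V (u z)) =ᶠ[𝓝[X] x] g := by
    filter_upwards [he] with z hz
    rw [hz.2]
    exact h'.2.1.leftInvOn_invFunOn hz.1
  refine ⟨hg.congr_of_eventuallyEq hev (hev.self_of_nhdsWithin (h.1.subset hx)),
    Function.invFunOn_mem ⟨y, hy, hyx⟩, Function.invFunOn_eq ⟨y, hy, hyx⟩⟩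

end Base

/-- The transition `v⁻¹ ∘ u` as a smooth map between relatively open sets. -/
theorem Param.exists_transition {A : Man X M} {u v : E m → M} {W V : Set (E m)}
    (h : Param A u W) (h' : Param A v V) :
    ∃ F G : E m → E m, ROpen X {x ∈ W | u x ∈ v '' V} ∧ ROpen X {y ∈ V | v y ∈ u '' W} ∧
      (∀ x ∈ W, u x ∈ v '' V → ContDiffWithinAt ℝ ∞ F X x ∧ F x ∈ V ∧ v (F x) = u x) ∧
      (∀ y ∈ V, v y ∈ u '' W → ContDiffWithinAt ℝ ∞ G X y ∧ G y ∈ W ∧ u (G y) = v y) ∧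
      (∀ x ∈ W, u x ∈ v '' V → G (F x) = x) ∧ (∀ y ∈ V, v y ∈ u '' W → F (G y) = y) := by
  refine ⟨fun z => Function.invFunOn v V (u z), fun z => Function.invFunOn u W (v z),
    Base.ropen_pre h h'.isOpen_image, Base.ropen_pre h' h.isOpen_image,
    fun x hx hxV => Base.trans_aux h h' hx hxV, fun y hy hyW => Base.trans_aux h' h hy hyW,
    fun x hx hxV => ?_, fun y hy hyW => ?_⟩
  · show Function.invFunOn u W (v (Function.invFunOn v V (u x))) = x
    rw [(Base.trans_aux h h' hx hxV).2.2]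
    exact h.2.1.leftInvOn_invFunOn hx
  · show Function.invFunOn v V (u (Function.invFunOn u W (v y))) = y
    rw [(Base.trans_aux h' h hy hyW).2.2]
    exact h'.2.1.leftInvOn_invFunOn hy

theorem DM.refl (A : Man X M) : DM A A (Equiv.refl M) :=
  ⟨fun l x hx l' y hy h => A.trans l l' x y hx hy h,
    fun l x hx l' y hy h => A.trans l l' x y hx hy h⟩

theorem DM.symm {A : Man X M} {B : Man X N} {f : M ≃ N} (h : DM A B f) : DM B A f.symm :=
  ⟨h.2, h.1⟩

namespace Base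

theorem smM_comp {M' : Type} [TopologicalSpace M'] {A : Man X M} {B : Man X N} {C : Man X M'}
    {f : M → N} {g : N → M'} (h : SmM A B f) (h' : SmM B C g) : SmM A C (g ∘ f) := by
  intro l x hx l' y hy hxy
  obtain ⟨l'', w, hw, hwx⟩ := B.cover (f (A.pt l x))
  have h1 := h l x hx l'' w hw hwx.symm
  have h2 := h' l'' w hw l' y hy (by rw [hwx]; exact hxy)
  exact tr_comp g ((A.ropen l).subset hx) (B.ropen l'').subset (B.inj l'') h1 hw hwx.symm h2

end Base

theorem DM.trans {M' : Type} [TopologicalSpace M'] {A : Man X M} {B : Man X N} {C : Man X M'}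
    {f : M ≃ N} {g : N ≃ M'} (h : DM A B f) (h' : DM B C g) : DM A C (f.trans g) :=
  ⟨Base.smM_comp (f := f) (g := g) h.1 h'.1,
    Base.smM_comp (f := g.symm) (g := f.symm) h'.2 h.2⟩

namespace Base

theorem smM_continuous {A : Man X M} {B : Man X N} {f : M → N} (h : SmM A B f) :
    Continuous f := by
  rw [continuous_iff_continuousAt]
  intro z
  obtain ⟨l, x, hx, rfl⟩ := A.cover z
  obtain ⟨l', y, hy, hyx⟩ := B.cover (f (A.pt l x))
  obtain ⟨g, hg, he⟩ := h l x hx l' y hy hyx.symm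
  have hxX : x ∈ X := (A.ropen l).subset hx
  have hgx : g x = y := tr_self hxX (B.inj l') he hy hyx.symm
  have ht := tendsto_tr (B.ropen l').subset hg (he.mono fun _ hz => hz.1)
  rw [hgx] at ht
  have hB : Tendsto (B.pt l') (𝓝[X] y) (𝓝 (f (A.pt l x))) := by
    rw [← hyx, B.nhds_pt l' y hy]
    exact tendsto_map
  rw [ContinuousAt, A.nhds_pt l x hx, tendsto_map'_iff]
  refine (hB.comp ht).congr' ?_
  filter_upwards [he] with z hz
  exact hz.2.symm

end Base

theorem DM.continuous {A : Man X M} {B : Man X N} {f : M ≃ N} (h : DM A B f) :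
    Continuous f :=
  Base.smM_continuous h.1

theorem Param.map {A : Man X M} {B : Man X N} {u : E m → M} {W : Set (E m)} (h : Param A u W)
    {f : M ≃ N} (hf : DM A B f) : Param B (f ∘ u) W := by
  have hmap : ∀ z, 𝓝 (f z) = Filter.map f (𝓝 z) := by
    intro z
    let F : M ≃ₜ N := ⟨f, hf.continuous, hf.symm.continuous⟩
    exact (F.map_nhds_eq z).symm
  refine ⟨h.1, f.injective.comp_injOn h.2.1, fun x hx => ?_, fun x hx l y hy hxy => ?_⟩
  · rw [Function.comp_apply, hmap, h.2.2.1 x hx, Filter.map_map]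
  · obtain ⟨l0, w, hw, hwx⟩ := A.cover (u x)
    have hxX : x ∈ X := h.1.subset hx
    have hyX : y ∈ X := (B.ropen l).subset hy
    obtain ⟨h1, h2⟩ := h.2.2.2 x hx l0 w hw hwx.symm
    constructor
    · refine Base.tr_comp f hxX (A.ropen l0).subset (A.inj l0) h1 hw hwx.symm ?_
      exact hf.1 l0 w hw l y hy (by rw [hwx]; exact hxy)
    · have h3 : Tr X (f.symm ∘ B.pt l) y (A.pt l0) (A.U l0) :=
        hf.2 l y hy l0 w hw (by rw [← hxy, Function.comp_apply, f.symm_apply_apply, hwx])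
      have h4 : Tr X (f.symm ∘ B.pt l) y u W := by
        refine h3.comp hyX (A.ropen l0).subset (A.inj l0) hw ?_ h2
        rw [Function.comp_apply, ← hxy, Function.comp_apply, f.symm_apply_apply, hwx]
      have h5 := Base.tr_map f h4
      rwa [← Function.comp_assoc, f.self_comp_symm, Function.id_comp] at h5

/-- Smoothness can be checked in any parametrisations. -/
theorem smM_of_param {A : Man X M} {B : Man X N} {f : M → N}
    (h : ∀ z : M, ∃ (u : E m → M) (W : Set (E m)) (v : E m → N) (V : Set (E m)) (x : E m),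
      Param A u W ∧ Param B v V ∧ x ∈ W ∧ u x = z ∧ Tr X (f ∘ u) x v V) : SmM A B f := by
  intro l x0 hx0 l' y0 hy0 hxy
  obtain ⟨u, W, v, V, x, hu, hv, hx, hxz, htr⟩ := h (A.pt l x0)
  have hx0X : x0 ∈ X := (A.ropen l).subset hx0
  have hxX : x ∈ X := hu.1.subset hx
  have h1 : Tr X (A.pt l) x0 u W := (hu.2.2.2 x hx l x0 hx0 hxz).2
  have h2 : Tr X (f ∘ A.pt l) x0 v V :=
    Base.tr_comp f hx0X hu.1.subset hu.2.1 h1 hx hxz.symm htr
  obtain ⟨g, hg, he⟩ := h2
  have h3 := he.self_of_nhdsWithin hx0X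
  have h4 : v (g x0) = B.pt l' y0 := by
    rw [← h3.2]; exact hxy
  exact Tr.comp hx0X hv.1.subset hv.2.1 ⟨g, hg, he⟩ h3.1 h3.2
    (hv.2.2.2 (g x0) h3.1 l' y0 hy0 h4).1

end

end Pool.Agent.Helper73.BR
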