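import Pool.Agent.Helper73.BR.DefsB

open Set Filter Topology MeasureTheory
open scoped ContDiff

namespace Pool.Agent.Helper73.BR

variable {m : ℕ}

namespace BpInv

theorem convex_HS (m : ℕ) : Convex ℝ (HS m) := by
  intro x hx y hy a b ha hb _
  have hx' : 0 ≤ x (Fin.last (m + 1)) := hx
  have hy' : 0 ≤ y (Fin.last (m + 1)) := hy
  change 0 ≤ a * x (Fin.last (m + 1)) + b * y (Fin.last (m + 1))
  positivity

theorem isOpen_pos (m : ℕ) : IsOpen {x : E m | 0 < x (Fin.last (m + 1))} :=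
  isOpen_lt continuous_const (continuous_apply _)

theorem HS_mem_nhds {y : E m} (hy : 0 < y (Fin.last (m + 1))) : HS m ∈ 𝓝 y :=
  mem_of_superset ((isOpen_pos m).mem_nhds hy) (fun z (h : 0 < z (Fin.last (m + 1))) =>
    (le_of_lt h : 0 ≤ z (Fin.last (m + 1))))

theorem uniqueDiffOn_HS (m : ℕ) : UniqueDiffOn ℝ (HS m) := by
  refine uniqueDiffOn_convex (convex_HS m) ⟨fun _ => 1, ?_⟩
  rw [mem_interior_iff_mem_nhds]
  exact HS_mem_nhds (by norm_num)

theorem HS_not_mem_nhds {x : E m} (hx : x (Fin.last (m + 1)) = 0) : HS m ∉ 𝓝 x := by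
  intro h
  have hc : Tendsto (fun t : ℝ => x - t • (fun _ => (1 : ℝ))) (𝓝[>] 0) (𝓝 x) := by
    have : Tendsto (fun t : ℝ => x - t • (fun _ => (1 : ℝ))) (𝓝 0) (𝓝 (x - (0 : ℝ) • (fun _ => (1 : ℝ)))) := by
      apply Continuous.tendsto
      fun_prop
    simp only [zero_smul, sub_zero] at this
    exact this.mono_left nhdsWithin_le_nhds
  have h2 := (hc.eventually h).and self_mem_nhdsWithin
  obtain ⟨t, ht, ht0⟩ := h2.exists
  have ht' : 0 ≤ (x - t • (fun _ => (1 : ℝ)) : E m) (Fin.last (m + 1)) := ht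
  simp only [Pi.sub_apply, Pi.smul_apply, smul_eq_mul, hx] at ht'
  have : 0 < t := ht0
  linarith

theorem ropen_subset {X U : Set (E m)} (h : ROpen X U) : U ⊆ X := by
  obtain ⟨V, _, rfl⟩ := h
  exact inter_subset_right

theorem ropen_mem {X U : Set (E m)} (h : ROpen X U) {x : E m} (hx : x ∈ U) : U ∈ 𝓝[X] x := by
  obtain ⟨V, hV, rfl⟩ := h
  exact inter_mem (mem_nhdsWithin_of_mem_nhds (hV.mem_nhds hx.1)) self_mem_nhdsWithin

theorem aux {O O' : Set (E m)} (hO : ROpen (HS m) O) (hO' : ROpen (HS m) O')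
    {f g : E m → E m} (hf : ∀ x ∈ O, ContDiffWithinAt ℝ ∞ f (HS m) x)
    (hg : ∀ y ∈ O', ContDiffWithinAt ℝ ∞ g (HS m) y) (hfm : MapsTo f O O') (hgm : MapsTo g O' O)
    (hgf : ∀ x ∈ O, g (f x) = x) {x : E m} (hx : x ∈ O)
    (hx0 : x (Fin.last (m + 1)) = 0) : f x (Fin.last (m + 1)) = 0 := by
  by_contra hne
  have hyO' : f x ∈ O' := hfm hx
  have hyHS : f x ∈ HS m := ropen_subset hO' hyO'
  have hy0 : 0 < f x (Fin.last (m + 1)) := lt_of_le_of_ne hyHS (Ne.symm hne)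
  have hHSn : HS m ∈ 𝓝 (f x) := HS_mem_nhds hy0
  have hgc : ContDiffAt ℝ ∞ g (f x) := (hg _ hyO').contDiffAt hHSn
  have hO'n : O' ∈ 𝓝 (f x) := by
    have h := ropen_mem hO' hyO'
    rwa [nhdsWithin_eq_nhds.2 hHSn] at h
  have hgs : HasStrictFDerivAt g (fderiv ℝ g (f x)) (f x) :=
    hgc.hasStrictFDerivAt (by simp)
  have hfd : HasFDerivWithinAt f (fderivWithin ℝ f (HS m) x) (HS m) x :=
    ((hf x hx).differentiableWithinAt (by simp)).hasFDerivWithinAt
  have hcomp : HasFDerivWithinAt (g ∘ f) ((fderiv ℝ g (f x)).comp (fderivWithin ℝ f (HS m) x))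
      (HS m) x := hgs.hasFDerivAt.comp_hasFDerivWithinAt x hfd
  have hev : id =ᶠ[𝓝[HS m] x] g ∘ f := by
    filter_upwards [ropen_mem hO hx] with z hz
    exact (hgf z hz).symm
  have hid : HasFDerivWithinAt id ((fderiv ℝ g (f x)).comp (fderivWithin ℝ f (HS m) x))
      (HS m) x := hcomp.congr_of_eventuallyEq hev (hgf x hx).symm
  have heq : (fderiv ℝ g (f x)).comp (fderivWithin ℝ f (HS m) x) = ContinuousLinearMap.id ℝ (E m) :=
    (uniqueDiffOn_HS m x (ropen_subset hO hx)).eq hid (hasFDerivWithinAt_id x (HS m))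
  have hsurj : LinearMap.range (fderiv ℝ g (f x) : E m →ₗ[ℝ] E m) = ⊤ := by
    rw [LinearMap.range_eq_top]
    intro v
    refine ⟨fderivWithin ℝ f (HS m) x v, ?_⟩
    have := congrArg (fun L : E m →L[ℝ] E m => L v) heq
    simpa using this
  have hmap : map g (𝓝 (f x)) = 𝓝 (g (f x)) := hgs.map_nhds_eq_of_surj hsurj
  rw [hgf x hx] at hmap
  apply HS_not_mem_nhds hx0
  rw [← hmap, mem_map]
  exact mem_of_superset hO'n (fun y hy => ropen_subset hO (hgm hy))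

end BpInv

theorem bp_of_inv {O O' : Set (E m)} (hO : ROpen (HS m) O) (hO' : ROpen (HS m) O')
    {f g : E m → E m} (hf : ∀ x ∈ O, ContDiffWithinAt ℝ ∞ f (HS m) x)
    (hg : ∀ y ∈ O', ContDiffWithinAt ℝ ∞ g (HS m) y) (hfm : MapsTo f O O') (hgm : MapsTo g O' O)
    (hgf : ∀ x ∈ O, g (f x) = x) (hfg : ∀ y ∈ O', f (g y) = y) : BP f O := by
  intro x hx
  refine ⟨BpInv.ropen_subset hO' (hfm hx), fun h => ?_, fun h => ?_⟩
  · have := BpInv.aux hO' hO hg hf hgm hfm hfg (hfm hx) h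
    rwa [hgf x hx] at this
  · exact BpInv.aux hO hO' hf hg hfm hgm hgf hx h

end Pool.Agent.Helper73.BR
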