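import Pool.Agent.BR.Perturb
import Pool.Agent.BR.BpInv

open Set Filter Topology
open scoped ContDiff

namespace Pool.Agent.Helper73.BR

namespace DiffL

open Perturb

variable {m : ℕ}

theorem ropen_mem {O : Set (E m)} (hO : ROpen (HS m) O) {x : E m} (hx : x ∈ O) :
    O ∈ 𝓝[HS m] x := by
  obtain ⟨V, hV, rfl⟩ := hO
  exact inter_mem (mem_nhdsWithin_of_mem_nhds (hV.mem_nhds hx.1)) self_mem_nhdsWithin

theorem ropen_sub {O : Set (E m)} (hO : ROpen (HS m) O) : O ⊆ HS m := by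
  obtain ⟨V, _, rfl⟩ := hO
  exact inter_subset_right

/-- The derivative within the half space is continuous on a relatively open set where the map is
smooth. -/
theorem continuousOn_fderiv {O : Set (E m)} (hO : ROpen (HS m) O) {f : E m → E m}
    (hf : ∀ x ∈ O, ContDiffWithinAt ℝ ∞ f (HS m) x) :
    ContinuousOn (fderivWithin ℝ f (HS m)) O := by
  obtain ⟨V, hV, rfl⟩ := hO
  have h1 : ContDiffOn ℝ ∞ f (V ∩ HS m) := fun x hx => (hf x hx).mono inter_subset_right
  have hu : UniqueDiffOn ℝ (V ∩ HS m) := by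
    rw [inter_comm]
    exact (uniqueDiffOn_HS m).inter hV
  have h2 := h1.continuousOn_fderivWithin hu (by simp)
  refine h2.congr fun x hx => ?_
  rw [inter_comm, fderivWithin_inter (hV.mem_nhds hx.1)]

theorem continuousOn_of_smooth {O : Set (E m)} (hO : ROpen (HS m) O) {f : E m → E m}
    (hf : ∀ x ∈ O, ContDiffWithinAt ℝ ∞ f (HS m) x) : ContinuousOn f O :=
  fun x hx => (hf x hx).continuousWithinAt.mono (ropen_sub hO)

/-- Uniform continuity on a compact set. -/
theorem unif {T : Set (E m)} {Y : Type*} [NormedAddCommGroup Y] {g : E m → Y}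
    (hT : IsCompact T) (hg : ContinuousOn g T) {η : ℝ} (hη : 0 < η) :
    ∃ δ > 0, ∀ a ∈ T, ∀ b ∈ T, ‖a - b‖ < δ → ‖g a - g b‖ < η := by
  have h := hT.uniformContinuousOn_of_continuous hg
  rw [Metric.uniformContinuousOn_iff] at h
  obtain ⟨δ, hδ, h⟩ := h η hη
  refine ⟨δ, hδ, fun a ha b hb hab => ?_⟩
  rw [← dist_eq_norm] at hab ⊢
  exact h a ha b hb hab

theorem bound {T : Set (E m)} {Y : Type*} [NormedAddCommGroup Y] {g : E m → Y}
    (hT : IsCompact T) (hg : ContinuousOn g T) : ∃ C : ℝ, 0 ≤ C ∧ ∀ a ∈ T, ‖g a‖ ≤ C := by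
  obtain ⟨C, hC⟩ := hT.exists_bound_of_continuousOn hg
  exact ⟨max C 0, le_max_right _ _, fun a ha => (hC a ha).trans (le_max_left _ _)⟩

end DiffL

open DiffL Perturb in
theorem diff_lemma {m : ℕ} {O O' : Set (E m)} (hO : ROpen (HS m) O) (hO' : ROpen (HS m) O')
    {F G : E m → E m} (hF : ∀ x ∈ O, ContDiffWithinAt ℝ ∞ F (HS m) x)
    (hG : ∀ y ∈ O', ContDiffWithinAt ℝ ∞ G (HS m) y) (hFm : MapsTo F O O') (hGm : MapsTo G O' O)
    (hGF : ∀ x ∈ O, G (F x) = x) (hFG : ∀ y ∈ O', F (G y) = y)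
    {S : Set (E m)} (hS : IsCompact S) (hSO : S ⊆ O) {θ : E m → ℝ} (hθ : ContDiff ℝ ∞ θ)
    (hθr : ∀ x, 0 ≤ θ x ∧ θ x ≤ 1) (hθS : ∀ x ∈ HS m, x ∉ S → θ x = 0) {ε : ℝ} (hε : 0 < ε) :
    ∃ δ : ℝ, 0 < δ ∧ ∀ P : E m → E m, ContDiffOn ℝ ∞ P (HS m) → BP P (HS m) →
      (∀ x ∈ S, ‖P x - F x‖ < δ ∧
        ‖fderivWithin ℝ P (HS m) x - fderivWithin ℝ F (HS m) x‖ < δ) →
      ∃ σ τ : E m → E m, ContDiffOn ℝ ∞ σ (HS m) ∧ ContDiffOn ℝ ∞ τ (HS m) ∧
        MapsTo σ (HS m) (HS m) ∧ MapsTo τ (HS m) (HS m) ∧ (∀ x ∈ HS m, τ (σ x) = x) ∧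
        (∀ y ∈ HS m, σ (τ y) = y) ∧ (∀ x ∈ HS m, x ∉ S → σ x = x) ∧
        (∀ x ∈ HS m, ‖σ x - x‖ < ε) ∧
        ∀ x ∈ O, σ x ∈ O ∧ F (σ x) = F x + θ x • (P x - F x) := by
  classical
  have hbF : BP F O := bp_of_inv hO hO' hF hG hFm hGm hGF hFG
  have hbG : BP G O' := bp_of_inv hO' hO hG hF hGm hFm hFG hGF
  have hOs := ropen_sub hO
  have hOs' := ropen_sub hO'
  -- the compact set T
  obtain ⟨V', hV', hOV⟩ := hO'
  have hK : IsCompact (F '' S) := hS.image_of_continuousOn ((continuousOn_of_smooth hO hF).mono hSO)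
  have hKV : F '' S ⊆ V' := by
    rintro _ ⟨x, hx, rfl⟩
    have : F x ∈ O' := hFm (hSO hx)
    rw [hOV] at this
    exact this.1
  obtain ⟨d0, hd0, hd0V⟩ := hK.exists_cthickening_subset_open hV' hKV
  set T : Set (E m) := Metric.cthickening d0 (F '' S) ∩ HS m with hTdef
  have hT : IsCompact T := (hK.cthickening).inter_right (isClosed_HS m)
  have hTO : T ⊆ O' := by
    rw [hOV]
    exact inter_subset_inter_left _ hd0V
  have hO'' : ROpen (HS m) O' := ⟨V', hV', hOV⟩
  have hGc : ContinuousOn G T := (continuousOn_of_smooth hO'' hG).mono hTO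
  have hDGc : ContinuousOn (fderivWithin ℝ G (HS m)) T := (continuousOn_fderiv hO'' hG).mono hTO
  have hDFc : ContinuousOn (fderivWithin ℝ F (HS m)) S := (continuousOn_fderiv hO hF).mono hSO
  have hDθc : ContinuousOn (fderiv ℝ θ) S := (hθ.continuous_fderiv (by simp)).continuousOn
  obtain ⟨C1, hC1, hC1'⟩ := bound hT hDGc
  obtain ⟨C2, hC2, hC2'⟩ := bound hS hDFc
  obtain ⟨C3, hC3, hC3'⟩ := bound hS hDθc
  obtain ⟨δ2, hδ2, hδ2'⟩ := unif hT hDGc (η := 1 / (4 * (C2 + 1))) (by positivity)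
  obtain ⟨δ3, hδ3, hδ3'⟩ := unif hT hGc hε
  set δ : ℝ := min (min d0 δ2) (min δ3 (1 / (4 * (C1 + 1) * (C3 + 1)))) with hδ
  have hδpos : 0 < δ := by
    rw [hδ]
    refine lt_min (lt_min hd0 hδ2) (lt_min hδ3 (by positivity))
  have hδd0 : δ ≤ d0 := (min_le_left _ _).trans (min_le_left _ _)
  have hδδ2 : δ ≤ δ2 := (min_le_left _ _).trans (min_le_right _ _)
  have hδδ3 : δ ≤ δ3 := (min_le_right _ _).trans (min_le_left _ _)
  have hδC : δ ≤ 1 / (4 * (C1 + 1) * (C3 + 1)) := (min_le_right _ _).trans (min_le_right _ _)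
  refine ⟨δ, hδpos, fun P hP hbP hclose => ?_⟩
  set F' : E m → E m := fun x => F x + θ x • (P x - F x) with hF'
  -- F' close to F
  have hF'F : ∀ x ∈ S, ‖F' x - F x‖ < δ := by
    intro x hx
    have h1 : F' x - F x = θ x • (P x - F x) := by simp [hF']
    rw [h1, norm_smul, Real.norm_eq_abs, abs_of_nonneg (hθr x).1]
    calc θ x * ‖P x - F x‖ ≤ 1 * ‖P x - F x‖ :=
          mul_le_mul_of_nonneg_right (hθr x).2 (norm_nonneg _)
      _ < δ := by rw [one_mul]; exact (hclose x hx).1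
  have hFT : ∀ x ∈ S, F x ∈ T := fun x hx =>
    ⟨Metric.self_subset_cthickening _ ⟨x, hx, rfl⟩, hOs' (hFm (hSO hx))⟩
  have hF'T : ∀ x ∈ S, F' x ∈ T := by
    intro x hx
    refine ⟨?_, ?_⟩
    · refine Metric.mem_cthickening_of_dist_le _ _ _ _ ⟨x, hx, rfl⟩ ?_
      rw [dist_eq_norm]
      exact (hF'F x hx).le.trans hδd0
    · have h1 : F' x = (1 - θ x) • F x + θ x • P x := by
        simp only [hF']
        module
      rw [h1]
      exact convex_HS m (hOs' (hFm (hSO hx))) (hbP x (hOs (hSO hx))).1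
        (by linarith [(hθr x).2]) (hθr x).1 (by ring)
  have hF'off : ∀ x ∈ HS m, x ∉ S → F' x = F x := by
    intro x hx hxS
    simp [hF', hθS x hx hxS]
  have hF'm : MapsTo F' O O' := by
    intro x hx
    by_cases hxS : x ∈ S
    · exact hTO (hF'T x hxS)
    · rw [hF'off x (hOs hx) hxS]
      exact hFm hx
  set σ : E m → E m := fun x => if x ∈ S then G (F' x) else x with hσ
  have hσS : ∀ x ∈ S, σ x = G (F' x) := fun x hx => by simp [hσ, hx]
  have hσn : ∀ x, x ∉ S → σ x = x := fun x hx => by simp [hσ, hx]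
  have hσO : ∀ x ∈ O, σ x = G (F' x) := by
    intro x hx
    by_cases hxS : x ∈ S
    · exact hσS x hxS
    · rw [hσn x hxS, hF'off x (hOs hx) hxS, hGF x hx]
  have hσHS : ∀ x ∈ HS m, σ x ∈ HS m := by
    intro x hx
    by_cases hxS : x ∈ S
    · rw [hσS x hxS]
      exact hOs (hGm (hTO (hF'T x hxS)))
    · rw [hσn x hxS]; exact hx
  -- smoothness
  have hF's : ∀ x ∈ O, ContDiffWithinAt ℝ ∞ F' (HS m) x := by
    intro x hx
    exact (hF x hx).add ((hθ.contDiffAt.contDiffWithinAt).smul ((hP x (hOs hx)).sub (hF x hx)))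
  have hσs : ContDiffOn ℝ ∞ σ (HS m) := by
    intro x hx
    by_cases hxO : x ∈ O
    · have h1 : ContDiffWithinAt ℝ ∞ (G ∘ F') O x :=
        (hG _ (hF'm hxO)).comp x ((hF's x hxO).mono hOs) (fun z hz => hOs' (hF'm hz))
      have h2 : ContDiffWithinAt ℝ ∞ (G ∘ F') (HS m) x :=
        h1.mono_of_mem_nhdsWithin (ropen_mem hO hxO)
      refine h2.congr_of_eventuallyEq ?_ (hσO x hxO)
      filter_upwards [ropen_mem hO hxO] with z hz using hσO z hz
    · have hxS : x ∉ S := fun h => hxO (hSO h)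
      refine (contDiffWithinAt_id (s := HS m) (x := x)).congr_of_eventuallyEq ?_ (hσn x hxS)
      filter_upwards [mem_nhdsWithin_of_mem_nhds (hS.isClosed.isOpen_compl.mem_nhds hxS)]
        with z hz using hσn z hz
  -- derivative bound
  set v : E m → E m := fun x => σ x - x with hv
  have hvs : ContDiffOn ℝ ∞ v (HS m) := hσs.sub contDiffOn_id
  have hDv : ∀ x ∈ HS m, ‖fderivWithin ℝ v (HS m) x‖ ≤ 1 / 2 := by
    intro x hx
    have hu := uniqueDiffOn_HS m x hx
    by_cases hxS : x ∈ S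
    · have hxO := hSO hxS
      set DF := fderivWithin ℝ F (HS m) x with hDF
      set DP := fderivWithin ℝ P (HS m) x with hDP
      have e1 : HasFDerivWithinAt F DF (HS m) x :=
        ((hF x hxO).differentiableWithinAt (by simp)).hasFDerivWithinAt
      have e2 : HasFDerivWithinAt P DP (HS m) x :=
        ((hP x hx).differentiableWithinAt (by simp)).hasFDerivWithinAt
      have e3 : HasFDerivWithinAt θ (fderiv ℝ θ x) (HS m) x :=
        ((hθ.differentiable (by simp)) x).hasFDerivAt.hasFDerivWithinAt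
      have e4 := e1.add (e3.smul (e2.sub e1))
      have e5 : HasFDerivWithinAt F'
          (DF + (θ x • (DP - DF) + (fderiv ℝ θ x).smulRight (P x - F x))) (HS m) x := e4
      have e6 : HasFDerivWithinAt G (fderivWithin ℝ G (HS m) (F' x)) (HS m) (F' x) :=
        ((hG _ (hF'm hxO)).differentiableWithinAt (by simp)).hasFDerivWithinAt
      have e7 : HasFDerivWithinAt (G ∘ F') ((fderivWithin ℝ G (HS m) (F' x)).comp
          (DF + (θ x • (DP - DF) + (fderiv ℝ θ x).smulRight (P x - F x)))) (HS m) x :=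
        (e6.comp x (e5.mono hOs) (fun z hz => hOs' (hF'm hz))).mono_of_mem_nhdsWithin
          (ropen_mem hO hxO)
      have e8 : HasFDerivWithinAt v ((fderivWithin ℝ G (HS m) (F' x)).comp
          (DF + (θ x • (DP - DF) + (fderiv ℝ θ x).smulRight (P x - F x))) -
            ContinuousLinearMap.id ℝ (E m)) (HS m) x := by
        refine (e7.sub (hasFDerivWithinAt_id x (HS m))).congr_of_eventuallyEq ?_ ?_
        · filter_upwards [ropen_mem hO hxO] with z hz
          simp [hv, hσO z hz]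
        · simp [hv, hσO x hxO]
      have e9 : (fderivWithin ℝ G (HS m) (F x)).comp DF = ContinuousLinearMap.id ℝ (E m) := by
        have e10 : HasFDerivWithinAt G (fderivWithin ℝ G (HS m) (F x)) (HS m) (F x) :=
          ((hG _ (hFm hxO)).differentiableWithinAt (by simp)).hasFDerivWithinAt
        have e11 : HasFDerivWithinAt (G ∘ F) ((fderivWithin ℝ G (HS m) (F x)).comp DF)
            (HS m) x :=
          (e10.comp x (e1.mono hOs) (fun z hz => hOs' (hFm hz))).mono_of_mem_nhdsWithin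
            (ropen_mem hO hxO)
        have e12 : HasFDerivWithinAt (G ∘ F) (ContinuousLinearMap.id ℝ (E m)) (HS m) x := by
          refine (hasFDerivWithinAt_id x (HS m)).congr_of_eventuallyEq ?_ ?_
          · filter_upwards [ropen_mem hO hxO] with z hz
            simp [hGF z hz]
          · simp [hGF x hxO]
        exact hu.eq e11 e12
      rw [e8.fderivWithin hu, ← e9]
      set A := fderivWithin ℝ G (HS m) (F' x) with hA
      set B := fderivWithin ℝ G (HS m) (F x) with hB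
      set R := θ x • (DP - DF) + (fderiv ℝ θ x).smulRight (P x - F x) with hR
      have f1 : A.comp (DF + R) - B.comp DF = A.comp R + (A - B).comp DF := by
        ext z
        simp
        ring
      rw [f1]
      have f2 : ‖R‖ ≤ (1 + C3) * δ := by
        have g1 : ‖θ x • (DP - DF)‖ ≤ δ := by
          rw [norm_smul, Real.norm_eq_abs, abs_of_nonneg (hθr x).1]
          calc θ x * ‖DP - DF‖ ≤ 1 * ‖DP - DF‖ :=
                mul_le_mul_of_nonneg_right (hθr x).2 (norm_nonneg _)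
            _ ≤ δ := by rw [one_mul]; exact (hclose x hxS).2.le
        have g2 : ‖(fderiv ℝ θ x).smulRight (P x - F x)‖ ≤ C3 * δ := by
          rw [ContinuousLinearMap.norm_smulRight_apply]
          exact mul_le_mul (hC3' x hxS) (hclose x hxS).1.le (norm_nonneg _) hC3
        calc ‖R‖ ≤ _ := norm_add_le _ _
          _ ≤ δ + C3 * δ := add_le_add g1 g2
          _ = (1 + C3) * δ := by ring
      have f3 : ‖A‖ ≤ C1 := hC1' _ (hF'T x hxS)
      have f4 : ‖A - B‖ ≤ 1 / (4 * (C2 + 1)) :=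
        (hδ2' _ (hF'T x hxS) _ (hFT x hxS) ((hF'F x hxS).trans_le hδδ2)).le
      have f5 : ‖DF‖ ≤ C2 := hC2' x hxS
      have f6 : ‖A.comp R‖ ≤ 1 / 4 := by
        calc ‖A.comp R‖ ≤ ‖A‖ * ‖R‖ := ContinuousLinearMap.opNorm_comp_le _ _
          _ ≤ C1 * ((1 + C3) * δ) := mul_le_mul f3 f2 (norm_nonneg _) hC1
          _ ≤ (C1 + 1) * ((1 + C3) * (1 / (4 * (C1 + 1) * (C3 + 1)))) := by gcongr; linarith
          _ = 1 / 4 := by field_simp; ring
      have f7 : ‖(A - B).comp DF‖ ≤ 1 / 4 := by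
        calc ‖(A - B).comp DF‖ ≤ ‖A - B‖ * ‖DF‖ := ContinuousLinearMap.opNorm_comp_le _ _
          _ ≤ 1 / (4 * (C2 + 1)) * C2 := mul_le_mul f4 f5 (norm_nonneg _) (by positivity)
          _ ≤ 1 / (4 * (C2 + 1)) * (C2 + 1) := by gcongr; linarith
          _ = 1 / 4 := by field_simp
      calc ‖A.comp R + (A - B).comp DF‖ ≤ _ := norm_add_le _ _
        _ ≤ 1 / 4 + 1 / 4 := add_le_add f6 f7
        _ = 1 / 2 := by norm_num
    · have e1 : HasFDerivWithinAt v (0 : E m →L[ℝ] E m) (HS m) x := by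
        refine (hasFDerivWithinAt_const (0 : E m) x (HS m)).congr_of_eventuallyEq ?_ ?_
        · filter_upwards [mem_nhdsWithin_of_mem_nhds (hS.isClosed.isOpen_compl.mem_nhds hxS)]
            with z hz
          simp [hv, hσn z hz]
        · simp [hv, hσn x hxS]
      rw [e1.fderivWithin hu, norm_zero]
      norm_num
  have hL : ∀ x ∈ HS m, ∀ y ∈ HS m, ‖v x - v y‖ ≤ 1 / 2 * ‖x - y‖ := by
    intro x hx y hy
    exact (convex_HS m).norm_image_sub_le_of_norm_fderivWithin_le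
      (hvs.differentiableOn (by simp)) hDv hy hx
  have hb : ∀ x ∈ HS m, x (Fin.last (m + 1)) = 0 → v x (Fin.last (m + 1)) = 0 := by
    intro x hx hx0
    by_cases hxS : x ∈ S
    · have hxO := hSO hxS
      have g1 : F x (Fin.last (m + 1)) = 0 := (hbF x hxO).2.2 hx0
      have g2 : P x (Fin.last (m + 1)) = 0 := (hbP x hx).2.2 hx0
      have g3 : F' x (Fin.last (m + 1)) = 0 := by
        simp [hF', g1, g2]
      have g4 : G (F' x) (Fin.last (m + 1)) = 0 := (hbG _ (hF'm hxO)).2.2 g3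
      simp [hv, hσS x hxS, g4, hx0]
    · simp [hv, hσn x hxS]
  have hm : ∀ x ∈ HS m, x + v x ∈ HS m := by
    intro x hx
    have : x + v x = σ x := by simp [hv]
    rw [this]
    exact hσHS x hx
  obtain ⟨τ, hτs, hτm, hτ1, hτ2⟩ := perturb hvs hL hb hm
  refine ⟨σ, τ, hσs, hτs, hσHS, hτm, ?_, ?_, fun x _ hxS => hσn x hxS, ?_, ?_⟩
  · intro x hx
    have h1 := hτ1 x hx
    simpa [hv] using h1
  · intro y hy
    have h1 := hτ2 y hy
    simpa [hv] using h1
  · intro x hx
    by_cases hxS : x ∈ S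
    · rw [hσS x hxS]
      nth_rewrite 2 [← hGF x (hSO hxS)]
      exact hδ3' _ (hF'T x hxS) _ (hFT x hxS) ((hF'F x hxS).trans_le hδδ3)
    · rw [hσn x hxS, sub_self, norm_zero]
      exact hε
  · intro x hx
    rw [hσO x hx]
    exact ⟨hGm (hF'm hx), hFG _ (hF'm hx)⟩

end Pool.Agent.Helper73.BR
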