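import Pool.Agent.Helper73.BR.DefsB
import Pool.Agent.BR.Base
import Pool.Agent.BR.BpInv
import Pool.Agent.BR.DiffL

/-!
# B-ADJ: modification of a parametrisation in one chart
-/

open Set Filter Topology MeasureTheory
open scoped ContDiff

namespace Pool.Agent.Helper73.BR

variable {m : ℕ}

namespace Adj

variable {M : Type} [TopologicalSpace M]

open Classical in
/-- The map `u ∘ σ ∘ u⁻¹` on `u '' O`, extended by the identity. -/
noncomputable def cj (u : E m → M) (O : Set (E m)) (σ : E m → E m) (z : M) : M :=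
  if h : ∃ x ∈ O, u x = z then u (σ h.choose) else z

omit [TopologicalSpace M] in
theorem cj_apply {u : E m → M} {O : Set (E m)} (hinj : InjOn u O) (σ : E m → E m) {x : E m}
    (hx : x ∈ O) : cj u O σ (u x) = u (σ x) := by
  have h : ∃ x' ∈ O, u x' = u x := ⟨x, hx, rfl⟩
  rw [cj, dif_pos h]
  rw [hinj h.choose_spec.1 hx h.choose_spec.2]

omit [TopologicalSpace M] in
theorem cj_off {u : E m → M} {O S : Set (E m)} (hinj : InjOn u O) {σ : E m → E m}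
    (hσS : ∀ x ∈ O, x ∉ S → σ x = x) {z : M} (hz : z ∉ u '' S) : cj u O σ z = z := by
  by_cases h : ∃ x ∈ O, u x = z
  · obtain ⟨x, hx, rfl⟩ := h
    rw [cj_apply hinj σ hx, hσS x hx (fun hS => hz ⟨x, hS, rfl⟩)]
  · rw [cj, dif_neg h]

theorem cj_smM [T2Space M] {X : Set (E m)} (A : Man X M) {u : E m → M} {W O S : Set (E m)}
    (hu : Param A u W) (hO : ROpen X O) (hOW : O ⊆ W) (hS : IsCompact S) (hSO : S ⊆ O)
    {σ : E m → E m} (hσ : ∀ x ∈ O, ContDiffWithinAt ℝ ∞ σ X x) (hσm : MapsTo σ O O)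
    (hσS : ∀ x ∈ O, x ∉ S → σ x = x) : SmM A A (cj u O σ) := by
  have hinj : InjOn u O := hu.2.1.mono hOW
  apply smM_of_param
  intro z
  by_cases hz : z ∈ u '' O
  · obtain ⟨x, hx, rfl⟩ := hz
    refine ⟨u, W, u, W, x, hu, hu, hOW hx, rfl, σ, hσ x hx, ?_⟩
    filter_upwards [hO.mem_nhdsWithin hx] with z hz
    exact ⟨hOW (hσm hz), cj_apply hinj σ hz⟩
  · obtain ⟨l, x, hx, rfl⟩ := A.cover z
    refine ⟨A.pt l, A.U l, A.pt l, A.U l, x, param_chart A l, param_chart A l, hx, rfl, id,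
      contDiffWithinAt_id, ?_⟩
    have hcl : IsClosed (u '' S) :=
      (hS.image_of_continuousOn (hu.continuousOn.mono (hSO.trans hOW))).isClosed
    have h1 : (u '' S)ᶜ ∈ 𝓝 (A.pt l x) :=
      hcl.isOpen_compl.mem_nhds (fun h => hz (image_mono hSO h))
    rw [A.nhds_pt l x hx] at h1
    filter_upwards [(A.ropen l).mem_nhdsWithin hx, h1] with z hz1 hz2
    exact ⟨hz1, cj_off hinj hσS hz2⟩

/-- Conjugating a compactly supported diffeomorphism of `O` by a parametrisation. -/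
theorem conj [T2Space M] {X : Set (E m)} (A : Man X M) {u : E m → M} {W O S : Set (E m)}
    (hu : Param A u W) (hO : ROpen X O) (hOW : O ⊆ W) (hS : IsCompact S) (hSO : S ⊆ O)
    {σ τ : E m → E m} (hσ : ∀ x ∈ O, ContDiffWithinAt ℝ ∞ σ X x)
    (hτ : ∀ x ∈ O, ContDiffWithinAt ℝ ∞ τ X x) (hσm : MapsTo σ O O) (hτm : MapsTo τ O O)
    (hτσ : ∀ x ∈ O, τ (σ x) = x) (hστ : ∀ x ∈ O, σ (τ x) = x)
    (hσS : ∀ x ∈ O, x ∉ S → σ x = x) :
    ∃ ρ : M ≃ M, DM A A ρ ∧ (∀ x ∈ O, ρ (u x) = u (σ x)) ∧ ∀ z ∉ u '' S, ρ z = z := by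
  have hinj : InjOn u O := hu.2.1.mono hOW
  have hτS : ∀ x ∈ O, x ∉ S → τ x = x := by
    intro x hx hxS
    have h1 := hτσ x hx
    rwa [hσS x hx hxS] at h1
  have key : ∀ (α β : E m → E m), MapsTo α O O → (∀ x ∈ O, β (α x) = x) →
      ∀ z, cj u O β (cj u O α z) = z := by
    intro α β hα hβα z
    by_cases h : ∃ x ∈ O, u x = z
    · obtain ⟨x, hx, rfl⟩ := h
      rw [cj_apply hinj α hx, cj_apply hinj β (hα hx), hβα x hx]
    · have h1 : cj u O α z = z := by rw [cj, dif_neg h]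
      have h2 : cj u O β z = z := by rw [cj, dif_neg h]
      rw [h1, h2]
  refine ⟨⟨cj u O σ, cj u O τ, key σ τ hσm hτσ, key τ σ hτm hστ⟩, ⟨?_, ?_⟩, ?_, ?_⟩
  · exact cj_smM A hu hO hOW hS hSO hσ hσm hσS
  · exact cj_smM A hu hO hOW hS hSO hτ hτm hτS
  · intro x hx
    exact cj_apply hinj σ hx
  · intro z hz
    exact cj_off hinj hσS hz

omit [TopologicalSpace M] in
theorem nrel_ropen {Q : QFam m} {nice : (E m → E m) → E m → Prop} (hN : IsNice Q nice)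
    {u c : E m → M} {V O : Set (E m)} (hO : ROpen (HS m) O) :
    ROpen (HS m) {x | x ∈ O ∧ NRel nice u c V x} := by
  rw [ropen_iff]
  refine ⟨fun x hx => hO.subset hx.1, ?_⟩
  rintro x ⟨hx, F, hF, hev⟩
  have h1 := hN.spread F x hF
  have h2 := eventually_eventually_nhdsWithin.2 hev
  filter_upwards [hO.mem_nhdsWithin hx, h1, h2] with z hz1 hz2 hz3
  exact ⟨hz1, F, hz2, hz3⟩

/-- a uniform version of openness of `D` around the diagonal -/
theorem exists_eps {X : Set (E m)} {A : Man X M} {u : E m → M} {W S : Set (E m)}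
    (hu : Param A u W) (hS : IsCompact S) (hSW : S ⊆ W) (hW : W ⊆ X) {D : Set (M × M)}
    (hD : IsOpen D) (hd : ∀ z, (z, z) ∈ D) :
    ∃ ε : ℝ, 0 < ε ∧ ∀ x ∈ S, ∀ x' ∈ W, ‖x' - x‖ < ε → (u x, u x') ∈ D := by
  have h1 : ∀ x ∈ S, ∃ δ > 0, ∀ y ∈ Metric.ball x δ ∩ X, ∀ z ∈ Metric.ball x δ ∩ X,
      (u y, u z) ∈ D := by
    intro x hx
    have h2 : Tendsto u (𝓝[X] x) (𝓝 (u x)) := by
      rw [hu.2.2.1 x (hSW hx)]
      exact tendsto_map
    have h3 : Tendsto (fun p : E m × E m => (u p.1, u p.2)) (𝓝[X] x ×ˢ 𝓝[X] x)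
        (𝓝 (u x, u x)) := by
      rw [nhds_prod_eq]
      exact h2.prodMap h2
    have h4 : (fun p : E m × E m => (u p.1, u p.2)) ⁻¹' D ∈ 𝓝[X] x ×ˢ 𝓝[X] x :=
      h3 (hD.mem_nhds (hd (u x)))
    obtain ⟨t, ht, ht2⟩ := Filter.mem_prod_self_iff.1 h4
    rw [Metric.mem_nhdsWithin_iff] at ht
    obtain ⟨δ, hδ, hδt⟩ := ht
    exact ⟨δ, hδ, fun y hy z hz => ht2 (mk_mem_prod (hδt hy) (hδt hz))⟩
  choose! δ hδ hδD using h1
  obtain ⟨ε, hε, hLeb⟩ := lebesgue_number_lemma_of_metric (c := fun x : S => Metric.ball x.1 (δ x.1))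
    hS (fun _ => Metric.isOpen_ball)
    (fun x hx => mem_iUnion.2 ⟨⟨x, hx⟩, Metric.mem_ball_self (hδ x hx)⟩)
  refine ⟨ε, hε, fun x hx x' hx' hlt => ?_⟩
  obtain ⟨i, hi⟩ := hLeb x hx
  refine hδD i.1 i.2 x ⟨hi (Metric.mem_ball_self hε), hW (hSW hx)⟩ x' ⟨hi ?_, hW hx'⟩
  rw [Metric.mem_ball, dist_eq_norm]
  exact hlt

theorem convexHS {a b : E m} (ha : a ∈ HS m) (hb : b ∈ HS m) {t : ℝ} (h0 : 0 ≤ t) (h1 : t ≤ 1) :
    (1 - t) • a + t • b ∈ HS m := by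
  have ha' : 0 ≤ a (Fin.last (m + 1)) := ha
  have hb' : 0 ≤ b (Fin.last (m + 1)) := hb
  have h2 : 0 ≤ 1 - t := by linarith
  show 0 ≤ ((1 - t) • a + t • b) (Fin.last (m + 1))
  rw [Pi.add_apply, Pi.smul_apply, Pi.smul_apply, smul_eq_mul, smul_eq_mul]
  positivity

/-- interpolation with the identity extends a germ of a smooth map to the half space -/
theorem extend (Q : QFam m) {F : E m → E m} {O S : Set (E m)} (hO : ROpen (HS m) O)
    (hF : ∀ x ∈ O, ContDiffWithinAt ℝ ∞ F (HS m) x) (hbp : BP F O) (hS : IsCompact S)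
    (hSO : S ⊆ O) : ∃ f : E m → E m, ContDiffOn ℝ ∞ f (HS m) ∧ BP f (HS m) ∧
      ∀ x ∈ S, f =ᶠ[𝓝 x] F := by
  obtain ⟨V3, hV3, hOV⟩ := hO
  have hdis : Disjoint V3ᶜ S := by
    rw [disjoint_compl_left_iff_subset]
    intro x hx
    have := hSO hx
    rw [hOV] at this
    exact this.1
  obtain ⟨j, hja, hjb⟩ := Q.sep V3ᶜ S hV3.isClosed_compl hS hdis
  have hO' : ∀ x, x ∈ O ↔ x ∈ V3 ∧ x ∈ HS m := by
    intro x
    rw [hOV]
    rfl
  refine ⟨fun x => (1 - Q.ψ j x) • x + Q.ψ j x • F x, ?_, ?_, ?_⟩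
  · intro x hx
    by_cases hxV : x ∈ V3
    · have hxO : x ∈ O := (hO' x).2 ⟨hxV, hx⟩
      have h1 : ContDiffWithinAt ℝ ∞ (Q.ψ j) (HS m) x := (Q.ψ_smooth j).contDiffWithinAt
      exact ((contDiffWithinAt_const.sub h1).smul contDiffWithinAt_id).add (h1.smul (hF x hxO))
    · have h2 : (fun x => (1 - Q.ψ j x) • x + Q.ψ j x • F x) =ᶠ[𝓝 x] id := by
        filter_upwards [hja x hxV] with y hy
        simp [hy]
      exact contDiffWithinAt_id.congr_of_eventuallyEq (h2.filter_mono nhdsWithin_le_nhds)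
        h2.self_of_nhds
  · intro x hx
    by_cases hxV : x ∈ V3
    · have hxO : x ∈ O := (hO' x).2 ⟨hxV, hx⟩
      obtain ⟨h1, h2⟩ := hbp x hxO
      have h3 := Q.ψ_range j x
      refine ⟨convexHS hx h1 h3.1 h3.2, ?_⟩
      have hx' : 0 ≤ x (Fin.last (m + 1)) := hx
      have h1' : 0 ≤ F x (Fin.last (m + 1)) := h1
      have h4 : ((1 - Q.ψ j x) • x + Q.ψ j x • F x) (Fin.last (m + 1)) =
          (1 - Q.ψ j x) * x (Fin.last (m + 1)) + Q.ψ j x * F x (Fin.last (m + 1)) := by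
        rw [Pi.add_apply, Pi.smul_apply, Pi.smul_apply, smul_eq_mul, smul_eq_mul]
      show ((1 - Q.ψ j x) • x + Q.ψ j x • F x) (Fin.last (m + 1)) = 0 ↔ _
      rw [h4]
      constructor
      · intro h5
        by_contra h6
        have h7 : 0 < x (Fin.last (m + 1)) := lt_of_le_of_ne hx' (Ne.symm h6)
        have h8 : 0 < F x (Fin.last (m + 1)) :=
          lt_of_le_of_ne h1' (fun h => h6 (h2.1 h.symm))
        have h9 : 0 ≤ (1 - Q.ψ j x) * x (Fin.last (m + 1)) :=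
          mul_nonneg (by linarith [h3.2]) hx'
        have h10 : 0 ≤ Q.ψ j x * F x (Fin.last (m + 1)) := mul_nonneg h3.1 h1'
        have h11 : (1 - Q.ψ j x) * x (Fin.last (m + 1)) = 0 := by linarith
        have h12 : Q.ψ j x * F x (Fin.last (m + 1)) = 0 := by linarith
        rcases mul_eq_zero.1 h11 with h | h
        · rcases mul_eq_zero.1 h12 with h' | h'
          · linarith
          · exact h8.ne' h'
        · exact h7.ne' h
      · intro h5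
        rw [h5, h2.2 h5]
        ring
    · have h0 : Q.ψ j x = 0 := (hja x hxV).self_of_nhds
      have h4 : (fun x => (1 - Q.ψ j x) • x + Q.ψ j x • F x) x = x := by simp [h0]
      rw [h4]
      exact ⟨hx, Iff.rfl⟩
  · intro x hx
    filter_upwards [hjb x hx] with y hy
    simp [hy]

end Adj

section
variable {M N : Type} [TopologicalSpace M] [TopologicalSpace N]

open Adj in
theorem adj (Q : QFam m) [T2Space M] (A : Man (HS m) M) {nice : (E m → E m) → E m → Prop}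
    (hN : IsNice Q nice) {u c : E m → M} {W V : Set (E m)} (hu : Param A u W) (hc : Param A c V)
    {K : Set (E m)} (hK : IsCompact K) (hKW : K ⊆ W) (hKV : ∀ x ∈ K, u x ∈ c '' V)
    {C : Set M} (hC : IsClosed C) (hn : ∀ x ∈ K, u x ∈ C → NRel nice u c V x)
    {D : Set (M × M)} (hD : IsOpen D) (hd : ∀ z, (z, z) ∈ D) :
    ∃ ρ : M ≃ M, DM A A ρ ∧ (∀ z ∈ C, ∀ᶠ w in 𝓝 z, ρ w = w) ∧ (∀ z, (z, ρ z) ∈ D) ∧
      ∀ x ∈ K, NRel nice (ρ ∘ u) c V x := by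
  obtain ⟨F, G, hWc, hVc, hF, hG, hGF, hFG⟩ := hu.exists_transition hc
  obtain ⟨Wc, hWcdef⟩ : ∃ Wc, Wc = {x ∈ W | u x ∈ c '' V} := ⟨_, rfl⟩
  obtain ⟨Vc, hVcdef⟩ : ∃ Vc, Vc = {y ∈ V | c y ∈ u '' W} := ⟨_, rfl⟩
  rw [← hWcdef] at hWc
  rw [← hVcdef] at hVc
  have hWcm : ∀ x, x ∈ Wc ↔ x ∈ W ∧ u x ∈ c '' V := by
    intro x; rw [hWcdef]; rfl
  have hVcm : ∀ x, x ∈ Vc ↔ x ∈ V ∧ c x ∈ u '' W := by
    intro x; rw [hVcdef]; rfl
  have hWcW : Wc ⊆ W := fun x hx => ((hWcm x).1 hx).1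
  have hFs : ∀ x ∈ Wc, ContDiffWithinAt ℝ ∞ F (HS m) x := fun x hx =>
    (hF x ((hWcm x).1 hx).1 ((hWcm x).1 hx).2).1
  have hGs : ∀ y ∈ Vc, ContDiffWithinAt ℝ ∞ G (HS m) y := fun y hy =>
    (hG y ((hVcm y).1 hy).1 ((hVcm y).1 hy).2).1
  have hFV : ∀ x ∈ Wc, F x ∈ V := fun x hx => (hF x ((hWcm x).1 hx).1 ((hWcm x).1 hx).2).2.1
  have hcF : ∀ x ∈ Wc, c (F x) = u x := fun x hx =>
    (hF x ((hWcm x).1 hx).1 ((hWcm x).1 hx).2).2.2
  have hFm : MapsTo F Wc Vc := by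
    intro x hx
    rw [hVcm]
    exact ⟨hFV x hx, by rw [hcF x hx]; exact ⟨x, hWcW hx, rfl⟩⟩
  have hGm : MapsTo G Vc Wc := by
    intro y hy
    have h1 := hG y ((hVcm y).1 hy).1 ((hVcm y).1 hy).2
    rw [hWcm]
    exact ⟨h1.2.1, by rw [h1.2.2]; exact ⟨y, ((hVcm y).1 hy).1, rfl⟩⟩
  have hGF' : ∀ x ∈ Wc, G (F x) = x := fun x hx => hGF x ((hWcm x).1 hx).1 ((hWcm x).1 hx).2
  have hFG' : ∀ y ∈ Vc, F (G y) = y := fun y hy => hFG y ((hVcm y).1 hy).1 ((hVcm y).1 hy).2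
  have hbp : BP F Wc := bp_of_inv hWc hVc hFs hGs hFm hGm hGF' hFG'
  have hKWc : K ⊆ Wc := fun x hx => (hWcm x).2 ⟨hKW hx, hKV x hx⟩
  have hWcH : Wc ⊆ HS m := hWc.subset
  have hucont : ∀ x ∈ W, Tendsto u (𝓝[HS m] x) (𝓝 (u x)) := by
    intro x hx
    rw [hu.2.2.1 x hx]
    exact tendsto_map
  -- the relatively open set where the germ is nice
  obtain ⟨N0, hN0, hNn0⟩ := nrel_ropen (u := u) (c := c) (V := V) hN hWc
  have hNm : ∀ x ∈ Wc, (x ∈ N0 ↔ NRel nice u c V x) := by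
    intro x hx
    constructor
    · intro h
      have h1 : x ∈ N0 ∩ HS m := ⟨h, hWcH hx⟩
      rw [← hNn0] at h1
      exact h1.2
    · intro h
      have h1 : x ∈ {x | x ∈ Wc ∧ NRel nice u c V x} := ⟨hx, h⟩
      rw [hNn0] at h1
      exact h1.1
  -- first cut-off
  have hA0 : IsClosed (K ∩ u ⁻¹' C) :=
    (hu.continuousOn.mono hKW).preimage_isClosed_of_isClosed hK.isClosed hC
  have hB0 : IsCompact (K \ N0) := hK.diff hN0
  have hdis1 : Disjoint (K ∩ u ⁻¹' C) (K \ N0) := by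
    rw [Set.disjoint_left]
    rintro x ⟨hxK, hxC⟩ ⟨_, hxN⟩
    exact hxN ((hNm x (hKWc hxK)).2 (hn x hxK hxC))
  obtain ⟨j1, hj1a, hj1b⟩ := Q.sep _ _ hA0 hB0 hdis1
  -- the region avoiding `C`
  have hOA : IsOpen {x | ∀ᶠ y in 𝓝 x, Q.ψ j1 y = 0} := isOpen_setOfPred_eventually_nhds
  have hV1 : ROpen (HS m) {x | x ∈ Wc ∧ (u x ∉ C ∨ ∀ᶠ y in 𝓝 x, Q.ψ j1 y = 0)} := by
    rw [ropen_iff]
    refine ⟨fun x hx => hWcH hx.1, ?_⟩
    rintro x ⟨hx, hx2⟩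
    rcases hx2 with hx2 | hx2
    · have h1 := (hucont x (hWcW hx)).eventually (hC.isOpen_compl.mem_nhds hx2)
      filter_upwards [hWc.mem_nhdsWithin hx, h1] with z hz1 hz2
      exact ⟨hz1, Or.inl hz2⟩
    · have h1 := mem_nhdsWithin_of_mem_nhds (t := HS m) (hOA.mem_nhds hx2)
      filter_upwards [hWc.mem_nhdsWithin hx, h1] with z hz1 hz2
      exact ⟨hz1, Or.inr hz2⟩
  obtain ⟨V0, hV0, hV10⟩ := hV1
  have hV0m : ∀ x, x ∈ HS m → x ∈ V0 → x ∈ Wc ∧ (u x ∉ C ∨ ∀ᶠ y in 𝓝 x, Q.ψ j1 y = 0) := by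
    intro x h1 h2
    have h3 : x ∈ V0 ∩ HS m := ⟨h2, h1⟩
    rw [← hV10] at h3
    exact h3
  have hKV0 : K ⊆ V0 := by
    intro x hx
    have h3 : x ∈ {x | x ∈ Wc ∧ (u x ∉ C ∨ ∀ᶠ y in 𝓝 x, Q.ψ j1 y = 0)} := by
      refine ⟨hKWc hx, ?_⟩
      by_cases hxC : u x ∈ C
      · exact Or.inr (hj1a x ⟨hx, hxC⟩)
      · exact Or.inl hxC
    rw [hV10] at h3
    exact h3.1
  -- second cut-off
  obtain ⟨R, hR⟩ := hK.isBounded.subset_ball (0 : E m)
  have hdis2 : Disjoint (V0ᶜ ∪ (Metric.ball (0 : E m) R)ᶜ) K := by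
    rw [Set.disjoint_left]
    rintro x (hx | hx) hxK
    · exact hx (hKV0 hxK)
    · exact hx (hR hxK)
  obtain ⟨j2, hj2a, hj2b⟩ := Q.sep _ _
    (hV0.isClosed_compl.union Metric.isOpen_ball.isClosed_compl) hK hdis2
  -- the support
  obtain ⟨S, hSdef⟩ : ∃ S, S = closure {x | Q.ψ j2 x ≠ 0} ∩ closure {x | Q.ψ j1 x ≠ 0} ∩ HS m :=
    ⟨_, rfl⟩
  have hHSc : IsClosed (HS m) := isClosed_le continuous_const (continuous_apply _)
  have hcl2 : closure {x | Q.ψ j2 x ≠ 0} ⊆ V0 ∩ Metric.ball (0 : E m) R := by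
    intro x hx
    by_contra hcon
    have h1 : x ∈ V0ᶜ ∪ (Metric.ball (0 : E m) R)ᶜ := by
      by_cases h2 : x ∈ V0
      · right
        intro h3
        exact hcon ⟨h2, h3⟩
      · exact Or.inl h2
    have h2 := hj2a x h1
    rw [mem_closure_iff_frequently] at hx
    exact hx (h2.mono (fun y hy => by simpa using hy))
  have hS : IsCompact S := by
    rw [hSdef]
    refine Metric.isCompact_of_isClosed_isBounded ((isClosed_closure.inter isClosed_closure).inter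
      hHSc) ?_
    exact (Metric.isBounded_ball (x := (0 : E m)) (r := R)).subset
      (fun x hx => (hcl2 hx.1.1).2)
  have hSH : S ⊆ HS m := by
    intro x hx
    rw [hSdef] at hx
    exact hx.2
  have hSV : ∀ x ∈ S, x ∈ Wc ∧ u x ∉ C := by
    intro x hx
    have h0 := hx
    rw [hSdef] at h0
    have h1 := hV0m x h0.2 (hcl2 h0.1.1).1
    refine ⟨h1.1, ?_⟩
    rcases h1.2 with h2 | h2
    · exact h2
    · exfalso
      have h3 := h0.1.2
      rw [mem_closure_iff_frequently] at h3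
      exact h3 (h2.mono (fun y hy => by simpa using hy))
  have hSWc : S ⊆ Wc := fun x hx => (hSV x hx).1
  -- epsilon
  obtain ⟨ε, hε, hεD⟩ := exists_eps (hu.mono hWc hWcW) hS hSWc hWcH hD hd
  -- theta
  have hθ : ContDiff ℝ ∞ (fun x => Q.ψ j2 x * Q.ψ j1 x) := (Q.ψ_smooth j2).mul (Q.ψ_smooth j1)
  have hθr : ∀ x, 0 ≤ Q.ψ j2 x * Q.ψ j1 x ∧ Q.ψ j2 x * Q.ψ j1 x ≤ 1 := by
    intro x
    have h1 := Q.ψ_range j1 x
    have h2 := Q.ψ_range j2 x
    exact ⟨mul_nonneg h2.1 h1.1, mul_le_one₀ h2.2 h1.1 h1.2⟩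
  have hθS : ∀ x ∈ HS m, x ∉ S → Q.ψ j2 x * Q.ψ j1 x = 0 := by
    intro x hx hxS
    by_contra hcon
    apply hxS
    rw [hSdef]
    exact ⟨⟨subset_closure (left_ne_zero_of_mul hcon), subset_closure (right_ne_zero_of_mul hcon)⟩,
      hx⟩
  obtain ⟨δ, hδ, hdiff⟩ := diff_lemma hWc hVc hFs hGs hFm hGm hGF' hFG' hS hSWc hθ hθr hθS hε
  -- the approximation
  obtain ⟨f, hfs, hfbp, hfF⟩ := extend Q hWc hFs hbp hS hSWc
  obtain ⟨r, hr⟩ := hS.isBounded.subset_closedBall (0 : E m)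
  obtain ⟨n, hn'⟩ := Q.dense f hfs hfbp r δ hδ
  have happ : ∀ x ∈ S, ‖Q.q n x - F x‖ < δ ∧
      ‖fderivWithin ℝ (Q.q n) (HS m) x - fderivWithin ℝ F (HS m) x‖ < δ := by
    intro x hx
    have h1 := hn' x (hSH hx) (by simpa using hr hx)
    have h2 := hfF x hx
    rw [h2.self_of_nhds] at h1
    have h3 : fderivWithin ℝ f (HS m) x = fderivWithin ℝ F (HS m) x :=
      (h2.filter_mono nhdsWithin_le_nhds).fderivWithin_eq h2.self_of_nhds
    rw [h3] at h1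
    exact h1
  obtain ⟨σ, τ, hσs, hτs, hσm, hτm, hτσ, hστ, hσS, hσε, hσF⟩ :=
    hdiff (Q.q n) (Q.q_smooth n) (Q.q_bp n) happ
  have hτO : MapsTo τ Wc Wc := by
    intro y hy
    by_cases h1 : τ y ∈ S
    · exact hSWc h1
    · have h2 := hσS (τ y) (hτm (hWcH hy)) h1
      rw [hστ y (hWcH hy)] at h2
      rwa [← h2]
  obtain ⟨ρ, hρd, hρu, hρS⟩ := conj A hu hWc hWcW hS hSWc (fun x hx => hσs x (hWcH hx))
    (fun x hx => hτs x (hWcH hx)) (fun x hx => (hσF x hx).1) hτO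
    (fun x hx => hτσ x (hWcH hx)) (fun x hx => hστ x (hWcH hx))
    (fun x hx hxS => hσS x (hWcH hx) hxS)
  have huS : IsClosed (u '' S) :=
    (hS.image_of_continuousOn (hu.continuousOn.mono (hSWc.trans hWcW))).isClosed
  refine ⟨ρ, hρd, ?_, ?_, ?_⟩
  · intro z hz
    have h1 : z ∈ (u '' S)ᶜ := by
      rintro ⟨x, hx, rfl⟩
      exact (hSV x hx).2 hz
    filter_upwards [huS.isOpen_compl.mem_nhds h1] with w hw
    exact hρS w hw
  · intro z
    by_cases hz : z ∈ u '' S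
    · obtain ⟨x, hx, rfl⟩ := hz
      rw [hρu x (hSWc hx)]
      exact hεD x hx (σ x) (hσF x (hSWc hx)).1 (hσε x (hSH hx))
    · rw [hρS z hz]
      exact hd z
  · intro x hx
    have hxWc := hKWc hx
    have hxH := hWcH hxWc
    have h2one : ∀ᶠ z in 𝓝[HS m] x, Q.ψ j2 z = 1 := nhdsWithin_le_nhds (hj2b x hx)
    have hmain : ∀ᶠ z in 𝓝[HS m] x, F z + Q.ψ j1 z • (Q.q n z - F z) ∈ V ∧
        (ρ ∘ u) z = c (F z + Q.ψ j1 z • (Q.q n z - F z)) := by
      filter_upwards [hWc.mem_nhdsWithin hxWc, h2one] with z hz1 hz2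
      have h3 := (hσF z hz1).2
      rw [hz2, one_mul] at h3
      rw [← h3, Function.comp_apply, hρu z hz1]
      exact ⟨hFV _ (hσF z hz1).1, (hcF _ (hσF z hz1).1).symm⟩
    by_cases hxN : x ∈ N0
    · obtain ⟨F0, hF0, hF0ev⟩ := (hNm x hxWc).1 hxN
      have hFF0 : F =ᶠ[𝓝[HS m] x] F0 := by
        filter_upwards [hWc.mem_nhdsWithin hxWc, hF0ev] with z hz1 hz2
        apply hc.2.1 (hFV z hz1) hz2.1
        rw [hcF z hz1]
        exact hz2.2
      refine ⟨fun z => F z + Q.ψ j1 z • (Q.q n z - F z), ?_, hmain⟩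
      refine hN.congr _ _ x (hN.interp F0 x hF0 j1 n) ?_
      filter_upwards [hFF0] with z hz
      rw [hz, smul_sub, sub_smul, one_smul]
      abel
    · refine ⟨fun z => F z + Q.ψ j1 z • (Q.q n z - F z), ?_, hmain⟩
      refine hN.congr _ _ x (hN.base n x hxH) ?_
      have h1 : ∀ᶠ z in 𝓝[HS m] x, Q.ψ j1 z = 1 := nhdsWithin_le_nhds (hj1b x ⟨hx, hxN⟩)
      filter_upwards [h1] with z hz
      rw [hz, one_smul]
      abel

end

end Pool.Agent.Helper73.BR
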