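import Pool.Agent.Helper73.BR.DefsA

/-!
# BR-A1d: gluing diffeomorphisms along the tree of balls (MP_70674c_lc)
-/

open Set Filter Topology MeasureTheory
open scoped ContDiff

namespace Pool.Agent.Helper73.BR

variable {m : ℕ}

namespace GlueK

/-- the inverse of `nu m i`. -/
noncomputable def mu (m : ℕ) (i : ℕ) (x : E m) : E m :=
  fun j => (x j - (if j = 0 then (1 / 8 : ℝ) ^ i / 2 else 0)) / ((1 / 8 : ℝ) ^ i / 8)

theorem e8 (i : ℕ) : (0 : ℝ) < (1 / 8 : ℝ) ^ i := by positivity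

theorem mu_nu (i : ℕ) (y : E m) : mu m i (nu m i y) = y := by
  funext j
  have := e8 i
  simp only [mu, nu]
  field_simp
  ring

theorem nu_mu (i : ℕ) (x : E m) : nu m i (mu m i x) = x := by
  funext j
  have := e8 i
  simp only [mu, nu]
  field_simp
  ring

theorem contDiff_nu (i : ℕ) : ContDiff ℝ ∞ (nu m i) := by
  unfold nu
  fun_prop

theorem contDiff_mu (i : ℕ) : ContDiff ℝ ∞ (mu m i) := by
  unfold mu
  fun_prop

theorem nu_zero_coord (i : ℕ) (y : E m) :
    nu m i y 0 = (1 / 8 : ℝ) ^ i / 2 + (1 / 8 : ℝ) ^ i / 8 * y 0 := by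
  simp [nu]

theorem norm_nu_le {i : ℕ} {y : E m} (hy : ‖y‖ ≤ 5 / 4) :
    ‖nu m i y‖ ≤ (1 / 8 : ℝ) ^ i * (21 / 32) := by
  have h8 := e8 i
  rw [pi_norm_le_iff_of_nonneg (by positivity)]
  intro j
  have h1 := (norm_le_pi_norm y j).trans hy
  rw [Real.norm_eq_abs, abs_le] at h1
  rw [Real.norm_eq_abs, abs_le]
  simp only [nu]
  have h2 : 0 ≤ (if j = 0 then (1 / 8 : ℝ) ^ i / 2 else 0) := by split_ifs <;> positivity
  have h3 : (if j = 0 then (1 / 8 : ℝ) ^ i / 2 else 0) ≤ (1 / 8 : ℝ) ^ i / 2 := by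
    split_ifs
    · exact le_rfl
    · positivity
  constructor <;> nlinarith

theorem nu_coord_ge {i : ℕ} {y : E m} (hy : ‖y‖ ≤ 5 / 4) :
    (1 / 8 : ℝ) ^ i * (11 / 32) ≤ nu m i y 0 := by
  have h8 := e8 i
  have h1 := (norm_le_pi_norm y 0).trans hy
  rw [Real.norm_eq_abs, abs_le] at h1
  rw [nu_zero_coord]
  nlinarith

theorem nu_ne_zero {i : ℕ} {y : E m} (hy : ‖y‖ ≤ 5 / 4) : nu m i y ≠ 0 := by
  intro h
  have h1 := nu_coord_ge (i := i) hy
  rw [h] at h1
  have h8 := e8 i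
  simp only [Pi.zero_apply] at h1
  nlinarith

theorem nu_idx_le {i j : ℕ} {y z : E m} (hy : ‖y‖ ≤ 5 / 4) (hz : ‖z‖ ≤ 5 / 4)
    (h : nu m i y = nu m j z) : j ≤ i := by
  by_contra hij
  push Not at hij
  have h1 := nu_coord_ge (i := i) hy
  have h2 := norm_nu_le (i := j) hz
  have h3 : (1 / 8 : ℝ) ^ j ≤ (1 / 8 : ℝ) ^ (i + 1) :=
    pow_le_pow_of_le_one (by norm_num) (by norm_num) hij
  rw [pow_succ] at h3
  have h4 := norm_le_pi_norm (nu m i y) 0
  rw [h] at h4 h1
  have h5 := le_abs_self (nu m j z 0)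
  rw [Real.norm_eq_abs] at h4
  have h8 := e8 i
  nlinarith

theorem nu_inj {i j : ℕ} {y z : E m} (hy : ‖y‖ ≤ 5 / 4) (hz : ‖z‖ ≤ 5 / 4)
    (h : nu m i y = nu m j z) : i = j ∧ y = z := by
  have e : i = j := le_antisymm (nu_idx_le hz hy h.symm) (nu_idx_le hy hz h)
  subst e
  refine ⟨rfl, ?_⟩
  have := congrArg (mu m i) h
  rwa [mu_nu, mu_nu] at this

theorem norm_nu_lt {i : ℕ} {y : E m} (hy : ‖y‖ ≤ 5 / 4) : ‖nu m i y‖ < 3 / 4 := by
  have h1 := norm_nu_le (i := i) hy
  have h2 : (1 / 8 : ℝ) ^ i ≤ 1 := pow_le_one₀ (by norm_num) (by norm_num)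
  have h8 := e8 i
  nlinarith

/-- being outside of closed sets in the balls is an open condition away from `0`. -/
theorem ev_gen (C : ℕ → Set (E m)) (hC : ∀ i, IsClosed (C i)) (hC1 : ∀ i, ∀ y ∈ C i, ‖y‖ ≤ 1)
    {x : E m} (hx : x ≠ 0) (h : ∀ i, ∀ y ∈ C i, x ≠ nu m i y) :
    ∀ᶠ x' in 𝓝 x, ∀ i, ∀ y ∈ C i, x' ≠ nu m i y := by
  have hx0 : 0 < ‖x‖ := norm_pos_iff.2 hx
  obtain ⟨N, hN⟩ := exists_pow_lt_of_lt_one (half_pos hx0) (show (1 / 8 : ℝ) < 1 by norm_num)
  have e1 : ∀ᶠ x' in 𝓝 x, ‖x‖ / 2 < ‖x'‖ :=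
    continuous_norm.continuousAt.eventually (lt_mem_nhds (half_lt_self hx0))
  have e2 : ∀ᶠ x' in 𝓝 x, ∀ i ∈ Finset.range N, mu m i x' ∉ C i := by
    rw [Filter.eventually_all_finset]
    intro i _
    have hc : Continuous (mu m i) := (contDiff_mu i).continuous
    refine hc.continuousAt.eventually ((hC i).isOpen_compl.mem_nhds ?_)
    intro hm
    exact h i _ hm (nu_mu i x).symm
  filter_upwards [e1, e2] with x' h1 h2 i y hy hxy
  by_cases hi : i < N
  · apply h2 i (Finset.mem_range.2 hi)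
    rw [hxy, mu_nu]
    exact hy
  · push Not at hi
    have h3 := norm_nu_le (i := i) (y := y) ((hC1 i y hy).trans (by norm_num))
    rw [← hxy] at h3
    have h4 : (1 / 8 : ℝ) ^ i ≤ (1 / 8 : ℝ) ^ N :=
      pow_le_pow_of_le_one (by norm_num) (by norm_num) hi
    have h8 := e8 i
    nlinarith

section Kn
variable {σ : Type} (al : σ → Prop) (ch : σ → ℕ → σ)

theorem Kn_le_one : ∀ (d : ℕ) (s : σ) (x : E m), x ∈ Kn m al ch d s → ‖x‖ ≤ 1
  | 0, s, x, h => h.2
  | d + 1, s, x, h => by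
    obtain ⟨-, rfl | ⟨i, y, hy, rfl⟩⟩ := h
    · simp
    · have := norm_nu_lt (i := i) (y := y) ((Kn_le_one d _ y hy).trans (by norm_num))
      linarith

theorem Kn_al (d : ℕ) (s : σ) (x : E m) (h : x ∈ Kn m al ch d s) : al s := by
  cases d with
  | zero => exact h.1
  | succ d => exact h.1

theorem Kn_succ_sub : ∀ (d : ℕ) (s : σ), (Kn m al ch (d + 1) s : Set (E m)) ⊆ Kn m al ch d s
  | 0, s => fun x h => ⟨h.1, Kn_le_one al ch 1 s x h⟩
  | d + 1, s => by
    rintro x ⟨h, rfl | ⟨i, y, hy, rfl⟩⟩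
    · exact ⟨h, Or.inl rfl⟩
    · exact ⟨h, Or.inr ⟨i, y, Kn_succ_sub d _ hy, rfl⟩⟩

theorem Kn_anti {d d' : ℕ} (h : d ≤ d') (s : σ) :
    (Kn m al ch d' s : Set (E m)) ⊆ Kn m al ch d s := by
  induction d', h using Nat.le_induction with
  | base => exact Subset.rfl
  | succ n _ ih => exact (Kn_succ_sub al ch n s).trans ih

theorem isClosed_Kn : ∀ (d : ℕ) (s : σ), IsClosed (Kn m al ch d s : Set (E m))
  | 0, s => by
    by_cases h : al s
    · have : (Kn m al ch 0 s : Set (E m)) = Metric.closedBall 0 1 := by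
        ext x
        simp [Kn, h]
      rw [this]
      exact Metric.isClosed_closedBall
    · have : (Kn m al ch 0 s : Set (E m)) = ∅ := by
        ext x
        simp [Kn, h]
      rw [this]
      exact isClosed_empty
  | d + 1, s => by
    rw [← isOpen_compl_iff, isOpen_iff_mem_nhds]
    intro x hx
    by_cases h : al s
    · have hx0 : x ≠ 0 := fun h0 => hx ⟨h, Or.inl h0⟩
      have hx1 : ∀ i, ∀ y ∈ Kn m al ch d (ch s i), x ≠ nu m i y :=
        fun i y hy hxy => hx ⟨h, Or.inr ⟨i, y, hy, hxy⟩⟩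
      have e0 : ∀ᶠ x' in 𝓝 x, x' ≠ 0 := isOpen_ne.mem_nhds hx0
      filter_upwards [e0, ev_gen (fun i => Kn m al ch d (ch s i)) (fun i => isClosed_Kn d _)
        (fun i y hy => Kn_le_one al ch d _ y hy) hx0 hx1] with x' h0 h1
      rintro ⟨-, h2 | ⟨i, y, hy, hxy⟩⟩
      · exact h0 h2
      · exact h1 i y hy hxy
    · filter_upwards with x' hx'
      exact h hx'.1

end Kn

section main

variable {σ σ' : Type}

open Classical in
/-- the approximations of the glued map. -/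
noncomputable def fd (al : σ → Prop) (ch : σ → ℕ → σ) (ch' : σ' → ℕ → σ')
    (P : σ → σ' → ℕ → ℕ) (F : σ → σ' → E m → E m) : ℕ → σ → σ' → E m → E m
  | 0, _, _, x => x
  | d + 1, s, s', x =>
    if al s then
      if h : ∃ p : ℕ × E m, ‖p.2‖ ≤ 1 ∧ x = nu m p.1 p.2 then
        nu m (P s s' h.choose.1)
          (fd al ch ch' P F d (ch s h.choose.1) (ch' s' (P s s' h.choose.1)) h.choose.2)
      else F s s' x
    else x

/-- the data for the gluing. -/
structure Dat (al : σ → Prop) (ch : σ → ℕ → σ) (al' : σ' → Prop) (ch' : σ' → ℕ → σ')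
    (R : σ → σ' → Prop) (P : σ → σ' → ℕ → ℕ) (Q : σ' → σ → ℕ → ℕ) (F : σ → σ' → E m → E m)
    (G : σ' → σ → E m → E m) : Prop where
  hal : ∀ s s', R s s' → (al s ↔ al' s')
  rel : ∀ s s', R s s' → al s → ∀ i, R (ch s i) (ch' s' (P s s' i))
  QP : ∀ s s' i, Q s' s (P s s' i) = i
  PQ : ∀ s s' i, P s s' (Q s' s i) = i
  GF : ∀ s s' x, G s' s (F s s' x) = x
  FG : ∀ s s' x, F s s' (G s' s x) = x
  F0 : ∀ s s', F s s' 0 = 0
  smF : ∀ s s', ContDiffOn ℝ ∞ (F s s') {0}ᶜ
  smG : ∀ s s', ContDiffOn ℝ ∞ (G s' s) {0}ᶜ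
  nuF : ∀ s s' i, ∀ y : E m, ‖y‖ < 5 / 4 → F s s' (nu m i y) = nu m (P s s' i) y
  idF : ∀ s s', ∀ x : E m, 3 / 4 ≤ ‖x‖ → F s s' x = x

variable {al : σ → Prop} {ch : σ → ℕ → σ} {al' : σ' → Prop} {ch' : σ' → ℕ → σ'}
  {R : σ → σ' → Prop} {P : σ → σ' → ℕ → ℕ} {Q : σ' → σ → ℕ → ℕ} {F : σ → σ' → E m → E m}
  {G : σ' → σ → E m → E m}

theorem Dat.symm (D : Dat al ch al' ch' R P Q F G) :
    Dat al' ch' al ch (fun s' s => R s s') Q P G F where
  hal s' s h := (D.hal s s' h).symm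
  rel s' s h ha i := by
    have h1 := D.rel s s' h ((D.hal s s' h).2 ha) (Q s' s i)
    rwa [D.PQ] at h1
  QP s' s i := D.PQ s s' i
  PQ s' s i := D.QP s s' i
  GF s' s x := D.FG s s' x
  FG s' s x := D.GF s s' x
  F0 s' s := by
    have h1 := D.GF s s' 0
    rwa [D.F0] at h1
  smF s' s := D.smG s s'
  smG s' s := D.smF s s'
  nuF s' s i y hy := by
    have h1 := D.nuF s s' (Q s' s i) y hy
    rw [D.PQ] at h1
    rw [← h1, D.GF]
  idF s' s x hx := by
    have h1 := D.idF s s' x hx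
    have h2 := D.GF s s' x
    rwa [h1] at h2

theorem fd_dead {s : σ} (h : ¬ al s) (d : ℕ) (s' : σ') (x : E m) :
    fd al ch ch' P F d s s' x = x := by
  cases d with
  | zero => rfl
  | succ d => rw [fd, if_neg h]

theorem fd_ball {s : σ} (h : al s) (d : ℕ) (s' : σ') (i : ℕ) {z : E m} (hz : ‖z‖ ≤ 1) :
    fd al ch ch' P F (d + 1) s s' (nu m i z) =
      nu m (P s s' i) (fd al ch ch' P F d (ch s i) (ch' s' (P s s' i)) z) := by
  have hex : ∃ p : ℕ × E m, ‖p.2‖ ≤ 1 ∧ nu m i z = nu m p.1 p.2 := ⟨(i, z), hz, rfl⟩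
  have h1 := hex.choose_spec
  have h2 := nu_inj (hz.trans (by norm_num)) (h1.1.trans (by norm_num)) h1.2
  rw [fd, if_pos h, dif_pos hex, ← h2.1, ← h2.2]

theorem fd_out {s : σ} (h : al s) (d : ℕ) (s' : σ') {x : E m}
    (hx : ∀ i, ∀ y ∈ Metric.closedBall (0 : E m) 1, x ≠ nu m i y) :
    fd al ch ch' P F (d + 1) s s' x = F s s' x := by
  have hex : ¬ ∃ p : ℕ × E m, ‖p.2‖ ≤ 1 ∧ x = nu m p.1 p.2 := by
    rintro ⟨p, hp1, hp2⟩
    exact hx p.1 p.2 (by simpa using hp1) hp2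
  rw [fd, if_pos h, dif_neg hex]

theorem far_out {x : E m} (hx : 3 / 4 ≤ ‖x‖) :
    ∀ i, ∀ y ∈ Metric.closedBall (0 : E m) 1, x ≠ nu m i y := by
  rintro i y hy rfl
  have hy1 : ‖y‖ ≤ 1 := by simpa using hy
  have := norm_nu_lt (i := i) (y := y) (hy1.trans (by norm_num))
  linarith

theorem in_or_out (x : E m) : (∃ i z, ‖z‖ ≤ 1 ∧ x = nu m i z) ∨
    ∀ i, ∀ y ∈ Metric.closedBall (0 : E m) 1, x ≠ nu m i y := by
  by_cases h : ∃ i z, ‖z‖ ≤ 1 ∧ x = nu m i z
  · exact Or.inl h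
  · right
    intro i y hy hxy
    exact h ⟨i, y, by simpa using hy, hxy⟩

theorem fd_far (D : Dat al ch al' ch' R P Q F G) (d : ℕ) (s : σ) (s' : σ') {x : E m}
    (hx : 3 / 4 ≤ ‖x‖) : fd al ch ch' P F d s s' x = x := by
  cases d with
  | zero => rfl
  | succ d =>
    by_cases h : al s
    · rw [fd_out h d s' (far_out hx), D.idF s s' x hx]
    · exact fd_dead h _ _ _

theorem fd_near (D : Dat al ch al' ch' R P Q F G) : ∀ (d : ℕ) (s : σ) (s' : σ') {x : E m}
    (_ : ‖x‖ < 3 / 4), ‖fd al ch ch' P F d s s' x‖ < 3 / 4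
  | 0, _, _, x, hx => hx
  | d + 1, s, s', x, hx => by
    by_cases h : al s
    · rcases in_or_out x with ⟨i, z, hz, rfl⟩ | ho
      · rw [fd_ball h d s' i hz]
        refine norm_nu_lt ?_
        rcases lt_or_ge ‖z‖ (3 / 4) with h1 | h1
        · have := fd_near D d (ch s i) (ch' s' (P s s' i)) h1
          linarith
        · rw [fd_far D d _ _ h1]
          linarith
      · rw [fd_out h d s' ho]
        by_contra hcon
        push Not at hcon
        have h1 := D.symm.idF s' s _ hcon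
        rw [D.GF] at h1
        rw [← h1] at hcon
        linarith
    · rw [fd_dead h]
      exact hx

theorem fd_unit (D : Dat al ch al' ch' R P Q F G) (d : ℕ) (s : σ) (s' : σ') {x : E m}
    (hx : ‖x‖ ≤ 1) : ‖fd al ch ch' P F d s s' x‖ ≤ 1 := by
  rcases lt_or_ge ‖x‖ (3 / 4) with h1 | h1
  · have := fd_near D d s s' h1
    linarith
  · rwa [fd_far D d _ _ h1]

theorem F_out (D : Dat al ch al' ch' R P Q F G) (s : σ) (s' : σ') {x : E m}
    (hx : ∀ i, ∀ y ∈ Metric.closedBall (0 : E m) 1, x ≠ nu m i y) :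
    ∀ i, ∀ y ∈ Metric.closedBall (0 : E m) 1, F s s' x ≠ nu m i y := by
  intro i y hy hxy
  have hy1 : ‖y‖ ≤ 1 := by simpa using hy
  have h1 := D.symm.nuF s' s i y (by linarith)
  rw [← hxy, D.GF] at h1
  exact hx _ y hy h1

theorem inv (D : Dat al ch al' ch' R P Q F G) : ∀ (d : ℕ) (s : σ) (s' : σ') (_ : R s s')
    (x : E m), fd al' ch' ch Q G d s' s (fd al ch ch' P F d s s' x) = x
  | 0, _, _, _, x => rfl
  | d + 1, s, s', hR, x => by
    by_cases h : al s
    · have h' : al' s' := (D.hal s s' hR).1 h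
      rcases in_or_out x with ⟨i, z, hz, rfl⟩ | ho
      · rw [fd_ball h d s' i hz, fd_ball h' d s _ (fd_unit D d _ _ hz), D.QP]
        rw [inv D d _ _ (D.rel s s' hR h i) z]
      · rw [fd_out h d s' ho, fd_out h' d s (F_out D s s' ho), D.GF]
    · have h' : ¬ al' s' := fun h' => h ((D.hal s s' hR).2 h')
      rw [fd_dead h, fd_dead h']

theorem maps (D : Dat al ch al' ch' R P Q F G) : ∀ (d : ℕ) (s : σ) (s' : σ') (_ : R s s')
    (x : E m) (_ : x ∉ Kn m al ch d s), fd al ch ch' P F d s s' x ∉ Kn m al' ch' d s'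
  | 0, s, s', hR, x, hx => fun hx' => hx ⟨(D.hal s s' hR).2 hx'.1, hx'.2⟩
  | d + 1, s, s', hR, x, hx => by
    by_cases h : al s
    · have h' : al' s' := (D.hal s s' hR).1 h
      rcases in_or_out x with ⟨i, z, hz, rfl⟩ | ho
      · rw [fd_ball h d s' i hz]
        have hz1 : z ∉ Kn m al ch d (ch s i) := fun hz1 => hx ⟨h, Or.inr ⟨i, z, hz1, rfl⟩⟩
        have ih := maps D d _ _ (D.rel s s' hR h i) z hz1
        have hu := fd_unit D d (ch s i) (ch' s' (P s s' i)) hz
        rintro ⟨-, h0 | ⟨j, y, hy, hxy⟩⟩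
        · exact nu_ne_zero (hu.trans (by norm_num)) h0
        · obtain ⟨h1, h2⟩ := nu_inj (hu.trans (by norm_num))
            ((Kn_le_one al' ch' d _ y hy).trans (by norm_num)) hxy
          rw [← h1, ← h2] at hy
          exact ih hy
      · rw [fd_out h d s' ho]
        rintro ⟨-, h0 | ⟨j, y, hy, hxy⟩⟩
        · apply hx
          refine ⟨h, Or.inl ?_⟩
          have h1 := D.GF s s' x
          rw [h0, D.symm.F0] at h1
          exact h1.symm
        · exact F_out D s s' ho j y (by simpa using Kn_le_one al' ch' d _ y hy) hxy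
    · have h' : ¬ al' s' := fun h' => h ((D.hal s s' hR).2 h')
      exact fun hx' => h' hx'.1

theorem stable (D : Dat al ch al' ch' R P Q F G) : ∀ (d : ℕ) (s : σ) (s' : σ')
    (x : E m) (_ : x ∉ Kn m al ch d s),
    fd al ch ch' P F (d + 1) s s' x = fd al ch ch' P F d s s' x
  | 0, s, s', x, hx => by
    by_cases h : al s
    · have h1 : 1 < ‖x‖ := by
        by_contra h1
        exact hx ⟨h, not_lt.1 h1⟩
      rw [fd_far D _ _ _ (by linarith), fd_far D _ _ _ (by linarith)]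
    · rw [fd_dead h, fd_dead h]
  | d + 1, s, s', x, hx => by
    by_cases h : al s
    · rcases in_or_out x with ⟨i, z, hz, rfl⟩ | ho
      · have hz1 : z ∉ Kn m al ch d (ch s i) := fun hz1 => hx ⟨h, Or.inr ⟨i, z, hz1, rfl⟩⟩
        rw [fd_ball h (d + 1) s' i hz, fd_ball h d s' i hz, stable D d _ _ z hz1]
      · rw [fd_out h _ s' ho, fd_out h _ s' ho]
    · rw [fd_dead h, fd_dead h]

theorem stable' (D : Dat al ch al' ch' R P Q F G) {d d' : ℕ} (hdd : d ≤ d') (s : σ) (s' : σ')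
    (x : E m) (hx : x ∉ Kn m al ch d s) :
    fd al ch ch' P F d' s s' x = fd al ch ch' P F d s s' x := by
  induction d', hdd using Nat.le_induction with
  | base => rfl
  | succ n hn ih => rw [stable D n s s' x (fun h => hx (Kn_anti al ch hn s h)), ih]

theorem smooth (D : Dat al ch al' ch' R P Q F G) : ∀ (d : ℕ) (s : σ) (s' : σ')
    (x : E m) (_ : x ∉ Kn m al ch d s), ContDiffAt ℝ ∞ (fd al ch ch' P F d s s') x
  | 0, s, s', x, hx => contDiffAt_id
  | d + 1, s, s', x, hx => by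
    by_cases h : al s
    · have hx0 : x ≠ 0 := fun h0 => hx ⟨h, Or.inl h0⟩
      rcases in_or_out x with ⟨i, z, hz, rfl⟩ | ho
      · have hz1 : z ∉ Kn m al ch d (ch s i) := fun hz1 => hx ⟨h, Or.inr ⟨i, z, hz1, rfl⟩⟩
        have ih := smooth D d (ch s i) (ch' s' (P s s' i)) z hz1
        have e1 : ContDiffAt ℝ ∞ (fun x' => nu m (P s s' i)
            (fd al ch ch' P F d (ch s i) (ch' s' (P s s' i)) (mu m i x'))) (nu m i z) := by
          refine (contDiff_nu _).contDiffAt.comp _ (ContDiffAt.comp _ ?_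
            (contDiff_mu i).contDiffAt)
          rwa [mu_nu]
        refine e1.congr_of_eventuallyEq ?_
        have hc : Continuous (fun x' => ‖mu m i x'‖) := (contDiff_mu i).continuous.norm
        have e2 : ∀ᶠ x' in 𝓝 (nu m i z), ‖mu m i x'‖ < 5 / 4 := by
          refine hc.continuousAt.eventually (gt_mem_nhds ?_)
          show ‖mu m i (nu m i z)‖ < 5 / 4
          rw [mu_nu]
          linarith
        filter_upwards [e2] with x' hx'
        set z' := mu m i x' with hz'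
        have hxz : x' = nu m i z' := (nu_mu i x').symm
        rcases le_or_gt ‖z'‖ 1 with h1 | h1
        · rw [hxz, fd_ball h d s' i h1]
        · have ho : ∀ j, ∀ y ∈ Metric.closedBall (0 : E m) 1, x' ≠ nu m j y := by
            intro j y hy hxy
            have hy1 : ‖y‖ ≤ 1 := by simpa using hy
            rw [hxz] at hxy
            have := (nu_inj hx'.le (hy1.trans (by norm_num)) hxy).2
            rw [this] at h1
            linarith
          rw [fd_out h d s' ho, fd_far D d _ _ (show 3 / 4 ≤ ‖z'‖ by linarith), hxz,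
            D.nuF s s' i z' hx']
      · have e1 : ContDiffAt ℝ ∞ (F s s') x :=
          (D.smF s s').contDiffAt (isOpen_ne.mem_nhds hx0)
        refine e1.congr_of_eventuallyEq ?_
        filter_upwards [ev_gen (fun _ => Metric.closedBall (0 : E m) 1)
          (fun _ => Metric.isClosed_closedBall) (fun _ y hy => by simpa using hy) hx0 ho]
          with x' hx'
        exact fd_out h d s' hx'
    · have e1 : fd al ch ch' P F (d + 1) s s' = id := by
        funext y
        exact fd_dead h _ _ _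
      rw [e1]
      exact contDiffAt_id

open Classical in
/-- the glued map. -/
noncomputable def ff (al : σ → Prop) (ch : σ → ℕ → σ) (ch' : σ' → ℕ → σ')
    (P : σ → σ' → ℕ → ℕ) (F : σ → σ' → E m → E m) (s : σ) (s' : σ') (x : E m) : E m :=
  if h : ∃ d, x ∉ Kn m al ch d s then fd al ch ch' P F h.choose s s' x else x

theorem ff_eq (D : Dat al ch al' ch' R P Q F G) (s : σ) (s' : σ') {d : ℕ} {x : E m}
    (hx : x ∉ Kn m al ch d s) : ff al ch ch' P F s s' x = fd al ch ch' P F d s s' x := by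
  have h : ∃ d, x ∉ Kn m al ch d s := ⟨d, hx⟩
  rw [ff, dif_pos h]
  have h1 := h.choose_spec
  rcases le_total d h.choose with h2 | h2
  · exact stable' D h2 s s' x hx
  · exact (stable' D h2 s s' x h1).symm

theorem ff_smooth (D : Dat al ch al' ch' R P Q F G) (s : σ) (s' : σ') :
    ContDiffOn ℝ ∞ (ff al ch ch' P F s s') (KK m al ch s)ᶜ := by
  intro x hx
  have hx' : ∃ d, x ∉ Kn m al ch d s := by
    by_contra hcon
    push Not at hcon
    exact hx hcon
  obtain ⟨d, hd⟩ := hx'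
  refine ContDiffAt.contDiffWithinAt ?_
  refine (smooth D d s s' x hd).congr_of_eventuallyEq ?_
  filter_upwards [(isClosed_Kn al ch d s).isOpen_compl.mem_nhds hd] with y hy
  exact ff_eq D s s' hy

theorem ff_maps (D : Dat al ch al' ch' R P Q F G) (s : σ) (s' : σ') (hR : R s s') :
    MapsTo (ff al ch ch' P F s s') (KK m al ch s)ᶜ (KK m al' ch' s')ᶜ := by
  intro x hx
  have hx' : ∃ d, x ∉ Kn m al ch d s := by
    by_contra hcon
    push Not at hcon
    exact hx hcon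
  obtain ⟨d, hd⟩ := hx'
  rw [ff_eq D s s' hd]
  intro hcon
  exact maps D d s s' hR x hd (hcon d)

theorem ff_inv (D : Dat al ch al' ch' R P Q F G) (s : σ) (s' : σ') (hR : R s s') :
    ∀ x ∈ (KK m al ch s)ᶜ, ff al' ch' ch Q G s' s (ff al ch ch' P F s s' x) = x := by
  intro x hx
  have hx' : ∃ d, x ∉ Kn m al ch d s := by
    by_contra hcon
    push Not at hcon
    exact hx hcon
  obtain ⟨d, hd⟩ := hx'
  rw [ff_eq D s s' hd, ff_eq D.symm s' s (maps D d s s' hR x hd), inv D d s s' hR x]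

end main

end GlueK

open GlueK in
theorem glueK {σ σ' : Type} (al : σ → Prop) (ch : σ → ℕ → σ) (al' : σ' → Prop)
    (ch' : σ' → ℕ → σ') (R : σ → σ' → Prop) (hal : ∀ s s', R s s' → (al s ↔ al' s'))
    (hperm : ∀ s s', R s s' → al s → ∃ π : Equiv.Perm ℕ, ∀ i, R (ch s i) (ch' s' (π i)))
    (hreal : ∀ π : Equiv.Perm ℕ, Realized m π)
    (s : σ) (s' : σ') (h : R s s') : DiffOpen (KK m al ch s)ᶜ (KK m al' ch' s')ᶜ := by
  have hperm' : ∀ s s', ∃ π : Equiv.Perm ℕ, R s s' → al s → ∀ i, R (ch s i) (ch' s' (π i)) := by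
    intro s s'
    by_cases h1 : R s s'
    · by_cases h2 : al s
      · obtain ⟨π, hπ⟩ := hperm s s' h1 h2
        exact ⟨π, fun _ _ => hπ⟩
      · exact ⟨1, fun _ h3 => (h2 h3).elim⟩
    · exact ⟨1, fun h3 => (h1 h3).elim⟩
  choose P hP using hperm'
  unfold Realized at hreal
  choose F G hGF hFG hF0 hF hG hnu hid using hreal
  have D : Dat (m := m) al ch al' ch' R (fun s s' i => P s s' i) (fun s' s i => (P s s').symm i)
      (fun s s' => F (P s s')) (fun s' s => G (P s s')) :=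
    { hal := hal
      rel := fun s s' hR ha i => hP s s' hR ha i
      QP := fun s s' i => (P s s').symm_apply_apply i
      PQ := fun s s' i => (P s s').apply_symm_apply i
      GF := fun s s' x => hGF _ x
      FG := fun s s' x => hFG _ x
      F0 := fun s s' => hF0 _
      smF := fun s s' => hF _
      smG := fun s s' => hG _
      nuF := fun s s' i y hy => hnu _ i y hy
      idF := fun s s' x hx => hid _ x hx }
  exact ⟨_, _, ff_smooth D s s', ff_smooth D.symm s' s, ff_maps D s s' h, ff_maps D.symm s' s h,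
    ff_inv D s s' h, ff_inv D.symm s' s h⟩

end Pool.Agent.Helper73.BR
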