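import Pool.Agent.BR.PermReal
import Pool.Agent.BR.GlueK

open Set Filter Topology MeasureTheory
open scoped ContDiff

namespace Pool.Agent.Helper73.BR

variable {m : ℕ}

namespace BisimA

/-- The relation on states induced by a bisimulation. -/
def RR (B : List ℕ → List ℕ → Prop) : St → St → Prop
  | .A t, .A t' => B t t'
  | .R n, .R n' => n = n'
  | .O n, .O n' => n = n'
  | .dead, .dead => True
  | _, _ => False

/-- Extend a permutation to the even numbers. -/
def evenExt (ρ : Equiv.Perm ℕ) : Equiv.Perm ℕ where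
  toFun i := if i % 2 = 0 then 2 * ρ (i / 2) else i
  invFun i := if i % 2 = 0 then 2 * ρ.symm (i / 2) else i
  left_inv i := by
    by_cases h : i % 2 = 0
    · simp only [h, if_true, Nat.mul_mod_right, Nat.mul_div_cancel_left _ (Nat.succ_pos 1),
        Equiv.symm_apply_apply]
      omega
    · simp [h]
  right_inv i := by
    by_cases h : i % 2 = 0
    · simp only [h, if_true, Nat.mul_mod_right, Nat.mul_div_cancel_left _ (Nat.succ_pos 1),
        Equiv.apply_symm_apply]
      omega
    · simp [h]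

theorem evenExt_even (ρ : Equiv.Perm ℕ) (i : ℕ) (h : i % 2 = 0) :
    evenExt ρ i = 2 * ρ (i / 2) := by simp [evenExt, h]

theorem evenExt_odd (ρ : Equiv.Perm ℕ) (i : ℕ) (h : ¬ i % 2 = 0) : evenExt ρ i = i := by
  simp [evenExt, h]

theorem exists_rho (B : List ℕ → List ℕ → Prop) (t t' : List ℕ)
    (h1 : ∀ i, ∃ j, B (i :: t) (j :: t')) (h2 : ∀ j, ∃ i, B (i :: t) (j :: t')) :
    ∃ ρ : Equiv.Perm ℕ, ∀ k, B (k.unpair.1 :: t) ((ρ k).unpair.1 :: t') := by
  choose f hf using h1
  choose g hg using h2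
  obtain ⟨h, hb, hh⟩ := Function.Embedding.schroeder_bernstein_of_rel
    (f := fun k : ℕ => Nat.pair (f k.unpair.1) k) (g := fun k : ℕ => Nat.pair (g k.unpair.1) k)
    (fun x y hxy => (Nat.pair_eq_pair.mp hxy).2) (fun x y hxy => (Nat.pair_eq_pair.mp hxy).2)
    (fun x y => B (x.unpair.1 :: t) (y.unpair.1 :: t'))
    (fun k => by simpa using hf k.unpair.1) (fun k => by simpa using hg k.unpair.1)
  exact ⟨Equiv.ofBijective h hb, hh⟩

theorem perm_RR (a b : List ℕ → ℕ) (B : List ℕ → List ℕ → Prop)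
    (hB : ∀ s t, B s t → a s = b t ∧ (∀ i, ∃ j, B (i :: s) (j :: t)) ∧
      (∀ j, ∃ i, B (i :: s) (j :: t))) (s s' : St) (h : RR B s s') :
    ∃ π : Equiv.Perm ℕ, ∀ i, RR B (chS a s i) (chS b s' (π i)) := by
  cases s with
  | A t =>
    cases s' with
    | A t' =>
      obtain ⟨h0, h1, h2⟩ := hB t t' h
      obtain ⟨ρ, hρ⟩ := exists_rho B t t' h1 h2
      refine ⟨evenExt ρ, fun i => ?_⟩
      by_cases hi : i % 2 = 0
      · rw [evenExt_even ρ i hi]
        simpa [chS, hi, RR] using hρ (i / 2)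
      · rw [evenExt_odd ρ i hi]
        simpa [chS, hi, RR] using h0
    | _ => exact h.elim
  | R n =>
    cases s' with
    | R n' =>
      have h : n = n' := h
      subst h
      refine ⟨Equiv.refl _, fun i => ?_⟩
      by_cases hi : i % 2 = 0 <;> simp [chS, hi, RR]
    | _ => exact h.elim
  | O n =>
    cases s' with
    | O n' =>
      have h : n = n' := h
      subst h
      refine ⟨Equiv.refl _, fun i => ?_⟩
      cases n <;> simp [chS, RR]
    | _ => exact h.elim
  | dead =>
    cases s' with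
    | dead => exact ⟨Equiv.refl _, fun i => by simp [chS, RR]⟩
    | _ => exact h.elim

theorem al_RR (B : List ℕ → List ℕ → Prop) (s s' : St) (h : RR B s s') :
    alS 0 s ↔ alS 0 s' := by
  cases s <;> cases s' <;> first | exact h.elim | simp [alS]

end BisimA

open BisimA in
theorem diffOpen_of_bisim (a b : List ℕ → ℕ) (h : Bisim a b) :
    DiffOpen (KT m a)ᶜ (KT m b)ᶜ := by
  obtain ⟨B, h0, hB⟩ := h
  exact glueK (alS 0) (chS a) (alS 0) (chS b) (RR B) (al_RR B)
    (fun s s' hs _ => perm_RR a b B hB s s' hs) perm_realize _ _ h0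

end Pool.Agent.Helper73.BR
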