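import Pool.Agent.BR.Deriv

/-!
# Recognising the labelled nodes topologically (MP_70674c_lc, project BR, module A2e)
-/

open Set Filter Topology MeasureTheory
open scoped ContDiff

namespace Pool.Agent.Helper73.BR

variable {m : ℕ}



namespace Recog

/-! ### Locality of the topological predicates -/

section Local
variable {Y Y' : Type} [TopologicalSpace Y] [TopologicalSpace Y']

theorem accPt_local {g : Y → Y'} (hg : IsOpenEmbedding g) {U : Set Y} (hU : IsOpen U)
    {T : Set Y} {T' : Set Y'} (h : ∀ y ∈ U, (g y ∈ T' ↔ y ∈ T)) {y : Y} (hy : y ∈ U) :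
    AccPt (g y) (𝓟 T') ↔ AccPt y (𝓟 T) := by
  rw [accPt_iff_frequently, accPt_iff_frequently, ← hg.map_nhds_eq, frequently_map]
  apply frequently_congr
  filter_upwards [hU.mem_nhds hy] with z hz
  rw [h z hz, hg.injective.ne_iff]

theorem dn_local {g : Y → Y'} (hg : IsOpenEmbedding g) {U : Set Y} (hU : IsOpen U)
    {T : Set Y} {T' : Set Y'} (h : ∀ y ∈ U, (g y ∈ T' ↔ y ∈ T)) (n : ℕ) :
    ∀ y ∈ U, (g y ∈ Dn T' n ↔ y ∈ Dn T n) := by
  induction n with
  | zero => exact h
  | succ n ih =>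
    intro y hy
    simp only [Dn, mem_ofPred_eq]
    rw [ih y hy, accPt_local hg hU ih hy]

theorem pk_local {g : Y → Y'} (hg : IsOpenEmbedding g) {U : Set Y} (hU : IsOpen U)
    {T : Set Y} {T' : Set Y'} (h : ∀ y ∈ U, (g y ∈ T' ↔ y ∈ T)) :
    ∀ y ∈ U, (g y ∈ PK T' ↔ y ∈ PK T) := by
  intro y hy
  simp only [PK, mem_ofPred_eq]
  exact forall_congr' fun n => dn_local hg hU h n y hy

/-- The conditions defining `Zn` at a point. -/
def Good (T : Set Y) (n : ℕ) (y : Y) : Prop :=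
  (y ∈ T → y ∉ PK T → y ∉ Dn T (n + 1)) ∧ (y ∈ PK T → AccPt y (𝓟 (Dn T n \ Dn T (n + 1))))

theorem mem_Zn_iff {T : Set Y} {n : ℕ} {x : Y} :
    x ∈ Zn T n ↔ x ∈ PK T ∧ ∀ᶠ y in 𝓝 x, Good T n y := by
  simp only [Zn, mem_ofPred_eq, Good]
  refine and_congr_right fun _ => ?_
  constructor
  · rintro ⟨O, hO, h1, h2⟩
    filter_upwards [hO] with y hy
    exact ⟨h1 y hy, h2 y hy⟩
  · intro h
    exact ⟨_, h, fun y hy => hy.1, fun y hy => hy.2⟩

theorem zn_open {T : Set Y} {n : ℕ} {x : Y} (h : x ∈ Zn T n) :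
    ∀ᶠ y in 𝓝 x, y ∈ PK T → y ∈ Zn T n := by
  rw [mem_Zn_iff] at h
  filter_upwards [h.2.eventually_nhds] with y hy hP
  exact mem_Zn_iff.2 ⟨hP, hy⟩

theorem good_local {g : Y → Y'} (hg : IsOpenEmbedding g) {U : Set Y} (hU : IsOpen U)
    {T : Set Y} {T' : Set Y'} (h : ∀ y ∈ U, (g y ∈ T' ↔ y ∈ T)) (n : ℕ) :
    ∀ y ∈ U, (Good T' n (g y) ↔ Good T n y) := by
  intro y hy
  unfold Good
  have h1 := pk_local hg hU h y hy
  have h2 := dn_local hg hU h (n + 1) y hy
  have h3 := accPt_local (T := Dn T n \ Dn T (n + 1)) (T' := Dn T' n \ Dn T' (n + 1)) hg hU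
    (fun z hz => by
      simp only [Set.mem_sdiff]
      rw [dn_local hg hU h (n + 1) z hz, dn_local hg hU h n z hz]) hy
  rw [h1, h2, h3, h y hy]

theorem zn_local {g : Y → Y'} (hg : IsOpenEmbedding g) {U : Set Y} (hU : IsOpen U)
    {T : Set Y} {T' : Set Y'} (h : ∀ y ∈ U, (g y ∈ T' ↔ y ∈ T)) (n : ℕ) :
    ∀ y ∈ U, (g y ∈ Zn T' n ↔ y ∈ Zn T n) := by
  intro y hy
  rw [mem_Zn_iff, mem_Zn_iff, pk_local hg hU h y hy, ← hg.map_nhds_eq, eventually_map]
  refine and_congr_right fun _ => ?_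
  apply eventually_congr
  filter_upwards [hU.mem_nhds hy] with z hz
  exact good_local hg hU h n z hz

theorem closure_local {g : Y → Y'} (hg : IsOpenEmbedding g) {U : Set Y} (hU : IsOpen U)
    {T : Set Y} {T' : Set Y'} (h : ∀ y ∈ U, (g y ∈ T' ↔ y ∈ T)) :
    ∀ y ∈ U, (g y ∈ closure T' ↔ y ∈ closure T) := by
  intro y hy
  rw [mem_closure_iff_frequently, mem_closure_iff_frequently, ← hg.map_nhds_eq, frequently_map]
  apply frequently_congr
  filter_upwards [hU.mem_nhds hy] with z hz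
  exact h z hz

theorem bn_local {g : Y → Y'} (hg : IsOpenEmbedding g) {U : Set Y} (hU : IsOpen U)
    {T : Set Y} {T' : Set Y'} (h : ∀ y ∈ U, (g y ∈ T' ↔ y ∈ T)) (n : ℕ) :
    ∀ y ∈ U, (g y ∈ Bn T' n ↔ y ∈ Bn T n) := by
  intro y hy
  simp only [Bn, Set.mem_sdiff]
  rw [zn_local hg hU h n y hy, closure_local hg hU (zn_local hg hU h n) y hy]

theorem pk_subset_dn {T : Set Y} (n : ℕ) : PK T ⊆ Dn T n := fun _ hx => hx n

end Local

/-! ### The similarities -/

theorem nu_eq (i : ℕ) (y : E m) :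
    nu m i y = (fun j => if j = 0 then (1 / 8 : ℝ) ^ i / 2 else 0) + ((1 / 8 : ℝ) ^ i / 8) • y := by
  funext j
  simp [nu]

theorem nu_sub (i : ℕ) (y z : E m) :
    nu m i y - nu m i z = ((1 / 8 : ℝ) ^ i / 8) • (y - z) := by
  rw [nu_eq, nu_eq, add_sub_add_left_eq_sub, smul_sub]

theorem norm_nu_sub (i : ℕ) (y z : E m) :
    ‖nu m i y - nu m i z‖ = (1 / 8 : ℝ) ^ i / 8 * ‖y - z‖ := by
  rw [nu_sub, norm_smul, Real.norm_of_nonneg (by positivity)]

theorem norm_nu_le (i : ℕ) (y : E m) (h : ‖y‖ ≤ 5 / 4) : ‖nu m i y‖ ≤ 3 / 4 * (1 / 8 : ℝ) ^ i := by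
  rw [nu_eq]
  have h1 : ‖(fun j => if j = 0 then (1 / 8 : ℝ) ^ i / 2 else 0 : E m)‖ ≤ (1 / 8 : ℝ) ^ i / 2 := by
    rw [pi_norm_le_iff_of_nonneg (by positivity)]
    intro j
    split_ifs
    · rw [Real.norm_of_nonneg (by positivity)]
    · rw [norm_zero]; positivity
  have h2 : ‖((1 / 8 : ℝ) ^ i / 8) • y‖ ≤ (1 / 8 : ℝ) ^ i / 8 * (5 / 4) := by
    rw [norm_smul, Real.norm_of_nonneg (by positivity)]
    gcongr
  have h3 : (0 : ℝ) < (1 / 8 : ℝ) ^ i := by positivity
  calc _ ≤ _ := norm_add_le _ _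
    _ ≤ (1 / 8 : ℝ) ^ i / 2 + (1 / 8 : ℝ) ^ i / 8 * (5 / 4) := add_le_add h1 h2
    _ ≤ _ := by nlinarith

theorem norm_nu_lt' (i : ℕ) (y : E m) (h : ‖y‖ ≤ 5 / 4) : ‖nu m i y‖ < 1 := by
  have h1 := norm_nu_le i y h
  have h2 : (1 / 8 : ℝ) ^ i ≤ 1 := pow_le_one₀ (by norm_num) (by norm_num)
  nlinarith

theorem nu_openEmb (i : ℕ) : IsOpenEmbedding (nu m i) := by
  have h : (nu m i) = fun y => (Homeomorph.addLeft
      (fun j => if j = 0 then (1 / 8 : ℝ) ^ i / 2 else 0 : E m))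
      ((Homeomorph.smulOfNeZero ((1 / 8 : ℝ) ^ i / 8) (by positivity)) y) := by
    funext y
    rw [nu_eq]
    rfl
  rw [h]
  exact (Homeomorph.addLeft _).isOpenEmbedding.comp (Homeomorph.smulOfNeZero _ _).isOpenEmbedding

theorem nu_inj' (i : ℕ) : Function.Injective (nu m i) := (nu_openEmb i).injective

/-! ### Monotonicity -/

section
variable {σ : Type} {al al' : σ → Prop} {ch : σ → ℕ → σ}

theorem Kn_mono (h : ∀ s, al s → al' s) (d : ℕ) : ∀ s, Kn m al ch d s ⊆ Kn m al' ch d s := by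
  induction d with
  | zero => exact fun s x hx => ⟨h s hx.1, hx.2⟩
  | succ d ih =>
    rintro s x ⟨h1, h2⟩
    refine ⟨h s h1, ?_⟩
    rcases h2 with h2 | ⟨i, y, hy, h3⟩
    · exact Or.inl h2
    · exact Or.inr ⟨i, y, ih _ hy, h3⟩

theorem KK_mono (h : ∀ s, al s → al' s) (s : σ) : KK m al ch s ⊆ KK m al' ch s :=
  fun _ hx d => Kn_mono h d s (hx d)

theorem KK_al {s : σ} {x : E m} (h : x ∈ KK m al ch s) : al s := (h 0).1

theorem KK_norm {s : σ} {x : E m} (h : x ∈ KK m al ch s) : ‖x‖ ≤ 1 := (h 0).2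

theorem zero_mem_KK {s : σ} (h : al s) : (0 : E m) ∈ KK m al ch s := mem_KK_iff.2 ⟨h, Or.inl rfl⟩

end

/-! ### Paths -/

/-- `Path m ch s d f s'`: following an address of length `d` leads from `s` to `s'` and the
composition of the similarities is `f`. -/
inductive Path (m : ℕ) {σ : Type} (ch : σ → ℕ → σ) : σ → ℕ → (E m → E m) → σ → Prop
  | root (s : σ) : Path m ch s 0 (fun y => y) s
  | step (s : σ) (i : ℕ) (d : ℕ) (f : E m → E m) (s' : σ) (h : Path m ch (ch s i) d f s') :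
      Path m ch s (d + 1) (fun y => nu m i (f y)) s'

section
variable {σ : Type} {ch : σ → ℕ → σ}

theorem nodeAt_of_path {s s' : σ} {d : ℕ} {f : E m → E m} (h : Path m ch s d f s') :
    NodeAt m ch s (f 0) s' := by
  induction h with
  | root s => exact NodeAt.root s
  | step s i d f s' h ih => exact NodeAt.step s i _ s' ih

theorem path_of_nodeAt {s s' : σ} {x : E m} (h : NodeAt m ch s x s') :
    ∃ d f, Path m ch s d f s' ∧ x = f 0 := by
  induction h with
  | root s => exact ⟨0, _, Path.root s, rfl⟩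
  | step s i y s' h ih =>
    obtain ⟨d, f, hf, rfl⟩ := ih
    exact ⟨d + 1, _, Path.step s i d f s' hf, rfl⟩

theorem path_sub {s s' : σ} {d : ℕ} {f : E m → E m} (h : Path m ch s d f s') (y z : E m) :
    ‖f y - f z‖ ≤ (1 / 8 : ℝ) ^ d * ‖y - z‖ := by
  induction h with
  | root s => simp
  | step s i d f s' h ih =>
    rw [norm_nu_sub]
    have h1 : (1 / 8 : ℝ) ^ i ≤ 1 := pow_le_one₀ (by norm_num) (by norm_num)
    have h2 : 0 ≤ ‖f y - f z‖ := norm_nonneg _
    calc (1 / 8 : ℝ) ^ i / 8 * ‖f y - f z‖ ≤ 1 / 8 * ‖f y - f z‖ := by gcongr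
      _ ≤ 1 / 8 * ((1 / 8 : ℝ) ^ d * ‖y - z‖) := by gcongr
      _ = _ := by rw [pow_succ]; ring

theorem path_norm {s s' : σ} {d : ℕ} {f : E m → E m} (h : Path m ch s d f s') (y : E m)
    (hy : ‖y‖ < 5 / 4) : ‖f y‖ < 5 / 4 := by
  induction h with
  | root s => exact hy
  | step s i d f s' h ih => exact (norm_nu_lt' i _ ih.le).trans (by norm_num)

/-- Following a point of `KK` down. -/
theorem descent {al : σ → Prop} (d : ℕ) : ∀ s, ∀ x ∈ KK m al ch s,
    ∃ d' f s' y, Path m ch s d' f s' ∧ y ∈ KK m al ch s' ∧ x = f y ∧ (y = 0 ∨ d' = d) := by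
  induction d with
  | zero => exact fun s x hx => ⟨0, _, s, x, Path.root s, hx, rfl, Or.inr rfl⟩
  | succ d ih =>
    intro s x hx
    rcases (mem_KK_iff.1 hx).2 with rfl | ⟨i, y, hy, rfl⟩
    · exact ⟨0, _, s, 0, Path.root s, hx, rfl, Or.inl rfl⟩
    · obtain ⟨d', f, s', z, h1, h2, rfl, h4⟩ := ih _ y hy
      exact ⟨d' + 1, _, s', z, Path.step s i d' f s' h1, h2, rfl, h4.imp id (by omega)⟩

end

/-! ### Paths in the coalgebra of a tree -/

variable {a : List ℕ → ℕ}

theorem alP_of_ch {s : St} {i : ℕ} (h : alP (chS a s i)) : alP s := by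
  cases s with
  | A t => trivial
  | R n => trivial
  | O k => cases k <;> exact h
  | dead => exact h

theorem alP_of_path {s s' : St} {d : ℕ} {f : E m → E m} (h : Path m (chS a) s d f s')
    (h' : alP s') : alP s := by
  induction h with
  | root s => exact h'
  | step s i d f s' h ih => exact alP_of_ch (ih h')

theorem alS_of_alP (n : ℕ) (s : St) (h : alP s) : alS n s := by
  cases s with
  | A t => trivial
  | R n => trivial
  | O k => exact h.elim
  | dead => exact h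

/-- locality of `KK` along a path -/
theorem KK_path {al : St → Prop} (hal : ∀ s, alP s → al s) {s s' : St} {d : ℕ} {f : E m → E m}
    (h : Path m (chS a) s d f s') (h' : alP s') {y : E m} (hy : ‖y‖ < 5 / 4) :
    f y ∈ KK m al (chS a) s ↔ y ∈ KK m al (chS a) s' := by
  induction h with
  | root s => rfl
  | step s i d f s' h ih =>
    rw [KK_local (path_norm h y hy), ih h']
    exact and_iff_right (hal _ (alP_of_ch (alP_of_path h h')))

/-- the compact set of a state -/
abbrev KS (m : ℕ) (a : List ℕ → ℕ) (s : St) : Set (E m) := KK m (alS 0) (chS a) s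

theorem zn_step {s : St} {i : ℕ} (hs : alP s) {y : E m} (hy : ‖y‖ < 5 / 4) (n : ℕ) :
    nu m i y ∈ Zn (KS m a s) n ↔ y ∈ Zn (KS m a (chS a s i)) n := by
  refine zn_local (nu_openEmb i) (Metric.isOpen_ball (x := (0 : E m)) (ε := 5 / 4)) ?_ n y
    (by simpa using hy)
  intro z hz
  rw [KK_local (by simpa using hz)]
  exact and_iff_right (alS_of_alP 0 s hs)

theorem zn_path {s s' : St} {d : ℕ} {f : E m → E m}
    (h : Path m (chS a) s d f s') (h' : alP s') {y : E m} (hy : ‖y‖ < 5 / 4) (n : ℕ) :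
    f y ∈ Zn (KS m a s) n ↔ y ∈ Zn (KS m a s') n := by
  induction h with
  | root s => rfl
  | step s i d f s' h ih =>
    rw [zn_step (alP_of_ch (alP_of_path h h')) (path_norm h y hy), ih h']

theorem closure_step {s : St} {i : ℕ} (hs : alP s) {y : E m} (hy : ‖y‖ < 5 / 4) (n : ℕ) :
    nu m i y ∈ closure (Zn (KS m a s) n) ↔ y ∈ closure (Zn (KS m a (chS a s i)) n) := by
  refine closure_local (nu_openEmb i) (Metric.isOpen_ball (x := (0 : E m)) (ε := 5 / 4)) ?_ y
    (by simpa using hy)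
  intro z hz
  exact zn_step hs (by simpa using hz) n

theorem closure_path {s s' : St} {d : ℕ} {f : E m → E m}
    (h : Path m (chS a) s d f s') (h' : alP s') {y : E m} (hy : ‖y‖ < 5 / 4) (n : ℕ) :
    f y ∈ closure (Zn (KS m a s) n) ↔ y ∈ closure (Zn (KS m a s') n) := by
  induction h with
  | root s => rfl
  | step s i d f s' h ih =>
    rw [closure_step (alP_of_ch (alP_of_path h h')) (path_norm h y hy), ih h']

/-- the labels below a state -/
def Lab (a : List ℕ → ℕ) (k : ℕ) : St → Prop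
  | .A t => ∃ w : List ℕ, a (w ++ t) = k
  | .R n => n = k
  | _ => False

theorem lab_of_ch {k : ℕ} {s : St} {i : ℕ} (h : Lab a k (chS a s i)) : Lab a k s := by
  cases s with
  | A t =>
    by_cases hi : i % 2 = 0
    · simp only [chS, hi, if_true] at h
      obtain ⟨w, hw⟩ := h
      exact ⟨w ++ [(i / 2).unpair.1], by simpa using hw⟩
    · simp only [chS, hi, if_false] at h
      exact ⟨[], h⟩
  | R n =>
    by_cases hi : i % 2 = 0
    · simpa only [chS, hi, if_true] using h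
    · simp only [chS, hi, if_false] at h
      exact h.elim
  | O n => cases n <;> exact h.elim
  | dead => exact h.elim

theorem lab_of_path {k : ℕ} {s s' : St} {d : ℕ} {f : E m → E m} (h : Path m (chS a) s d f s')
    (h' : Lab a k s') : Lab a k s := by
  induction h with
  | root s => exact h'
  | step s i d f s' h ih => exact lab_of_ch (ih h')

/-- being a proper descendant at depth `d` in the tree part -/
def Dep (t' : List ℕ) (d : ℕ) : St → Prop
  | .A t => ∃ w : List ℕ, w.length = d ∧ t' = w ++ t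
  | _ => False

theorem dep_of_ch {t' : List ℕ} {d : ℕ} {s : St} {i : ℕ} (h : Dep t' d (chS a s i)) :
    Dep t' (d + 1) s := by
  cases s with
  | A t =>
    by_cases hi : i % 2 = 0
    · simp only [chS, hi, if_true] at h
      obtain ⟨w, hw, rfl⟩ := h
      exact ⟨w ++ [(i / 2).unpair.1], by simp [hw], by simp⟩
    · simp only [chS, hi, if_false] at h
      exact h.elim
  | R n =>
    by_cases hi : i % 2 = 0
    · simp only [chS, hi, if_true] at h
      exact h.elim
    · simp only [chS, hi, if_false] at h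
      exact h.elim
  | O n => cases n <;> exact h.elim
  | dead => exact h.elim

theorem dep_of_path {t' : List ℕ} {s s' : St} {d : ℕ} {f : E m → E m}
    (h : Path m (chS a) s d f s') (hs' : s' = .A t') : Dep t' d s := by
  induction h with
  | root s => subst hs'; exact ⟨[], rfl, rfl⟩
  | step s i d f s' h ih => exact dep_of_ch (ih hs')

/-! ### States of type `R` -/

theorem Kn_dead {al : St → Prop} {s : St} (h : ¬ al s) (d : ℕ) : Kn m al (chS a) d s = ∅ := by
  cases d with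
  | zero => ext x; simp [Kn, h]
  | succ d => ext x; simp [Kn, h]

theorem Kn_R {n k : ℕ} (h : k < n) (d : ℕ) :
    Kn m (alS n) (chS a) d (.R k) = Kn m alP (chS a) d (.R k) := by
  induction d with
  | zero => rfl
  | succ d ih =>
    ext x
    simp only [Kn, mem_ofPred_eq]
    have h1 : alS n (.R k) ↔ alP (.R k) := Iff.rfl
    rw [h1]
    refine and_congr_right fun _ => or_congr_right (exists_congr fun i => ?_)
    by_cases hi : i % 2 = 0
    · simp only [chS, hi, if_true, ih]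
    · simp only [chS, hi, if_false]
      rw [Kn_dead (al := alS n) (s := .O k) (by simp only [alS]; omega),
        Kn_dead (al := alP) (s := .O k) (by simp only [alP]; exact id)]

theorem KK_R {n k : ℕ} (h : k < n) :
    KK m (alS n) (chS a) (.R k) = KK m alP (chS a) (.R k) := by
  ext x
  exact forall_congr' fun d => by rw [Kn_R h d]

theorem path_R {s s' : St} {d : ℕ} {f : E m → E m} (h : Path m (chS a) s d f s')
    (h' : alP s') {k : ℕ} (hs : s = .R k) : s' = .R k := by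
  induction h with
  | root s => exact hs
  | step s i d f s' h ih =>
    subst hs
    by_cases hi : i % 2 = 0
    · exact ih h' (by simp [chS, hi])
    · have h1 := alP_of_path h h'
      simp only [chS, hi, if_false] at h1
      exact h1.elim

theorem acc_R (k : ℕ) {x : E m} (hx : x ∈ KK m alP (chS a) (.R k)) :
    AccPt x (𝓟 (KK m (alS k) (chS a) (.R k) \ KK m (alS (k + 1)) (chS a) (.R k))) := by
  rw [KK_R (Nat.lt_succ_self k), accPt_iff_frequently, Metric.nhds_basis_ball.frequently_iff]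
  intro ε hε
  obtain ⟨d, hd⟩ := exists_pow_lt_of_lt_one (show 0 < ε / 2 by positivity)
    (show (1 / 8 : ℝ) < 1 by norm_num)
  obtain ⟨d', f, s', y, h1, h2, h3, h4⟩ := descent d _ x hx
  have hs' : s' = .R k := path_R h1 (KK_al h2) rfl
  subst hs'
  have hz : ‖nu m (2 * d + 1) (0 : E m)‖ ≤ (1 / 8 : ℝ) ^ d := by
    refine (norm_nu_le _ _ (by simp; norm_num)).trans ?_
    have h5 : (1 / 8 : ℝ) ^ (2 * d + 1) ≤ (1 / 8 : ℝ) ^ d :=
      pow_le_pow_of_le_one (by norm_num) (by norm_num) (by omega)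
    have h6 : (0 : ℝ) < (1 / 8 : ℝ) ^ (2 * d + 1) := by positivity
    nlinarith
  have hz1 : ‖nu m (2 * d + 1) (0 : E m)‖ < 5 / 4 := by
    have := norm_nu_lt' (m := m) (2 * d + 1) 0 (by simp; norm_num)
    linarith
  have hch : chS a (.R k) (2 * d + 1) = .O k := by
    simp [chS]
  have hin : nu m (2 * d + 1) (0 : E m) ∈ KK m (alS k) (chS a) (.R k) := by
    rw [KK_local (by simp), hch]
    exact ⟨trivial, zero_mem_KK (by simp [alS])⟩
  have hout : nu m (2 * d + 1) (0 : E m) ∉ KK m alP (chS a) (.R k) := by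
    rw [KK_local (by simp), hch]
    exact fun h => (KK_al h.2)
  have hin' := (KK_path (alS_of_alP k) h1 (KK_al h2) hz1).2 hin
  have hout' : f (nu m (2 * d + 1) 0) ∉ KK m alP (chS a) (.R k) := fun h =>
    hout ((KK_path (fun _ h => h) h1 (KK_al h2) hz1).1 h)
  refine ⟨f (nu m (2 * d + 1) 0), ?_, fun he => hout' (he ▸ hx), hin', hout'⟩
  rw [Metric.mem_ball, dist_eq_norm, h3]
  refine (path_sub h1 _ _).trans_lt ?_
  have h7 : (1 / 8 : ℝ) ^ d' ≤ 1 := pow_le_one₀ (by norm_num) (by norm_num)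
  have h8 : 0 ≤ ‖nu m (2 * d + 1) (0 : E m) - y‖ := norm_nonneg _
  rcases h4 with h4 | h4
  · subst h4
    rw [sub_zero]
    nlinarith [norm_nonneg (nu m (2 * d + 1) (0 : E m))]
  · subst h4
    have h9 : ‖nu m (2 * d' + 1) (0 : E m) - y‖ ≤ 2 := by
      refine (norm_sub_le _ _).trans ?_
      have := KK_norm h2
      have := norm_nu_lt' (m := m) (2 * d' + 1) 0 (by simp; norm_num)
      linarith
    have h10 : (0 : ℝ) < (1 / 8 : ℝ) ^ d' := by positivity
    nlinarith

theorem zn_R_self (k : ℕ) {x : E m} (hx : x ∈ KK m alP (chS a) (.R k)) :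
    x ∈ Zn (KS m a (.R k)) k := by
  rw [mem_Zn_iff, PK_KK]
  refine ⟨hx, Eventually.of_forall fun y => ?_⟩
  unfold Good
  rw [PK_KK, Dn_KK, Dn_KK]
  refine ⟨fun _ h => by rwa [KK_R (Nat.lt_succ_self k)], fun h => acc_R k h⟩

theorem alS_anti {n n' : ℕ} (h : n ≤ n') (s : St) (hs : alS n' s) : alS n s := by
  cases s with
  | A t => trivial
  | R n => trivial
  | O k => exact h.trans hs
  | dead => exact hs

theorem zn_R_ne {n k : ℕ} (h : n ≠ k) (x : E m) : x ∉ Zn (KS m a (.R k)) n := by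
  intro hx
  rw [mem_Zn_iff, PK_KK] at hx
  obtain ⟨hP, hx⟩ := hx
  rcases lt_or_gt_of_ne h with h | h
  · -- `n < k`
    have h1 := acc_R k hP
    rw [accPt_iff_frequently] at h1
    obtain ⟨y, ⟨h2, h3⟩, h4⟩ := (h1.and_eventually hx).exists
    unfold Good at h4
    rw [PK_KK, Dn_KK, Dn_KK] at h4
    refine h4.1 (KK_mono (alS_anti (Nat.zero_le k)) _ h3.1) ?_
      (KK_mono (alS_anti (Nat.succ_le_of_lt h)) _ h3.1)
    rw [← KK_R (Nat.lt_succ_self k)]
    exact h3.2
  · -- `k < n`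
    have h1 := hx.self_of_nhds
    unfold Good at h1
    rw [PK_KK, Dn_KK, Dn_KK] at h1
    have h2 := h1.2 hP
    rw [KK_R h, KK_R (h.trans (Nat.lt_succ_self n)), sdiff_self] at h2
    rw [accPt_iff_frequently] at h2
    simp at h2

theorem zn_R_iff {n k : ℕ} (x : E m) :
    x ∈ Zn (KS m a (.R k)) n ↔ n = k ∧ x ∈ KK m alP (chS a) (.R k) := by
  constructor
  · intro h
    have h1 : n = k := by
      by_contra h1
      exact zn_R_ne h1 x h
    refine ⟨h1, ?_⟩
    rw [mem_Zn_iff, PK_KK] at h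
    exact h.1
  · rintro ⟨rfl, h⟩
    exact zn_R_self n h

/-! ### States of type `A` -/

theorem tendsto_nu (u : ℕ → ℕ) (hu : ∀ l, l ≤ u l) (y : E m) (hy : ‖y‖ ≤ 5 / 4) :
    Tendsto (fun l => nu m (u l) y) atTop (𝓝 0) := by
  rw [tendsto_zero_iff_norm_tendsto_zero]
  refine squeeze_zero (fun _ => norm_nonneg _) (g := fun l => (1 / 8 : ℝ) ^ l) (fun l => ?_)
    (tendsto_pow_atTop_nhds_zero_of_lt_one (by norm_num) (by norm_num))
  refine (norm_nu_le _ _ hy).trans ?_
  have h5 : (1 / 8 : ℝ) ^ (u l) ≤ (1 / 8 : ℝ) ^ l :=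
    pow_le_pow_of_le_one (by norm_num) (by norm_num) (hu l)
  have h6 : (0 : ℝ) < (1 / 8 : ℝ) ^ (u l) := by positivity
  nlinarith

theorem ch_odd (t : List ℕ) (l : ℕ) : chS a (.A t) (2 * l + 1) = .R (a t) := by
  simp [chS]

theorem ch_even (t : List ℕ) (j l : ℕ) : chS a (.A t) (2 * Nat.pair j l) = .A (j :: t) := by
  simp [chS]

theorem le_pair (j l : ℕ) : l ≤ 2 * Nat.pair j l := by
  have := Nat.right_le_pair j l
  omega

theorem zero_not_zn (ha : LabOK a) (t : List ℕ) (n : ℕ) : (0 : E m) ∉ Zn (KS m a (.A t)) n := by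
  intro h
  have h1 := zn_open h
  have h0 : ‖(0 : E m)‖ < 5 / 4 := by simp
  have hn1 : ‖nu m 1 (0 : E m)‖ < 5 / 4 := (norm_nu_lt' 1 0 h0.le).trans (by norm_num)
  obtain ⟨l, hl⟩ := ((tendsto_nu (m := m) (fun l => 2 * l + 1) (fun l => by omega) 0
    h0.le).eventually h1).exists
  obtain ⟨l', hl'⟩ := ((tendsto_nu (m := m) (fun l => 2 * Nat.pair 0 l) (fun l => le_pair 0 l)
    (nu m 1 0) hn1.le).eventually h1).exists
  rw [PK_KK, KK_local h0, ch_odd, zn_step (s := .A t) trivial h0, ch_odd, zn_R_iff] at hl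
  have e1 := (hl ⟨trivial, zero_mem_KK trivial⟩).1
  rw [PK_KK, KK_local hn1, ch_even, zn_step (s := .A t) trivial hn1, ch_even, KK_local h0,
    zn_step (s := .A (0 :: t)) trivial h0, ch_odd (l := 0), zn_R_iff] at hl'
  have e2 := (hl' ⟨trivial, trivial, zero_mem_KK trivial⟩).1
  have e3 := ha t
  have e4 := ha (0 :: t)
  rw [← e1] at e3
  rw [← e2] at e4
  simp at e4
  omega

theorem exists_zn (w : List ℕ) : ∀ t : List ℕ, ∃ y : E m, y ∈ Zn (KS m a (.A t)) (a (w ++ t)) := by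
  induction w using List.reverseRecOn with
  | nil =>
    intro t
    refine ⟨nu m 1 0, ?_⟩
    rw [zn_step (s := .A t) trivial (by simp), ch_odd (l := 0), zn_R_iff]
    exact ⟨rfl, zero_mem_KK trivial⟩
  | append_singleton w j ih =>
    intro t
    obtain ⟨y, hy⟩ := ih (j :: t)
    have h1 : ‖y‖ < 5 / 4 := by
      rw [mem_Zn_iff, PK_KK] at hy
      have := KK_norm hy.1
      linarith
    refine ⟨nu m (2 * Nat.pair j 0) y, ?_⟩
    rw [zn_step (s := .A t) trivial h1, ch_even]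
    simpa using hy

theorem zero_mem_closure (w t : List ℕ) :
    (0 : E m) ∈ closure (Zn (KS m a (.A t)) (a (w ++ t))) := by
  rcases List.eq_nil_or_concat w with rfl | ⟨w, j, rfl⟩
  · refine mem_closure_of_tendsto (tendsto_nu (m := m) (fun l => 2 * l + 1) (fun l => by omega) 0
      (by simp; norm_num)) (Eventually.of_forall fun l => ?_)
    rw [zn_step (s := .A t) trivial (by simp), ch_odd, zn_R_iff]
    exact ⟨rfl, zero_mem_KK trivial⟩
  · obtain ⟨y, hy⟩ := exists_zn (m := m) (a := a) w (j :: t)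
    have h1 : ‖y‖ < 5 / 4 := by
      rw [mem_Zn_iff, PK_KK] at hy
      have := KK_norm hy.1
      linarith
    refine mem_closure_of_tendsto (tendsto_nu (m := m) (fun l => 2 * Nat.pair j l)
      (fun l => le_pair j l) y h1.le) (Eventually.of_forall fun l => ?_)
    rw [zn_step (s := .A t) trivial h1, ch_even]
    simpa using hy

theorem lab_of_zn (ha : LabOK a) {s : St} {n : ℕ} {x : E m} (hx : x ∈ Zn (KS m a s) n) :
    Lab a n s := by
  have hP : x ∈ KK m alP (chS a) s := by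
    rw [mem_Zn_iff, PK_KK] at hx
    exact hx.1
  have h1 := zn_open hx
  rw [Metric.eventually_nhds_iff] at h1
  obtain ⟨ε, hε, h1⟩ := h1
  obtain ⟨d, hd⟩ := exists_pow_lt_of_lt_one (show 0 < ε / 2 by positivity)
    (show (1 / 8 : ℝ) < 1 by norm_num)
  obtain ⟨d', f, s', y, h2, h3, h4, h5⟩ := descent d _ x hP
  have h6 : f 0 ∈ Zn (KS m a s) n := by
    apply h1
    · rw [dist_eq_norm, h4]
      rcases h5 with h5 | h5
      · subst h5; simpa using hε
      · subst h5
        refine (path_sub h2 _ _).trans_lt ?_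
        have h7 : ‖0 - y‖ ≤ 1 := by rw [zero_sub, norm_neg]; exact KK_norm h3
        have h10 : (0 : ℝ) < (1 / 8 : ℝ) ^ d' := by positivity
        nlinarith
    · rw [PK_KK, KK_path (fun _ h => h) h2 (KK_al h3) (by simp)]
      exact zero_mem_KK (KK_al h3)
  rw [zn_path h2 (KK_al h3) (by simp)] at h6
  have h8 := KK_al h3
  refine lab_of_path h2 ?_
  cases s' with
  | A t => exact (zero_not_zn ha t n h6).elim
  | R k => exact ((zn_R_iff _).1 h6).1.symm
  | O k => exact h8.elim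
  | dead => exact h8.elim

theorem mem_Bn_of_node (ha : LabOK a) {d : ℕ} {f : E m → E m} {t w : List ℕ}
    (h : Path m (chS a) (.A []) d f (.A t)) : f 0 ∈ Bn (KS m a (.A [])) (a (w ++ t)) := by
  have h0 : ‖(0 : E m)‖ < 5 / 4 := by simp
  refine ⟨?_, ?_⟩
  · rw [closure_path h trivial h0]
    exact zero_mem_closure w t
  · rw [zn_path h trivial h0]
    exact zero_not_zn ha t _

theorem node_of_mem_Bn (ha : LabOK a) {x : E m} {n : ℕ} (h : x ∈ Bn (KS m a (.A [])) n) :
    ∃ d f t, Path m (chS a) (.A []) d f (.A t) ∧ x = f 0 ∧ ∃ w : List ℕ, a (w ++ t) = n := by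
  obtain ⟨h1, h2⟩ := h
  have hP : x ∈ KK m alP (chS a) (.A []) := by
    have hc : IsClosed (KK m alP (chS a) (.A [])) := (thin_KK _ _ _).1
    refine closure_minimal ?_ hc h1
    intro y hy
    rw [mem_Zn_iff, PK_KK] at hy
    exact hy.1
  obtain ⟨d', f, s', y, h3, h4, h5, h6⟩ := descent (n + 1) _ x hP
  have hy : ‖y‖ < 5 / 4 := by have := KK_norm h4; linarith
  have h8 := KK_al h4
  subst h5
  rw [closure_path h3 h8 hy] at h1
  rw [zn_path h3 h8 hy] at h2
  have hne : Lab a n s' := by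
    obtain ⟨z, hz⟩ := closure_nonempty_iff.1 ⟨y, h1⟩
    exact lab_of_zn ha hz
  cases s' with
  | A t =>
    obtain ⟨w, hw⟩ := hne
    rcases h6 with h6 | h6
    · subst h6
      exact ⟨d', f, t, h3, rfl, w, hw⟩
    · exfalso
      obtain ⟨w', hw', ht⟩ := dep_of_path h3 rfl
      have e1 := ha (w ++ t)
      rw [hw, ht] at e1
      have e2 := Nat.unpair_left_le n
      simp at e1
      omega
  | R k =>
    exfalso
    have hk : k = n := hne
    subst hk
    exact h2 ((zn_R_iff _).2 ⟨rfl, h4⟩)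
  | O k => exact h8.elim
  | dead => exact h8.elim

end Recog

theorem mem_Bn_iff (a : List ℕ → ℕ) (ha : LabOK a) (x : E m) (n : ℕ) :
    x ∈ Bn (KT m a) n ↔
      ∃ t, NodeAt m (chS a) (.A []) x (.A t) ∧ ∃ w : List ℕ, a (w ++ t) = n := by
  constructor
  · intro h
    obtain ⟨d, f, t, h1, rfl, w, hw⟩ := Recog.node_of_mem_Bn ha h
    exact ⟨t, Recog.nodeAt_of_path h1, w, hw⟩
  · rintro ⟨t, h1, w, rfl⟩
    obtain ⟨d, f, h2, rfl⟩ := Recog.path_of_nodeAt h1
    exact Recog.mem_Bn_of_node ha h2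

end Pool.Agent.Helper73.BR
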