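import Pool.Agent.BR.BisimBAux
import Pool.Agent.BR.Recog

/-!
# Module BisimB: a homeomorphism of the end spaces gives a bisimulation
-/

open Set Filter Topology MeasureTheory
open scoped ContDiff

namespace Pool.Agent.Helper73.BR

variable {m : ℕ}

theorem bisim_of_homeo (a b : List ℕ → ℕ) (ha : LabOK a) (hb : LabOK b)
    (H : OnePoint (E m) ≃ₜ OnePoint (E m))
    (hH : H '' (((↑) : E m → OnePoint (E m)) '' KT m a ∪ {OnePoint.infty}) =
        ((↑) : E m → OnePoint (E m)) '' KT m b ∪ {OnePoint.infty}) : Bisim a b :=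
  BisimB.bisim_aux (fun a ha x n => mem_Bn_iff a ha x n) a b ha hb H hH

end Pool.Agent.Helper73.BR
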