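import Pool.Agent.Helper73.BR.DefsA

/-!
# Module BisimB: a homeomorphism of the end spaces gives a bisimulation
-/

open Set Filter Topology MeasureTheory
open scoped ContDiff

namespace Pool.Agent.Helper73.BR

variable {m : ℕ}

namespace BisimB

/-! ### Locality of the derivatives -/

section local_
variable {X Y : Type} [TopologicalSpace X] [TopologicalSpace Y]

theorem accPt_iff {e : X → Y} (he : IsOpenEmbedding e) (A : Set Y) (x : X) :
    AccPt (e x) (𝓟 A) ↔ AccPt x (𝓟 (e ⁻¹' A)) := by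
  rw [accPt_iff_frequently, accPt_iff_frequently, ← he.map_nhds_eq x, frequently_map]
  constructor
  · intro h
    exact h.mono fun y hy => ⟨fun h' => hy.1 (by rw [h']), hy.2⟩
  · intro h
    exact h.mono fun y hy => ⟨fun h' => hy.1 (he.injective h'), hy.2⟩

theorem Dn_pre {e : X → Y} (he : IsOpenEmbedding e) (T : Set Y) (n : ℕ) :
    e ⁻¹' (Dn T n) = Dn (e ⁻¹' T) n := by
  induction n with
  | zero => rfl
  | succ n ih =>
    ext x
    show (e x ∈ Dn T n ∧ AccPt (e x) (𝓟 (Dn T n))) ↔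
      (x ∈ Dn (e ⁻¹' T) n ∧ AccPt x (𝓟 (Dn (e ⁻¹' T) n)))
    rw [accPt_iff he, ih, ← ih]
    rfl

theorem PK_pre {e : X → Y} (he : IsOpenEmbedding e) (T : Set Y) :
    e ⁻¹' (PK T) = PK (e ⁻¹' T) := by
  ext x
  show (∀ n, e x ∈ Dn T n) ↔ ∀ n, x ∈ Dn (e ⁻¹' T) n
  refine forall_congr' fun n => ?_
  rw [← Dn_pre he T n]
  rfl

theorem Zn_pre {e : X → Y} (he : IsOpenEmbedding e) (T : Set Y) (n : ℕ) :
    e ⁻¹' (Zn T n) = Zn (e ⁻¹' T) n := by
  have hD := Dn_pre he T
  have hP := PK_pre he T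
  ext x
  constructor
  · rintro ⟨h1, O, hO, h2, h3⟩
    refine ⟨by rw [← hP]; exact h1, e ⁻¹' O, he.continuous.continuousAt hO, ?_, ?_⟩
    · intro y hy hyT hyP
      rw [← hD]
      refine h2 _ hy hyT ?_
      intro h
      exact hyP (by rw [← hP]; exact h)
    · intro y hy hyP
      have := h3 _ hy (by rw [← hP] at hyP; exact hyP)
      rw [accPt_iff he, preimage_sdiff, hD, hD] at this
      exact this
  · rintro ⟨h1, O, hO, h2, h3⟩
    refine ⟨by rw [← hP] at h1; exact h1, e '' O, he.image_mem_nhds.2 hO, ?_, ?_⟩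
    · rintro _ ⟨y, hy, rfl⟩ hyT hyP hyD
      refine h2 y hy hyT ?_ ?_
      · intro h
        rw [← hP] at h
        exact hyP h
      · rw [← hD]
        exact hyD
    · rintro _ ⟨y, hy, rfl⟩ hyP
      rw [accPt_iff he, preimage_sdiff, hD, hD]
      refine h3 y hy ?_
      rw [← hP]
      exact hyP

theorem Bn_pre {e : X → Y} (he : IsOpenEmbedding e) (T : Set Y) (n : ℕ) :
    e ⁻¹' (Bn T n) = Bn (e ⁻¹' T) n := by
  unfold Bn
  rw [preimage_sdiff, Zn_pre he, he.isOpenMap.preimage_closure_eq_closure_preimage he.continuous,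
    Zn_pre he]

end local_

/-! ### The point at infinity -/

/-- The set of ends. -/
def TT (K : Set (E m)) : Set (OnePoint (E m)) :=
  ((↑) : E m → OnePoint (E m)) '' K ∪ {OnePoint.infty}

theorem TT_pre (K : Set (E m)) : ((↑) : E m → OnePoint (E m)) ⁻¹' (TT K) = K := by
  ext x
  simp [TT]

theorem infty_notMem (K : Set (E m)) (hK : ∀ x ∈ K, ‖x‖ ≤ 1) (n : ℕ) :
    (OnePoint.infty : OnePoint (E m)) ∉ Bn (TT K) n := by
  set C : Set (E m) := Metric.closedBall 0 1 with hC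
  have hCc : IsCompact C := isCompact_closedBall 0 1
  set O : Set (OnePoint (E m)) := (((↑) : E m → OnePoint (E m)) '' C)ᶜ with hOdef
  have hO : O ∈ 𝓝 (OnePoint.infty : OnePoint (E m)) := by
    refine IsOpen.mem_nhds ?_ ?_
    · exact OnePoint.isOpen_compl_image_coe.2 ⟨hCc.isClosed, hCc⟩
    · simp [hOdef]
  have hOT : ∀ y ∈ O, y ∈ TT K → y = OnePoint.infty := by
    intro y hy hyT
    rcases hyT with ⟨x, hx, rfl⟩ | h
    · exact absurd ⟨x, by simpa [hC] using hK x hx, rfl⟩ hy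
    · exact h
  have h1 : ¬ AccPt (OnePoint.infty : OnePoint (E m)) (𝓟 (TT K)) := by
    rw [accPt_iff_nhds]
    intro h
    obtain ⟨y, hy, hne⟩ := h O hO
    exact hne (hOT y hy.1 hy.2)
  have hPK : ∀ y ∈ PK (TT K), y ∈ TT K ∧ y ≠ OnePoint.infty := by
    intro y hy
    refine ⟨hy 0, ?_⟩
    rintro rfl
    exact h1 (hy 1).2
  rintro ⟨h2, -⟩
  rw [mem_closure_iff_nhds] at h2
  obtain ⟨y, hy, hyZ⟩ := h2 O hO
  have h3 := hPK y hyZ.1
  exact h3.2 (hOT y hy h3.1)

theorem KT_norm (a : List ℕ → ℕ) : ∀ x ∈ KT m a, ‖x‖ ≤ 1 := fun x hx => (hx 0).2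

/-! ### Bounds for `nu` -/

theorem nu_zero (i : ℕ) (y : E m) :
    nu m i y 0 = (1 / 8 : ℝ) ^ i / 2 + (1 / 8 : ℝ) ^ i / 8 * y 0 := by
  simp [nu]

theorem nu_inj {i : ℕ} {y z : E m} (h : nu m i y = nu m i z) : y = z := by
  funext j
  have := congrFun h j
  have hp : (0 : ℝ) < (1 / 8 : ℝ) ^ i := by positivity
  unfold nu at this
  have h2 : (1 / 8 : ℝ) ^ i / 8 * y j = (1 / 8 : ℝ) ^ i / 8 * z j := by linarith
  exact mul_left_cancel₀ (by positivity) h2

theorem nu_norm (i : ℕ) {y : E m} (hy : ‖y‖ ≤ 1) : ‖nu m i y‖ ≤ 1 := by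
  have hp : (0 : ℝ) < (1 / 8 : ℝ) ^ i := by positivity
  have hp1 : (1 / 8 : ℝ) ^ i ≤ 1 := pow_le_one₀ (by norm_num) (by norm_num)
  rw [pi_norm_le_iff_of_nonneg (by norm_num)]
  intro j
  have hj : |y j| ≤ 1 := by
    have := norm_le_pi_norm y j
    rw [Real.norm_eq_abs] at this
    linarith
  rw [abs_le] at hj
  rw [Real.norm_eq_abs, abs_le]
  unfold nu
  split_ifs <;> constructor <;> nlinarith [hj.1, hj.2]

theorem nu_pos (i : ℕ) {y : E m} (hy : ‖y‖ ≤ 1) :
    (1 / 8 : ℝ) ^ i * (3 / 8) ≤ nu m i y 0 ∧ nu m i y 0 ≤ (1 / 8 : ℝ) ^ i * (5 / 8) := by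
  have hp : (0 : ℝ) < (1 / 8 : ℝ) ^ i := by positivity
  have hj : |y 0| ≤ 1 := by
    have := norm_le_pi_norm y 0
    rw [Real.norm_eq_abs] at this
    linarith
  rw [abs_le] at hj
  rw [nu_zero]
  constructor <;> nlinarith [hj.1, hj.2]

theorem nu_ne_zero (i : ℕ) {y : E m} (hy : ‖y‖ ≤ 1) : nu m i y ≠ 0 := by
  intro h
  have h1 := (nu_pos (m := m) i hy).1
  rw [h] at h1
  have hp : (0 : ℝ) < (1 / 8 : ℝ) ^ i := by positivity
  simp only [Pi.zero_apply] at h1
  linarith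

theorem nu_lt {i j : ℕ} (hij : i < j) {y z : E m} (hy : ‖y‖ ≤ 1) (hz : ‖z‖ ≤ 1) :
    nu m i y ≠ nu m j z := by
  intro h
  have h1 := (nu_pos (m := m) i hy).1
  have h2 := (nu_pos (m := m) j hz).2
  rw [h] at h1
  have hp : (0 : ℝ) < (1 / 8 : ℝ) ^ i := by positivity
  have h3 : (1 / 8 : ℝ) ^ j ≤ (1 / 8 : ℝ) ^ (i + 1) :=
    pow_le_pow_of_le_one (by norm_num) (by norm_num) hij
  rw [pow_succ] at h3
  linarith

theorem nu_eq {i j : ℕ} {y z : E m} (hy : ‖y‖ ≤ 1) (hz : ‖z‖ ≤ 1) (h : nu m i y = nu m j z) :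
    i = j ∧ y = z := by
  have hij : i = j := by
    rcases lt_trichotomy i j with h1 | h1 | h1
    · exact absurd h (nu_lt h1 hy hz)
    · exact h1
    · exact absurd h.symm (nu_lt h1 hz hy)
  subst hij
  exact ⟨rfl, nu_inj h⟩

/-! ### Node points -/

section node
variable {σ : Type} {ch : σ → ℕ → σ}

theorem node_norm {s s' : σ} {x : E m} (h : NodeAt m ch s x s') : ‖x‖ ≤ 1 := by
  induction h with
  | root s => simp
  | step s i y s' _ ih => exact nu_norm i ih

theorem node_root {s s' : σ} (h : NodeAt m ch s (0 : E m) s') : s' = s := by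
  generalize hx : (0 : E m) = x at h
  cases h with
  | root s => rfl
  | step s i y s' h => exact absurd hx.symm (nu_ne_zero i (node_norm h))

theorem node_step {s s' : σ} {i : ℕ} {z : E m} (hz : ‖z‖ ≤ 1) :
    NodeAt m ch s (nu m i z) s' ↔ NodeAt m ch (ch s i) z s' := by
  constructor
  · intro h
    generalize hx : nu m i z = x at h
    cases h with
    | root s => exact absurd hx (nu_ne_zero i hz)
    | step s j y s' h =>
      obtain ⟨rfl, rfl⟩ := nu_eq hz (node_norm h) hx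
      exact h
  · intro h
    exact .step s i z s' h

theorem node_unique {s s' : σ} {x : E m} (h : NodeAt m ch s x s') :
    ∀ {s'' : σ}, NodeAt m ch s x s'' → s'' = s' := by
  induction h with
  | root s => exact fun h' => node_root h'
  | step s i y s' h ih => exact fun h' => ih ((node_step (node_norm h)).1 h')

theorem nu_continuous (i : ℕ) : Continuous (nu m i) := by
  unfold nu
  fun_prop

theorem nu_image_nhds (i : ℕ) {U : Set (E m)} {x : E m} (hU : U ∈ 𝓝 x) :
    nu m i '' U ∈ 𝓝 (nu m i x) := by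
  have hp : (0 : ℝ) < (1 / 8 : ℝ) ^ i := by positivity
  set g : E m → E m := fun z j =>
    (z j - (if j = 0 then (1 / 8 : ℝ) ^ i / 2 else 0)) / ((1 / 8 : ℝ) ^ i / 8) with hg
  have hgc : Continuous g := by
    rw [hg]
    fun_prop
  have hgn : ∀ z, g (nu m i z) = z := by
    intro z
    funext j
    simp only [hg, nu]
    field_simp
    ring
  have hng : ∀ z, nu m i (g z) = z := by
    intro z
    funext j
    simp only [hg, nu]
    field_simp
    ring
  have h1 : g ⁻¹' U ∈ 𝓝 (nu m i x) := by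
    refine hgc.continuousAt ?_
    rw [hgn]
    exact hU
  refine mem_of_superset h1 ?_
  intro z hz
  exact ⟨g z, hz, hng z⟩

theorem node_local {s s' : σ} {x : E m} (h : NodeAt m ch s x s') :
    ∃ g : E m → E m, Continuous g ∧ g 0 = x ∧ (∀ y, ‖y‖ ≤ 1 → ‖g y‖ ≤ 1) ∧
      g '' Metric.closedBall 0 1 ∈ 𝓝 x ∧
      ∀ y, ‖y‖ ≤ 1 → ∀ s'', NodeAt m ch s (g y) s'' ↔ NodeAt m ch s' y s'' := by
  induction h with
  | root s =>
    refine ⟨id, continuous_id, rfl, fun y hy => hy, ?_, fun y _ s'' => Iff.rfl⟩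
    rw [image_id]
    exact Metric.closedBall_mem_nhds _ (by norm_num)
  | step s i y s' h ih =>
    obtain ⟨g, hgc, hg0, hgn, hgU, hgs⟩ := ih
    refine ⟨nu m i ∘ g, (nu_continuous i).comp hgc, by simp [hg0],
      fun z hz => nu_norm i (hgn z hz), ?_, ?_⟩
    · rw [image_comp]
      exact nu_image_nhds i hgU
    · intro z hz s''
      show NodeAt m ch s (nu m i (g z)) s'' ↔ _
      rw [node_step (hgn z hz)]
      exact hgs z hz s''

end node

theorem chS_child (a : List ℕ → ℕ) (t : List ℕ) (i k : ℕ) :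
    chS a (.A t) (2 * Nat.pair i k) = .A (i :: t) := by
  have h1 : (2 * Nat.pair i k) % 2 = 0 := by omega
  have h2 : (2 * Nat.pair i k) / 2 = Nat.pair i k := by omega
  simp only [chS, h1, h2, if_true, Nat.unpair_pair]

/-- The states of the form `A` reached from `A t` extend `t`. -/
theorem node_A (b : List ℕ → ℕ) {s s' : St} {x : E m} (h : NodeAt m (chS b) s x s') :
    ∀ t'', s' = .A t'' → ∃ t', s = .A t' ∧ ∃ w, t'' = w ++ t' := by
  induction h with
  | root s => exact fun t'' h => ⟨t'', h, [], rfl⟩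
  | step s i y s' h ih =>
    intro t'' ht
    obtain ⟨t1, h1, w, rfl⟩ := ih t'' ht
    cases s with
    | A t =>
      simp only [chS] at h1
      split_ifs at h1 with h2
      simp only [St.A.injEq] at h1
      subst h1
      exact ⟨t, rfl, w ++ [(i / 2).unpair.1], by simp⟩
    | R n =>
      simp only [chS] at h1
      split_ifs at h1
    | O k =>
      cases k <;> simp [chS] at h1
    | dead => simp [chS] at h1

theorem nu_tendsto (i : ℕ) :
    Tendsto (fun k => nu m (2 * Nat.pair i k) 0) atTop (𝓝 0) := by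
  rw [tendsto_pi_nhds]
  intro j
  have h1 : Tendsto (fun k : ℕ => 2 * Nat.pair i k) atTop atTop := by
    refine tendsto_atTop_mono (fun k => ?_) tendsto_id
    have := Nat.right_le_pair i k
    simp only [id]
    omega
  have h2 : Tendsto (fun n : ℕ => (1 / 8 : ℝ) ^ n) atTop (𝓝 0) :=
    tendsto_pow_atTop_nhds_zero_of_lt_one (by norm_num) (by norm_num)
  have h3 := (h2.comp h1).div_const 2
  by_cases hj : j = 0
  · subst hj
    have h4 : (fun k => nu m (2 * Nat.pair i k) 0 0) =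
        fun k => ((fun n : ℕ => (1 / 8 : ℝ) ^ n) ∘ fun k : ℕ => 2 * Nat.pair i k) k / 2 := by
      funext k
      simp [nu]
    rw [h4]
    simpa using h3
  · have h4 : (fun k => nu m (2 * Nat.pair i k) 0 j) = fun _ => 0 := by
      funext k
      simp [nu, hj]
    rw [h4]
    exact tendsto_const_nhds

/-! ### The bisimulation -/

section main
variable (hBn : ∀ (a : List ℕ → ℕ), LabOK a → ∀ (x : E m) (n : ℕ),
    x ∈ Bn (KT m a) n ↔ ∃ t, NodeAt m (chS a) (.A []) x (.A t) ∧ ∃ w : List ℕ, a (w ++ t) = n)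

/-- The relation between nodes. -/
def RR (m : ℕ) (a b : List ℕ → ℕ) (H : OnePoint (E m) ≃ₜ OnePoint (E m)) (t t' : List ℕ) : Prop :=
  ∃ x x' : E m, NodeAt m (chS a) (.A []) x (.A t) ∧ NodeAt m (chS b) (.A []) x' (.A t') ∧
    H (x : OnePoint (E m)) = (x' : OnePoint (E m))

theorem Bn_H {a b : List ℕ → ℕ} (H : OnePoint (E m) ≃ₜ OnePoint (E m))
    (hH : H '' (TT (KT m a)) = TT (KT m b)) (y : OnePoint (E m)) (n : ℕ) :
    H y ∈ Bn (TT (KT m b)) n ↔ y ∈ Bn (TT (KT m a)) n := by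
  have h1 := Bn_pre H.isOpenEmbedding (TT (KT m b)) n
  have h2 : H ⁻¹' (TT (KT m b)) = TT (KT m a) := by
    rw [← hH, preimage_image_eq _ H.injective]
  rw [h2] at h1
  rw [← h1]
  rfl

theorem Bn_coe (a : List ℕ → ℕ) (x : E m) (n : ℕ) :
    (x : OnePoint (E m)) ∈ Bn (TT (KT m a)) n ↔ x ∈ Bn (KT m a) n := by
  have h1 := Bn_pre (OnePoint.isOpenEmbedding_coe (X := E m)) (TT (KT m a)) n
  rw [TT_pre] at h1
  rw [← h1]
  rfl

include hBn in
theorem labels {a : List ℕ → ℕ} (ha : LabOK a) {x : E m} {t : List ℕ}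
    (hx : NodeAt m (chS a) (.A []) x (.A t)) (n : ℕ) :
    x ∈ Bn (KT m a) n ↔ ∃ w : List ℕ, a (w ++ t) = n := by
  rw [hBn a ha]
  constructor
  · rintro ⟨t', h1, w, h2⟩
    have h3 := node_unique hx h1
    simp only [St.A.injEq] at h3
    subst h3
    exact ⟨w, h2⟩
  · rintro ⟨w, h⟩
    exact ⟨t, hx, w, h⟩

include hBn in
theorem RR_lab {a b : List ℕ → ℕ} (ha : LabOK a) (hb : LabOK b)
    (H : OnePoint (E m) ≃ₜ OnePoint (E m)) (hH : H '' (TT (KT m a)) = TT (KT m b))
    {t t' : List ℕ} (h : RR m a b H t t') : t.length = t'.length ∧ a t = b t' := by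
  obtain ⟨x, x', hx, hx', hxx⟩ := h
  have key : ∀ n, (∃ w : List ℕ, a (w ++ t) = n) ↔ ∃ w : List ℕ, b (w ++ t') = n := by
    intro n
    rw [← labels hBn ha hx, ← labels hBn hb hx', ← Bn_coe a, ← Bn_coe b, ← hxx, Bn_H H hH]
  obtain ⟨w, hw⟩ := (key (a t)).1 ⟨[], rfl⟩
  obtain ⟨v, hv⟩ := (key (b t')).2 ⟨[], rfl⟩
  have h1 : (w ++ t').length = t.length := by rw [← hb, hw, ha]
  have h2 : (v ++ t).length = t'.length := by rw [← ha, hv, hb]
  rw [List.length_append] at h1 h2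
  have h3 : w.length = 0 := by omega
  rw [List.length_eq_zero_iff] at h3
  subst h3
  exact ⟨by omega, hw.symm⟩

include hBn in
theorem RR_exists {a b : List ℕ → ℕ} (ha : LabOK a) (hb : LabOK b)
    (H : OnePoint (E m) ≃ₜ OnePoint (E m)) (hH : H '' (TT (KT m a)) = TT (KT m b))
    {x : E m} {t : List ℕ} (hx : NodeAt m (chS a) (.A []) x (.A t)) :
    ∃ (x' : E m) (t' : List ℕ), NodeAt m (chS b) (.A []) x' (.A t') ∧
      H (x : OnePoint (E m)) = (x' : OnePoint (E m)) := by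
  have h1 : (x : OnePoint (E m)) ∈ Bn (TT (KT m a)) (a t) := by
    rw [Bn_coe, labels hBn ha hx]
    exact ⟨[], rfl⟩
  rw [← Bn_H H hH] at h1
  have h2 : H (x : OnePoint (E m)) ≠ OnePoint.infty := by
    intro h
    rw [h] at h1
    exact infty_notMem _ (KT_norm b) _ h1
  obtain ⟨x', hx'⟩ := OnePoint.ne_infty_iff_exists.1 h2
  rw [← hx', Bn_coe, hBn b hb] at h1
  obtain ⟨t', h3, -⟩ := h1
  exact ⟨x', t', h3, hx'.symm⟩

include hBn in
theorem RR_child {a b : List ℕ → ℕ} (ha : LabOK a) (hb : LabOK b)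
    (H : OnePoint (E m) ≃ₜ OnePoint (E m)) (hH : H '' (TT (KT m a)) = TT (KT m b))
    {t t' : List ℕ} (h : RR m a b H t t') (i : ℕ) : ∃ j, RR m a b H (i :: t) (j :: t') := by
  obtain ⟨x, x', hx, hx', hxx⟩ := id h
  obtain ⟨g, hgc, hg0, hgn, hgU, hgs⟩ := node_local hx
  obtain ⟨g', hgc', hg0', hgn', hgU', hgs'⟩ := node_local hx'
  -- the sequence of children
  have h1 : Tendsto (fun k => H (g (nu m (2 * Nat.pair i k) 0) : OnePoint (E m))) atTop
      (𝓝 (x' : OnePoint (E m))) := by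
    have h2 : Tendsto (fun k => g (nu m (2 * Nat.pair i k) 0)) atTop (𝓝 x) := by
      have := (hgc.tendsto 0).comp (nu_tendsto (m := m) i)
      rw [hg0] at this
      exact this
    have h3 := ((H.continuous.comp OnePoint.continuous_coe).tendsto x).comp h2
    simp only [Function.comp_def] at h3
    rw [hxx] at h3
    exact h3
  have h4 : ((↑) : E m → OnePoint (E m)) '' (g' '' Metric.closedBall 0 1) ∈
      𝓝 (x' : OnePoint (E m)) := OnePoint.isOpenEmbedding_coe.image_mem_nhds.2 hgU'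
  obtain ⟨k, hk⟩ := (h1.eventually_mem h4).exists
  obtain ⟨_, ⟨z, hz, rfl⟩, hzk⟩ := hk
  rw [mem_closedBall_zero_iff] at hz
  set y : E m := g (nu m (2 * Nat.pair i k) 0) with hy
  have hyn : NodeAt m (chS a) (.A []) y (.A (i :: t)) := by
    rw [hy, hgs _ (nu_norm _ (by simp))]
    refine .step _ _ _ _ ?_
    rw [chS_child]
    exact .root _
  obtain ⟨y', t'', hy', hyy⟩ := RR_exists hBn ha hb H hH hyn
  have h5 : RR m a b H (i :: t) t'' := ⟨y, y', hyn, hy', hyy⟩
  have h6 := RR_lab hBn ha hb H hH h5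
  have h7 := RR_lab hBn ha hb H hH h
  have h8 : y' = g' z := by
    rw [← hzk] at hyy
    exact (OnePoint.coe_injective hyy).symm
  rw [h8, hgs' z hz] at hy'
  obtain ⟨t1, ht1, w, hw⟩ := node_A b hy' t'' rfl
  simp only [St.A.injEq] at ht1
  subst ht1
  subst hw
  have h9 : w.length = 1 := by
    have h10 := h6.1
    rw [List.length_append, List.length_cons] at h10
    omega
  rw [List.length_eq_one_iff] at h9
  obtain ⟨j, rfl⟩ := h9
  exact ⟨j, h5⟩

theorem RR_symm {a b : List ℕ → ℕ} (H : OnePoint (E m) ≃ₜ OnePoint (E m)) {t t' : List ℕ}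
    (h : RR m a b H t t') : RR m b a H.symm t' t := by
  obtain ⟨x, x', hx, hx', hxx⟩ := h
  exact ⟨x', x, hx', hx, by rw [← hxx, H.symm_apply_apply]⟩

include hBn in
theorem bisim_aux (a b : List ℕ → ℕ) (ha : LabOK a) (hb : LabOK b)
    (H : OnePoint (E m) ≃ₜ OnePoint (E m)) (hH : H '' (TT (KT m a)) = TT (KT m b)) :
    Bisim a b := by
  have hH' : H.symm '' (TT (KT m b)) = TT (KT m a) := by
    rw [← hH, ← image_comp]
    simp
  refine ⟨RR m a b H, ?_, ?_⟩
  · have h0 : NodeAt m (chS a) (.A []) 0 (.A []) := .root _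
    obtain ⟨x', t', h1, h2⟩ := RR_exists hBn ha hb H hH h0
    have h3 : RR m a b H [] t' := ⟨0, x', h0, h1, h2⟩
    have h4 := (RR_lab hBn ha hb H hH h3).1
    have h5 : t' = [] := by
      rw [← List.length_eq_zero_iff, ← h4]
      rfl
    rw [h5] at h3
    exact h3
  · intro t t' h
    refine ⟨(RR_lab hBn ha hb H hH h).2, fun i => RR_child hBn ha hb H hH h i, fun j => ?_⟩
    obtain ⟨i, hi⟩ := RR_child hBn hb ha H.symm hH' (RR_symm H h) j
    exact ⟨i, by simpa using RR_symm H.symm hi⟩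

end main

end BisimB

end Pool.Agent.Helper73.BR
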