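import Pool.Agent.Helper73.BR.DefsB

/-!
# Project BR, module Glue: the glued space of a parameter is a manifold
-/

open Set Filter Topology MeasureTheory
open scoped ContDiff

namespace Pool.Agent.Helper73.BR

variable {m : ℕ} {X : Set (E m)}

namespace Glue

theorem ropen_mem {U : Set (E m)} (h : ROpen X U) {x : E m} (hx : x ∈ U) : U ∈ 𝓝[X] x := by
  obtain ⟨V, hV, rfl⟩ := h
  exact inter_mem (mem_nhdsWithin_of_mem_nhds (hV.mem_nhds hx.1)) self_mem_nhdsWithin

theorem nhdsWithin_eq {U : Set (E m)} (h : ROpen X U) {x : E m} (hx : x ∈ U) :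
    𝓝[U] x = 𝓝[X] x := by
  obtain ⟨V, hV, rfl⟩ := h
  apply le_antisymm
  · exact nhdsWithin_mono _ inter_subset_right
  · rw [nhdsWithin_inter]
    exact le_inf (nhdsWithin_le_nhds.trans (by
      rw [IsOpen.nhdsWithin_eq hV hx.1])) le_rfl

theorem ptt_of_mem (p : ParC X) {k : ℕ} {x : E m} (hx : x ∈ p.1.U k k) :
    ptt p k x = p.1.point k x hx := dif_pos hx

theorem point_eq_iff (p : Par X) {k l : ℕ} {x y : E m} (hx : x ∈ p.U k k) (hy : y ∈ p.U l l) :
    p.point k x hx = p.point l y hy ↔ x ∈ p.U k l ∧ p.φ k l x = y :=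
  Quotient.eq (r := p.setoid)

/-- the inclusion of a chart in the disjoint union -/
def inc (p : Par X) (k : ℕ) (x : p.U k k) : p.Pre := ⟨(k, x.1), x.2⟩

theorem nhds_inc (p : Par X) (k : ℕ) (x : p.U k k) :
    𝓝 (inc p k x) = map (inc p k) (𝓝 x) := by
  apply le_antisymm
  · intro S hS
    rw [mem_map, nhds_subtype_eq_comap, mem_comap] at hS
    obtain ⟨T, hT, hTS⟩ := hS
    rw [nhds_subtype_eq_comap, mem_comap]
    refine ⟨({k} : Set ℕ) ×ˢ T, ?_, ?_⟩
    · exact prod_mem_nhds (by simp) hT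
    · rintro ⟨⟨l, y⟩, hy⟩ ⟨h1, h2⟩
      simp only [mem_singleton_iff] at h1
      subst h1
      exact hTS (a := ⟨y, hy⟩) h2
  · have hc : Continuous (inc p k) :=
      Continuous.subtype_mk (continuous_const.prodMk continuous_subtype_val) _
    exact hc.continuousAt

theorem isOpenMap_mk (p : Par X) : IsOpenMap (Quotient.mk p.setoid : p.Pre → p.Space) := by
  intro O hO
  rw [← isQuotientMap_quotient_mk'.isOpen_preimage (f := (Quotient.mk p.setoid : p.Pre → p.Space))]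
  rw [isOpen_iff_mem_nhds]
  rintro ⟨⟨l, y⟩, hy⟩ ⟨⟨⟨k, x⟩, hx⟩, hzO, hzw⟩
  have h1 : x ∈ p.U k l ∧ p.φ k l x = y := Quotient.exact (s := p.setoid) hzw
  obtain ⟨h1, h2⟩ := h1
  have h3 : y ∈ p.U l k := h2 ▸ p.maps _ _ _ h1
  have h4 : p.φ l k y = x := h2 ▸ p.inv _ _ _ h1
  have e : (⟨(l, y), hy⟩ : p.Pre) = inc p l ⟨y, hy⟩ := rfl
  rw [e, nhds_inc, mem_map, nhds_subtype_eq_comap, mem_comap]
  -- eventually in U l l
  have hO' : ∀ᶠ x' in 𝓝 (⟨x, hx⟩ : p.U k k), inc p k x' ∈ O := by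
    have := hO.mem_nhds hzO
    have e2 : (⟨(k, x), hx⟩ : p.Pre) = inc p k ⟨x, hx⟩ := rfl
    rw [e2, nhds_inc] at this
    exact this
  rw [nhds_subtype_eq_comap, eventually_comap] at hO'
  -- continuity of φ l k
  have hcont : Tendsto (p.φ l k) (𝓝[p.U l k] y) (𝓝 x) := by
    have := (p.smooth l k).continuousOn y h3
    rw [ContinuousWithinAt, h4] at this
    exact this
  have hev : ∀ᶠ y' in 𝓝[p.U l l] y, y' ∈ p.U l k ∧
      ∀ a : p.U k k, (a : E m) = p.φ l k y' → inc p k a ∈ O := by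
    rw [nhdsWithin_eq (p.ropen l l) hy]
    have h5 := ropen_mem (p.ropen l k) h3
    rw [← nhdsWithin_eq (p.ropen l k) h3] at h5 ⊢
    filter_upwards [h5, hcont.eventually hO'] with y' hy' hy''
    exact ⟨hy', hy''⟩
  rw [eventually_nhdsWithin_iff] at hev
  refine ⟨_, hev, ?_⟩
  rintro ⟨y', hy'⟩ h6
  obtain ⟨h7, h8⟩ := h6 hy'
  have h9 : p.φ l k y' ∈ p.U k l := p.maps _ _ _ h7
  have h10 : p.φ l k y' ∈ p.U k k := p.sub _ _ h9
  refine ⟨inc p k ⟨_, h10⟩, h8 ⟨_, h10⟩ rfl, ?_⟩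
  apply Quotient.sound (s := p.setoid)
  exact ⟨h9, p.inv _ _ _ h7⟩

theorem nhds_point (p : Par X) (k : ℕ) (x : p.U k k) :
    𝓝 (p.point k x.1 x.2) = map (fun y : p.U k k => p.point k y.1 y.2) (𝓝 x) := by
  have h1 : 𝓝 (p.point k x.1 x.2) =
      map (Quotient.mk p.setoid : p.Pre → p.Space) (𝓝 (inc p k x)) := by
    apply le_antisymm
    · exact (isOpenMap_mk p).nhds_le _
    · have hc : Continuous (Quotient.mk p.setoid : p.Pre → p.Space) := continuous_quotient_mk'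
      exact hc.continuousAt
  rw [h1, nhds_inc, map_map]
  rfl

theorem nhds_ptt (p : ParC X) (k : ℕ) {x : E m} (hx : x ∈ p.1.U k k) :
    𝓝 (ptt p k x) = map (ptt p k) (𝓝[X] x) := by
  rw [ptt_of_mem p hx, nhds_point p.1 k ⟨x, hx⟩, ← nhdsWithin_eq (p.1.ropen k k) hx,
    nhdsWithin_eq_map_subtype_coe hx, map_map]
  congr 1
  funext y
  exact (ptt_of_mem p y.2).symm

end Glue

theorem ptt_eq_iff (p : ParC X) {k l : ℕ} {x y : E m} (hx : x ∈ p.1.U k k) (hy : y ∈ p.1.U l l) :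
    ptt p k x = ptt p l y ↔ x ∈ p.1.U k l ∧ p.1.φ k l x = y := by
  rw [Glue.ptt_of_mem p hx, Glue.ptt_of_mem p hy]
  exact Glue.point_eq_iff p.1 hx hy

theorem exists_man (p : ParC X) :
    ∃ A : Man X p.1.Space, (∀ l, A.U l = p.1.U l l) ∧ ∀ l, A.pt l = ptt p l := by
  refine ⟨{ U := fun l => p.1.U l l, pt := ptt p, ropen := fun l => p.1.ropen l l, inj := ?_,
            cover := ?_, nhds_pt := fun l x hx => Glue.nhds_ptt p l hx, trans := ?_ },
          fun _ => rfl, fun _ => rfl⟩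
  · intro l x hx y hy h
    have := (ptt_eq_iff p hx hy).1 h
    rw [← this.2, p.1.diag l x hx]
  · intro z
    obtain ⟨⟨⟨k, x⟩, hx⟩, rfl⟩ := Quotient.exists_rep (s := p.1.setoid) z
    exact ⟨k, x, hx, Glue.ptt_of_mem p hx⟩
  · intro l l' x y hx hy h
    obtain ⟨h1, h2⟩ := (ptt_eq_iff p hx hy).1 h
    refine ⟨p.1.φ l l', ?_, ?_⟩
    · exact (p.1.smooth l l' x h1).mono_of_mem_nhdsWithin
        (Glue.ropen_mem (p.1.ropen l l') h1)
    · filter_upwards [Glue.ropen_mem (p.1.ropen l l') h1] with z hz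
      have h3 : p.1.φ l l' z ∈ p.1.U l' l' := p.1.sub _ _ (p.1.maps _ _ _ hz)
      exact ⟨h3, (ptt_eq_iff p (p.1.sub _ _ hz) h3).2 ⟨hz, rfl⟩⟩

/-- The manifold of a parameter. -/
noncomputable def man (p : ParC X) : Man X p.1.Space := (exists_man p).choose

theorem man_U (p : ParC X) (l : ℕ) : (man p).U l = p.1.U l l := (exists_man p).choose_spec.1 l

theorem man_pt (p : ParC X) (l : ℕ) : (man p).pt l = ptt p l := (exists_man p).choose_spec.2 l

/-- `f` is a diffeomorphism matching the boxes of two nodes. -/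
def Match (Q : QFam m) (p q : ParC (HS m)) (f : p.1.Space ≃ q.1.Space) (s t : List (NCode m)) :
    Prop :=
  DM (man p) (man q) f ∧ List.Forall₂ (fun c c' : NCode m =>
    ∀ x ∈ c.1.core, ∀ᶠ z in 𝓝[HS m] x, f (c.1.fn Q p z) = c'.1.fn Q q z) s t

theorem smoothMap_iff (p q : ParC X) (f : p.1.Space → q.1.Space) :
    SmoothMap p.1 q.1 f ↔ SmM (man p) (man q) f := by
  constructor
  · intro h l x hx l' y hy hxy
    rw [man_U] at hx hy
    rw [man_pt, man_pt] at hxy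
    rw [man_pt, man_pt, man_U]
    rw [Glue.ptt_of_mem p hx, Glue.ptt_of_mem q hy] at hxy
    obtain ⟨g, hg, hev⟩ := h l x hx l' y hy hxy
    refine ⟨g, hg, ?_⟩
    filter_upwards [hev] with z hz
    obtain ⟨h1, h2, h3⟩ := hz
    refine ⟨h2, ?_⟩
    rw [Function.comp_apply, Glue.ptt_of_mem p h1, Glue.ptt_of_mem q h2]
    exact h3
  · intro h k x hx l y hy hxy
    have := h k x (by rw [man_U]; exact hx) l y (by rw [man_U]; exact hy)
      (by rw [man_pt, man_pt, Glue.ptt_of_mem p hx, Glue.ptt_of_mem q hy]; exact hxy)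
    rw [man_pt, man_pt, man_U] at this
    obtain ⟨g, hg, hev⟩ := this
    refine ⟨g, hg, ?_⟩
    filter_upwards [hev, Glue.ropen_mem (p.1.ropen k k) hx] with z hz hz'
    refine ⟨hz', hz.1, ?_⟩
    have := hz.2
    rw [Function.comp_apply, Glue.ptt_of_mem p hz', Glue.ptt_of_mem q hz.1] at this
    exact this

theorem diffeo_iff (p q : ParC X) : Diffeo p.1 q.1 ↔ ∃ f, DM (man p) (man q) f := by
  unfold Diffeo DM
  simp only [smoothMap_iff p q, smoothMap_iff q p]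

end Pool.Agent.Helper73.BR
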