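import Pool.Agent.Helper73.BR.DefsB
import Pool.Agent.BR.Glue
import Pool.Agent.BR.BpInv

/-!
# Project BR, module PGerm: regularity of terms
-/

open Set Filter Topology
open scoped ContDiff

namespace Pool.Agent.Helper73.BR

variable {m : ℕ}

namespace PGerm

theorem ropen_mem {X U : Set (E m)} (h : ROpen X U) {x : E m} (hx : x ∈ U) : U ∈ 𝓝[X] x := by
  obtain ⟨V, hV, rfl⟩ := h
  exact inter_mem (mem_nhdsWithin_of_mem_nhds (hV.mem_nhds hx.1)) self_mem_nhdsWithin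

theorem ropen_sub {X U : Set (E m)} (h : ROpen X U) : U ⊆ X := by
  obtain ⟨V, hV, rfl⟩ := h
  exact inter_subset_right

theorem ropen_of {X U : Set (E m)} (hs : U ⊆ X) (h : ∀ x ∈ U, U ∈ 𝓝[X] x) : ROpen X U := by
  refine ⟨interior (U ∪ Xᶜ), isOpen_interior, ?_⟩
  apply Subset.antisymm
  · intro x hx
    refine ⟨?_, hs hx⟩
    rw [mem_interior_iff_mem_nhds]
    have h1 := h x hx
    rw [mem_nhdsWithin_iff_eventually] at h1
    filter_upwards [h1] with z hz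
    by_cases hzX : z ∈ X
    · exact Or.inl (hz hzX)
    · exact Or.inr hzX
  · rintro x ⟨hx, hxX⟩
    rcases interior_subset hx with h1 | h1
    · exact h1
    · exact absurd hxX h1

theorem tendsto_nhdsWithin {f : E m → E m} {x : E m}
    (hf : ContDiffWithinAt ℝ ∞ f (HS m) x) (hm : ∀ᶠ z in 𝓝[HS m] x, f z ∈ HS m) :
    Tendsto f (𝓝[HS m] x) (𝓝[HS m] (f x)) :=
  tendsto_nhdsWithin_iff.2 ⟨hf.continuousWithinAt, hm⟩

theorem comp_smooth {f g : E m → E m} {x : E m}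
    (hg : ContDiffWithinAt ℝ ∞ g (HS m) (f x)) (hf : ContDiffWithinAt ℝ ∞ f (HS m) x)
    (hm : ∀ᶠ z in 𝓝[HS m] x, f z ∈ HS m) :
    ContDiffWithinAt ℝ ∞ (fun z => g (f z)) (HS m) x :=
  hg.comp_of_preimage_mem_nhdsWithin x hf hm

theorem phi_smooth (p : Par (HS m)) (k l : ℕ) :
    ∀ x ∈ p.U k l, ContDiffWithinAt ℝ ∞ (p.φ k l) (HS m) x := fun x hx =>
  (p.smooth k l x hx).mono_of_mem_nhdsWithin (ropen_mem (p.ropen k l) hx)

end PGerm

section
variable (Q : QFam m)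

theorem isCompact_on (D : RBox m) : IsCompact (D.on (HS m)) := by
  have h1 : D.on (HS m) = HS m ∩ Icc (fun i => (D.1 i : ℝ)) (fun i => (D.2 i : ℝ)) := by
    ext x
    constructor
    · rintro ⟨hx, h⟩
      exact ⟨hx, fun i => (h i).1, fun i => (h i).2⟩
    · rintro ⟨hx, h1, h2⟩
      exact ⟨hx, fun i => ⟨h1 i, h2 i⟩⟩
  rw [h1]
  apply IsCompact.inter_left isCompact_Icc
  exact isClosed_le continuous_const (continuous_apply _)

theorem phi_bp (p : Par (HS m)) (k l : ℕ) : BP (p.φ k l) (p.U k l) :=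
  bp_of_inv (p.ropen k l) (p.ropen l k) (PGerm.phi_smooth p k l) (PGerm.phi_smooth p l k)
    (fun x hx => p.maps k l x hx) (fun x hx => p.maps l k x hx) (fun x hx => p.inv k l x hx)
    (fun x hx => p.inv l k x hx)

namespace PGerm

theorem ip_zero {s a b : ℝ} (hs0 : 0 ≤ s) (hs1 : s ≤ 1) (ha : 0 ≤ a) (hb : 0 ≤ b) {c : ℝ}
    (hac : a = 0 ↔ c = 0) (hbc : b = 0 ↔ c = 0) :
    0 ≤ (1 - s) * a + s * b ∧ ((1 - s) * a + s * b = 0 ↔ c = 0) := by
  have h1 : 0 ≤ (1 - s) * a := mul_nonneg (by linarith) ha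
  have h2 : 0 ≤ s * b := mul_nonneg hs0 hb
  refine ⟨by linarith, ?_, ?_⟩
  · intro h
    have h3 : (1 - s) * a = 0 := by linarith
    have h4 : s * b = 0 := by linarith
    rcases mul_eq_zero.1 h3 with h5 | h5
    · rcases mul_eq_zero.1 h4 with h6 | h6
      · exfalso; linarith
      · exact hbc.1 h6
    · exact hac.1 h5
  · intro h
    rw [hac.2 h, hbc.2 h]
    ring

theorem all (p : Par (HS m)) (T : PTerm) : ROpen (HS m) (T.good Q p) ∧
    (∀ x ∈ T.good Q p, ContDiffWithinAt ℝ ∞ (T.eval Q p) (HS m) x) ∧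
    BP (T.eval Q p) (T.good Q p) := by
  induction T with
  | q n =>
    refine ⟨⟨univ, isOpen_univ, by simp [PTerm.good]⟩, fun x hx => Q.q_smooth n x hx, Q.q_bp n⟩
  | tr l l' F ih =>
    obtain ⟨h1, h2, h3⟩ := ih
    have hev : ∀ x ∈ F.good Q p, ∀ᶠ z in 𝓝[HS m] x, F.eval Q p z ∈ HS m := by
      intro x hx
      filter_upwards [ropen_mem h1 hx] with z hz
      exact (h3 z hz).1
    refine ⟨ropen_of (fun x hx => ropen_sub h1 hx.1) ?_, ?_, ?_⟩
    · rintro x ⟨hx, hx'⟩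
      have h4 := (tendsto_nhdsWithin (h2 x hx) (hev x hx)).eventually
        (ropen_mem (p.ropen l l') hx')
      filter_upwards [ropen_mem h1 hx, h4] with z hz hz'
      exact ⟨hz, hz'⟩
    · rintro x ⟨hx, hx'⟩
      have h5 := comp_smooth (f := F.eval Q p) (g := p.φ l l') (phi_smooth p l l' _ hx')
        (h2 x hx) (hev x hx)
      exact h5
    · rintro x ⟨hx, hx'⟩
      have h4 := phi_bp p l l' _ hx'
      exact ⟨h4.1, h4.2.trans (h3 x hx).2⟩
  | pre F n ih =>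
    obtain ⟨h1, h2, h3⟩ := ih
    have hev : ∀ x ∈ HS m, ∀ᶠ z in 𝓝[HS m] x, Q.q n z ∈ HS m := by
      intro x hx
      filter_upwards [self_mem_nhdsWithin] with z hz
      exact (Q.q_bp n z hz).1
    refine ⟨ropen_of (fun x hx => hx.1) ?_, ?_, ?_⟩
    · rintro x ⟨hx, hx'⟩
      have h4 := (tendsto_nhdsWithin (Q.q_smooth n x hx) (hev x hx)).eventually
        (ropen_mem h1 hx')
      filter_upwards [self_mem_nhdsWithin, h4] with z hz hz'
      exact ⟨hz, hz'⟩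
    · rintro x ⟨hx, hx'⟩
      have h5 := comp_smooth (f := Q.q n) (g := F.eval Q p) (h2 _ hx') (Q.q_smooth n x hx)
        (hev x hx)
      exact h5
    · rintro x ⟨hx, hx'⟩
      have h4 := h3 _ hx'
      exact ⟨h4.1, h4.2.trans (Q.q_bp n x hx).2⟩
  | ip j F G ihF ihG =>
    obtain ⟨h1, h2, h3⟩ := ihF
    obtain ⟨k1, k2, k3⟩ := ihG
    refine ⟨ropen_of (fun x hx => ropen_sub h1 hx.1) ?_, ?_, ?_⟩
    · rintro x ⟨hx, hx'⟩
      exact inter_mem (ropen_mem h1 hx) (ropen_mem k1 hx')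
    · rintro x ⟨hx, hx'⟩
      have h4 : ContDiffWithinAt ℝ ∞ (Q.ψ j) (HS m) x := (Q.ψ_smooth j).contDiffWithinAt
      exact ((contDiffWithinAt_const.sub h4).smul (h2 x hx)).add (h4.smul (k2 x hx'))
    · rintro x ⟨hx, hx'⟩
      have h4 := ip_zero (Q.ψ_range j x).1 (Q.ψ_range j x).2 (h3 x hx).1 (k3 x hx').1
        (h3 x hx).2 (k3 x hx').2
      exact h4

end PGerm

theorem good_ropen (p : Par (HS m)) (T : PTerm) : ROpen (HS m) (T.good Q p) :=
  (PGerm.all Q p T).1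

theorem eval_smooth (p : Par (HS m)) (T : PTerm) :
    ∀ x ∈ T.good Q p, ContDiffWithinAt ℝ ∞ (T.eval Q p) (HS m) x :=
  (PGerm.all Q p T).2.1

theorem eval_bp (p : Par (HS m)) (T : PTerm) : BP (T.eval Q p) (T.good Q p) :=
  (PGerm.all Q p T).2.2

theorem isNice_PGerm (p : Par (HS m)) : IsNice Q (PGerm Q p) where
  congr := by
    rintro F F' x ⟨T, hT, hF⟩ h
    exact ⟨T, hT, h.trans hF⟩
  spread := by
    rintro F x ⟨T, hT, hF⟩
    filter_upwards [PGerm.ropen_mem (good_ropen Q p T) hT,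
      eventually_eventually_nhdsWithin.2 hF] with z hz hz'
    exact ⟨T, hz, hz'⟩
  base := fun n x hx => ⟨.q n, hx, Filter.EventuallyEq.rfl⟩
  interp := by
    rintro F x ⟨T, hT, hF⟩ j n
    refine ⟨.ip j T (.q n), ⟨hT, PGerm.ropen_sub (good_ropen Q p T) hT⟩, ?_⟩
    filter_upwards [hF] with z hz
    simp only [PTerm.eval, hz]

theorem pgerm_tr (p : ParC (HS m)) : ∀ F x l l', PGerm Q p.1 F x → F x ∈ p.1.U l l →
    ptt p l (F x) ∈ ptt p l' '' p.1.U l' l' → ∃ F', PGerm Q p.1 F' x ∧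
      ∀ᶠ z in 𝓝[HS m] x, F' z ∈ p.1.U l' l' ∧ ptt p l (F z) = ptt p l' (F' z) := by
  rintro F x l l' ⟨T, hT, hF⟩ hl ⟨y, hy, hyF⟩
  have hxH : x ∈ HS m := PGerm.ropen_sub (good_ropen Q p.1 T) hT
  have hFx : F x = T.eval Q p.1 x := hF.eq_of_nhdsWithin hxH
  obtain ⟨h1, h2⟩ := (ptt_eq_iff p hl hy).1 hyF.symm
  have hgood : x ∈ (PTerm.tr l l' T).good Q p.1 := ⟨hT, by rw [← hFx]; exact h1⟩
  refine ⟨fun z => p.1.φ l l' (F z), ⟨.tr l l' T, hgood, ?_⟩, ?_⟩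
  · filter_upwards [hF] with z hz
    simp only [PTerm.eval, hz]
  · filter_upwards [hF, PGerm.ropen_mem (good_ropen Q p.1 (.tr l l' T)) hgood] with z hz hz'
    have h3 : F z ∈ p.1.U l l' := by rw [hz]; exact hz'.2
    have h4 : p.1.φ l l' (F z) ∈ p.1.U l' l' := p.1.sub _ _ (p.1.maps _ _ _ h3)
    exact ⟨h4, (ptt_eq_iff p (p.1.sub _ _ h3) h4).2 ⟨h3, rfl⟩⟩

theorem pgerm_pre (p : Par (HS m)) (F : E m → E m) (x : E m) (n : ℕ) (hx : x ∈ HS m)
    (h : PGerm Q p F (Q.q n x)) : PGerm Q p (fun z => F (Q.q n z)) x := by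
  obtain ⟨T, hT, hF⟩ := h
  refine ⟨.pre T n, ⟨hx, hT⟩, ?_⟩
  have h1 : Tendsto (Q.q n) (𝓝[HS m] x) (𝓝[HS m] (Q.q n x)) := by
    apply PGerm.tendsto_nhdsWithin (Q.q_smooth n x hx)
    filter_upwards [self_mem_nhdsWithin] with z hz
    exact (Q.q_bp n z hz).1
  exact h1.eventually hF

end

end Pool.Agent.Helper73.BR
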