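import Pool.Agent.BR.Base
import Pool.Agent.BR.Glue
import Pool.Agent.BR.PGerm

/-!
# Project BR, module CodeEx: nice parametrisations have codes
-/

open Set Filter Topology MeasureTheory
open scoped ContDiff

namespace Pool.Agent.Helper73.BR

variable {m : ℕ}

namespace CodeEx

theorem convex_HS : Convex ℝ (HS m) := by
  intro x hx y hy a b ha hb hab
  simp only [HS, mem_ofPred_eq, Pi.add_apply, Pi.smul_apply, smul_eq_mul] at hx hy ⊢
  positivity

/-- Small rational boxes. -/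
theorem exists_box {x : E m} (hx : x ∈ HS m) {S : Set (E m)} (hS : S ∈ 𝓝[HS m] x) :
    ∃ D : RBox m, x ∈ rint (HS m) (D.on (HS m)) ∧ D.on (HS m) ⊆ S := by
  rw [mem_nhdsWithin_iff_exists_mem_nhds_inter] at hS
  obtain ⟨V, hV, hVS⟩ := hS
  obtain ⟨ε, hε, hball⟩ := Metric.mem_nhds_iff.1 hV
  have h1 : ∀ i, ∃ a : ℚ, x i - ε / 2 < a ∧ (a : ℝ) < x i := fun i => exists_rat_btwn (by linarith)
  have h2 : ∀ i, ∃ b : ℚ, x i < b ∧ (b : ℝ) < x i + ε / 2 := fun i => exists_rat_btwn (by linarith)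
  choose a ha1 ha2 using h1
  choose b hb1 hb2 using h2
  refine ⟨(a, b), ⟨hx, ?_⟩, ?_⟩
  · rw [mem_nhdsWithin_iff_exists_mem_nhds_inter]
    refine ⟨{z | ∀ i, z i ∈ Icc (a i : ℝ) (b i)}, ?_, ?_⟩
    · have : {z : E m | ∀ i, z i ∈ Icc (a i : ℝ) (b i)} = Set.pi univ (fun i => Icc (a i : ℝ) (b i)) := by
        ext z; simp [Pi.le_def, forall_and]
      rw [this]
      exact set_pi_mem_nhds finite_univ (fun i _ => Icc_mem_nhds (ha2 i) (hb1 i))
    · rintro z ⟨hz1, hz2⟩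
      exact ⟨hz2, fun i => hz1 i⟩
  · rintro z ⟨hz1, hz2⟩
    refine hVS ⟨hball ?_, hz1⟩
    rw [Metric.mem_ball, dist_pi_lt_iff hε]
    intro i
    rw [Real.dist_eq, abs_lt]
    have h3 := hz2 i
    constructor <;> linarith [ha1 i, hb2 i, h3.1, h3.2]

theorem rint_mem {X S : Set (E m)} {x : E m} (h : x ∈ rint X S) : rint X S ∈ 𝓝[X] x := by
  have h1 : ∀ᶠ z in 𝓝[X] x, z ∈ S := h.2
  rw [← eventually_eventually_nhdsWithin] at h1
  filter_upwards [h1, self_mem_nhdsWithin] with z hz hzX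
  exact ⟨hzX, hz⟩

/-- The value of the coded map. -/
theorem fn_eq (Q : QFam m) (p : ParC (HS m)) (c : BCode m) (u : E m → p.1.Space)
    (h : ∀ e ∈ c.2, ∀ z ∈ e.1.on (HS m), u z = ptt p e.2.1 (e.2.2.eval Q p.1 z)) {z : E m}
    (hz : z ∈ c.all) : c.fn Q p z = u z := by
  classical
  obtain ⟨e, he, hze⟩ := hz
  unfold BCode.fn
  cases hf : c.2.find? (fun e => decide (z ∈ e.1.on (HS m))) with
  | none =>
    rw [List.find?_eq_none] at hf
    have := hf e he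
    simp only [decide_eq_true_eq] at this
    exact absurd hze this
  | some e' =>
    have h1 := List.find?_some hf
    have h2 := List.mem_of_find?_eq_some hf
    simp only [decide_eq_true_eq] at h1
    rw [Option.map_some, Option.getD_some, h e' h2 z h1]

/-- A good piece. -/
def GP (Q : QFam m) (p : ParC (HS m)) (u : E m → p.1.Space) (W : Set (E m))
    (e : RBox m × ℕ × PTerm) : Prop :=
  ∀ z ∈ e.1.on (HS m), z ∈ W ∧ z ∈ e.2.2.good Q p.1 ∧
    e.2.2.eval Q p.1 z ∈ p.1.U e.2.1 e.2.1 ∧ u z = ptt p e.2.1 (e.2.2.eval Q p.1 z)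

theorem exists_piece (Q : QFam m) (p : ParC (HS m)) {u : E m → p.1.Space} {W : Set (E m)}
    (hu : Param (man p) u W) {x : E m} (hxW : x ∈ W) (hx : x ∈ HS m)
    (hr : ∃ l, NRel (PGerm Q p.1) u ((man p).pt l) ((man p).U l) x) :
    ∃ e : RBox m × ℕ × PTerm, x ∈ rint (HS m) (e.1.on (HS m)) ∧ GP Q p u W e := by
  obtain ⟨l, F, ⟨T, hxT, hFT⟩, hev⟩ := hr
  rw [man_U, man_pt] at hev
  have h1 : ∀ᶠ z in 𝓝[HS m] x, z ∈ W := hu.1.mem_nhdsWithin hxW
  have h2 : ∀ᶠ z in 𝓝[HS m] x, z ∈ T.good Q p.1 := (good_ropen Q p.1 T).mem_nhdsWithin hxT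
  obtain ⟨D, hD1, hD2⟩ := exists_box hx (h1.and (h2.and (hFT.and hev)))
  refine ⟨(D, l, T), hD1, fun z hz => ?_⟩
  obtain ⟨h3, h4, h5, h6, h7⟩ := hD2 hz
  rw [h5] at h6 h7
  exact ⟨h3, h4, h6, h7⟩

theorem local_lower (Q : QFam m) (p : ParC (HS m)) {u : E m → p.1.Space} {W : Set (E m)}
    (hu : Param (man p) u W) {e : RBox m × ℕ × PTerm} (he : GP Q p u W e) {x : E m}
    (hx : x ∈ e.1.on (HS m)) :
    ∃ K : ℝ, 0 < K ∧ ∃ ε : ℝ, 0 < ε ∧ ∀ z ∈ e.1.on (HS m), ∀ z' ∈ e.1.on (HS m),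
      dist z x < ε → dist z' x < ε →
      ‖z - z'‖ ≤ K * ‖e.2.2.eval Q p.1 z - e.2.2.eval Q p.1 z'‖ := by
  obtain ⟨hxW, hxg, hxU, hxu⟩ := he x hx
  have hU : ∀ l, p.1.U l l ⊆ HS m := fun l => (p.1.ropen l l).subset
  obtain ⟨-, g, hg, hgev⟩ := hu.2.2.2 x hxW e.2.1 (e.2.2.eval Q p.1 x)
    (by rw [man_U]; exact hxU) (by rw [man_pt]; exact hxu)
  rw [man_pt] at hgev
  obtain ⟨K, t, ht, hK⟩ := (hg.of_le (m := 1) (by exact_mod_cast le_top)).exists_lipschitzOnWith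
    convex_HS
  have hcont : Tendsto (e.2.2.eval Q p.1) (𝓝[e.1.on (HS m)] x) (𝓝[HS m] (e.2.2.eval Q p.1 x)) := by
    apply tendsto_nhdsWithin_of_tendsto_nhds_of_eventually_within
    · exact ((eval_smooth Q p.1 e.2.2 x hxg).continuousWithinAt.mono (fun z hz => hz.1))
    · filter_upwards [self_mem_nhdsWithin] with z hz
      exact hU _ (he z hz).2.2.1
  have hev : ∀ᶠ z in 𝓝[e.1.on (HS m)] x, e.2.2.eval Q p.1 z ∈ t ∧ g (e.2.2.eval Q p.1 z) = z := by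
    filter_upwards [hcont ht, hcont hgev, self_mem_nhdsWithin] with z hz1 hz2 hz3
    refine ⟨hz1, ?_⟩
    obtain ⟨hz2a, hz2b⟩ := hz2
    refine hu.2.1 hz2a (he z hz3).1 ?_
    rw [(he z hz3).2.2.2, hz2b]
  obtain ⟨ε, hε, hb⟩ := Metric.mem_nhdsWithin_iff.1 hev
  refine ⟨K + 1, by positivity, ε, hε, fun z hz z' hz' h1 h2 => ?_⟩
  obtain ⟨a1, a2⟩ := hb ⟨h1, hz⟩
  obtain ⟨b1, b2⟩ := hb ⟨h2, hz'⟩
  have h3 := hK.dist_le_mul _ a1 _ b1
  rw [a2, b2, dist_eq_norm, dist_eq_norm] at h3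
  refine h3.trans ?_
  gcongr
  linarith

theorem lower (Q : QFam m) (p : ParC (HS m)) {u : E m → p.1.Space} {W : Set (E m)}
    (hu : Param (man p) u W) {e : RBox m × ℕ × PTerm} (he : GP Q p u W e) :
    ∃ δ : ℝ, 0 < δ ∧ ∀ x ∈ e.1.on (HS m), ∀ y ∈ e.1.on (HS m), ‖x - y‖ < δ →
      δ * ‖x - y‖ ≤ ‖e.2.2.eval Q p.1 x - e.2.2.eval Q p.1 y‖ := by
  set T := e.2.2.eval Q p.1 with hT
  refine IsCompact.induction_on (isCompact_on e.1) (p := fun S => ∃ δ : ℝ, 0 < δ ∧ ∀ x ∈ S,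
    ∀ y ∈ e.1.on (HS m), ‖x - y‖ < δ → δ * ‖x - y‖ ≤ ‖T x - T y‖) ?_ ?_ ?_ ?_
  · exact ⟨1, one_pos, fun x hx => absurd hx (notMem_empty x)⟩
  · rintro s t hst ⟨δ, hδ, h⟩
    exact ⟨δ, hδ, fun x hx => h x (hst hx)⟩
  · rintro s t ⟨δ, hδ, h⟩ ⟨δ', hδ', h'⟩
    refine ⟨min δ δ', lt_min hδ hδ', fun x hx y hy hxy => ?_⟩
    rcases hx with hx | hx
    · refine le_trans ?_ (h x hx y hy (hxy.trans_le (min_le_left _ _)))
      gcongr
      exact min_le_left _ _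
    · refine le_trans ?_ (h' x hx y hy (hxy.trans_le (min_le_right _ _)))
      gcongr
      exact min_le_right _ _
  · intro x hx
    obtain ⟨K, hK, ε, hε, h⟩ := local_lower Q p hu he hx
    refine ⟨Metric.ball x (ε / 2) ∩ e.1.on (HS m), ?_, min (ε / 2) (1 / K), by positivity, ?_⟩
    · exact inter_mem (mem_nhdsWithin_of_mem_nhds (Metric.ball_mem_nhds _ (by positivity)))
        self_mem_nhdsWithin
    · rintro z ⟨hz1, hz2⟩ y hy hzy
      rw [Metric.mem_ball] at hz1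
      have h1 : dist y x < ε := by
        have h2 : dist y z < ε / 2 := by
          rw [dist_comm, dist_eq_norm]
          exact hzy.trans_le (min_le_left _ _)
        linarith [dist_triangle y z x]
      have h3 := h z hz2 y hy (by linarith) h1
      calc min (ε / 2) (1 / K) * ‖z - y‖ ≤ 1 / K * (K * ‖T z - T y‖) := by
            gcongr
            exact min_le_right _ _
        _ = ‖T z - T y‖ := by field_simp

end CodeEx

open CodeEx in
theorem exists_code (Q : QFam m) (p : ParC (HS m)) {u : E m → p.1.Space} {W : Set (E m)}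
    (hu : Param (man p) u W) (B : RBox m) (hB : B.on (HS m) ⊆ W)
    (hr : ∀ x ∈ B.on (HS m), ∃ l, NRel (PGerm Q p.1) u ((man p).pt l) ((man p).U l) x) :
    ∃ c : BCode m, c.1 = B ∧ c.ok Q p ∧
      ∀ x ∈ B.on (HS m), ∀ᶠ z in 𝓝[HS m] x, c.fn Q p z = u z := by
  have hcov : ∃ L : List (RBox m × ℕ × PTerm), (∀ e ∈ L, GP Q p u W e) ∧
      ∀ x ∈ B.on (HS m), ∃ e ∈ L, x ∈ rint (HS m) (e.1.on (HS m)) := by
    refine IsCompact.induction_on (isCompact_on B)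
      (p := fun S => ∃ L : List (RBox m × ℕ × PTerm), (∀ e ∈ L, GP Q p u W e) ∧
        ∀ x ∈ S, ∃ e ∈ L, x ∈ rint (HS m) (e.1.on (HS m))) ?_ ?_ ?_ ?_
    · exact ⟨[], by simp, fun x hx => absurd hx (notMem_empty x)⟩
    · rintro s t hst ⟨L, hL, h⟩
      exact ⟨L, hL, fun x hx => h x (hst hx)⟩
    · rintro s t ⟨L, hL, h⟩ ⟨L', hL', h'⟩
      refine ⟨L ++ L', fun e he => ?_, fun x hx => ?_⟩
      · rcases List.mem_append.1 he with he | he
        · exact hL e he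
        · exact hL' e he
      · rcases hx with hx | hx
        · obtain ⟨e, he, hxe⟩ := h x hx
          exact ⟨e, List.mem_append_left _ he, hxe⟩
        · obtain ⟨e, he, hxe⟩ := h' x hx
          exact ⟨e, List.mem_append_right _ he, hxe⟩
    · intro x hx
      obtain ⟨e, he1, he2⟩ := exists_piece Q p hu (hB hx) hx.1 (hr x hx)
      refine ⟨rint (HS m) (e.1.on (HS m)), ?_, [e], by simpa using he2, fun z hz => ⟨e, by simp, hz⟩⟩
      exact nhdsWithin_mono _ (fun z hz => hz.1) (rint_mem he1)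
  obtain ⟨L, hL, hLB⟩ := hcov
  have hfn : ∀ z ∈ BCode.all ((B, L) : BCode m), BCode.fn Q p ((B, L) : BCode m) z = u z :=
    fun z hz => fn_eq Q p (B, L) u (fun e he z hz => (hL e he z hz).2.2.2) hz
  refine ⟨(B, L), rfl, ⟨?_, ?_, ?_, ?_, ?_⟩, ?_⟩
  · intro x hx
    exact hLB x hx
  · intro e he x hx
    exact ⟨(hL e he x hx).2.1, (hL e he x hx).2.2.1⟩
  · intro e he e' he' x hx hx'
    rw [← (hL e he x hx).2.2.2, ← (hL e' he' x hx').2.2.2]
  · intro x hx y hy hxy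
    rw [hfn x hx, hfn y hy] at hxy
    obtain ⟨e, he, hxe⟩ := hx
    obtain ⟨e', he', hye⟩ := hy
    exact hu.2.1 (hL e he x hxe).1 (hL e' he' y hye).1 hxy
  · intro e he
    exact lower Q p hu (hL e he)
  · intro x hx
    obtain ⟨e, he, hxe⟩ := hLB x hx
    filter_upwards [hxe.2] with z hz
    exact hfn z ⟨e, he, hz⟩

end Pool.Agent.Helper73.BR
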