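import Pool.Agent.BR.Base

/-!
# Overlap lists and the limit diffeomorphism
-/

open Set Filter Topology MeasureTheory
open scoped ContDiff

namespace Pool.Agent.Helper73.BR

variable {m : ℕ}

namespace Limit

/-- a rational box around a point inside a relatively open set -/
lemma exists_rbox {x : E m} (hx : x ∈ HS m) {P : E m → Prop} (h : ∀ᶠ z in 𝓝[HS m] x, P z) :
    ∃ R : RBox m, (∀ᶠ z in 𝓝 x, ∀ i, (R.1 i : ℝ) ≤ z i ∧ z i ≤ (R.2 i : ℝ)) ∧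
      ∀ z ∈ R.on (HS m), P z := by
  rw [eventually_nhdsWithin_iff] at h
  obtain ⟨ε, hε, hball⟩ := Metric.eventually_nhds_iff.1 h
  have h1 : ∀ i, ∃ q : ℚ, x i - ε < q ∧ (q : ℝ) < x i := fun i =>
    exists_rat_btwn (by linarith)
  have h2 : ∀ i, ∃ q : ℚ, x i < q ∧ (q : ℝ) < x i + ε := fun i =>
    exists_rat_btwn (by linarith)
  choose r hr hr' using h1
  choose s hs hs' using h2
  refine ⟨(r, s), ?_, ?_⟩
  · rw [eventually_all]
    intro i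
    have hc : Continuous fun z : E m => z i := continuous_apply i
    filter_upwards [(hc.tendsto x).eventually (lt_mem_nhds (hr' i)),
      (hc.tendsto x).eventually (gt_mem_nhds (hs i))] with z h3 h4
    exact ⟨h3.le, h4.le⟩
  · rintro z ⟨hz, hzi⟩
    refine hball ?_ hz
    rw [dist_pi_lt_iff hε]
    intro i
    rw [Real.dist_eq, abs_lt]
    have h3 := hzi i
    have h4 := hr i
    have h5 := hs' i
    change (r i : ℝ) ≤ z i ∧ z i ≤ (s i : ℝ) at h3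
    constructor <;> linarith

end Limit

section
variable {M N : Type} [TopologicalSpace M] [TopologicalSpace N]

theorem exists_list (Q : QFam m) [T2Space M] (A : Man (HS m) M) {b bi : E m → M} {W Wi Qb Qi : Set (E m)}
    (hb : Param A b W) (hbi : Param A bi Wi) (hQb : IsCompact Qb) (hQi : IsCompact Qi)
    (hQW : Qb ⊆ W) (hQWi : Qi ⊆ Wi)
    (h : ∀ x ∈ Qb, b x ∈ bi '' Qi → NRel (QGerm Q) b bi Wi x) :
    ∃ L, ListOK Q Qb b Qi bi L := by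
  have hWH : W ⊆ HS m := hb.1.subset
  set T : Set (E m) := Qb ∩ b ⁻¹' (bi '' Qi) with hT
  have hcl : IsClosed (bi '' Qi) := (hQi.image_of_continuousOn (hbi.continuousOn.mono hQWi)).isClosed
  have hTc : IsCompact T :=
    hQb.of_isClosed_subset
      ((hb.continuousOn.mono hQW).preimage_isClosed_of_isClosed hQb.isClosed hcl)
      inter_subset_left
  have key : ∀ x ∈ T, ∃ e : RBox m × ℕ,
      (∀ᶠ z in 𝓝 x, ∀ i, (e.1.1 i : ℝ) ≤ z i ∧ z i ≤ (e.1.2 i : ℝ)) ∧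
      ∀ z ∈ e.1.on (HS m), ∀ᶠ w in 𝓝[HS m] z, Q.q e.2 w ∈ Wi ∧ b w = bi (Q.q e.2 w) := by
    rintro x ⟨hx1, hx2⟩
    obtain ⟨F, ⟨hxH, n, hn⟩, hF⟩ := h x hx1 hx2
    have h1 : ∀ᶠ w in 𝓝[HS m] x, Q.q n w ∈ Wi ∧ b w = bi (Q.q n w) := by
      filter_upwards [hn, hF] with w h1 h2
      rw [h1] at h2
      exact h2
    obtain ⟨R, hR1, hR2⟩ := Limit.exists_rbox hxH (eventually_eventually_nhdsWithin.2 h1)
    exact ⟨(R, n), hR1, hR2⟩
  choose! e he1 he2 using key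
  obtain ⟨t, ht, hcov⟩ := hTc.elim_nhds_subcover
    (fun x => {z | ∀ i, ((e x).1.1 i : ℝ) ≤ z i ∧ z i ≤ ((e x).1.2 i : ℝ)})
    (fun x hx => he1 x hx)
  refine ⟨t.toList.map e, ?_, ?_⟩
  · intro x hx hbx
    have hxT : x ∈ T := ⟨hx, hbx⟩
    obtain ⟨y, hy, hxy⟩ := mem_iUnion₂.1 (hcov hxT)
    have hxH : x ∈ HS m := hWH (hQW hx)
    have hon : x ∈ (e y).1.on (HS m) := ⟨hxH, hxy⟩
    refine ⟨e y, List.mem_map.2 ⟨y, Finset.mem_toList.2 hy, rfl⟩, hon, ?_⟩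
    have h1 := (he2 y (ht y hy) x hon).self_of_nhdsWithin hxH
    obtain ⟨w, hw, hwx⟩ := hbx
    have h2 : Q.q (e y).2 x = w := hbi.2.1 h1.1 (hQWi hw) (h1.2.symm.trans hwx.symm)
    rw [h2]
    exact hw
  · intro e' he' x hx hon hq
    obtain ⟨y, hy, rfl⟩ := List.mem_map.1 he'
    filter_upwards [he2 y (ht y (Finset.mem_toList.1 hy)) x hon] with z hz
    exact hz.2

theorem nrel_of_list (Q : QFam m) (A : Man (HS m) M) {b bi : E m → M} {Wi Qb Qi : Set (E m)}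
    (hbi : Param A bi Wi) (hQb : Qb ⊆ HS m) (hQWi : Qi ⊆ Wi) {L : List (RBox m × ℕ)}
    (h : ListOK Q Qb b Qi bi L) :
    ∀ x ∈ Qb, b x ∈ bi '' Qi → NRel (QGerm Q) b bi Wi x := by
  intro x hx hbx
  obtain ⟨e, heL, hxe, hq⟩ := h.1 x hx hbx
  have hxH := hQb hx
  refine ⟨Q.q e.2, ⟨hxH, e.2, EventuallyEq.rfl⟩, ?_⟩
  have h1 : Tendsto (Q.q e.2) (𝓝[HS m] x) (𝓝[HS m] (Q.q e.2 x)) :=
    ((Q.q_smooth e.2).continuousOn x hxH).tendsto_nhdsWithin fun z hz => (Q.q_bp e.2 z hz).1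
  have h2 : Wi ∈ 𝓝[HS m] (Q.q e.2 x) := hbi.1.mem_nhdsWithin (hQWi hq)
  filter_upwards [h1 h2, h.2 e heL x hx hxe hq] with z h3 h4
  exact ⟨h3, h4⟩

namespace Limit

lemma wd_lt (Q : QFam m) {A : Man (HS m) M} {B : Man (HS m) N} {b : ℕ → E m → M}
    {b' : ℕ → E m → N} {W K : ℕ → Set (E m)} (hb : ∀ i, Param A (b i) (W i) ∧ K i ⊆ W i)
    {L : ℕ → ℕ → List (RBox m × ℕ)}
    (hL : ∀ i j, i < j → ListOK Q (K j) (b j) (K i) (b i) (L i j))
    (hL' : ∀ i j, i < j → ListOK Q (K j) (b' j) (K i) (b' i) (L i j)) {i j : ℕ} (hij : i < j)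
    {x y : E m} (hx : x ∈ K i) (hy : y ∈ K j) (h : b i x = b j y) : b' i x = b' j y := by
  obtain ⟨e, heL, hye, hq⟩ := (hL i j hij).1 y hy ⟨x, hx, h⟩
  have hyH : y ∈ HS m := (hb j).1.1.subset ((hb j).2 hy)
  have h1 := ((hL i j hij).2 e heL y hy hye hq).self_of_nhdsWithin hyH
  have h2 := ((hL' i j hij).2 e heL y hy hye hq).self_of_nhdsWithin hyH
  have h3 : x = Q.q e.2 y := (hb i).1.2.1 ((hb i).2 hx) ((hb i).2 hq) (h.trans h1)
  rw [h2, h3]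

lemma wd (Q : QFam m) {A : Man (HS m) M} {b : ℕ → E m → M}
    {b' : ℕ → E m → N} {W K : ℕ → Set (E m)} (B : Man (HS m) N)
    (hb : ∀ i, Param A (b i) (W i) ∧ K i ⊆ W i)
    {L : ℕ → ℕ → List (RBox m × ℕ)}
    (hL : ∀ i j, i < j → ListOK Q (K j) (b j) (K i) (b i) (L i j))
    (hL' : ∀ i j, i < j → ListOK Q (K j) (b' j) (K i) (b' i) (L i j)) {i j : ℕ}
    {x y : E m} (hx : x ∈ K i) (hy : y ∈ K j) (h : b i x = b j y) : b' i x = b' j y := by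
  rcases lt_trichotomy i j with hij | hij | hij
  · exact wd_lt Q (B := B) hb hL hL' hij hx hy h
  · subst hij
    rw [(hb i).1.2.1 ((hb i).2 hx) ((hb i).2 hy) h]
  · exact (wd_lt Q (B := B) hb hL hL' hij hy hx h.symm).symm

lemma rint_mem {X S : Set (E m)} {x : E m} (h : x ∈ rint X S) : x ∈ S :=
  mem_of_mem_nhdsWithin h.1 h.2

/-- one half of the limit statement -/
lemma half (Q : QFam m) (A : Man (HS m) M) (B : Man (HS m) N)
    (b : ℕ → E m → M) (b' : ℕ → E m → N) (W W' K : ℕ → Set (E m))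
    (hb : ∀ i, Param A (b i) (W i) ∧ K i ⊆ W i) (hb' : ∀ i, Param B (b' i) (W' i) ∧ K i ⊆ W' i)
    (L : ℕ → ℕ → List (RBox m × ℕ))
    (hL : ∀ i j, i < j → ListOK Q (K j) (b j) (K i) (b i) (L i j))
    (hL' : ∀ i j, i < j → ListOK Q (K j) (b' j) (K i) (b' i) (L i j))
    (hc : ∀ z, ∃ i, ∃ x ∈ rint (HS m) (K i), b i x = z) :
    ∃ f : M → N, (∀ i, ∀ x ∈ K i, f (b i x) = b' i x) ∧ SmM A B f := by
  choose ι ξ hξ hbξ using hc
  have hf : ∀ i, ∀ x ∈ K i, b' (ι (b i x)) (ξ (b i x)) = b' i x := fun i x hx =>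
    wd Q B hb hL hL' (rint_mem (hξ _)) hx (hbξ _)
  refine ⟨fun z => b' (ι z) (ξ z), hf, ?_⟩
  refine smM_of_param fun z => ⟨b (ι z), W (ι z), b' (ι z), W' (ι z), ξ z, (hb _).1, (hb' _).1,
    (hb _).2 (rint_mem (hξ z)), hbξ z, id, contDiffWithinAt_id, ?_⟩
  filter_upwards [(hξ z).2] with w hw
  exact ⟨(hb' _).2 hw, hf _ w hw⟩

end Limit

theorem limit_diffeo (Q : QFam m) (A : Man (HS m) M) (B : Man (HS m) N)
    (b : ℕ → E m → M) (b' : ℕ → E m → N) (W W' K : ℕ → Set (E m))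
    (hb : ∀ i, Param A (b i) (W i) ∧ K i ⊆ W i) (hb' : ∀ i, Param B (b' i) (W' i) ∧ K i ⊆ W' i)
    (L : ℕ → ℕ → List (RBox m × ℕ))
    (hL : ∀ i j, i < j → ListOK Q (K j) (b j) (K i) (b i) (L i j))
    (hL' : ∀ i j, i < j → ListOK Q (K j) (b' j) (K i) (b' i) (L i j))
    (hc : ∀ z, ∃ i, ∃ x ∈ rint (HS m) (K i), b i x = z)
    (hc' : ∀ z, ∃ i, ∃ x ∈ rint (HS m) (K i), b' i x = z) :
    ∃ f : M ≃ N, DM A B f := by
  obtain ⟨f, hf, hfs⟩ := Limit.half Q A B b b' W W' K hb hb' L hL hL' hc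
  obtain ⟨g, hg, hgs⟩ := Limit.half Q B A b' b W' W K hb' hb L hL' hL hc'
  have h1 : ∀ z, g (f z) = z := by
    intro z
    obtain ⟨i, x, hx, rfl⟩ := hc z
    have hx := Limit.rint_mem hx
    rw [hf i x hx, hg i x hx]
  have h2 : ∀ z, f (g z) = z := by
    intro z
    obtain ⟨i, x, hx, rfl⟩ := hc' z
    have hx := Limit.rint_mem hx
    rw [hg i x hx, hf i x hx]
  exact ⟨⟨f, g, h1, h2⟩, hfs, hgs⟩

end

end Pool.Agent.Helper73.BR
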