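import Pool.Agent.Helper73.BR.DefsB

open Set Filter Topology
open scoped ContDiff

namespace Pool.Agent.Helper73.BR

namespace Perturb

/-- A continuous right inverse of a smooth map with invertible derivatives is smooth. -/
theorem smooth_inv {F : Type*} [NormedAddCommGroup F] [NormedSpace ℝ F] [CompleteSpace F]
    {s t : Set F} (hs : UniqueDiffOn ℝ s) (ht : UniqueDiffOn ℝ t) {f τ : F → F}
    (hf : ContDiffOn ℝ ∞ f s) (hτm : MapsTo τ t s) (hτc : ContinuousOn τ t)
    (hfτ : ∀ y ∈ t, f (τ y) = y)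
    (hA : ∀ y ∈ t, ∃ A : F ≃L[ℝ] F, (A : F →L[ℝ] F) = fderivWithin ℝ f s (τ y)) :
    ContDiffOn ℝ ∞ τ t := by
  have h1 : ∀ y ∈ t, HasFDerivWithinAt τ (fderivWithin ℝ f s (τ y)).inverse t y := by
    intro y hy
    obtain ⟨A, hA⟩ := hA y hy
    have hd : HasFDerivWithinAt f (A : F →L[ℝ] F) s (τ y) := by
      rw [hA]
      exact (hf.differentiableOn (by simp) _ (hτm hy)).hasFDerivWithinAt
    have h2 := HasFDerivWithinAt.of_local_left_inverse
      ((hτc y hy).tendsto_nhdsWithin hτm) hd hy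
      (eventually_nhdsWithin_of_forall hfτ)
    rw [← hA, ContinuousLinearMap.inverse_equiv]
    exact h2
  have h3 : ∀ n : ℕ, ContDiffOn ℝ n τ t := by
    intro n
    induction n with
    | zero => exact contDiffOn_zero.2 hτc
    | succ n ih =>
      have h4 := (contDiffOn_succ_iff_hasFDerivWithinAt_of_uniqueDiffOn
        (𝕜 := ℝ) (f := τ) (n := (n : WithTop ℕ∞)) ht).2
      push_cast
      refine h4 ⟨by simp, _, ?_, h1⟩
      intro y hy
      obtain ⟨A, hA⟩ := hA y hy
      have h5 : ContDiffWithinAt ℝ n (fun z => fderivWithin ℝ f s (τ z)) t y := by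
        have h6 : ContDiffOn ℝ n (fderivWithin ℝ f s) s :=
          hf.fderivWithin hs (by exact_mod_cast le_top)
        exact (h6 _ (hτm hy)).comp y (ih y hy) hτm
      have h7 : ContDiffAt ℝ n ContinuousLinearMap.inverse (fderivWithin ℝ f s (τ y)) := by
        rw [← hA]
        exact contDiffAt_map_inverse A
      exact h7.comp_contDiffWithinAt y h5
  exact contDiffOn_infty.2 h3

variable {m : ℕ}

/-- The retraction onto the half space. -/
noncomputable def retr (x : E m) : E m :=
  fun i => if i = Fin.last (m + 1) then max (x i) 0 else x i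

theorem retr_last (x : E m) : retr x (Fin.last (m + 1)) = max (x (Fin.last (m + 1))) 0 := by
  simp [retr]

theorem retr_mem (x : E m) : retr x ∈ HS m := by
  simp [HS, retr]

theorem retr_of_mem {x : E m} (h : x ∈ HS m) : retr x = x := by
  funext i
  unfold retr
  split_ifs with hi
  · subst hi; exact max_eq_left h
  · rfl

theorem retr_lip (x y : E m) : ‖retr x - retr y‖ ≤ ‖x - y‖ := by
  rw [pi_norm_le_iff_of_nonneg (norm_nonneg _)]
  intro i
  have h := norm_le_pi_norm (x - y) i
  simp only [Pi.sub_apply] at h ⊢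
  refine le_trans ?_ h
  unfold retr
  split_ifs with hi
  · simp only [Real.norm_eq_abs]
    exact abs_max_sub_max_le_abs _ _ _
  · exact le_rfl

theorem convex_HS (m : ℕ) : Convex ℝ (HS m) := by
  intro x hx y hy a b ha hb hab
  change 0 ≤ x (Fin.last (m + 1)) at hx
  change 0 ≤ y (Fin.last (m + 1)) at hy
  change 0 ≤ a * x (Fin.last (m + 1)) + b * y (Fin.last (m + 1))
  positivity

theorem interior_HS_nonempty (m : ℕ) : (interior (HS m)).Nonempty := by
  refine ⟨fun _ => 1, ?_⟩
  rw [mem_interior]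
  refine ⟨{x | 0 < x (Fin.last (m + 1))}, fun x (hx : 0 < x (Fin.last (m + 1))) => hx.le, ?_, by simp⟩
  exact isOpen_lt continuous_const (continuous_apply _)

theorem uniqueDiffOn_HS (m : ℕ) : UniqueDiffOn ℝ (HS m) :=
  uniqueDiffOn_convex (convex_HS m) (interior_HS_nonempty m)

theorem isClosed_HS (m : ℕ) : IsClosed (HS m) :=
  isClosed_le continuous_const (continuous_apply _)

/-- A lower Lipschitz bound near a point of the half space passes to the derivative. -/
theorem lower_deriv {f : E m → E m} {x : E m} {A : E m →L[ℝ] E m}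
    (hf : HasFDerivWithinAt f A (HS m) x) (hx : x ∈ HS m) {c : ℝ}
    (hc : ∀ᶠ z in 𝓝[HS m] x, c * ‖z - x‖ ≤ ‖f z - f x‖) (h : E m) : c * ‖h‖ ≤ ‖A h‖ := by
  have key : ∀ h : E m, 0 ≤ h (Fin.last (m + 1)) → c * ‖h‖ ≤ ‖A h‖ := by
    intro h hh
    have hmaps : MapsTo (fun t : ℝ => x + t • h) (Ici 0) (HS m) := by
      intro t ht
      have hx' : 0 ≤ x (Fin.last (m + 1)) := hx
      have ht' : (0 : ℝ) ≤ t := ht
      change 0 ≤ x (Fin.last (m + 1)) + t * h (Fin.last (m + 1))
      positivity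
    have h1 : HasDerivWithinAt (fun t : ℝ => x + t • h) h (Ici 0) 0 := by
      have := ((hasDerivAt_id (0 : ℝ)).smul_const h).const_add x
      simpa using this.hasDerivWithinAt
    have h2 : HasDerivWithinAt (fun t : ℝ => f (x + t • h)) (A h) (Ici 0) 0 := by
      have h3 : HasFDerivWithinAt f A (HS m) (x + (0 : ℝ) • h) := by simpa using hf
      exact h3.comp_hasDerivWithinAt (0 : ℝ) h1 hmaps
    rw [hasDerivWithinAt_iff_tendsto_slope] at h2
    have h4 : Tendsto (fun t : ℝ => x + t • h) (𝓝[Ici 0 \ {0}] 0) (𝓝[HS m] x) := by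
      have h5 := h1.continuousWithinAt.tendsto_nhdsWithin hmaps
      simp only [zero_smul, add_zero] at h5
      exact h5.mono_left (nhdsWithin_mono _ sdiff_subset)
    have h6 := h4.eventually hc
    have : (𝓝[Ici (0 : ℝ) \ {0}] (0 : ℝ)).NeBot := by
      have h7 : Ici (0 : ℝ) \ {0} = Ioi 0 := by
        ext t
        simp only [Set.mem_sdiff, mem_Ici, mem_singleton_iff, mem_Ioi]
        exact ⟨fun ht => lt_of_le_of_ne ht.1 (Ne.symm ht.2), fun ht => ⟨ht.le, ht.ne'⟩⟩
      rw [h7]
      infer_instance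
    refine ge_of_tendsto h2.norm ?_
    filter_upwards [h6, self_mem_nhdsWithin] with t ht ht'
    have htpos : 0 < t := lt_of_le_of_ne ht'.1 (fun h0 => ht'.2 h0.symm)
    rw [slope_def_module]
    simp only [zero_smul, add_zero, sub_zero, add_sub_cancel_left, norm_smul, norm_inv,
      Real.norm_eq_abs, abs_of_pos htpos] at ht ⊢
    rw [inv_mul_eq_div, le_div_iff₀ htpos]
    nlinarith
  rcases le_total 0 (h (Fin.last (m + 1))) with h0 | h0
  · exact key h h0
  · have := key (-h) (by simpa using h0)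
    simpa using this

theorem exists_equiv (A : E m →L[ℝ] E m) (hA : Function.Injective A) :
    ∃ e : E m ≃L[ℝ] E m, (e : E m →L[ℝ] E m) = A := by
  refine ⟨(LinearEquiv.ofInjectiveEndo (A : E m →ₗ[ℝ] E m) hA).toContinuousLinearEquiv, ?_⟩
  ext x
  rfl

theorem injective_of_lower (A : E m →L[ℝ] E m) {c : ℝ} (hc : 0 < c)
    (h : ∀ x, c * ‖x‖ ≤ ‖A x‖) : Function.Injective A := by
  rw [injective_iff_map_eq_zero]
  intro x hx
  have := h x
  rw [hx, norm_zero] at this
  have h2 : ‖x‖ ≤ 0 := by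
    by_contra h3
    push Not at h3
    nlinarith [mul_pos hc h3]
  simpa using h2

/-- A continuous right inverse on the half space of a smooth map of the half space with
injective derivatives is smooth. -/
theorem smooth_inv_HS {f τ : E m → E m} (hf : ContDiffOn ℝ ∞ f (HS m))
    (hinj : ∀ x ∈ HS m, Function.Injective (fderivWithin ℝ f (HS m) x))
    (hτm : MapsTo τ (HS m) (HS m)) (hτc : ContinuousOn τ (HS m))
    (hfτ : ∀ y ∈ HS m, f (τ y) = y) : ContDiffOn ℝ ∞ τ (HS m) :=
  smooth_inv (uniqueDiffOn_HS m) (uniqueDiffOn_HS m) hf hτm hτc hfτ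
    (fun _ hy => exists_equiv _ (hinj _ (hτm hy)))

end Perturb

open Perturb in
theorem perturb {m : ℕ} {v : E m → E m} (hv : ContDiffOn ℝ ∞ v (HS m))
    (hL : ∀ x ∈ HS m, ∀ y ∈ HS m, ‖v x - v y‖ ≤ 1 / 2 * ‖x - y‖)
    (hb : ∀ x ∈ HS m, x (Fin.last (m + 1)) = 0 → v x (Fin.last (m + 1)) = 0)
    (hm : ∀ x ∈ HS m, x + v x ∈ HS m) :
    ∃ τ : E m → E m, ContDiffOn ℝ ∞ τ (HS m) ∧ MapsTo τ (HS m) (HS m) ∧
      (∀ x ∈ HS m, τ (x + v x) = x) ∧ (∀ y ∈ HS m, τ y + v (τ y) = y) := by
  have hw : ∀ x y, ‖v (retr x) - v (retr y)‖ ≤ 1 / 2 * ‖x - y‖ := fun x y =>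
    (hL _ (retr_mem x) _ (retr_mem y)).trans
      (mul_le_mul_of_nonneg_left (retr_lip x y) (by norm_num))
  have hcon : ∀ y : E m, ContractingWith (1 / 2 : NNReal) (fun x => y - v (retr x)) := by
    intro y
    refine ⟨by norm_num, LipschitzWith.of_dist_le_mul fun a b => ?_⟩
    rw [dist_eq_norm, dist_eq_norm]
    have h1 : y - v (retr a) - (y - v (retr b)) = -(v (retr a) - v (retr b)) := by abel
    rw [h1, norm_neg]
    simpa using hw a b
  set τ : E m → E m := fun y => ContractingWith.fixedPoint _ (hcon y) with hτ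
  have hfix : ∀ y, τ y + v (retr (τ y)) = y := by
    intro y
    have h1 : y - v (retr (τ y)) = τ y := (hcon y).fixedPoint_isFixedPt
    rw [eq_comm, ← sub_eq_iff_eq_add]
    exact h1
  have hmem : ∀ y ∈ HS m, τ y ∈ HS m := by
    intro y hy
    by_contra hn
    have h1 : τ y (Fin.last (m + 1)) < 0 := not_le.1 hn
    have h2 := congrFun (hfix y) (Fin.last (m + 1))
    rw [Pi.add_apply, hb _ (retr_mem _) (by rw [retr_last, max_eq_right h1.le]), add_zero] at h2
    rw [h2] at h1
    exact absurd hy (not_le.2 h1)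
  have hfix' : ∀ y ∈ HS m, τ y + v (τ y) = y := by
    intro y hy
    have h1 := hfix y
    rwa [retr_of_mem (hmem y hy)] at h1
  have hlow : ∀ a b, 1 / 2 * ‖a - b‖ ≤ ‖(a + v (retr a)) - (b + v (retr b))‖ := by
    intro a b
    have h1 := hw a b
    have h2 : a - b = ((a + v (retr a)) - (b + v (retr b))) - (v (retr a) - v (retr b)) := by
      abel
    have h3 : ‖a - b‖ ≤ ‖(a + v (retr a)) - (b + v (retr b))‖ + ‖v (retr a) - v (retr b)‖ := by
      conv_lhs => rw [h2]
      exact norm_sub_le _ _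
    linarith
  have hleft : ∀ x ∈ HS m, τ (x + v x) = x := by
    intro x hx
    have h1 := hlow (τ (x + v x)) x
    rw [hfix, retr_of_mem hx, sub_self, norm_zero] at h1
    have h2 : ‖τ (x + v x) - x‖ = 0 := le_antisymm (by linarith) (norm_nonneg _)
    exact sub_eq_zero.1 (norm_eq_zero.1 h2)
  have hcont : Continuous τ := by
    have h1 : LipschitzWith 2 τ := by
      refine LipschitzWith.of_dist_le_mul fun a b => ?_
      rw [dist_eq_norm, dist_eq_norm]
      have h2 := hlow (τ a) (τ b)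
      rw [hfix, hfix] at h2
      simp only [NNReal.coe_ofNat]
      linarith
    exact h1.continuous
  have hsm : ContDiffOn ℝ ∞ (fun x => x + v x) (HS m) := contDiffOn_id.add hv
  refine ⟨τ, ?_, hmem, hleft, hfix'⟩
  refine smooth_inv_HS hsm (fun x hx => ?_) hmem hcont.continuousOn hfix'
  refine injective_of_lower _ (c := 1 / 2) (by norm_num) fun h => ?_
  refine lower_deriv (f := fun x => x + v x)
    (hsm.differentiableOn (by simp) _ hx).hasFDerivWithinAt hx ?_ h
  filter_upwards [self_mem_nhdsWithin] with z hz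
  have h1 := hlow z x
  rwa [retr_of_mem hz, retr_of_mem hx] at h1

end Pool.Agent.Helper73.BR
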