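import Pool.Agent.Helper73.BR.DefsB
import Pool.Agent.BR.Perturb

/-!
# The inverse function theorem in the half space
-/

open Set Filter Topology MeasureTheory
open scoped ContDiff

namespace Pool.Agent.Helper73.BR

variable {m : ℕ}

namespace LocInv

theorem convex_HS : Convex ℝ (HS m) := by
  intro x hx y hy a b ha hb _
  simp only [HS, mem_ofPred_eq, Pi.add_apply, Pi.smul_apply, smul_eq_mul] at *
  positivity

theorem nonempty_interior_HS : (interior (HS m)).Nonempty := by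
  refine ⟨fun _ => 1, ?_⟩
  rw [mem_interior_iff_mem_nhds]
  have hc : Continuous (fun x : E m => x (Fin.last (m + 1))) := continuous_apply _
  have : (fun x : E m => x (Fin.last (m + 1))) ⁻¹' Ioi 0 ∈ 𝓝 (fun _ : Fin (m + 2) => (1 : ℝ)) :=
    hc.continuousAt.preimage_mem_nhds (Ioi_mem_nhds (by norm_num))
  filter_upwards [this] with x hx
  exact le_of_lt (show 0 < x (Fin.last (m + 1)) from hx)

theorem uniqueDiffOn_HS : UniqueDiffOn ℝ (HS m) :=
  uniqueDiffOn_convex convex_HS nonempty_interior_HS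

theorem mem_nhdsWithin_of_ropen {O : Set (E m)} (hO : ROpen (HS m) O) {x : E m} (hx : x ∈ O) :
    O ∈ 𝓝[HS m] x := by
  obtain ⟨V, hV, rfl⟩ := hO
  exact inter_mem (mem_nhdsWithin_of_mem_nhds (hV.mem_nhds hx.1)) self_mem_nhdsWithin

theorem ropen_sub {O : Set (E m)} (hO : ROpen (HS m) O) {x : E m} (hx : x ∈ O) : x ∈ HS m := by
  obtain ⟨V, hV, rfl⟩ := hO
  exact hx.2

/-- The last coordinate as a continuous linear map. -/
noncomputable def lst (m : ℕ) : E m →L[ℝ] ℝ := ContinuousLinearMap.proj (Fin.last (m + 1))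

theorem lst_apply (x : E m) : lst m x = x (Fin.last (m + 1)) := rfl

/-- The derivative at a boundary point preserves the half space. -/
theorem cone {f : E m → E m} {O : Set (E m)} (hO : ROpen (HS m) O) (hbp : BP f O) {x0 : E m}
    (hx0 : x0 ∈ O) {A : E m →L[ℝ] E m} (hA : HasFDerivWithinAt f A (HS m) x0)
    (h0 : x0 (Fin.last (m + 1)) = 0) :
    ∃ c : ℝ, 0 ≤ c ∧ ∀ e : E m, A e (Fin.last (m + 1)) = c * e (Fin.last (m + 1)) := by
  have hxH : x0 ∈ HS m := ropen_sub hO hx0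
  have hnn : ∀ e : E m, 0 ≤ e (Fin.last (m + 1)) → 0 ≤ A e (Fin.last (m + 1)) := by
    intro e he
    have h1 : HasFDerivWithinAt (fun x => f x (Fin.last (m + 1))) ((lst m).comp A) (HS m) x0 :=
      (lst m).hasFDerivAt.comp_hasFDerivWithinAt x0 hA
    have h2 : IsLocalMinOn (fun x => f x (Fin.last (m + 1))) (HS m) x0 := by
      have : ∀ᶠ x in 𝓝[HS m] x0, f x0 (Fin.last (m + 1)) ≤ f x (Fin.last (m + 1)) := by
        filter_upwards [mem_nhdsWithin_of_ropen hO hx0] with x hx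
        rw [((hbp x0 hx0).2).2 h0]
        exact (hbp x hx).1
      exact this
    have h3 : e ∈ posTangentConeAt (HS m) x0 := by
      apply mem_posTangentConeAt_of_segment_subset
      apply convex_HS.segment_subset hxH
      show 0 ≤ (x0 + e) (Fin.last (m + 1))
      rw [Pi.add_apply, h0, zero_add]
      exact he
    have := h2.hasFDerivWithinAt_nonneg h1 h3
    simpa [lst] using this
  let el : E m := Pi.single (Fin.last (m + 1)) 1
  have hel : el (Fin.last (m + 1)) = 1 := by simp [el]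
  refine ⟨A el (Fin.last (m + 1)), hnn el (by rw [hel]; norm_num), ?_⟩
  intro e
  set t := e (Fin.last (m + 1)) with ht
  have h1 : (e - t • el) (Fin.last (m + 1)) = 0 := by
    simp [hel, ht]
  have h2 := hnn (e - t • el) (le_of_eq h1.symm)
  have h3 := hnn (-(e - t • el)) (by rw [Pi.neg_apply, h1, neg_zero])
  rw [map_neg, Pi.neg_apply] at h3
  have h4 : A (e - t • el) (Fin.last (m + 1)) = 0 := le_antisymm (by linarith) h2
  rw [map_sub, map_smul, Pi.sub_apply, Pi.smul_apply, smul_eq_mul] at h4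
  linarith [mul_comm t (A el (Fin.last (m + 1)))]

/-- The cut-off functions. -/
theorem exists_cut (m : ℕ) : ∃ K : ℝ, 0 ≤ K ∧ ∀ (x0 : E m) (r : ℝ), 0 < r →
    ∃ χ : E m → ℝ, ContDiff ℝ ∞ χ ∧ (∀ x, 0 ≤ χ x ∧ χ x ≤ 1) ∧
      (∀ x, ‖x - x0‖ ≤ r → χ x = 1) ∧ (∀ x, 2 * r ≤ ‖x - x0‖ → χ x = 0) ∧
      ∀ x y, |χ x - χ y| ≤ K / r * ‖x - y‖ := by
  let b : ContDiffBump (0 : E m) := ⟨1, 2, one_pos, one_lt_two⟩
  obtain ⟨K, hK⟩ := ContDiff.lipschitzWith_of_hasCompactSupport (𝕂 := ℝ) (f := b)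
    b.hasCompactSupport (b.contDiff (n := 1)) one_ne_zero
  refine ⟨K, K.2, ?_⟩
  intro x0 r hr
  refine ⟨fun x => b (r⁻¹ • (x - x0)), ?_, ?_, ?_, ?_, ?_⟩
  · exact b.contDiff.comp ((contDiff_id.sub contDiff_const).const_smul r⁻¹)
  · intro x
    exact ⟨b.nonneg, b.le_one⟩
  · intro x hx
    apply b.one_of_mem_closedBall
    rw [mem_closedBall_zero_iff, norm_smul, norm_inv, Real.norm_of_nonneg hr.le]
    show r⁻¹ * ‖x - x0‖ ≤ 1
    rw [inv_mul_le_iff₀ hr]; linarith
  · intro x hx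
    apply b.zero_of_le_dist
    rw [dist_zero_right, norm_smul, norm_inv, Real.norm_of_nonneg hr.le]
    show 2 ≤ r⁻¹ * ‖x - x0‖
    rw [le_inv_mul_iff₀ hr]; linarith
  · intro x y
    have h := hK.dist_le_mul (r⁻¹ • (x - x0)) (r⁻¹ • (y - x0))
    rw [Real.dist_eq, dist_eq_norm, ← smul_sub, norm_smul, norm_inv,
      Real.norm_of_nonneg hr.le] at h
    have h2 : x - x0 - (y - x0) = x - y := by abel
    rw [h2] at h
    calc _ ≤ _ := h
      _ = _ := by ring

end LocInv

open LocInv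

theorem locinv {f : E m → E m} {O : Set (E m)} (hO : ROpen (HS m) O)
    (hf : ∀ x ∈ O, ContDiffWithinAt ℝ ∞ f (HS m) x) (hbp : BP f O) {x0 : E m} (hx0 : x0 ∈ O)
    (hinj : Function.Injective (fderivWithin ℝ f (HS m) x0)) :
    ∃ g : E m → E m,
      (∀ᶠ y in 𝓝[HS m] (f x0), ContDiffWithinAt ℝ ∞ g (HS m) y ∧ g y ∈ O ∧ f (g y) = y) ∧
      (∀ᶠ x in 𝓝[HS m] x0, g (f x) = x) := by
  have hx0H : x0 ∈ HS m := ropen_sub hO hx0
  -- the derivative and its inverse
  set A : E m →L[ℝ] E m := fderivWithin ℝ f (HS m) x0 with hAdef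
  have hA : HasFDerivWithinAt f A (HS m) x0 :=
    ((hf x0 hx0).differentiableWithinAt (by simp)).hasFDerivWithinAt
  let B0 : E m ≃ₗ[ℝ] E m := LinearEquiv.ofInjectiveEndo (A : E m →ₗ[ℝ] E m) hinj
  let B : E m ≃L[ℝ] E m := B0.toContinuousLinearEquiv
  have hBA : ∀ e, B e = A e := fun e => rfl
  let S : E m →L[ℝ] E m := (B.symm : E m →L[ℝ] E m)
  have hSA : ∀ e, S (A e) = e := fun e => B.symm_apply_apply e
  have hAS : ∀ e, A (S e) = e := fun e => B.apply_symm_apply e
  -- constants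
  obtain ⟨K, hK0, hcut⟩ := exists_cut m
  set ε : ℝ := 1 / (2 * (1 + 2 * K)) with hε
  have hεpos : 0 < ε := by rw [hε]; positivity
  have hεK : ε * (1 + 2 * K) = 1 / 2 := by
    rw [hε]; field_simp
  have hε1 : ε ≤ 1 / 2 := by nlinarith [mul_nonneg hεpos.le hK0]
  have hcd : ContinuousWithinAt (fderivWithin ℝ f (HS m)) (HS m) x0 :=
    (ContDiffWithinAt.fderivWithin_right (m := 0) (hf x0 hx0) uniqueDiffOn_HS
      (by simp) hx0H).continuousWithinAt
  have hSn : 0 < ‖S‖ + 1 := by positivity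
  have hev : ∀ᶠ x in 𝓝[HS m] x0, x ∈ O ∧ ‖fderivWithin ℝ f (HS m) x - A‖ ≤ ε / (‖S‖ + 1) := by
    filter_upwards [mem_nhdsWithin_of_ropen hO hx0,
      hcd (Metric.closedBall_mem_nhds (fderivWithin ℝ f (HS m) x0)
        (show 0 < ε / (‖S‖ + 1) by positivity))] with x hx h2
    exact ⟨hx, by simpa [dist_eq_norm] using h2⟩
  obtain ⟨ρ, hρ, hρs⟩ := Metric.mem_nhdsWithin_iff.1 hev
  have hρO : ∀ x ∈ HS m, ‖x - x0‖ < ρ → x ∈ O := fun x hx h =>
    (hρs ⟨by rwa [Metric.mem_ball, dist_eq_norm], hx⟩).1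
  -- the vector field
  let w : E m → E m := fun x => S (f x - f x0) + x0 - x
  have hw0 : w x0 = 0 := by simp [w]
  have hwL : ∀ x ∈ HS m, ‖x - x0‖ < ρ → ∀ y ∈ HS m, ‖y - x0‖ < ρ →
      ‖w x - w y‖ ≤ ε * ‖x - y‖ := by
    intro x hx hxr y hy hyr
    have hconv : Convex ℝ (Metric.ball x0 ρ ∩ HS m) := (convex_ball x0 ρ).inter convex_HS
    have h1 := hconv.norm_image_sub_le_of_norm_hasFDerivWithin_le' (f := f)
      (f' := fun z => fderivWithin ℝ f (HS m) z) (φ := A) (C := ε / (‖S‖ + 1)) (x := y) (y := x)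
      (fun z hz => (((hf z (hρO z hz.2 (by simpa [dist_eq_norm] using hz.1))).differentiableWithinAt
        (by simp)).hasFDerivWithinAt).mono inter_subset_right)
      (fun z hz => (hρs hz).2)
      ⟨by rwa [Metric.mem_ball, dist_eq_norm], hy⟩ ⟨by rwa [Metric.mem_ball, dist_eq_norm], hx⟩
    have h2 : w x - w y = S (f x - f y - A (x - y)) := by
      have : f x - f y - A (x - y) = (f x - f x0) - (f y - f x0) - A (x - y) := by abel
      rw [this, map_sub, map_sub, hSA]
      simp only [w]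
      abel
    rw [h2]
    calc ‖S (f x - f y - A (x - y))‖ ≤ ‖S‖ * ‖f x - f y - A (x - y)‖ := S.le_opNorm _
      _ ≤ ‖S‖ * (ε / (‖S‖ + 1) * ‖x - y‖) := by gcongr
      _ = (‖S‖ / (‖S‖ + 1)) * (ε * ‖x - y‖) := by ring
      _ ≤ 1 * (ε * ‖x - y‖) := by
          gcongr
          rw [div_le_one hSn]; linarith
      _ = _ := one_mul _
  have hwn : ∀ x ∈ HS m, ‖x - x0‖ < ρ → ‖w x‖ ≤ ε * ‖x - x0‖ := by
    intro x hx hxr
    have := hwL x hx hxr x0 hx0H (by simpa using hρ)
    rwa [hw0, sub_zero] at this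
  -- the radius
  obtain ⟨r, hr, hrρ, hrb⟩ : ∃ r : ℝ, 0 < r ∧ 2 * r < ρ ∧
      (x0 (Fin.last (m + 1)) = 0 ∨ 4 * r ≤ x0 (Fin.last (m + 1))) := by
    rcases eq_or_lt_of_le (show 0 ≤ x0 (Fin.last (m + 1)) from hx0H) with h | h
    · exact ⟨ρ / 3, by positivity, by linarith, Or.inl h.symm⟩
    · refine ⟨min (ρ / 3) (x0 (Fin.last (m + 1)) / 4), by positivity, ?_, Or.inr ?_⟩
      · have := min_le_left (ρ / 3) (x0 (Fin.last (m + 1)) / 4)
        linarith
      · have := min_le_right (ρ / 3) (x0 (Fin.last (m + 1)) / 4)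
        linarith
  obtain ⟨χ, hχs, hχr, hχ1, hχ0, hχL⟩ := hcut x0 r hr
  let v : E m → E m := fun x => χ x • w x
  have hv0 : ∀ x, 2 * r ≤ ‖x - x0‖ → v x = 0 := fun x hx => by simp [v, hχ0 x hx]
  have hvn : ∀ x ∈ HS m, ‖x - x0‖ < 2 * r → ‖v x‖ ≤ 2 * r * ε := by
    intro x hx hxr
    have h1 := hwn x hx (hxr.trans hrρ)
    calc ‖v x‖ = χ x * ‖w x‖ := by
          simp only [v]; rw [norm_smul, Real.norm_of_nonneg (hχr x).1]
      _ ≤ 1 * (ε * ‖x - x0‖) := by
          gcongr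
          exact (hχr x).2
      _ ≤ 1 * (ε * (2 * r)) := by gcongr
      _ = _ := by ring
  -- Lipschitz bound
  have hvL1 : ∀ x ∈ HS m, ∀ y ∈ HS m, ‖x - x0‖ < 2 * r → ‖v x - v y‖ ≤ 1 / 2 * ‖x - y‖ := by
    intro x hx y hy hxr
    have hwx := hwn x hx (hxr.trans hrρ)
    have hkey : ‖(χ x - χ y) • w x‖ ≤ ε * (2 * K) * ‖x - y‖ := by
      rw [norm_smul, Real.norm_eq_abs]
      calc |χ x - χ y| * ‖w x‖ ≤ (K / r * ‖x - y‖) * (ε * (2 * r)) := by
            apply mul_le_mul (hχL x y) _ (norm_nonneg _) (by positivity)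
            exact hwx.trans (by gcongr)
        _ = _ := by field_simp
    by_cases hyr : ‖y - x0‖ < 2 * r
    · have h1 : v x - v y = (χ x - χ y) • w x + χ y • (w x - w y) := by
        show χ x • w x - χ y • w y = _
        generalize w x = a
        generalize w y = b
        module
      rw [h1]
      calc _ ≤ ‖(χ x - χ y) • w x‖ + ‖χ y • (w x - w y)‖ := norm_add_le _ _
        _ ≤ ε * (2 * K) * ‖x - y‖ + 1 * (ε * ‖x - y‖) := by
            apply add_le_add hkey
            rw [norm_smul, Real.norm_of_nonneg (hχr y).1]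
            apply mul_le_mul (hχr y).2 (hwL x hx (hxr.trans hrρ) y hy (hyr.trans hrρ))
              (norm_nonneg _) zero_le_one
        _ = (ε * (1 + 2 * K)) * ‖x - y‖ := by ring
        _ = _ := by rw [hεK]
    · push Not at hyr
      have h1 : v x - v y = (χ x - χ y) • w x := by
        rw [hv0 y hyr, hχ0 y hyr, sub_zero, sub_zero]
      rw [h1]
      refine hkey.trans ?_
      apply mul_le_mul_of_nonneg_right _ (norm_nonneg _)
      nlinarith
  have hvL : ∀ x ∈ HS m, ∀ y ∈ HS m, ‖v x - v y‖ ≤ 1 / 2 * ‖x - y‖ := by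
    intro x hx y hy
    by_cases hxr : ‖x - x0‖ < 2 * r
    · exact hvL1 x hx y hy hxr
    · by_cases hyr : ‖y - x0‖ < 2 * r
      · rw [← norm_neg, neg_sub, ← norm_neg (x - y), neg_sub]
        exact hvL1 y hy x hx hyr
      · push Not at hxr hyr
        rw [hv0 x hxr, hv0 y hyr, sub_zero, norm_zero]
        positivity
  -- smoothness
  have hvS : ContDiffOn ℝ ∞ v (HS m) := by
    intro x hx
    by_cases hxr : ‖x - x0‖ < ρ
    · have hxO := hρO x hx hxr
      have h1 : ContDiffWithinAt ℝ ∞ w (HS m) x := by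
        have h2 : ContDiffWithinAt ℝ ∞ (fun z => S (f z - f x0)) (HS m) x :=
          S.contDiff.contDiffAt.comp_contDiffWithinAt x ((hf x hxO).sub contDiffWithinAt_const)
        exact (h2.add contDiffWithinAt_const).sub contDiffWithinAt_id
      exact hχs.contDiffAt.contDiffWithinAt.smul h1
    · push Not at hxr
      have h1 : {z : E m | 2 * r < ‖z - x0‖} ∈ 𝓝 x := by
        apply IsOpen.mem_nhds
        · exact isOpen_lt continuous_const (continuous_id.sub continuous_const).norm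
        · exact hrρ.trans_le hxr
      have h2 : v =ᶠ[𝓝 x] fun _ => 0 := by
        filter_upwards [h1] with z hz
        exact hv0 z (le_of_lt hz)
      exact (contDiffAt_const.congr_of_eventuallyEq h2).contDiffWithinAt
  -- boundary behaviour
  have hbdry : x0 (Fin.last (m + 1)) = 0 → ∃ c : ℝ, 0 < c ∧
      ∀ e : E m, S e (Fin.last (m + 1)) = e (Fin.last (m + 1)) / c := by
    intro h0
    obtain ⟨c, hc0, hc⟩ := cone hO hbp hx0 hA h0
    have hcne : c ≠ 0 := by
      intro hc1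
      have h1 := hc (S (Pi.single (Fin.last (m + 1)) 1))
      rw [hAS, hc1, zero_mul, Pi.single_eq_same] at h1
      exact one_ne_zero h1
    refine ⟨c, lt_of_le_of_ne hc0 (Ne.symm hcne), fun e => ?_⟩
    have h1 := hc (S e)
    rw [hAS] at h1
    rw [h1]; field_simp
  have hwb : ∀ (_ : x0 (Fin.last (m + 1)) = 0), ∃ c : ℝ, 0 < c ∧
      ∀ x, w x (Fin.last (m + 1)) = f x (Fin.last (m + 1)) / c - x (Fin.last (m + 1)) := by
    intro h0
    obtain ⟨c, hc, hS⟩ := hbdry h0
    refine ⟨c, hc, fun x => ?_⟩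
    have h1 : w x (Fin.last (m + 1)) = S (f x - f x0) (Fin.last (m + 1))
      + x0 (Fin.last (m + 1)) - x (Fin.last (m + 1)) := rfl
    rw [h1, hS, h0, Pi.sub_apply, ((hbp x0 hx0).2).2 h0]
    ring
  have hvb : ∀ x ∈ HS m, x (Fin.last (m + 1)) = 0 → v x (Fin.last (m + 1)) = 0 := by
    intro x hx hxl
    by_cases hxr : ‖x - x0‖ < 2 * r
    · rcases hrb with h0 | h0
      · obtain ⟨c, hc, hw⟩ := hwb h0
        have hxO := hρO x hx (hxr.trans hrρ)
        show χ x * w x (Fin.last (m + 1)) = 0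
        rw [hw x, hxl, ((hbp x hxO).2).2 hxl]
        simp
      · exfalso
        have h1 : ‖(x - x0) (Fin.last (m + 1))‖ ≤ ‖x - x0‖ := norm_le_pi_norm _ _
        rw [Pi.sub_apply, hxl, zero_sub, norm_neg, Real.norm_of_nonneg hx0H] at h1
        linarith
    · push Not at hxr
      rw [hv0 x hxr]; rfl
  have hvm : ∀ x ∈ HS m, x + v x ∈ HS m := by
    intro x hx
    by_cases hxr : ‖x - x0‖ < 2 * r
    · show 0 ≤ x (Fin.last (m + 1)) + v x (Fin.last (m + 1))
      rcases hrb with h0 | h0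
      · obtain ⟨c, hc, hw⟩ := hwb h0
        have hxO := hρO x hx (hxr.trans hrρ)
        have h1 : v x (Fin.last (m + 1)) = χ x * w x (Fin.last (m + 1)) := rfl
        rw [h1, hw x]
        have h2 : 0 ≤ f x (Fin.last (m + 1)) / c := div_nonneg (hbp x hxO).1 hc.le
        have h3 : 0 ≤ x (Fin.last (m + 1)) := hx
        have h4 := hχr x
        have h5 : x (Fin.last (m + 1)) + χ x * (f x (Fin.last (m + 1)) / c - x (Fin.last (m + 1)))
          = (1 - χ x) * x (Fin.last (m + 1)) + χ x * (f x (Fin.last (m + 1)) / c) := by ring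
        rw [h5]
        apply add_nonneg
        · exact mul_nonneg (by linarith) h3
        · exact mul_nonneg h4.1 h2
      · have h1 : ‖(x - x0) (Fin.last (m + 1))‖ ≤ ‖x - x0‖ := norm_le_pi_norm _ _
        have h2 : ‖v x (Fin.last (m + 1))‖ ≤ ‖v x‖ := norm_le_pi_norm _ _
        have h3 := hvn x hx hxr
        rw [Pi.sub_apply, Real.norm_eq_abs, abs_le] at h1
        rw [Real.norm_eq_abs, abs_le] at h2
        nlinarith
    · push Not at hxr
      rw [hv0 x hxr, add_zero]; exact hx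
  obtain ⟨τ, hτs, hτm, hτ1, hτ2⟩ := perturb hvS hvL hvb hvm
  -- the local inverse
  let Φ : E m → E m := fun y => x0 + S (y - f x0)
  have hΦc : Continuous Φ := continuous_const.add (S.continuous.comp (continuous_id.sub continuous_const))
  have hΦs : ContDiff ℝ ∞ Φ := contDiff_const.add (S.contDiff.comp (contDiff_id.sub contDiff_const))
  have hΦ0 : Φ (f x0) = x0 := by simp [Φ]
  have hΦinj : ∀ y z, Φ y = Φ z → y = z := by
    intro y z h
    have h1 : S (y - f x0) = S (z - f x0) := add_left_cancel h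
    have h2 := congrArg A h1
    rw [hAS, hAS] at h2
    exact sub_left_injective h2
  have hxw : ∀ x, x + w x = Φ (f x) := by
    intro x
    simp only [w, Φ]; abel
  have hv1 : ∀ x, ‖x - x0‖ ≤ r → v x = w x := by
    intro x hx
    simp [v, hχ1 x hx]
  have hτx0 : τ x0 = x0 := by
    have := hτ1 x0 hx0H
    rwa [hv1 x0 (by simpa using hr.le), hw0, add_zero] at this
  have hΦH : ∀ᶠ y in 𝓝[HS m] (f x0), Φ y ∈ HS m := by
    rcases hrb with h0 | h0
    · obtain ⟨c, hc, hS⟩ := hbdry h0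
      filter_upwards [self_mem_nhdsWithin] with y hy
      show 0 ≤ x0 (Fin.last (m + 1)) + S (y - f x0) (Fin.last (m + 1))
      rw [hS, h0, zero_add, Pi.sub_apply, ((hbp x0 hx0).2).2 h0, sub_zero]
      exact div_nonneg hy hc.le
    · apply mem_nhdsWithin_of_mem_nhds
      have h1 : HS m ∈ 𝓝 (Φ (f x0)) := by
        rw [hΦ0]
        have hc : Continuous (fun x : E m => x (Fin.last (m + 1))) := continuous_apply _
        have : (fun x : E m => x (Fin.last (m + 1))) ⁻¹' Ioi 0 ∈ 𝓝 x0 :=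
          hc.continuousAt.preimage_mem_nhds (Ioi_mem_nhds (by linarith))
        filter_upwards [this] with x hx
        exact le_of_lt (show 0 < x (Fin.last (m + 1)) from hx)
      exact hΦc.continuousAt h1
  have hgc : Tendsto (fun y => τ (Φ y)) (𝓝[HS m] (f x0)) (𝓝[HS m] x0) := by
    have h1 : Tendsto Φ (𝓝[HS m] (f x0)) (𝓝[HS m] x0) := by
      apply tendsto_nhdsWithin_iff.2
      refine ⟨?_, hΦH⟩
      have h2 := (hΦc.tendsto (f x0)).mono_left (nhdsWithin_le_nhds (s := HS m))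
      rwa [hΦ0] at h2
    have h2 : Tendsto τ (𝓝[HS m] x0) (𝓝[HS m] x0) := by
      apply tendsto_nhdsWithin_iff.2
      refine ⟨?_, ?_⟩
      · have h3 : Tendsto τ (𝓝[HS m] x0) (𝓝 (τ x0)) := (hτs x0 hx0H).continuousWithinAt
        rwa [hτx0] at h3
      · filter_upwards [self_mem_nhdsWithin] with y hy
        exact hτm hy
    exact h2.comp h1
  refine ⟨fun y => τ (Φ y), ?_, ?_⟩
  · have h1 := eventually_eventually_nhdsWithin.2 hΦH
    have h2 := hgc (mem_nhdsWithin_of_ropen hO hx0)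
    have h3 := hgc (mem_nhdsWithin_of_mem_nhds (Metric.closedBall_mem_nhds x0 hr))
    filter_upwards [hΦH, h1, h2, h3, self_mem_nhdsWithin] with y hy1 hy2 hy3 hy4 hy5
    refine ⟨?_, hy3, ?_⟩
    · exact ContDiffWithinAt.comp_of_preimage_mem_nhdsWithin y (hτs (Φ y) hy1)
        hΦs.contDiffAt.contDiffWithinAt hy2
    · have h4 := hτ2 (Φ y) hy1
      have h5 : ‖τ (Φ y) - x0‖ ≤ r := by
        simpa [dist_eq_norm] using hy4
      rw [hv1 _ h5, hxw] at h4
      exact hΦinj _ _ h4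
  · filter_upwards [mem_nhdsWithin_of_mem_nhds (Metric.closedBall_mem_nhds x0 hr),
      self_mem_nhdsWithin] with x hx hxH
    have h1 := hτ1 x hxH
    rw [hv1 x (by simpa [dist_eq_norm] using hx), hxw] at h1
    exact h1

end Pool.Agent.Helper73.BR
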