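import Pool.Agent.BR.Base
import Pool.Agent.BR.Glue
import Pool.Agent.BR.LocInv
import Pool.Agent.BR.PGerm

/-!
# Module B-OKPARAM of project BR (MP_70674c_lc, Q2): valid codes give parametrisations
-/

open Set Filter Topology MeasureTheory
open scoped ContDiff

namespace Pool.Agent.Helper73.BR

variable {m : ℕ}

section
variable (Q : QFam m)

namespace OkParam

theorem fn_eq (p : ParC (HS m)) (c : BCode m) (h : c.ok Q p) {e : RBox m × ℕ × PTerm}
    (he : e ∈ c.2) {x : E m} (hx : x ∈ e.1.on (HS m)) :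
    c.fn Q p x = ptt p e.2.1 (e.2.2.eval Q p.1 x) := by
  classical
  unfold BCode.fn
  cases hf : c.2.find? (fun e => decide (x ∈ e.1.on (HS m))) with
  | none =>
    exfalso
    have := List.find?_eq_none.1 hf e he
    exact this (by simpa using hx)
  | some e0 =>
    have h1 : x ∈ e0.1.on (HS m) := by
      have := List.find?_some hf
      simpa using this
    have h2 : e0 ∈ c.2 := List.mem_of_find?_eq_some hf
    simpa using h.2.2.1 e0 h2 e he x h1 hx

theorem rint_subset {X S : Set (E m)} : rint X S ⊆ S := fun _ hx => mem_of_mem_nhdsWithin hx.1 hx.2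

theorem rint_nhds {X S : Set (E m)} {x : E m} (hx : x ∈ rint X S) : rint X S ∈ 𝓝[X] x := by
  have h1 : ∀ᶠ z in 𝓝[X] x, S ∈ 𝓝[X] z := by
    have h2 : ∀ᶠ z in 𝓝[X] x, z ∈ S := hx.2
    exact eventually_eventually_nhdsWithin.2 h2
  filter_upwards [h1, self_mem_nhdsWithin] with z hz hz'
  exact ⟨hz', hz⟩

theorem dom_ropen (c : BCode m) : ROpen (HS m) c.dom := by
  refine ropen_iff.2 ⟨?_, ?_⟩
  · rintro x ⟨e, he, hx⟩
    exact hx.1
  · rintro x ⟨e, he, hx⟩
    filter_upwards [rint_nhds hx] with z hz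
    exact ⟨e, he, hz⟩

theorem dom_subset_all (c : BCode m) : c.dom ⊆ c.all := by
  rintro x ⟨e, he, hx⟩
  exact ⟨e, he, rint_subset hx⟩

/-- A map bounded below near a point of the half space has injective derivative there. -/
theorem fderiv_inj {f : E m → E m} {x : E m} {S : Set (E m)} (hx : x ∈ rint (HS m) S)
    (hf : DifferentiableWithinAt ℝ f (HS m) x) {δ : ℝ} (hδ : 0 < δ)
    (hl : ∀ z ∈ S, ∀ y ∈ S, ‖z - y‖ < δ → δ * ‖z - y‖ ≤ ‖f z - f y‖) :
    Function.Injective (fderivWithin ℝ f (HS m) x) := by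
  set A := fderivWithin ℝ f (HS m) x with hA
  have hA' : HasFDerivWithinAt f A (HS m) x := hf.hasFDerivWithinAt
  have key : ∀ h : E m, 0 ≤ h (Fin.last (m + 1)) → A h = 0 → h = 0 := by
    intro h hh hAh
    have hlo := hA'.isLittleO
    have h1 : ∀ᶠ z in 𝓝[HS m] x, ‖f z - f x - A (z - x)‖ ≤ δ / 2 * ‖z - x‖ :=
      hlo.def (half_pos hδ)
    have h2 : ∀ᶠ z in 𝓝[HS m] x, ‖z - x‖ < δ := by
      have : ∀ᶠ z in 𝓝 x, dist z x < δ := Metric.ball_mem_nhds x hδ
      filter_upwards [nhdsWithin_le_nhds this] with z hz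
      rwa [← dist_eq_norm]
    have ht : Tendsto (fun t : ℝ => x + t • h) (𝓝[>] 0) (𝓝[HS m] x) := by
      refine tendsto_nhdsWithin_iff.2 ⟨?_, ?_⟩
      · have : Tendsto (fun t : ℝ => x + t • h) (𝓝 0) (𝓝 (x + (0 : ℝ) • h)) :=
          (Continuous.tendsto (by fun_prop) 0)
        rw [zero_smul, add_zero] at this
        exact this.mono_left nhdsWithin_le_nhds
      · filter_upwards [self_mem_nhdsWithin] with t ht
        have hx0 : 0 ≤ x (Fin.last (m + 1)) := hx.1
        have ht0 : 0 < t := ht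
        show 0 ≤ (x + t • h) (Fin.last (m + 1))
        simp only [Pi.add_apply, Pi.smul_apply, smul_eq_mul]
        positivity
    obtain ⟨t, ⟨⟨ht1, ht2⟩, ht3⟩, ht4⟩ :=
      (((ht.eventually h1).and (ht.eventually h2)).and (ht.eventually hx.2)).and
        (self_mem_nhdsWithin (a := (0:ℝ)) (s := Ioi 0)) |>.exists
    have ht0 : 0 < t := ht4
    have hxS : x ∈ S := rint_subset hx
    have h3 := hl (x + t • h) ht3 x hxS ht2
    rw [add_sub_cancel_left] at h3 ht1
    rw [map_smul, hAh, smul_zero, sub_zero] at ht1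
    have h4 : δ * ‖t • h‖ ≤ δ / 2 * ‖t • h‖ := h3.trans ht1
    have h5 : ‖t • h‖ ≤ 0 := by nlinarith [norm_nonneg (t • h)]
    have h6 : t • h = 0 := norm_le_zero_iff.1 h5
    rcases smul_eq_zero.1 h6 with h7 | h7
    · exact absurd h7 ht0.ne'
    · exact h7
  refine (injective_iff_map_eq_zero A).2 fun h hAh => ?_
  rcases le_total 0 (h (Fin.last (m + 1))) with hh | hh
  · exact key h hh hAh
  · have h1 := key (-h) (by simpa using hh) (by rw [map_neg, hAh, neg_zero])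
    exact neg_eq_zero.1 h1

/-- Everything needed at one point of the domain. -/
theorem point (p : ParC (HS m)) (c : BCode m) (h : c.ok Q p) {x : E m} (hx : x ∈ c.dom) :
    ∃ (l : ℕ) (T : PTerm), x ∈ T.good Q p.1 ∧ T.eval Q p.1 x ∈ (man p).U l ∧
      c.fn Q p x = (man p).pt l (T.eval Q p.1 x) ∧
      (∀ᶠ z in 𝓝[HS m] x, T.eval Q p.1 z ∈ (man p).U l ∧
        c.fn Q p z = (man p).pt l (T.eval Q p.1 z)) ∧
      𝓝[HS m] (T.eval Q p.1 x) = map (T.eval Q p.1) (𝓝[HS m] x) ∧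
      Tr (HS m) ((man p).pt l) (T.eval Q p.1 x) (c.fn Q p) c.dom := by
  obtain ⟨⟨D, l, T⟩, he, hxe⟩ := hx
  have hxD : x ∈ D.on (HS m) := rint_subset hxe
  obtain ⟨hg, hU⟩ := h.2.1 _ he x hxD
  have hev : ∀ᶠ z in 𝓝[HS m] x, T.eval Q p.1 z ∈ (man p).U l ∧
        c.fn Q p z = (man p).pt l (T.eval Q p.1 z) := by
    filter_upwards [hxe.2] with z hz
    rw [man_U, man_pt]
    exact ⟨(h.2.1 _ he z hz).2, fn_eq Q p c h he hz⟩
  have hself := hev.self_of_nhdsWithin hxe.1
  obtain ⟨δ, hδ, hl⟩ := h.2.2.2.2 _ he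
  have hsm := eval_smooth Q p.1 T
  have hbp := eval_bp Q p.1 T
  have hinj : Function.Injective (fderivWithin ℝ (T.eval Q p.1) (HS m) x) :=
    fderiv_inj hxe ((hsm x hg).differentiableWithinAt (by simp)) hδ hl
  obtain ⟨g, hg1, hg2⟩ := locinv (good_ropen Q p.1 T) hsm hbp hg hinj
  have hfx : T.eval Q p.1 x ∈ HS m := (hbp x hg).1
  have hgx : g (T.eval Q p.1 x) = x := hg2.self_of_nhdsWithin hxe.1
  have hgt : Tendsto g (𝓝[HS m] (T.eval Q p.1 x)) (𝓝[HS m] x) := by
    have h1 := (hg1.self_of_nhdsWithin hfx).1.continuousWithinAt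
    rw [ContinuousWithinAt, hgx] at h1
    exact tendsto_nhdsWithin_iff.2 ⟨h1, hg1.mono fun y hy => (good_ropen Q p.1 T).subset hy.2.1⟩
  have hft : Tendsto (T.eval Q p.1) (𝓝[HS m] x) (𝓝[HS m] (T.eval Q p.1 x)) := by
    refine tendsto_nhdsWithin_iff.2 ⟨(hsm x hg).continuousWithinAt, ?_⟩
    filter_upwards [(good_ropen Q p.1 T).mem_nhdsWithin hg] with z hz
    exact (hbp z hz).1
  refine ⟨l, T, hg, hself.1, hself.2, hev, le_antisymm ?_ hft, g,
    (hg1.self_of_nhdsWithin hfx).1, ?_⟩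
  · refine le_map_of_right_inverse ?_ hgt
    filter_upwards [hg1] with y hy
    exact hy.2.2
  · have hdom : c.dom ∈ 𝓝[HS m] x := (dom_ropen c).mem_nhdsWithin ⟨_, he, hxe⟩
    filter_upwards [hgt hdom, hgt.eventually hev, hg1] with y hy1 hy2 hy3
    refine ⟨hy1, ?_⟩
    rw [hy2.2, hy3.2.2]

end OkParam

open OkParam in
theorem ok_param (p : ParC (HS m)) (c : BCode m) (h : c.ok Q p) :
    Param (man p) (c.fn Q p) c.dom ∧
      ∀ x ∈ c.dom, ∃ l, NRel (PGerm Q p.1) (c.fn Q p) ((man p).pt l) ((man p).U l) x := by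
  refine ⟨⟨dom_ropen c, h.2.2.2.1.mono (dom_subset_all c), fun x hx => ?_,
    fun x hx l' y hy hxy => ?_⟩, fun x hx => ?_⟩
  · obtain ⟨l, T, hg, hU, hfx, hev, hmap, htr⟩ := point Q p c h hx
    have h1 : map (c.fn Q p) (𝓝[HS m] x) = map ((man p).pt l ∘ T.eval Q p.1) (𝓝[HS m] x) :=
      map_congr (hev.mono fun z hz => hz.2)
    rw [h1, ← Filter.map_map, ← hmap, hfx, (man p).nhds_pt l _ hU]
  · obtain ⟨l, T, hg, hU, hfx, hev, hmap, htr⟩ := point Q p c h hx
    have hxX : x ∈ HS m := (dom_ropen c).subset hx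
    have hyX : y ∈ HS m := ((man p).ropen l').subset hy
    have h1 : Tr (HS m) (c.fn Q p) x ((man p).pt l) ((man p).U l) :=
      ⟨T.eval Q p.1, eval_smooth Q p.1 T x hg, hev⟩
    constructor
    · exact h1.comp hxX ((man p).ropen l).subset ((man p).inj l) hU hfx
        ((man p).trans l l' _ y hU hy (hfx.symm.trans hxy))
    · exact ((man p).trans l' l y _ hy hU (hxy.symm.trans hfx)).comp hyX
        ((man p).ropen l).subset ((man p).inj l) hU (hxy.symm.trans hfx) htr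
  · obtain ⟨l, T, hg, hU, hfx, hev, hmap, htr⟩ := point Q p c h hx
    exact ⟨l, T.eval Q p.1, ⟨T, hg, EventuallyEq.rfl⟩, hev⟩

end

end Pool.Agent.Helper73.BR
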