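import Pool.Agent.BR.QifyPre
import Pool.Agent.BR.Adj

/-!
# Making overlaps exact
-/

open Set Filter Topology MeasureTheory
open scoped ContDiff

namespace Pool.Agent.Helper73.BR

variable {m : ℕ} {M : Type} [TopologicalSpace M]

theorem qify (Q : QFam m) [T2Space M] (A : Man (HS m) M)
    (s : List ((E m → M) × Set (E m) × Set (E m)))
    (hs : ∀ b ∈ s, Param A b.1 b.2.1 ∧ IsCompact b.2.2 ∧ b.2.2 ⊆ b.2.1)
    (hp : s.Pairwise (fun bj bi => ∀ x ∈ bj.2.2, bj.1 x ∈ bi.1 '' bi.2.2 →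
      NRel (QGerm Q) bj.1 bi.1 bi.2.1 x))
    {u : E m → M} {W : Set (E m)} (hu : Param A u W)
    {K : Set (E m)} (hK : IsCompact K) (hKW : K ⊆ W)
    {D : Set (M × M)} (hD : IsOpen D) (hd : ∀ z, (z, z) ∈ D) :
    ∃ ρ : M ≃ M, DM A A ρ ∧ (∀ z, (z, ρ z) ∈ D) ∧
      ∀ b ∈ s, ∀ x ∈ K, ρ (u x) ∈ b.1 '' b.2.2 → NRel (QGerm Q) (ρ ∘ u) b.1 b.2.1 x :=
  Qify.qify_of Q A
    (fun hN _ _ _ _ hu hc _ hK hKW hKV _ hC hn _ hD hd =>
      adj Q A hN hu hc hK hKW hKV hC hn hD hd) s hs hp hu hK hKW hD hd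

end Pool.Agent.Helper73.BR
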