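import Pool.Agent.BR.Base
import Pool.Agent.BR.Adj

/-!
# Module B-RAWIFY of project BR (MP_70674c_lc, Q2): making a parametrisation nice on a compact set
-/

open Set Filter Topology MeasureTheory
open scoped ContDiff

namespace Pool.Agent.Helper73.BR

variable {m : ℕ}

section
variable {M N : Type} [TopologicalSpace M] [TopologicalSpace N]

namespace Rawify

/-- An eventual property near `u x` holds at `u z` for `z` near `x`. -/
theorem ev_of_param {A : Man (HS m) M} {u : E m → M} {W : Set (E m)} (hu : Param A u W)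
    {x : E m} (hx : x ∈ W) {p : M → Prop} (h : ∀ᶠ w in 𝓝 (u x), p w) :
    ∀ᶠ z in 𝓝[HS m] x, p (u z) := by
  rw [hu.2.2.1 x hx] at h
  exact h

omit [TopologicalSpace M] in
theorem nrel_congr {nice : (E m → E m) → E m → Prop} {u u' c : E m → M} {V : Set (E m)}
    {x : E m} (h : NRel nice u c V x) (he : ∀ᶠ z in 𝓝[HS m] x, u' z = u z) :
    NRel nice u' c V x := by
  obtain ⟨F, hF, h1⟩ := h
  refine ⟨F, hF, ?_⟩
  filter_upwards [h1, he] with z hz hz'
  exact ⟨hz.1, hz'.trans hz.2⟩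

/-- The inductive construction. -/
theorem core (Q : QFam m) [T2Space M] (A : Man (HS m) M) {nice : (E m → E m) → E m → Prop}
    (hN : IsNice Q nice)
    (htr : ∀ F x l l', nice F x → F x ∈ A.U l → A.pt l (F x) ∈ A.pt l' '' A.U l' →
      ∃ F', nice F' x ∧ ∀ᶠ z in 𝓝[HS m] x, F' z ∈ A.U l' ∧ A.pt l (F z) = A.pt l' (F' z))
    {u : E m → M} {W : Set (E m)} (hu : Param A u W)
    {K : Set (E m)} (hKW : K ⊆ W) {C : Set M} (hC : IsClosed C)
    (hr : ∀ x ∈ K, u x ∈ C → ∃ l, NRel nice u (A.pt l) (A.U l) x)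
    {D : Set (M × M)} (hD : IsOpen D) (hd : ∀ z, (z, z) ∈ D)
    {B : ℕ → Set (E m)} (hB : ∀ l, IsCompact (B l)) (hBK : ∀ l, B l ⊆ K)
    (t : Finset ℕ)
    (hDl : ∀ l ∈ t, ∀ x ∈ B l, ∀ w, (u x, w) ∈ D → w ∈ A.pt l '' A.U l) :
    ∃ ρ : M ≃ M, DM A A ρ ∧ (∀ z ∈ C, ∀ᶠ w in 𝓝 z, ρ w = w) ∧ (∀ z, (z, ρ z) ∈ D) ∧
      ∀ l ∈ t, ∀ x ∈ B l, ∃ l', NRel nice (ρ ∘ u) (A.pt l') (A.U l') x := by
  classical
  induction t using Finset.induction_on with
  | empty =>
    exact ⟨Equiv.refl M, DM.refl A, fun z _ => Eventually.of_forall fun w => rfl, hd,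
      fun l hl => absurd hl (Finset.notMem_empty l)⟩
  | insert l0 t hl0 ih =>
    obtain ⟨ρ, hρ, hρC, hρD, hρt⟩ := ih (fun l hl => hDl l (Finset.mem_insert_of_mem hl))
    have hu1 : Param A (ρ ∘ u) W := hu.map hρ
    have hW : W ⊆ HS m := hu.1.subset
    -- the closed set to be kept
    have hcl : IsClosed (C ∪ ⋃ l ∈ t, (ρ ∘ u) '' B l) := by
      refine hC.union ?_
      refine Set.Finite.isClosed_biUnion t.finite_toSet fun l _ => ?_
      exact ((hB l).image_of_continuousOn (hu1.continuousOn.mono ((hBK l).trans hKW))).isClosed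
    -- rawness on the closed set
    have hraw : ∀ x ∈ K, (ρ ∘ u) x ∈ C ∪ ⋃ l ∈ t, (ρ ∘ u) '' B l →
        ∃ l, NRel nice (ρ ∘ u) (A.pt l) (A.U l) x := by
      intro x hx hxC
      rcases hxC with hxC | hxC
      · have h1 : ρ (ρ (u x)) = ρ (u x) := (hρC _ hxC).self_of_nhds
        have h2 : ρ (u x) = u x := ρ.injective h1
        have h3 : u x ∈ C := by
          have : ρ (u x) ∈ C := hxC
          rwa [h2] at this
        obtain ⟨l, hl⟩ := hr x hx h3
        exact ⟨l, nrel_congr hl (ev_of_param hu (hKW hx) (hρC _ h3))⟩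
      · obtain ⟨l, hl, y, hy, hxy⟩ := mem_iUnion₂.1 hxC
        have h1 : y = x := hu1.2.1 (hKW (hBK l hy)) (hKW hx) hxy
        subst h1
        exact hρt l hl y hy
    have hopen : IsOpen {p : M × M | (ρ.symm p.1, p.2) ∈ D} :=
      hD.preimage ((hρ.symm.continuous.comp continuous_fst).prodMk continuous_snd)
    obtain ⟨ρ', hρ', hρC', hρD', hρK'⟩ := adj Q A hN hu1 (param_chart A l0) (hB l0)
      ((hBK l0).trans hKW)
      (fun x hx => hDl l0 (Finset.mem_insert_self _ _) x hx _ (hρD (u x))) hcl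
      (by
        intro x hx hxC
        obtain ⟨l, F, hF, hF'⟩ := hraw x (hBK l0 hx) hxC
        have h1 := hF'.self_of_nhdsWithin (hW (hKW (hBK l0 hx)))
        have h2 : A.pt l (F x) ∈ A.pt l0 '' A.U l0 := by
          rw [← h1.2]
          exact hDl l0 (Finset.mem_insert_self _ _) x hx _ (hρD (u x))
        obtain ⟨F', hn, hF''⟩ := htr F x l l0 hF h1.1 h2
        refine ⟨F', hn, ?_⟩
        filter_upwards [hF', hF''] with z hz hz'
        exact ⟨hz'.1, hz.2.trans hz'.2⟩) hopen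
      (fun z => by
        have := hρD (ρ.symm z)
        rwa [Equiv.apply_symm_apply] at this)
    refine ⟨ρ.trans ρ', hρ.trans hρ', ?_, ?_, ?_⟩
    · intro z hz
      filter_upwards [hρC z hz, hρC' z (Or.inl hz)] with w h1 h2
      rw [Equiv.trans_apply, h1, h2]
    · intro z
      have := hρD' (ρ z)
      simp only [Set.mem_ofPred_eq, Equiv.symm_apply_apply] at this
      exact this
    · intro l hl x hx
      rcases Finset.mem_insert.1 hl with rfl | hl
      · exact ⟨l, hρK' x hx⟩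
      · obtain ⟨l', h⟩ := hρt l hl x hx
        refine ⟨l', nrel_congr h ?_⟩
        have hxC : (ρ ∘ u) x ∈ C ∪ ⋃ l ∈ t, (ρ ∘ u) '' B l :=
          Or.inr (mem_iUnion₂.2 ⟨l, hl, x, hx, rfl⟩)
        exact ev_of_param hu1 (hKW (hBK l hx)) (hρC' _ hxC)

end Rawify

theorem rawify (Q : QFam m) [T2Space M] (A : Man (HS m) M) {nice : (E m → E m) → E m → Prop}
    (hN : IsNice Q nice)
    (htr : ∀ F x l l', nice F x → F x ∈ A.U l → A.pt l (F x) ∈ A.pt l' '' A.U l' →
      ∃ F', nice F' x ∧ ∀ᶠ z in 𝓝[HS m] x, F' z ∈ A.U l' ∧ A.pt l (F z) = A.pt l' (F' z))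
    {u : E m → M} {W : Set (E m)} (hu : Param A u W)
    {K : Set (E m)} (hK : IsCompact K) (hKW : K ⊆ W) {C : Set M} (hC : IsClosed C)
    (hr : ∀ x ∈ K, u x ∈ C → ∃ l, NRel nice u (A.pt l) (A.U l) x)
    {D : Set (M × M)} (hD : IsOpen D) (hd : ∀ z, (z, z) ∈ D) :
    ∃ ρ : M ≃ M, DM A A ρ ∧ (∀ z ∈ C, ∀ᶠ w in 𝓝 z, ρ w = w) ∧ (∀ z, (z, ρ z) ∈ D) ∧
      ∀ x ∈ K, ∃ l, NRel nice (ρ ∘ u) (A.pt l) (A.U l) x := by
  classical
  have hW : W ⊆ HS m := hu.1.subset
  -- the charts cover `K`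
  have hopen : ∀ l, IsOpen (A.pt l '' A.U l) := fun l => (param_chart A l).isOpen_image
  have hS : ∀ l, ∃ V : Set (E m), IsOpen V ∧ ∀ x ∈ W, x ∈ V ↔ u x ∈ A.pt l '' A.U l := by
    intro l
    have h1 : ∀ x ∈ {x ∈ W | u x ∈ A.pt l '' A.U l},
        {x ∈ W | u x ∈ A.pt l '' A.U l} ∈ 𝓝[HS m] x := by
      rintro x ⟨hx, hx'⟩
      exact inter_mem (hu.1.mem_nhdsWithin hx)
        (Rawify.ev_of_param hu hx ((hopen l).mem_nhds hx'))
    obtain ⟨V, hV, hVe⟩ := ropen_iff.2 ⟨fun x hx => hW hx.1, h1⟩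
    refine ⟨V, hV, fun x hx => ⟨fun h => ?_, fun h => ?_⟩⟩
    · have : x ∈ V ∩ HS m := ⟨h, hW hx⟩
      rw [← hVe] at this
      exact this.2
    · have : x ∈ V ∩ HS m := by
        rw [← hVe]
        exact ⟨hx, h⟩
      exact this.1
  choose V hVo hV using hS
  obtain ⟨t, ht⟩ := hK.elim_finite_subcover V hVo (by
    intro x hx
    obtain ⟨l, y, hy, hxy⟩ := A.cover (u x)
    exact mem_iUnion.2 ⟨l, (hV l x (hKW hx)).2 ⟨y, hy, hxy⟩⟩)
  obtain ⟨B, hB, hBV, hBK⟩ := hK.finite_compact_cover t V (fun l _ => hVo l) ht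
  -- replace `B l` by the empty set off `t`
  set B' : ℕ → Set (E m) := fun l => if l ∈ t then B l else ∅ with hB'
  have hB'c : ∀ l, IsCompact (B' l) := by
    intro l
    by_cases h : l ∈ t
    · simp only [hB', h, if_true]; exact hB l
    · simp only [hB', h, if_false]; exact isCompact_empty
  have hB'K : ∀ l, B' l ⊆ K := by
    intro l
    by_cases h : l ∈ t
    · simp only [hB', h, if_true]
      rw [hBK]
      exact subset_biUnion_of_mem (u := fun l => B l) (show l ∈ (t : Set ℕ) from h)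
    · simp only [hB', h, if_false]; exact empty_subset _
  have hB'V : ∀ l, ∀ x ∈ B' l, u x ∈ A.pt l '' A.U l := by
    intro l x hx
    have hxK := hB'K l hx
    by_cases h : l ∈ t
    · simp only [hB', h, if_true] at hx
      exact (hV l x (hKW hxK)).1 (hBV l hx)
    · simp only [hB', h, if_false] at hx
      exact absurd hx (notMem_empty x)
  set D' : Set (M × M) := D ∩ ⋂ l ∈ t, {p : M × M | p.1 ∈ u '' B' l → p.2 ∈ A.pt l '' A.U l}
    with hD'
  have hD'o : IsOpen D' := by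
    refine hD.inter ?_
    refine isOpen_biInter_finset fun l _ => ?_
    have h1 : IsClosed (u '' B' l) :=
      ((hB'c l).image_of_continuousOn (hu.continuousOn.mono ((hB'K l).trans hKW))).isClosed
    have h2 : {p : M × M | p.1 ∈ u '' B' l → p.2 ∈ A.pt l '' A.U l} =
        (Prod.fst ⁻¹' (u '' B' l)ᶜ) ∪ (Prod.snd ⁻¹' (A.pt l '' A.U l)) := by
      ext p
      simp only [Set.mem_ofPred_eq, mem_union, mem_preimage, mem_compl_iff]
      tauto
    rw [h2]
    exact (h1.isOpen_compl.preimage continuous_fst).union ((hopen l).preimage continuous_snd)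
  have hd' : ∀ z, (z, z) ∈ D' := by
    intro z
    refine ⟨hd z, mem_iInter₂.2 fun l _ => ?_⟩
    rintro ⟨x, hx, rfl⟩
    exact hB'V l x hx
  obtain ⟨ρ, h1, h2, h3, h4⟩ := Rawify.core Q A hN htr hu hKW hC hr hD'o hd' hB'c hB'K t (by
    intro l hl x hx w hw
    exact (mem_iInter₂.1 hw.2 l hl) ⟨x, hx, rfl⟩)
  refine ⟨ρ, h1, h2, fun z => (h3 z).1, ?_⟩
  intro x hx
  have hx' := hx
  rw [hBK] at hx'
  obtain ⟨l, hl, hxl⟩ := mem_iUnion₂.1 hx'
  refine h4 l hl x ?_
  simp only [hB', hl, if_true]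
  exact hxl

end

end Pool.Agent.Helper73.BR
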