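import Pool.Agent.BR.Base
import Pool.Agent.BR.Glue
import Pool.Agent.BR.Limit
import Pool.Agent.BR.PGerm
import Pool.Agent.BR.OkParam
import Pool.Agent.BR.CodeEx
import Pool.Agent.BR.Rawify
import Pool.Agent.BR.Qify

/-!
# Project BR, module CovStep: covering a chart box by a valid extension
-/

open Set Filter Topology MeasureTheory
open scoped ContDiff

namespace Pool.Agent.Helper73.BR

variable {m : ℕ}

namespace CovStep

theorem rint_subset {X S : Set (E m)} : rint X S ⊆ S := fun _ hx =>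
  mem_of_mem_nhdsWithin hx.1 hx.2

theorem ropen_rint {X : Set (E m)} (S : Set (E m)) : ROpen X (rint X S) := by
  rw [ropen_iff]
  refine ⟨fun x hx => hx.1, fun x hx => ?_⟩
  have h1 : ∀ᶠ z in 𝓝[X] x, S ∈ 𝓝[X] z := eventually_eventually_nhdsWithin.2 hx.2
  filter_upwards [h1, self_mem_nhdsWithin] with z hz hzX
  exact ⟨hzX, hz⟩

/-- enlarging a rational box -/
theorem exists_enlarge {W : Set (E m)} (hW : ROpen (HS m) W) (B : RBox m)
    (hB : B.on (HS m) ⊆ W) :
    ∃ B' : RBox m, B.on (HS m) ⊆ rint (HS m) (B'.on (HS m)) ∧ B'.on (HS m) ⊆ W := by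
  by_cases hne : (B.on (HS m)).Nonempty
  swap
  · rw [not_nonempty_iff_eq_empty] at hne
    exact ⟨B, by rw [hne]; exact empty_subset _, by rw [hne]; exact empty_subset _⟩
  obtain ⟨V, hV, rfl⟩ := hW
  obtain ⟨δ, hδ, hδV⟩ := (isCompact_on B).exists_thickening_subset_open hV
    (hB.trans inter_subset_left)
  obtain ⟨q, hq0, hqδ⟩ := exists_rat_btwn hδ
  have hq0' : (0 : ℚ) < q := by exact_mod_cast hq0
  obtain ⟨w, hwH, hw⟩ := hne
  refine ⟨(fun i => B.1 i - q, fun i => B.2 i + q), ?_, ?_⟩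
  · rintro x ⟨hxH, hx⟩
    refine ⟨hxH, ?_⟩
    have h1 : Metric.ball x (q : ℝ) ∩ HS m ∈ 𝓝[HS m] x :=
      inter_mem (mem_nhdsWithin_of_mem_nhds (Metric.ball_mem_nhds x hq0)) self_mem_nhdsWithin
    filter_upwards [h1] with z hz
    refine ⟨hz.2, fun i => ?_⟩
    have h2 : |z i - x i| < q := by
      have := hz.1
      rw [Metric.mem_ball, dist_eq_norm] at this
      exact lt_of_le_of_lt (by
        have := norm_le_pi_norm (z - x) i
        simpa [Real.norm_eq_abs] using this) this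
    rw [abs_lt] at h2
    have h3 := hx i
    push_cast
    constructor <;> linarith [h2.1, h2.2, h3.1, h3.2]
  · rintro x ⟨hxH, hx⟩
    refine ⟨hδV ?_, hxH⟩
    rw [Metric.mem_thickening_iff]
    refine ⟨fun i => max (B.1 i : ℝ) (min (B.2 i : ℝ) (x i)), ⟨?_, ?_⟩, ?_⟩
    · have h1 : (0 : ℝ) ≤ w (Fin.last (m + 1)) := hwH
      have h2 : (0 : ℝ) ≤ x (Fin.last (m + 1)) := hxH
      have h3 := hw (Fin.last (m + 1))
      show (0 : ℝ) ≤ max _ _
      exact le_max_of_le_right (le_min (h1.trans h3.2) h2)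
    · intro i
      have h3 := hw i
      exact ⟨le_max_left _ _, max_le (h3.1.trans h3.2) (min_le_left _ _)⟩
    · refine lt_of_le_of_lt ?_ hqδ
      rw [dist_pi_le_iff hq0.le]
      intro i
      have h3 := hw i
      have h4 := hx i
      push_cast at h4
      rw [Real.dist_eq, abs_le]
      have h5 := h3.1.trans h3.2
      constructor
      · have : max (B.1 i : ℝ) (min (B.2 i : ℝ) (x i)) ≤ x i + q := by
          apply max_le
          · linarith [h4.1]
          · exact (min_le_right _ _).trans (by linarith)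
        linarith
      · have : x i - q ≤ max (B.1 i : ℝ) (min (B.2 i : ℝ) (x i)) := by
          apply le_max_of_le_right
          apply le_min
          · linarith [h4.2]
          · linarith
        linarith

theorem q_mem (Q : QFam m) (n : ℕ) {x : E m} (hx : x ∈ HS m) : Q.q n x ∈ HS m :=
  (Q.q_bp n x hx).1

theorem q_tendsto (Q : QFam m) (n : ℕ) {x : E m} (hx : x ∈ HS m) :
    Tendsto (Q.q n) (𝓝[HS m] x) (𝓝[HS m] (Q.q n x)) := by
  refine tendsto_nhdsWithin_iff.2 ⟨(Q.q_smooth n).continuousOn x hx, ?_⟩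
  filter_upwards [self_mem_nhdsWithin] with z hz
  exact q_mem Q n hz

/-- rawness is pulled back along exact overlaps -/
theorem raw_of_exact (Q : QFam m) (p : ParC (HS m)) {c : BCode m} (hc : c.ok Q p)
    {v : E m → p.1.Space} {x : E m} (hx : x ∈ HS m)
    (h : NRel (QGerm Q) v (c.fn Q p) c.dom x) :
    ∃ l, NRel (PGerm Q p.1) v ((man p).pt l) ((man p).U l) x := by
  obtain ⟨F, ⟨-, n, hn⟩, hF⟩ := h
  have hFx : F x = Q.q n x := hn.eq_of_nhdsWithin hx
  have hFd : F x ∈ c.dom := (mem_of_mem_nhdsWithin hx hF).1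
  rw [hFx] at hFd
  obtain ⟨l, G, hG, hGe⟩ := (ok_param Q p c hc).2 _ hFd
  refine ⟨l, fun z => G (Q.q n z), pgerm_pre Q p.1 G x n hx hG, ?_⟩
  have h1 := (q_tendsto Q n hx).eventually hGe
  filter_upwards [h1, hn, hF] with z h2 h3 h4
  refine ⟨h2.1, ?_⟩
  rw [h4.2, h3, h2.2]

theorem valid_mem {Q : QFam m} {p : ParC (HS m)} {s : List (NCode m)} (hs : Valid Q p s) :
    ∀ c ∈ s, c.1.ok Q p := by
  induction s with
  | nil => simp
  | cons a s ih =>
    intro c hc
    rcases List.mem_cons.1 hc with rfl | hc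
    · exact hs.2.1
    · exact ih hs.1 c hc

theorem core_subset_hs (c : BCode m) : c.core ⊆ HS m := fun _ hx => hx.1

theorem forall₂_mem {α β : Type} {R : α → β → Prop} {l : List α} {l' : List β}
    (h : List.Forall₂ R l l') : ∀ b ∈ l', ∃ a ∈ l, R a b := by
  induction h with
  | nil => simp
  | cons h1 _ ih =>
    intro b hb
    rcases List.mem_cons.1 hb with rfl | hb
    · exact ⟨_, List.mem_cons_self, h1⟩
    · obtain ⟨a, ha, hab⟩ := ih b hb
      exact ⟨a, List.mem_cons_of_mem _ ha, hab⟩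

theorem exists_forall₂ {α β : Type} {R : α → β → Prop} (l' : List β)
    (h : ∀ b ∈ l', ∃ a, R a b) : ∃ l : List α, List.Forall₂ R l l' := by
  induction l' with
  | nil => exact ⟨[], List.Forall₂.nil⟩
  | cons b l' ih =>
    obtain ⟨a, ha⟩ := h b List.mem_cons_self
    obtain ⟨l, hl⟩ := ih (fun b hb => h b (List.mem_cons_of_mem _ hb))
    exact ⟨a :: l, List.Forall₂.cons ha hl⟩

theorem valid_pairwise {Q : QFam m} {p : ParC (HS m)} {s : List (NCode m)} (hs : Valid Q p s) :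
    (s.map (fun c => (c.1.fn Q p, c.1.dom, c.1.core))).Pairwise
      (fun (bj bi : (E m → p.1.Space) × Set (E m) × Set (E m)) =>
        ∀ x ∈ bj.2.2, bj.1 x ∈ bi.1 '' bi.2.2 → NRel (QGerm Q) bj.1 bi.1 bi.2.1 x) := by
  induction s with
  | nil => simp
  | cons a s ih =>
    rw [List.map_cons, List.pairwise_cons]
    refine ⟨?_, ih hs.1⟩
    intro b hb
    obtain ⟨c, hc, rfl⟩ := List.mem_map.1 hb
    obtain ⟨L, -, hL⟩ := forall₂_mem hs.2.2 c hc
    have hok := valid_mem hs.1 c hc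
    exact nrel_of_list Q (man p) (ok_param Q p c.1 hok).1 (core_subset_hs _) hok.1 hL

/-- the union of the cores of a node, as a subset of the manifold -/
def cores (Q : QFam m) (p : ParC (HS m)) (s : List (NCode m)) : Set p.1.Space :=
  {z | ∃ c ∈ s, z ∈ c.1.fn Q p '' c.1.core}

theorem isClosed_cores {Q : QFam m} {p : ParC (HS m)} {s : List (NCode m)} (hs : Valid Q p s) :
    IsClosed (cores Q p s) := by
  induction s with
  | nil =>
    have : cores Q p [] = ∅ := by ext z; simp [cores]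
    rw [this]; exact isClosed_empty
  | cons a s ih =>
    have : cores Q p (a :: s) = a.1.fn Q p '' a.1.core ∪ cores Q p s := by
      ext z; simp [cores]
    rw [this]
    refine IsClosed.union ?_ (ih hs.1)
    exact ((isCompact_on a.1.1).image_of_continuousOn
      ((ok_param Q p a.1 hs.2.1).1.continuousOn.mono hs.2.1.1)).isClosed

end CovStep

open CovStep

theorem cov_step (Q : QFam m) (p : ParC (HS m)) (s : List (NCode m)) (hs : Valid Q p s) (l : ℕ)
    (B : RBox m) (hB : B.on (HS m) ⊆ p.1.U l l) :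
    ∃ c : NCode m, Valid Q p (c :: s) ∧
      ptt p l '' (B.on (HS m)) ⊆ c.1.fn Q p '' rint (HS m) c.1.core := by
  have hu : Param (man p) (ptt p l) (p.1.U l l) := by
    have := param_chart (man p) l
    rwa [man_pt, man_U] at this
  obtain ⟨B', hBB', hB'⟩ := exists_enlarge hu.1 B hB
  have hK : IsCompact (B'.on (HS m)) := isCompact_on B'
  -- the open set D
  have hop : IsOpen (ptt p l '' rint (HS m) (B'.on (HS m))) :=
    (hu.mono (ropen_rint _) (rint_subset.trans hB')).isOpen_image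
  have hcl : IsClosed (ptt p l '' (B.on (HS m))) :=
    ((isCompact_on B).image_of_continuousOn (hu.continuousOn.mono hB)).isClosed
  let D : Set (p.1.Space × p.1.Space) :=
    {z | z.1 ∈ ptt p l '' rint (HS m) (B'.on (HS m)) ∨ z.2 ∉ ptt p l '' (B.on (HS m))}
  have hD : IsOpen D := by
    apply IsOpen.union
    · exact hop.preimage continuous_fst
    · exact hcl.isOpen_compl.preimage continuous_snd
  have hDd : ∀ z, (z, z) ∈ D := by
    intro z
    by_cases hz : z ∈ ptt p l '' (B.on (HS m))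
    · left
      exact image_mono hBB' hz
    · right; exact hz
  -- step 1: exactness
  obtain ⟨ρ₁, hρ₁, hρ₁D, hex⟩ := qify Q (man p)
    (s.map (fun c => (c.1.fn Q p, c.1.dom, c.1.core)))
    (by
      intro b hb
      obtain ⟨c, hc, rfl⟩ := List.mem_map.1 hb
      have hok := valid_mem hs c hc
      exact ⟨(ok_param Q p c.1 hok).1, isCompact_on _, hok.1⟩)
    (valid_pairwise hs) hu hK hB' hD hDd
  have hex' : ∀ c ∈ s, ∀ x ∈ B'.on (HS m), ρ₁ (ptt p l x) ∈ c.1.fn Q p '' c.1.core →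
      NRel (QGerm Q) (ρ₁ ∘ ptt p l) (c.1.fn Q p) c.1.dom x := by
    intro c hc x hx h
    exact hex _ (List.mem_map.2 ⟨c, hc, rfl⟩) x hx h
  have hu₁ : Param (man p) (ρ₁ ∘ ptt p l) (p.1.U l l) := hu.map hρ₁
  -- step 2: rawness
  have hC := isClosed_cores hs
  let D₂ : Set (p.1.Space × p.1.Space) := {z | (ρ₁.symm z.1, z.2) ∈ D}
  have hD₂ : IsOpen D₂ :=
    hD.preimage ((hρ₁.symm.continuous.comp continuous_fst).prodMk continuous_snd)
  have hD₂d : ∀ z, (z, z) ∈ D₂ := by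
    intro z
    have := hρ₁D (ρ₁.symm z)
    rw [Equiv.apply_symm_apply] at this
    exact this
  obtain ⟨ρ₂, hρ₂, hρ₂C, hρ₂D, hraw⟩ := rawify Q (man p) (isNice_PGerm Q p.1)
    (by
      intro F x l l' h1 h2 h3
      rw [man_U, man_pt] at h3
      rw [man_U] at h2
      rw [man_pt] at h3
      obtain ⟨F', h4, h5⟩ := pgerm_tr Q p F x l l' h1 h2 h3
      refine ⟨F', h4, ?_⟩
      rw [man_U, man_pt, man_pt]
      exact h5)
    hu₁ hK hB' hC
    (by
      rintro x hx ⟨c, hc, hxc⟩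
      exact raw_of_exact Q p (valid_mem hs c hc) hx.1 (hex' c hc x hx hxc))
    hD₂ hD₂d
  have hu₂ : Param (man p) (ρ₂ ∘ (ρ₁ ∘ ptt p l)) (p.1.U l l) := hu₁.map hρ₂
  -- step 3: the code
  obtain ⟨c', hc'1, hc'ok, hc'f⟩ := exists_code Q p hu₂ B' hB' hraw
  have hcore : BCode.core c' = B'.on (HS m) := by rw [BCode.core, hc'1]
  have hc'p := ok_param Q p c' hc'ok
  -- the lists
  have hlists : ∀ c ∈ s, ∃ L, ListOK Q c'.core (c'.fn Q p) c.1.core (c.1.fn Q p) L := by
    intro c hc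
    have hok := valid_mem hs c hc
    refine exists_list Q (man p) hc'p.1 (ok_param Q p c.1 hok).1 (isCompact_on _)
      (isCompact_on _) hc'ok.1 hok.1 ?_
    intro x hx hxc
    rw [hcore] at hx
    have h1 : c'.fn Q p x = ρ₂ (ρ₁ (ptt p l x)) := (hc'f x hx).self_of_nhdsWithin hx.1
    have hmem : ρ₂ (ρ₁ (ptt p l x)) ∈ cores Q p s := ⟨c, hc, h1 ▸ hxc⟩
    have h2 : ρ₂ (ρ₂ (ρ₁ (ptt p l x))) = ρ₂ (ρ₁ (ptt p l x)) := (hρ₂C _ hmem).self_of_nhds
    have h3 : ρ₂ (ρ₁ (ptt p l x)) = ρ₁ (ptt p l x) := ρ₂.injective h2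
    have h4 : ρ₁ (ptt p l x) ∈ c.1.fn Q p '' c.1.core := by rw [← h3, ← h1]; exact hxc
    obtain ⟨F, hF, hFe⟩ := hex' c hc x hx h4
    refine ⟨F, hF, ?_⟩
    have h5 : ∀ᶠ w in 𝓝 (ρ₁ (ptt p l x)), ρ₂ w = w := by
      rw [← h3]; exact hρ₂C _ hmem
    have h6 : Tendsto (ρ₁ ∘ ptt p l) (𝓝[HS m] x) (𝓝 (ρ₁ (ptt p l x))) := by
      rw [← Glue.nhdsWithin_eq hu₁.1 (hB' hx)]
      exact hu₁.continuousOn x (hB' hx)
    filter_upwards [hFe, h6.eventually h5, hc'f x hx] with z h7 h8 h9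
    refine ⟨h7.1, ?_⟩
    rw [h9, ← h7.2]
    exact h8
  obtain ⟨Ls, hLs⟩ := exists_forall₂ (R := fun L (c : NCode m) =>
    ListOK Q c'.core (c'.fn Q p) c.1.core (c.1.fn Q p) L) s hlists
  refine ⟨(c', Ls), ⟨hs, hc'ok, hLs⟩, ?_⟩
  -- covering
  rintro z₀ hz₀
  have h1 := hρ₂D (ρ₂.symm z₀)
  rw [Equiv.apply_symm_apply] at h1
  have h2 : (ρ₁.symm (ρ₂.symm z₀), z₀) ∈ D := h1
  rcases h2 with ⟨x, hx, hxz⟩ | h2
  · refine ⟨x, ?_, ?_⟩
    · show x ∈ rint (HS m) (BCode.core c')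
      rw [hcore]; exact hx
    · have h3 := (hc'f x (rint_subset hx)).self_of_nhdsWithin hx.1
      show c'.fn Q p x = z₀
      rw [h3]
      show ρ₂ (ρ₁ (ptt p l x)) = z₀
      rw [hxz]
      simp
  · exact absurd hz₀ h2

end Pool.Agent.Helper73.BR
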