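import Pool.Agent.BR.Base
import Pool.Agent.BR.Glue
import Pool.Agent.BR.Rawify
import Pool.Agent.BR.PGerm
import Pool.Agent.BR.OkParam
import Pool.Agent.BR.CodeEx

/-!
# MP_70674c_lc, module ExtStep: extending a matching diffeomorphism
-/

open Set Filter Topology MeasureTheory
open scoped ContDiff

namespace Pool.Agent.Helper73.BR

variable {m : ℕ} (Q : QFam m)

namespace ExtStep

variable {Q}

theorem valid_ok {p : ParC (HS m)} : ∀ {s : List (NCode m)}, Valid Q p s →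
    ∀ c ∈ s, c.1.ok Q p
  | [], _, c, hc => by simp at hc
  | d :: s, h, c, hc => by
    rcases List.mem_cons.1 hc with rfl | hc
    · exact h.2.1
    · exact valid_ok h.1 c hc

theorem core_sub_dom {p : ParC (HS m)} {c : BCode m} (h : c.ok Q p) : c.core ⊆ c.dom := h.1

theorem tendsto_fn {p : ParC (HS m)} {c : BCode m} (h : c.ok Q p) {x : E m} (hx : x ∈ c.dom) :
    Tendsto (c.fn Q p) (𝓝[HS m] x) (𝓝 (c.fn Q p x)) := by
  rw [(ok_param Q p c h).1.2.2.1 x hx]
  exact tendsto_map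

theorem tendsto_q (n : ℕ) {x : E m} (hx : x ∈ HS m) :
    Tendsto (Q.q n) (𝓝[HS m] x) (𝓝[HS m] (Q.q n x)) :=
  tendsto_nhdsWithin_iff.2 ⟨((Q.q_smooth n).continuousOn x hx),
    eventually_mem_nhdsWithin.mono (fun z hz => (Q.q_bp n z hz).1)⟩

theorem core_sub_HS (c : BCode m) : c.core ⊆ HS m := fun _ hx => hx.1

/-- The combined relation between the list `L` and the old box `c'` of `q`. -/
def R (p q : ParC (HS m)) (f : p.1.Space ≃ q.1.Space) (C : Set q.1.Space) (c : BCode m)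
    (L : List (RBox m × ℕ)) (c' : NCode m) : Prop :=
  c'.1.ok Q q ∧ (∀ y ∈ c'.1.core, c'.1.fn Q q y ∈ C) ∧
  ∃ ci : BCode m, ci.ok Q p ∧ ci.core = c'.1.core ∧
    (∀ x ∈ ci.core, ∀ᶠ z in 𝓝[HS m] x, f (ci.fn Q p z) = c'.1.fn Q q z) ∧
    ListOK Q c.core (c.fn Q p) ci.core (ci.fn Q p) L

theorem comb {p q : ParC (HS m)} {f : p.1.Space ≃ q.1.Space} {C : Set q.1.Space} {c : BCode m} :
    ∀ {Ls : List (List (RBox m × ℕ))} {s t : List (NCode m)},
      (∀ d ∈ s, d.1.ok Q p) → (∀ d ∈ t, d.1.ok Q q) →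
      (∀ d ∈ t, ∀ y ∈ d.1.core, d.1.fn Q q y ∈ C) → lab s = lab t →
      List.Forall₂ (fun c c' : NCode m =>
        ∀ x ∈ c.1.core, ∀ᶠ z in 𝓝[HS m] x, f (c.1.fn Q p z) = c'.1.fn Q q z) s t →
      List.Forall₂ (fun L c' => ListOK Q c.core (c.fn Q p) c'.1.core (c'.1.fn Q p) L) Ls s →
      List.Forall₂ (R (Q := Q) p q f C c) Ls t
  | _, [], _, _, _, _, _, hm, hL => by
    cases hm; cases hL; exact List.Forall₂.nil
  | _, d :: s, _, h1, h2, h3, hl, hm, hL => by
    cases hm with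
    | @cons _ d' _ t' hd hm =>
      cases hL with
      | @cons L _ Ls' _ hLd hL =>
        simp only [lab, List.map_cons, List.cons.injEq, Prod.mk.injEq] at hl
        refine List.Forall₂.cons ⟨h2 d' List.mem_cons_self, h3 d' List.mem_cons_self, d.1,
          h1 d List.mem_cons_self, ?_, hd, hLd⟩ (comb (fun e he => h1 e (List.mem_cons_of_mem _ he))
          (fun e he => h2 e (List.mem_cons_of_mem _ he))
          (fun e he => h3 e (List.mem_cons_of_mem _ he)) hl.2 hm hL)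
        simp only [BCode.core, hl.1.1]

theorem forall₂_right {α β : Type} {P : α → β → Prop} : ∀ {l : List α} {t : List β},
    List.Forall₂ P l t → ∀ b ∈ t, ∃ a, P a b
  | [], _, h, b, hb => by cases h; simp at hb
  | _ :: _, _, h, b, hb => by
    cases h with
    | cons h1 h2 =>
      rcases List.mem_cons.1 hb with rfl | hb
      · exact ⟨_, h1⟩
      · exact forall₂_right h2 b hb

/-- The germ transport. -/
theorem germ {p q : ParC (HS m)} {f : p.1.Space ≃ q.1.Space} {c : BCode m}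
    {ci : BCode m} {ci' : BCode m}
    (hm : ∀ x ∈ ci.core, ∀ᶠ z in 𝓝[HS m] x, f (ci.fn Q p z) = ci'.fn Q q z)
    {x : E m} (hx : x ∈ c.core) {n : ℕ} (hqx : Q.q n x ∈ ci.core)
    (h : ∀ᶠ z in 𝓝[HS m] x, c.fn Q p z = ci.fn Q p (Q.q n z)) :
    ∀ᶠ z in 𝓝[HS m] x, f (c.fn Q p z) = ci'.fn Q q (Q.q n z) := by
  filter_upwards [h, (tendsto_q n (core_sub_HS c hx)).eventually (hm _ hqx)] with z h1 h2
  rw [h1, h2]

/-- From a coincidence of values to a germ. -/
theorem key {p q : ParC (HS m)} {f : p.1.Space ≃ q.1.Space} {C : Set q.1.Space} {c : BCode m}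
    {L : List (RBox m × ℕ)} {c' : NCode m} (hR : R (Q := Q) p q f C c L c')
    {x : E m} (hx : x ∈ c.core) {y : E m} (hy : y ∈ c'.1.core)
    (h : f (c.fn Q p x) = c'.1.fn Q q y) :
    ∃ e ∈ L, x ∈ e.1.on (HS m) ∧ Q.q e.2 x ∈ c'.1.core ∧
      ∀ᶠ z in 𝓝[HS m] x, f (c.fn Q p z) = c'.1.fn Q q (Q.q e.2 z) := by
  obtain ⟨h1, h2, ci, h3, h4, h5, h6⟩ := hR
  have hy' : y ∈ ci.core := h4 ▸ hy
  have h7 : f (ci.fn Q p y) = c'.1.fn Q q y :=
    (h5 y hy').self_of_nhdsWithin (core_sub_HS _ hy)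
  have h8 : c.fn Q p x = ci.fn Q p y := f.injective (h.trans h7.symm)
  obtain ⟨e, he, hxe, hqe⟩ := h6.1 x hx ⟨y, hy', h8.symm⟩
  exact ⟨e, he, hxe, h4 ▸ hqe, germ h5 hx hqe (h6.2 e he x hx hxe hqe)⟩

end ExtStep

open ExtStep

theorem ext_step (p q : ParC (HS m)) (s t : List (NCode m)) (hs : Valid Q p s) (ht : Valid Q q t)
    (hl : lab s = lab t) (f : p.1.Space ≃ q.1.Space) (hf : Match Q p q f s t) (c : NCode m)
    (hc : Valid Q p (c :: s)) :
    ∃ c' : NCode m, Valid Q q (c' :: t) ∧ lab (c' :: t) = lab (c :: s) ∧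
      ∃ f', Match Q p q f' (c :: s) (c' :: t) := by
  have hcok : c.1.ok Q p := hc.2.1
  have hPc := (ok_param Q p c.1 hcok).1
  have hu : Param (man q) (f ∘ c.1.fn Q p) c.1.dom := hPc.map hf.1
  set C : Set q.1.Space := ⋃ d ∈ {d | d ∈ t}, d.1.fn Q q '' d.1.core with hCdef
  have hokt := valid_ok ht
  have hCmem : ∀ d ∈ t, ∀ y ∈ d.1.core, d.1.fn Q q y ∈ C := by
    intro d hd y hy
    simp only [hCdef, mem_iUnion]
    exact ⟨d, hd, y, hy, rfl⟩
  have hC : IsClosed C := by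
    refine Set.Finite.isClosed_biUnion (List.finite_toSet t) (fun d hd => ?_)
    refine (IsCompact.image_of_continuousOn (isCompact_on d.1.1) ?_).isClosed
    exact fun x hx => ((tendsto_fn (hokt d hd) (core_sub_dom (hokt d hd) hx)).mono_left
      (nhdsWithin_mono _ (core_sub_HS _)))
  have hF := comb (Q := Q) (C := C) (c := c.1) (valid_ok hs) hokt hCmem hl hf.2 hc.2.2
  have hr : ∀ x ∈ c.1.core, (f ∘ c.1.fn Q p) x ∈ C →
      ∃ l, NRel (PGerm Q q.1) (f ∘ c.1.fn Q p) ((man q).pt l) ((man q).U l) x := by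
    intro x hx hxC
    simp only [hCdef, mem_iUnion] at hxC
    obtain ⟨d, hd, y, hy, hyx⟩ := hxC
    obtain ⟨L, hR⟩ := forall₂_right hF d hd
    obtain ⟨e, he, hxe, hqe, hg⟩ := key hR hx hy hyx.symm
    obtain ⟨l, F, hFn, hFe⟩ := (ok_param Q q d.1 (hokt d hd)).2 _ (core_sub_dom (hokt d hd) hqe)
    refine ⟨l, fun z => F (Q.q e.2 z), pgerm_pre Q q.1 F x e.2 (core_sub_HS _ hx) hFn, ?_⟩
    filter_upwards [hg, (tendsto_q e.2 (core_sub_HS _ hx)).eventually hFe] with z h1 h2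
    exact ⟨h2.1, h1.trans h2.2⟩
  obtain ⟨ρ, hρ, hρC, -, hρr⟩ := rawify Q (man q) (isNice_PGerm Q q.1)
    (by
      intro F x l l' h1 h2 h3
      simp only [man_U, man_pt] at h2 h3 ⊢
      exact pgerm_tr Q q F x l l' h1 h2 h3) hu (isCompact_on c.1.1) (core_sub_dom hcok) hC hr
    isOpen_univ (fun z => mem_univ _)
  obtain ⟨c'', h1, h2, h3⟩ := exists_code Q q (hu.map hρ) c.1.1 (core_sub_dom hcok) hρr
  have hcore : c''.core = c.1.core := by simp only [BCode.core, h1]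
  have h3' : ∀ x ∈ c.1.core, ∀ᶠ z in 𝓝[HS m] x, c''.fn Q q z = ρ (f (c.1.fn Q p z)) := h3
  refine ⟨(c'', c.2), ⟨ht, h2, ?_⟩, ?_, f.trans ρ, hf.1.trans hρ, List.Forall₂.cons ?_ ?_⟩
  · refine hF.imp (fun L d hR => ⟨?_, ?_⟩)
    · rintro x hx ⟨y, hy, hxy⟩
      rw [hcore] at hx
      have h4 : c''.fn Q q x = ρ (f (c.1.fn Q p x)) :=
        (h3' x hx).self_of_nhdsWithin (core_sub_HS _ hx)
      have h5 : ρ (d.1.fn Q q y) = d.1.fn Q q y := (hρC _ (hR.2.1 y hy)).self_of_nhds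
      have h6 : f (c.1.fn Q p x) = d.1.fn Q q y := by
        apply ρ.injective
        rw [← h4, h5, hxy]
      obtain ⟨e, he, hxe, hqe, -⟩ := key hR hx hy h6
      exact ⟨e, he, hxe, hqe⟩
    · intro e he x hx hxe hqe
      rw [hcore] at hx
      obtain ⟨h4, h5, ci, h6, h7, h8, h9⟩ := hR
      have hqe' : Q.q e.2 x ∈ ci.core := h7 ▸ hqe
      have h10 := germ (ci' := d.1) h8 hx hqe' (h9.2 e he x hx hxe hqe')
      have h11 : Tendsto (fun z => d.1.fn Q q (Q.q e.2 z)) (𝓝[HS m] x)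
          (𝓝 (d.1.fn Q q (Q.q e.2 x))) :=
        (tendsto_fn h4 (core_sub_dom h4 hqe)).comp (tendsto_q e.2 (core_sub_HS _ hx))
      filter_upwards [h3' x hx, h10, h11.eventually (hρC _ (h5 _ hqe))] with z h12 h13 h14
      rw [h12, h13, h14]
  · simp only [lab, List.map_cons, h1]
    simp only [lab] at hl
    rw [hl]
  · intro x hx
    filter_upwards [h3' x hx] with z hz
    simp [hz]
  · have haux : ∀ {s t : List (NCode m)}, (∀ d ∈ t, d.1.ok Q q) →
        (∀ d ∈ t, ∀ y ∈ d.1.core, d.1.fn Q q y ∈ C) → lab s = lab t →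
        List.Forall₂ (fun c c' : NCode m =>
          ∀ x ∈ c.1.core, ∀ᶠ z in 𝓝[HS m] x, f (c.1.fn Q p z) = c'.1.fn Q q z) s t →
        List.Forall₂ (fun c c' : NCode m =>
          ∀ x ∈ c.1.core, ∀ᶠ z in 𝓝[HS m] x, (f.trans ρ) (c.1.fn Q p z) = c'.1.fn Q q z) s t := by
      intro s
      induction s with
      | nil =>
        intro t _ _ _ hm
        cases hm; exact List.Forall₂.nil
      | cons d s ih =>
        intro t h2 h3 hl hm
        cases hm with
        | @cons _ d' _ t' hd hm =>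
          simp only [lab, List.map_cons, List.cons.injEq, Prod.mk.injEq] at hl
          refine List.Forall₂.cons ?_ (ih (fun e he => h2 e (List.mem_cons_of_mem _ he))
            (fun e he => h3 e (List.mem_cons_of_mem _ he)) hl.2 hm)
          intro x hx
          have hx' : x ∈ d'.1.core := by
            simp only [BCode.core] at hx ⊢
            rw [← hl.1.1]; exact hx
          have hok := h2 d' List.mem_cons_self
          filter_upwards [hd x hx, (tendsto_fn hok (core_sub_dom hok hx')).eventually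
            (hρC _ (h3 d' List.mem_cons_self x hx'))] with z h4 h5
          rw [Equiv.trans_apply, h4, h5]
    exact haux hokt hCmem hl hf.2

end Pool.Agent.Helper73.BR
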