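import Pool.Agent.BR.Base
import Pool.Agent.BR.Glue
import Pool.Agent.BR.Limit
import Pool.Agent.BR.OkParam
import Pool.Agent.BR.ExtStep
import Pool.Agent.BR.CovStep

/-!
# Project BR, module BisimC: trees of diffeomorphic manifolds are bisimilar and conversely
-/

open Set Filter Topology MeasureTheory
open scoped ContDiff

namespace Pool.Agent.Helper73.BR

variable {m : ℕ}


namespace BisimC

variable (Q : QFam m)

theorem length_lab (s : List (NCode m)) : (lab s).length = s.length := by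
  simp [lab]

/-- what equality of the labels says -/
theorem lam_eq_iff (p q : ParC (HS m)) (s t : List ℕ) :
    lam Q p s = lam Q q t ↔ s.length = t.length ∧
      (Valid Q p (s.map (dec m)) ↔ Valid Q q (t.map (dec m))) ∧
      (Valid Q p (s.map (dec m)) → lab (s.map (dec m)) = lab (t.map (dec m))) := by
  classical
  unfold lam
  rw [Nat.pair_eq_pair]
  refine and_congr_right fun _ => ?_
  by_cases h1 : Valid Q p (s.map (dec m)) <;> by_cases h2 : Valid Q q (t.map (dec m))
  · simp [h1, h2]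
  · simp [h1, h2]
  · simp [h1, h2]
  · simp [h1, h2]

/-- the relation of the back and forth -/
def Rel (p q : ParC (HS m)) (s t : List ℕ) : Prop :=
  lam Q p s = lam Q q t ∧
    (Valid Q p (s.map (dec m)) → ∃ f, Match Q p q f (s.map (dec m)) (t.map (dec m)))

variable {Q}

theorem match_symm {p q : ParC (HS m)} {f : p.1.Space ≃ q.1.Space} {s t : List (NCode m)}
    (hl : lab s = lab t) (h : Match Q p q f s t) : Match Q q p f.symm t s := by
  refine ⟨h.1.symm, ?_⟩
  have h2 := h.2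
  clear h
  induction h2 with
  | nil => exact List.Forall₂.nil
  | @cons c c' s t hc _ ih =>
    simp only [lab, List.map_cons, List.cons.injEq, Prod.mk.injEq] at hl
    refine List.Forall₂.cons ?_ (ih hl.2)
    intro x hx
    have hx' : x ∈ c.1.core := by
      unfold BCode.core at hx ⊢
      rwa [hl.1.1]
    filter_upwards [hc x hx'] with z hz
    rw [← hz, Equiv.symm_apply_apply]

theorem Rel.symm {p q : ParC (HS m)} {s t : List ℕ} (h : Rel Q p q s t) : Rel Q q p t s := by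
  obtain ⟨h1, h2⟩ := h
  refine ⟨h1.symm, fun hv => ?_⟩
  obtain ⟨-, hiff, hlab⟩ := (lam_eq_iff Q p q s t).1 h1
  obtain ⟨f, hf⟩ := h2 (hiff.2 hv)
  exact ⟨f.symm, match_symm (hlab (hiff.2 hv)) hf⟩

theorem Rel.forth {p q : ParC (HS m)} {s t : List ℕ} (h : Rel Q p q s t) (i : ℕ) :
    ∃ j, Rel Q p q (i :: s) (j :: t) := by
  obtain ⟨h1, h2⟩ := h
  obtain ⟨hlen, hiff, hlab⟩ := (lam_eq_iff Q p q s t).1 h1
  by_cases hv : Valid Q p (dec m i :: s.map (dec m))
  · have hvs : Valid Q p (s.map (dec m)) := hv.1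
    obtain ⟨f, hf⟩ := h2 hvs
    obtain ⟨c', hc', hlc, f', hf'⟩ := ext_step Q p q _ _ hvs (hiff.1 hvs) (hlab hvs) f hf _ hv
    obtain ⟨j, rfl⟩ := dec_surj m c'
    refine ⟨j, ?_, fun _ => ⟨f', ?_⟩⟩
    · rw [lam_eq_iff]
      simp only [List.length_cons, List.map_cons, hlen, true_and]
      exact ⟨⟨fun _ => hc', fun _ => hv⟩, fun _ => hlc.symm⟩
    · simpa only [List.map_cons] using hf'
  · obtain ⟨j, hj⟩ := dec_surj m
      ((((fun _ => 0), (fun _ => 0)), []), List.replicate (t.length + 1) [])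
    have hv' : ¬ Valid Q q (dec m j :: t.map (dec m)) := by
      rintro ⟨-, -, h3⟩
      have h4 := h3.length_eq
      rw [hj, List.length_replicate, List.length_map] at h4
      omega
    refine ⟨j, ?_, fun h3 => ?_⟩
    · rw [lam_eq_iff]
      simp only [List.length_cons, List.map_cons, hlen, true_and]
      exact ⟨⟨fun h => absurd h hv, fun h => absurd h hv'⟩, fun h => absurd h hv⟩
    · rw [List.map_cons] at h3
      exact absurd h3 hv

/-- rational boxes form a basis -/
theorem exists_box {X U : Set (E m)} (hU : ROpen X U) {x : E m} (hx : x ∈ U) :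
    ∃ B : RBox m, x ∈ B.on X ∧ B.on X ⊆ U := by
  obtain ⟨V, hV, rfl⟩ := hU
  obtain ⟨ε, hε, hball⟩ := Metric.isOpen_iff.1 hV x hx.1
  have h1 : ∀ i, ∃ a : ℚ, x i - ε < a ∧ (a : ℝ) < x i := fun i =>
    exists_rat_btwn (by linarith)
  have h2 : ∀ i, ∃ a : ℚ, x i < a ∧ (a : ℝ) < x i + ε := fun i =>
    exists_rat_btwn (by linarith)
  choose a ha ha' using h1
  choose b hb hb' using h2
  refine ⟨(a, b), ⟨hx.2, fun i => ⟨(ha' i).le, (hb i).le⟩⟩, ?_⟩
  rintro y ⟨hyX, hy⟩
  refine ⟨hball ?_, hyX⟩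
  rw [Metric.mem_ball, dist_pi_lt_iff hε]
  intro i
  have h3 := hy i
  have h4 := ha i
  have h5 := hb' i
  rw [Real.dist_eq, abs_lt]
  constructor <;> linarith [h3.1, h3.2]

/-- one step of the construction of the sequences -/
theorem exists_next {p q : ParC (HS m)} {R : List ℕ → List ℕ → Prop}
    (hR : ∀ s t, R s t → lam Q p s = lam Q q t ∧ (∀ i, ∃ j, R (i :: s) (j :: t)) ∧
      (∀ j, ∃ i, R (i :: s) (j :: t))) (k : Bool × ℕ × RBox m) (s t : List ℕ) (hst : R s t)
    (hs : Valid Q p (s.map (dec m))) :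
    ∃ i j, R (i :: s) (j :: t) ∧ Valid Q p ((i :: s).map (dec m)) ∧
      (k.1 = true → k.2.2.on (HS m) ⊆ p.1.U k.2.1 k.2.1 →
        ptt p k.2.1 '' (k.2.2.on (HS m)) ⊆
          (dec m i).1.fn Q p '' rint (HS m) (dec m i).1.core) ∧
      (k.1 = false → k.2.2.on (HS m) ⊆ q.1.U k.2.1 k.2.1 →
        ptt q k.2.1 '' (k.2.2.on (HS m)) ⊆
          (dec m j).1.fn Q q '' rint (HS m) (dec m j).1.core) := by
  obtain ⟨hlam, hf, hb⟩ := hR s t hst
  obtain ⟨hlen, hiff, hlab⟩ := (lam_eq_iff Q p q s t).1 hlam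
  have left : ∀ (l : ℕ) (B : RBox m), B.on (HS m) ⊆ p.1.U l l →
      ∃ i j, R (i :: s) (j :: t) ∧ Valid Q p ((i :: s).map (dec m)) ∧
        ptt p l '' (B.on (HS m)) ⊆ (dec m i).1.fn Q p '' rint (HS m) (dec m i).1.core := by
    intro l B hB
    obtain ⟨c, hc, hcov⟩ := cov_step Q p _ hs l B hB
    obtain ⟨i, rfl⟩ := dec_surj m c
    obtain ⟨j, hj⟩ := hf i
    exact ⟨i, j, hj, hc, hcov⟩
  have right : ∀ (l : ℕ) (B : RBox m), B.on (HS m) ⊆ q.1.U l l →
      ∃ i j, R (i :: s) (j :: t) ∧ Valid Q p ((i :: s).map (dec m)) ∧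
        ptt q l '' (B.on (HS m)) ⊆ (dec m j).1.fn Q q '' rint (HS m) (dec m j).1.core := by
    intro l B hB
    obtain ⟨c, hc, hcov⟩ := cov_step Q q _ (hiff.1 hs) l B hB
    obtain ⟨j, rfl⟩ := dec_surj m c
    obtain ⟨i, hi⟩ := hb j
    refine ⟨i, j, hi, ?_, hcov⟩
    obtain ⟨hlam', -, -⟩ := hR _ _ hi
    obtain ⟨-, hiff', -⟩ := (lam_eq_iff Q p q _ _).1 hlam'
    exact hiff'.2 hc
  obtain ⟨side, l, B⟩ := k
  have hempty : ∃ B0 : RBox m, B0.on (HS m) = ∅ := by
    refine ⟨((fun _ => 1), (fun _ => 0)), ?_⟩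
    rw [Set.eq_empty_iff_forall_notMem]
    rintro x ⟨-, hx⟩
    have := hx 0
    norm_num at this
    linarith [this.1, this.2]
  obtain ⟨B0, hB0⟩ := hempty
  cases side with
  | true =>
    by_cases hB : B.on (HS m) ⊆ p.1.U l l
    · obtain ⟨i, j, h1, h2, h3⟩ := left l B hB
      exact ⟨i, j, h1, h2, fun _ _ => h3, fun h => by simp at h⟩
    · obtain ⟨i, j, h1, h2, -⟩ := left 0 B0 (by rw [hB0]; exact Set.empty_subset _)
      exact ⟨i, j, h1, h2, fun _ h => absurd h hB, fun h => by simp at h⟩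
  | false =>
    by_cases hB : B.on (HS m) ⊆ q.1.U l l
    · obtain ⟨i, j, h1, h2, h3⟩ := right l B hB
      exact ⟨i, j, h1, h2, fun h => by simp at h, fun _ _ => h3⟩
    · obtain ⟨i, j, h1, h2, -⟩ := right 0 B0 (by rw [hB0]; exact Set.empty_subset _)
      exact ⟨i, j, h1, h2, fun h => by simp at h, fun _ h => absurd h hB⟩

/-- the node formed by the first `k` members of a sequence of codes -/
def pre (c : ℕ → NCode m) : ℕ → List (NCode m)
  | 0 => []
  | k + 1 => c k :: pre c k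

theorem length_pre (c : ℕ → NCode m) (k : ℕ) : (pre c k).length = k := by
  induction k with
  | zero => rfl
  | succ k ih => simp [pre, ih]

theorem getElem_pre (c : ℕ → NCode m) (k n : ℕ) (h : n < (pre c k).length) :
    (pre c k)[n] = c (k - 1 - n) := by
  induction k generalizing n with
  | zero => simp [pre] at h
  | succ k ih =>
    cases n with
    | zero => simp [pre]
    | succ n =>
      have h' : n < (pre c k).length := by
        rw [length_pre] at h ⊢
        omega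
      have := ih n h'
      simp only [pre, List.getElem_cons_succ, this]
      congr 1
      omega

theorem listOK_of_valid {p : ParC (HS m)} {c : ℕ → NCode m} (hv : ∀ k, Valid Q p (pre c k))
    {i j : ℕ} (hij : i < j) :
    ListOK Q (c j).1.core ((c j).1.fn Q p) (c i).1.core ((c i).1.fn Q p)
      ((c j).2.getD (j - 1 - i) []) := by
  have h1 := (hv (j + 1)).2.2
  rw [List.forall₂_iff_get] at h1
  obtain ⟨hlen, h2⟩ := h1
  have hl : j - 1 - i < (c j).2.length := by
    rw [hlen, length_pre]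
    omega
  have hl' : j - 1 - i < (pre c j).length := by
    rw [length_pre]
    omega
  have h3 := h2 (j - 1 - i) hl hl'
  simp only [List.get_eq_getElem] at h3
  rw [getElem_pre] at h3
  have e1 : j - 1 - (j - 1 - i) = i := by omega
  rw [e1] at h3
  rw [List.getD_eq_getElem _ _ hl]
  exact h3

end BisimC

open BisimC

variable (Q : QFam m)

theorem bisim_of_diffeo (p q : ParC (HS m)) (h : Diffeo p.1 q.1) :
    Bisim (lam Q p) (lam Q q) := by
  obtain ⟨f0, hf0⟩ := (diffeo_iff p q).1 h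
  refine ⟨Rel Q p q, ⟨?_, fun _ => ⟨f0, hf0, List.Forall₂.nil⟩⟩, ?_⟩
  · rw [lam_eq_iff]
    exact ⟨rfl, ⟨fun _ => trivial, fun _ => trivial⟩, fun _ => rfl⟩
  · intro s t hst
    refine ⟨hst.1, hst.forth, fun j => ?_⟩
    obtain ⟨i, hi⟩ := hst.symm.forth j
    exact ⟨i, hi.symm⟩

theorem diffeo_of_bisim (p q : ParC (HS m)) (h : Bisim (lam Q p) (lam Q q)) :
    Diffeo p.1 q.1 := by
  obtain ⟨R, hR0, hR⟩ := h
  obtain ⟨e, he⟩ := exists_surjective_nat (Bool × ℕ × RBox m)
  -- states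
  let S := {st : List ℕ × List ℕ // R st.1 st.2 ∧ Valid Q p (st.1.map (dec m))}
  have hnext : ∀ (k : ℕ) (st : S), ∃ ij : ℕ × ℕ, ∃ st' : S,
      st'.1 = (ij.1 :: st.1.1, ij.2 :: st.1.2) ∧
      ((e k).1 = true → (e k).2.2.on (HS m) ⊆ p.1.U (e k).2.1 (e k).2.1 →
        ptt p (e k).2.1 '' ((e k).2.2.on (HS m)) ⊆
          (dec m ij.1).1.fn Q p '' rint (HS m) (dec m ij.1).1.core) ∧
      ((e k).1 = false → (e k).2.2.on (HS m) ⊆ q.1.U (e k).2.1 (e k).2.1 →
        ptt q (e k).2.1 '' ((e k).2.2.on (HS m)) ⊆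
          (dec m ij.2).1.fn Q q '' rint (HS m) (dec m ij.2).1.core) := by
    rintro k ⟨⟨s, t⟩, hst, hs⟩
    obtain ⟨i, j, h1, h2, h3, h4⟩ := exists_next hR (e k) s t hst hs
    exact ⟨(i, j), ⟨(i :: s, j :: t), h1, h2⟩, rfl, h3, h4⟩
  choose ij nx hnx hcp hcq using hnext
  let st : ℕ → S := fun k => Nat.rec ⟨([], []), hR0, trivial⟩ (fun k st => nx k st) k
  have hst : ∀ k, st (k + 1) = nx k (st k) := fun k => rfl
  let c : ℕ → NCode m := fun k => dec m (ij k (st k)).1
  let c' : ℕ → NCode m := fun k => dec m (ij k (st k)).2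
  have hc1 : ∀ k, (st k).1.1.map (dec m) = pre c k := by
    intro k
    induction k with
    | zero => rfl
    | succ k ih =>
      rw [hst, hnx]
      simp only [List.map_cons, pre, ih]
      rfl
  have hc2 : ∀ k, (st k).1.2.map (dec m) = pre c' k := by
    intro k
    induction k with
    | zero => rfl
    | succ k ih =>
      rw [hst, hnx]
      simp only [List.map_cons, pre, ih]
      rfl
  have hv : ∀ k, Valid Q p (pre c k) := fun k => by rw [← hc1]; exact (st k).2.2
  have hlam : ∀ k, (Valid Q p (pre c k) ↔ Valid Q q (pre c' k)) ∧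
      (Valid Q p (pre c k) → lab (pre c k) = lab (pre c' k)) := by
    intro k
    have h1 := (lam_eq_iff Q p q _ _).1 (hR _ _ (st k).2.1).1
    rw [hc1, hc2] at h1
    exact h1.2
  have hv' : ∀ k, Valid Q q (pre c' k) := fun k => (hlam k).1.1 (hv k)
  have hlab : ∀ k, (c k).1.1 = (c' k).1.1 ∧ (c k).2 = (c' k).2 := by
    intro k
    have h1 := (hlam (k + 1)).2 (hv (k + 1))
    simp only [pre, lab, List.map_cons, List.cons.injEq, Prod.mk.injEq] at h1
    exact h1.1
  have hcore : ∀ k, (c' k).1.core = (c k).1.core := fun k => by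
    unfold BCode.core
    rw [(hlab k).1]
  obtain ⟨f, hf⟩ := limit_diffeo Q (man p) (man q) (fun k => (c k).1.fn Q p)
    (fun k => (c' k).1.fn Q q) (fun k => (c k).1.dom) (fun k => (c' k).1.dom)
    (fun k => (c k).1.core)
    (fun k => ⟨(ok_param Q p _ (hv (k + 1)).2.1).1, (hv (k + 1)).2.1.1⟩)
    (fun k => ⟨(ok_param Q q _ (hv' (k + 1)).2.1).1, by
      rw [← hcore]; exact (hv' (k + 1)).2.1.1⟩)
    (fun i j => (c j).2.getD (j - 1 - i) [])
    (fun i j hij => listOK_of_valid hv hij)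
    (fun i j hij => by
      have h1 := listOK_of_valid hv' hij
      rw [hcore, hcore, ← (hlab j).2] at h1
      exact h1)
    (fun z => by
      obtain ⟨l, x, hx, rfl⟩ := (man p).cover z
      rw [man_U] at hx
      rw [man_pt]
      obtain ⟨B, hxB, hB⟩ := exists_box (p.1.ropen l l) hx
      obtain ⟨k, hk⟩ := he (true, l, B)
      have h1 := hcp k (st k)
      rw [hk] at h1
      obtain ⟨y, hy, hy'⟩ := h1 rfl hB ⟨x, hxB, rfl⟩
      exact ⟨k, y, hy, hy'⟩)
    (fun z => by
      obtain ⟨l, x, hx, rfl⟩ := (man q).cover z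
      rw [man_U] at hx
      rw [man_pt]
      obtain ⟨B, hxB, hB⟩ := exists_box (q.1.ropen l l) hx
      obtain ⟨k, hk⟩ := he (false, l, B)
      have h1 := hcq k (st k)
      rw [hk] at h1
      obtain ⟨y, hy, hy'⟩ := h1 rfl hB ⟨x, hxB, rfl⟩
      exact ⟨k, y, by rw [← hcore]; exact hy, hy'⟩)
  exact (diffeo_iff p q).2 ⟨f, hf⟩

end Pool.Agent.Helper73.BR
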