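import Pool.Agent.BR.ThinKK

open Set Filter Topology MeasureTheory
open scoped ContDiff

namespace Pool.Agent.Helper73.BR

variable {m : ℕ}

namespace Deriv

/-- The similarity `nu i` as a homeomorphism. -/
noncomputable def nuH (m : ℕ) (i : ℕ) : E m ≃ₜ E m where
  toFun := nu m i
  invFun x := fun j => (x j - (if j = 0 then (1 / 8 : ℝ) ^ i / 2 else 0)) / ((1 / 8 : ℝ) ^ i / 8)
  left_inv y := by
    funext j
    simp only [nu]
    have : (1 / 8 : ℝ) ^ i / 8 ≠ 0 := by positivity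
    field_simp
    ring
  right_inv x := by
    funext j
    simp only [nu]
    have : (1 / 8 : ℝ) ^ i / 8 ≠ 0 := by positivity
    field_simp
    ring
  continuous_toFun := by
    unfold nu
    fun_prop
  continuous_invFun := by
    fun_prop

theorem norm_le_one {σ : Type} {al : σ → Prop} {ch : σ → ℕ → σ} {s : σ} {x : E m}
    (h : x ∈ KK m al ch s) : ‖x‖ ≤ 1 := (h 0).2

theorem accPt_local {σ : Type} {al : σ → Prop} {ch : σ → ℕ → σ} {s : σ} (hs : al s) {i : ℕ}
    {y : E m} (h : ‖y‖ < 5 / 4) :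
    AccPt (nu m i y) (𝓟 (KK m al ch s)) ↔ AccPt y (𝓟 (KK m al ch (ch s i))) := by
  rw [accPt_iff_frequently, accPt_iff_frequently]
  have h1 : 𝓝 (nu m i y) = Filter.map (nu m i) (𝓝 y) := ((nuH m i).map_nhds_eq y).symm
  rw [h1, Filter.frequently_map]
  have h2 : ∀ᶠ z in 𝓝 y, ‖z‖ < 5 / 4 := (continuous_norm.tendsto y).eventually_lt_const h
  apply Filter.frequently_congr
  filter_upwards [h2] with z hz
  rw [KK_local hz, (nu_inj i).ne_iff]
  tauto

theorem Kn_mono {σ : Type} {al al' : σ → Prop} {ch : σ → ℕ → σ} (h : ∀ s, al s → al' s) (d : ℕ) :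
    ∀ s, Kn m al ch d s ⊆ Kn m al' ch d s := by
  induction d with
  | zero => exact fun s x hx => ⟨h s hx.1, hx.2⟩
  | succ d ih =>
    rintro s x ⟨h1, h2⟩
    refine ⟨h s h1, ?_⟩
    rcases h2 with h2 | ⟨i, y, hy, rfl⟩
    · exact Or.inl h2
    · exact Or.inr ⟨i, y, ih _ hy, rfl⟩

theorem KK_mono {σ : Type} {al al' : σ → Prop} {ch : σ → ℕ → σ} (h : ∀ s, al s → al' s) (s : σ) :
    KK m al ch s ⊆ KK m al' ch s := fun _ hx d => Kn_mono h d s (hx d)

theorem alS_succ (n : ℕ) (s : St) (h : alS (n + 1) s) : alS n s := by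
  cases s with
  | O k => simp only [alS] at h ⊢; omega
  | _ => simp_all [alS]

theorem alP_alS (n : ℕ) (s : St) (h : alP s) : alS n s := by
  cases s <;> simp_all [alS, alP]

/-- The only states alive at stage `n` and dead at stage `n + 1`. -/
theorem eq_of_not (n : ℕ) (s : St) (h : alS n s) (h' : ¬ alS (n + 1) s) : s = .O n := by
  cases s with
  | A t => exact absurd trivial h'
  | R k => exact absurd trivial h'
  | O k =>
    simp only [alS, not_le] at h h'
    congr
    omega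
  | dead => exact absurd h (by simp [alS])

theorem KK_O (a : List ℕ → ℕ) (n : ℕ) (x : E m) (h : x ∈ KK m (alS n) (chS a) (.O n)) : x = 0 := by
  rw [mem_KK_iff] at h
  rcases h.2 with h | ⟨i, y, hy, -⟩
  · exact h
  · exfalso
    rw [mem_KK_iff] at hy
    have h1 := hy.1
    cases n with
    | zero => simp [chS, alS] at h1
    | succ k => simp [chS, alS] at h1

theorem not_accPt_O (a : List ℕ → ℕ) (n : ℕ) (x : E m) (hx : x ∈ KK m (alS n) (chS a) (.O n)) :
    ¬ AccPt x (𝓟 (KK m (alS n) (chS a) (.O n))) := by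
  intro h
  rw [accPt_iff_frequently] at h
  obtain ⟨y, hy1, hy2⟩ := h.exists
  exact hy1 ((KK_O a n y hy2).trans (KK_O a n x hx).symm)

theorem sub_step (a : List ℕ → ℕ) (n d : ℕ) : ∀ (s : St) (x : E m),
    x ∈ KK m (alS n) (chS a) s → AccPt x (𝓟 (KK m (alS n) (chS a) s)) →
    x ∈ Kn m (alS (n + 1)) (chS a) d s := by
  induction d with
  | zero =>
    intro s x hx hacc
    refine ⟨?_, norm_le_one hx⟩
    by_contra hc
    have := eq_of_not n s (mem_KK_iff.mp hx).1 hc
    subst this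
    exact not_accPt_O a n x hx hacc
  | succ d ih =>
    intro s x hx hacc
    refine ⟨?_, ?_⟩
    · by_contra hc
      have := eq_of_not n s (mem_KK_iff.mp hx).1 hc
      subst this
      exact not_accPt_O a n x hx hacc
    · have hs := (mem_KK_iff.mp hx).1
      rcases (mem_KK_iff.mp hx).2 with h | ⟨i, y, hy, rfl⟩
      · exact Or.inl h
      · refine Or.inr ⟨i, y, ih _ y hy ?_, rfl⟩
        exact (accPt_local hs (lt_of_le_of_lt (norm_le_one hy) (by norm_num))).mp hacc

/-- Even children of a state alive at stage `n + 1` are alive at stage `n`. -/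
theorem child_alive (a : List ℕ → ℕ) (n : ℕ) (s : St) (h : alS (n + 1) s) (i : ℕ) :
    alS n (chS a s (2 * i)) := by
  cases s with
  | A t => simp [chS, alS]
  | R k => simp [chS, alS]
  | O k =>
    cases k with
    | zero => simp [alS] at h
    | succ k => simpa [chS, alS] using h
  | dead => simp [alS] at h

theorem nu_zero_mem (a : List ℕ → ℕ) (n : ℕ) (s : St) (h : alS (n + 1) s) (i : ℕ) :
    nu m (2 * i) 0 ∈ KK m (alS n) (chS a) s :=
  (KK_local (by simp)).mpr ⟨alS_succ n s h, mem_KK_iff.mpr ⟨child_alive a n s h i, Or.inl rfl⟩⟩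

theorem nu_zero_ne (i : ℕ) : nu m i 0 ≠ 0 := by
  intro h
  have := congrFun h 0
  simp [nu] at this

theorem near (a : List ℕ → ℕ) (n d : ℕ) : ∀ (s : St) (x : E m),
    x ∈ KK m (alS (n + 1)) (chS a) s →
    ∃ x' ∈ KK m (alS n) (chS a) s, x' ≠ x ∧ ‖x' - x‖ ≤ 2 * (1 / 8) ^ d := by
  induction d with
  | zero =>
    intro s x hx
    have hs := (mem_KK_iff.mp hx).1
    have key : ∀ x' ∈ KK m (alS n) (chS a) s, ‖x' - x‖ ≤ 2 * (1 / 8) ^ 0 := by
      intro x' hx'
      calc ‖x' - x‖ ≤ ‖x'‖ + ‖x‖ := norm_sub_le _ _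
        _ ≤ 1 + 1 := add_le_add (norm_le_one hx') (norm_le_one hx)
        _ = 2 * (1 / 8) ^ 0 := by norm_num
    by_cases h0 : x = 0
    · exact ⟨nu m (2 * 0) 0, nu_zero_mem a n s hs 0, by rw [h0]; exact nu_zero_ne _,
        key _ (nu_zero_mem a n s hs 0)⟩
    · have h1 : (0 : E m) ∈ KK m (alS n) (chS a) s := mem_KK_iff.mpr ⟨alS_succ n s hs, Or.inl rfl⟩
      exact ⟨0, h1, Ne.symm h0, key _ h1⟩
  | succ d ih =>
    intro s x hx
    have hs := (mem_KK_iff.mp hx).1
    rcases (mem_KK_iff.mp hx).2 with rfl | ⟨i, y, hy, rfl⟩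
    · refine ⟨nu m (2 * (d + 1)) 0, nu_zero_mem a n s hs _, nu_zero_ne _, ?_⟩
      rw [sub_zero]
      refine (norm_nu_lt (by rw [norm_zero]; norm_num)).le.trans ?_
      have h2 : ((1 : ℝ) / 8) ^ (2 * (d + 1)) ≤ (1 / 8) ^ (d + 1) :=
        pow_le_pow_of_le_one (by norm_num) (by norm_num) (by omega)
      have h3 : (0 : ℝ) < (1 / 8) ^ (d + 1) := by positivity
      linarith
    · obtain ⟨y', hy', hne, hd⟩ := ih _ y hy
      refine ⟨nu m i y', ?_, (nu_inj i).ne hne, ?_⟩
      · exact (KK_local (lt_of_le_of_lt (norm_le_one hy') (by norm_num))).mpr ⟨alS_succ n s hs, hy'⟩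
      · rw [ThinKK.nu_sub, norm_smul, Real.norm_of_nonneg (by positivity)]
        have h2 : ((1 : ℝ) / 8) ^ i ≤ 1 := pow_le_one₀ (by norm_num) (by norm_num)
        calc (1 / 8 : ℝ) ^ i / 8 * ‖y' - y‖ ≤ 1 / 8 * (2 * (1 / 8) ^ d) := by
              apply mul_le_mul _ hd (norm_nonneg _) (by norm_num)
              linarith
          _ = 2 * (1 / 8) ^ (d + 1) := by ring

theorem accPt_of_mem (a : List ℕ → ℕ) (n : ℕ) (s : St) (x : E m)
    (hx : x ∈ KK m (alS (n + 1)) (chS a) s) : AccPt x (𝓟 (KK m (alS n) (chS a) s)) := by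
  rw [accPt_iff_nhds]
  intro U hU
  obtain ⟨ε, hε, hU⟩ := Metric.mem_nhds_iff.mp hU
  obtain ⟨d, hd⟩ := exists_pow_lt_of_lt_one (show 0 < ε / 2 by positivity)
    (show (1 / 8 : ℝ) < 1 by norm_num)
  obtain ⟨x', hx', hne, hdist⟩ := near a n d s x hx
  refine ⟨x', ⟨hU ?_, hx'⟩, hne⟩
  rw [Metric.mem_ball, dist_eq_norm]
  linarith

theorem step_eq (a : List ℕ → ℕ) (n : ℕ) (s : St) :
    {x | x ∈ KK m (alS n) (chS a) s ∧ AccPt x (𝓟 (KK m (alS n) (chS a) s))} =
      KK m (alS (n + 1)) (chS a) s := by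
  ext x
  constructor
  · rintro ⟨h1, h2⟩ d
    exact sub_step a n d s x h1 h2
  · intro hx
    exact ⟨KK_mono (alS_succ n) s hx, accPt_of_mem a n s x hx⟩

theorem PK_step (a : List ℕ → ℕ) (d : ℕ) : ∀ (s : St) (x : E m),
    (∀ n, x ∈ KK m (alS n) (chS a) s) → x ∈ Kn m alP (chS a) d s := by
  have hal : ∀ (s : St) (x : E m), (∀ n, x ∈ KK m (alS n) (chS a) s) → alP s := by
    intro s x h
    cases s with
    | A t => trivial
    | R k => trivial
    | O k =>
      have := (mem_KK_iff.mp (h (k + 1))).1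
      simp [alS] at this
    | dead => exact (mem_KK_iff.mp (h 0)).1
  induction d with
  | zero =>
    intro s x h
    exact ⟨hal s x h, norm_le_one (h 0)⟩
  | succ d ih =>
    intro s x h
    refine ⟨hal s x h, ?_⟩
    rcases (mem_KK_iff.mp (h 0)).2 with h0 | ⟨i, y, hy, rfl⟩
    · exact Or.inl h0
    · have hy1 : ‖y‖ < 5 / 4 := lt_of_le_of_lt (norm_le_one hy) (by norm_num)
      exact Or.inr ⟨i, y, ih _ y (fun n => ((KK_local hy1).mp (h n)).2), rfl⟩

end Deriv

open Deriv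

theorem Dn_KK (a : List ℕ → ℕ) (s : St) (n : ℕ) :
    Dn (KK m (alS 0) (chS a) s) n = KK m (alS n) (chS a) s := by
  induction n with
  | zero => rfl
  | succ n ih =>
    rw [← step_eq, ← ih]
    rfl

theorem PK_KK (a : List ℕ → ℕ) (s : St) :
    PK (KK m (alS 0) (chS a) s) = KK m alP (chS a) s := by
  ext x
  constructor
  · intro h d
    exact PK_step a d s x (fun n => by rw [← Dn_KK]; exact h n)
  · intro h n
    rw [Dn_KK]
    exact KK_mono (alP_alS n) s h

end Pool.Agent.Helper73.BR
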