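import Mathlib

open Set Filter Topology

namespace Pool.Agent.Helper73.BR

namespace Ends

/-- cluster points of `f` at a point of `T` lie in `T'`. -/
theorem cluster_mem {S S' : Type} [TopologicalSpace S] [T2Space S]
    [TopologicalSpace S'] (T : Set S) (T' : Set S')
    (hT' : IsClosed T')
    (f : S → S') (g : S' → S) (hg : ContinuousOn g T'ᶜ)
    (hgm : MapsTo g T'ᶜ Tᶜ) (hgf : ∀ x ∉ T, g (f x) = x)
    (x : S) (hx : x ∈ T) (y : S') (hy : ClusterPt y (map f (𝓝[Tᶜ] x))) : y ∈ T' := by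
  by_contra hyT
  have hgc : ContinuousAt g y := hg.continuousAt (hT'.isOpen_compl.mem_nhds hyT)
  have hne : NeBot (𝓝 y ⊓ map f (𝓝[Tᶜ] x)) := hy
  have h1 : Tendsto g (𝓝 y ⊓ map f (𝓝[Tᶜ] x)) (𝓝 (g y)) := Tendsto.mono_left hgc inf_le_left
  have h2 : Tendsto g (map f (𝓝[Tᶜ] x)) (𝓝 x) := by
    rw [tendsto_map'_iff]
    have h3 : Tendsto (fun z : S => z) (𝓝[Tᶜ] x) (𝓝 x) := tendsto_id.mono_left nhdsWithin_le_nhds
    refine h3.congr' ?_
    filter_upwards [self_mem_nhdsWithin] with z hz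
    exact (hgf z hz).symm
  have h4 : Tendsto g (𝓝 y ⊓ map f (𝓝[Tᶜ] x)) (𝓝 x) := h2.mono_left inf_le_right
  have h5 : g y = x := tendsto_nhds_unique h1 h4
  exact hgm hyT (h5 ▸ hx)

theorem cluster_unique {S S' : Type} [TopologicalSpace S] [T2Space S]
    [TopologicalSpace S'] [CompactSpace S'] [T2Space S'] (T : Set S) (T' : Set S')
    (hT' : IsClosed T')
    (htd' : IsTotallyDisconnected T')
    (hc : ∀ x ∈ T, ∀ O ∈ 𝓝 x, ∃ B ∈ 𝓝 x, B ⊆ O ∧ IsPreconnected (B \ T))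
    (f : S → S') (g : S' → S) (hf : ContinuousOn f Tᶜ) (hg : ContinuousOn g T'ᶜ)
    (hgm : MapsTo g T'ᶜ Tᶜ) (hgf : ∀ x ∉ T, g (f x) = x)
    (x : S) (hx : x ∈ T) (y₁ y₂ : S') (h₁ : ClusterPt y₁ (map f (𝓝[Tᶜ] x)))
    (h₂ : ClusterPt y₂ (map f (𝓝[Tᶜ] x))) : y₁ = y₂ := by
  by_contra hne
  have hm := cluster_mem T T' hT' f g hg hgm hgf x hx
  have m₁ := hm y₁ h₁
  have m₂ := hm y₂ h₂
  have i1 : CompactSpace T' := isCompact_iff_compactSpace.mp hT'.isCompact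
  have i2 : TotallyDisconnectedSpace T' := totallyDisconnectedSpace_subtype_iff.mpr htd'
  have hne' : (⟨y₁, m₁⟩ : T') ≠ ⟨y₂, m₂⟩ := fun h => hne (congrArg Subtype.val h)
  obtain ⟨U, hU, hy1, hy2⟩ := exists_isClopen_of_totally_separated hne'
  have c1 : IsClosed (Subtype.val '' U : Set S') :=
    hT'.isClosedEmbedding_subtypeVal.isClosedMap U hU.isClosed
  have c2 : IsClosed (Subtype.val '' Uᶜ : Set S') :=
    hT'.isClosedEmbedding_subtypeVal.isClosedMap Uᶜ hU.compl.isClosed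
  have hdis : Disjoint (Subtype.val '' U : Set S') (Subtype.val '' Uᶜ : Set S') := by
    rw [Set.disjoint_image_iff Subtype.val_injective]
    exact disjoint_compl_right
  obtain ⟨V, V', oV, oV', sV, sV', dV⟩ := normal_separation c1 c2 hdis
  have hT'V : T' ⊆ V ∪ V' := by
    intro z hz
    by_cases hzU : (⟨z, hz⟩ : T') ∈ U
    · exact Or.inl (sV ⟨_, hzU, rfl⟩)
    · exact Or.inr (sV' ⟨_, hzU, rfl⟩)
  have hev : V ∪ V' ∈ map f (𝓝[Tᶜ] x) := by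
    by_contra hcon
    have hfr : NeBot (map f (𝓝[Tᶜ] x) ⊓ 𝓟 (V ∪ V')ᶜ) :=
      ⟨fun h => hcon (mem_iff_inf_principal_compl.mpr h)⟩
    obtain ⟨z, -, hz⟩ := isCompact_univ (X := S') (f := map f (𝓝[Tᶜ] x) ⊓ 𝓟 (V ∪ V')ᶜ)
      (by simp)
    have z1 : ClusterPt z (map f (𝓝[Tᶜ] x)) := hz.mono inf_le_left
    have z2 : z ∈ (V ∪ V')ᶜ := by
      have hcl : IsClosed (V ∪ V')ᶜ := (oV.union oV').isClosed_compl
      have : ClusterPt z (𝓟 (V ∪ V')ᶜ) := hz.mono inf_le_right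
      rw [← mem_closure_iff_clusterPt, hcl.closure_eq] at this
      exact this
    exact z2 (hT'V (hm z z1))
  rw [mem_map, mem_nhdsWithin_iff_exists_mem_nhds_inter] at hev
  obtain ⟨O, hO, hOs⟩ := hev
  obtain ⟨B, hB, hBO, hBp⟩ := hc x hx O hO
  have hsub : f '' (B \ T) ⊆ V ∪ V' := by
    rintro _ ⟨w, hw, rfl⟩
    exact hOs ⟨hBO hw.1, hw.2⟩
  have hpre : IsPreconnected (f '' (B \ T)) :=
    hBp.image f (hf.mono (fun w hw => hw.2))
  have hBT : B \ T ∈ 𝓝[Tᶜ] x := inter_mem (mem_nhdsWithin_of_mem_nhds hB) self_mem_nhdsWithin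
  have hmeet : ∀ (y : S') (W : Set S'), IsOpen W → y ∈ W → ClusterPt y (map f (𝓝[Tᶜ] x)) →
      (f '' (B \ T) ∩ W).Nonempty := by
    intro y W hW hyW hy
    have h1 : f '' (B \ T) ∈ map f (𝓝[Tᶜ] x) := image_mem_map hBT
    have := clusterPt_iff_nonempty.mp hy (hW.mem_nhds hyW) h1
    rwa [inter_comm] at this
  obtain ⟨w, hw, hwV⟩ := hpre V V' oV oV' hsub
    (hmeet y₁ V oV (sV ⟨_, hy1, rfl⟩) h₁) (hmeet y₂ V' oV' (sV' ⟨_, hy2, rfl⟩) h₂)
  exact disjoint_left.mp dV hwV.1 hwV.2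

/-- limits exist everywhere -/
theorem exists_lim {S S' : Type} [TopologicalSpace S] [T2Space S]
    [TopologicalSpace S'] [CompactSpace S'] [T2Space S'] (T : Set S) (T' : Set S')
    (hT : IsClosed T) (hT' : IsClosed T')
    (htd' : IsTotallyDisconnected T') (hd : Dense Tᶜ)
    (hc : ∀ x ∈ T, ∀ O ∈ 𝓝 x, ∃ B ∈ 𝓝 x, B ⊆ O ∧ IsPreconnected (B \ T))
    (f : S → S') (g : S' → S) (hf : ContinuousOn f Tᶜ) (hg : ContinuousOn g T'ᶜ)
    (hgm : MapsTo g T'ᶜ Tᶜ) (hgf : ∀ x ∉ T, g (f x) = x) (x : S) :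
    ∃ y, Tendsto f (𝓝[Tᶜ] x) (𝓝 y) ∧ (x ∈ T → y ∈ T') ∧ (x ∉ T → y = f x) := by
  by_cases hx : x ∈ T
  · have hne : NeBot (𝓝[Tᶜ] x) := mem_closure_iff_nhdsWithin_neBot.mp (hd x)
    obtain ⟨y, -, hy⟩ := isCompact_univ (X := S') (f := map f (𝓝[Tᶜ] x)) (by simp)
    refine ⟨y, ?_, fun _ => cluster_mem T T' hT' f g hg hgm hgf x hx y hy, fun h => (h hx).elim⟩
    refine le_nhds_of_unique_clusterPt (fun z hz => ?_)
    exact cluster_unique T T' hT' htd' hc f g hf hg hgm hgf x hx z y hz hy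
  · refine ⟨f x, ?_, fun h => (hx h).elim, fun _ => rfl⟩
    exact hf x hx

theorem extend {S S' : Type} [TopologicalSpace S] [T2Space S]
    [TopologicalSpace S'] [CompactSpace S'] [T2Space S'] (T : Set S) (T' : Set S')
    (hT : IsClosed T) (hT' : IsClosed T')
    (htd' : IsTotallyDisconnected T') (hd : Dense Tᶜ)
    (hc : ∀ x ∈ T, ∀ O ∈ 𝓝 x, ∃ B ∈ 𝓝 x, B ⊆ O ∧ IsPreconnected (B \ T))
    (f : S → S') (g : S' → S) (hf : ContinuousOn f Tᶜ) (hg : ContinuousOn g T'ᶜ)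
    (hgm : MapsTo g T'ᶜ Tᶜ) (hgf : ∀ x ∉ T, g (f x) = x) :
    ∃ h : S → S', Continuous h ∧ (∀ x ∉ T, h x = f x) ∧ (∀ x ∈ T, h x ∈ T') := by
  have key := exists_lim T T' hT hT' htd' hd hc f g hf hg hgm hgf
  refine ⟨extendFrom Tᶜ f, ?_, ?_, ?_⟩
  · exact continuous_extendFrom hd (fun x => ⟨_, (key x).choose_spec.1⟩)
  · intro x hx
    obtain ⟨y, h1, h2, h3⟩ := key x
    rw [extendFrom_eq (hd x) h1, h3 hx]
  · intro x hx
    obtain ⟨y, h1, h2, h3⟩ := key x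
    rw [extendFrom_eq (hd x) h1]
    exact h2 hx

end Ends

open Ends in
/-- a homeomorphism between the complements of totally disconnected closed sets which do not
locally separate extends -/
theorem ends_ext {S S' : Type} [TopologicalSpace S] [CompactSpace S] [T2Space S]
    [TopologicalSpace S'] [CompactSpace S'] [T2Space S'] (T : Set S) (T' : Set S')
    (hT : IsClosed T) (hT' : IsClosed T') (htd : IsTotallyDisconnected T)
    (htd' : IsTotallyDisconnected T') (hd : Dense Tᶜ) (hd' : Dense T'ᶜ)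
    (hc : ∀ x ∈ T, ∀ O ∈ 𝓝 x, ∃ B ∈ 𝓝 x, B ⊆ O ∧ IsPreconnected (B \ T))
    (hc' : ∀ x ∈ T', ∀ O ∈ 𝓝 x, ∃ B ∈ 𝓝 x, B ⊆ O ∧ IsPreconnected (B \ T'))
    (f : S → S') (g : S' → S) (hf : ContinuousOn f Tᶜ) (hg : ContinuousOn g T'ᶜ)
    (hfm : MapsTo f Tᶜ T'ᶜ) (hgm : MapsTo g T'ᶜ Tᶜ) (hgf : ∀ x ∉ T, g (f x) = x)
    (hfg : ∀ y ∉ T', f (g y) = y) :
    ∃ h : S ≃ₜ S', (∀ x ∉ T, h x = f x) ∧ h '' T = T' := by
  obtain ⟨h, hcont, h1, h2⟩ := extend T T' hT hT' htd' hd hc f g hf hg hgm hgf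
  obtain ⟨k, kcont, k1, k2⟩ := extend T' T hT' hT htd hd' hc' g f hg hf hfm hfg
  have hkh : ∀ x, k (h x) = x := by
    have : k ∘ h = id := by
      refine Continuous.ext_on hd (kcont.comp hcont) continuous_id ?_
      intro x hx
      show k (h x) = x
      rw [h1 x hx, k1 (f x) (hfm hx), hgf x hx]
    exact fun x => congrFun this x
  have hhk : ∀ y, h (k y) = y := by
    have : h ∘ k = id := by
      refine Continuous.ext_on hd' (hcont.comp kcont) continuous_id ?_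
      intro y hy
      show h (k y) = y
      rw [k1 y hy, h1 (g y) (hgm hy), hfg y hy]
    exact fun y => congrFun this y
  refine ⟨⟨⟨h, k, hkh, hhk⟩, hcont, kcont⟩, h1, ?_⟩
  ext y
  constructor
  · rintro ⟨x, hx, rfl⟩
    exact h2 x hx
  · intro hy
    exact ⟨k y, k2 y hy, hhk y⟩

end Pool.Agent.Helper73.BR
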