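import Pool.Agent.Helper73.BR.DefsB

/-!
# Joint measurability of transition maps and terms
-/

open Set Filter Topology MeasureTheory
open scoped ContDiff

namespace Pool.Agent.Helper73.BR

variable {m : ℕ}

namespace MeasB1

/-! ## Generators of the sigma-algebra -/

theorem measurableSet_gen {X : Set (E m)} (k l : ℕ) (D : RBox m) :
    MeasurableSet {p : Par X | D.on X ⊆ p.U k l} := by
  have h : MeasurableSpace.comap (fun p : Par X => (D.on X ⊆ p.U k l : Prop)) ⊤ ≤
      (inferInstance : MeasurableSpace (Par X)) := by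
    refine le_trans ?_ le_sup_left
    exact le_iSup_of_le k (le_iSup_of_le l (le_iSup_of_le D le_rfl))
  apply h
  refine ⟨{True}, trivial, ?_⟩
  ext p
  simp

theorem measurable_gen {X : Set (E m)} (k l : ℕ) (x : Fin (m + 2) → ℚ) :
    Measurable (fun p : Par X => p.φ k l (fun i => (x i : ℝ))) := by
  have h : MeasurableSpace.comap (fun p : Par X => p.φ k l (fun i => (x i : ℝ))) inferInstance ≤
      (inferInstance : MeasurableSpace (Par X)) := by
    refine le_trans ?_ le_sup_right
    exact le_iSup_of_le k (le_iSup_of_le l (le_iSup_of_le x le_rfl))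
  intro s hs
  exact h _ ⟨s, hs, rfl⟩

/-! ## Half space and boxes -/

theorem isClosed_HS : IsClosed (HS m) :=
  isClosed_le continuous_const (continuous_apply _)

theorem isClosed_on (D : RBox m) {X : Set (E m)} (hX : IsClosed X) : IsClosed (D.on X) := by
  have : D.on X = X ∩ ⋂ i, ({x : E m | (D.1 i : ℝ) ≤ x i} ∩ {x : E m | x i ≤ (D.2 i : ℝ)}) := by
    ext x
    simp only [RBox.on, mem_ofPred_eq, mem_inter_iff, mem_iInter]
  rw [this]
  refine hX.inter (isClosed_iInter fun i => ?_)
  exact (isClosed_le continuous_const (continuous_apply _)).inter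
    (isClosed_le (continuous_apply _) continuous_const)

theorem exists_box {X U : Set (E m)} (hU : ROpen X U) {x : E m} (hx : x ∈ U) :
    ∃ D : RBox m, x ∈ D.on X ∧ D.on X ⊆ U ∧ D.on X ∈ 𝓝[X] x := by
  obtain ⟨V, hV, rfl⟩ := hU
  obtain ⟨ε, hε, hb⟩ := Metric.isOpen_iff.1 hV x hx.1
  have ha : ∀ i, ∃ q : ℚ, x i - ε < q ∧ (q : ℝ) < x i := fun i =>
    exists_rat_btwn (by linarith)
  have hc : ∀ i, ∃ q : ℚ, x i < q ∧ (q : ℝ) < x i + ε := fun i =>
    exists_rat_btwn (by linarith)
  choose a ha1 ha2 using ha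
  choose c hc1 hc2 using hc
  refine ⟨(a, c), ⟨hx.2, fun i => ⟨(ha2 i).le, (hc1 i).le⟩⟩, ?_, ?_⟩
  · rintro z ⟨hz, hz'⟩
    refine ⟨hb ?_, hz⟩
    rw [Metric.mem_ball, dist_pi_lt_iff hε]
    intro i
    rw [Real.dist_eq, abs_lt]
    have h1 := hz' i
    simp only at h1
    constructor
    · linarith [ha1 i, h1.1]
    · linarith [hc2 i, h1.2]
  · rw [mem_nhdsWithin]
    refine ⟨Set.pi univ (fun i => Ioo (a i : ℝ) (c i : ℝ)),
      isOpen_set_pi finite_univ (fun _ _ => isOpen_Ioo), fun i _ => ⟨ha2 i, hc1 i⟩, ?_⟩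
    rintro z ⟨hz, hz'⟩
    exact ⟨hz', fun i => ⟨(hz i trivial).1.le, (hz i trivial).2.le⟩⟩

/-! ## Rational approximation -/

/-- the rational point with numerators `z` and denominator `j + 1` -/
def rp (j : ℕ) (z : Fin (m + 2) → ℤ) : Fin (m + 2) → ℚ := fun i => (z i : ℚ) / ((j : ℚ) + 1)

noncomputable def ce (j : ℕ) (x : E m) : Fin (m + 2) → ℤ := fun i => ⌈((j : ℝ) + 1) * x i⌉

theorem measurable_ce (j : ℕ) : Measurable (ce j : E m → Fin (m + 2) → ℤ) := by
  refine measurable_pi_lambda _ fun i => ?_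
  exact Int.measurable_ceil.comp ((measurable_pi_apply i).const_mul _)

theorem rp_ce_mem (j : ℕ) {x : E m} (hx : x ∈ HS m) :
    (fun i => ((rp j (ce j x) i : ℚ) : ℝ)) ∈ HS m := by
  have h0 : (0 : ℝ) ≤ ((j : ℝ) + 1) * x (Fin.last (m + 1)) := mul_nonneg (by positivity) hx
  have h1 : (0 : ℤ) ≤ ⌈((j : ℝ) + 1) * x (Fin.last (m + 1))⌉ := Int.ceil_nonneg h0
  have h2 : (0 : ℝ) ≤ ((⌈((j : ℝ) + 1) * x (Fin.last (m + 1))⌉ : ℤ) : ℝ) := by exact_mod_cast h1
  simp only [HS, rp, ce, mem_ofPred_eq]
  push_cast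
  positivity

theorem tendsto_rp_ce (x : E m) :
    Tendsto (fun j : ℕ => (fun i => ((rp j (ce j x) i : ℚ) : ℝ) : E m)) atTop (𝓝 x) := by
  rw [tendsto_pi_nhds]
  intro i
  have h1 : Tendsto (fun j : ℕ => x i + 1 / ((j : ℝ) + 1)) atTop (𝓝 (x i + 0)) :=
    tendsto_const_nhds.add tendsto_one_div_add_atTop_nhds_zero_nat
  rw [add_zero] at h1
  refine tendsto_of_tendsto_of_tendsto_of_le_of_le tendsto_const_nhds h1 ?_ ?_
  · intro j
    simp only [rp, ce]
    push_cast
    rw [le_div_iff₀ (by positivity)]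
    have := Int.le_ceil (((j : ℝ) + 1) * x i)
    linarith
  · intro j
    simp only [rp, ce]
    push_cast
    have hj : (0 : ℝ) < (j : ℝ) + 1 := by positivity
    have e : (x i + 1 / ((j : ℝ) + 1)) * ((j : ℝ) + 1) = ((j : ℝ) + 1) * x i + 1 := by
      field_simp
    rw [div_le_iff₀ hj, e]
    exact (Int.ceil_lt_add_one (((j : ℝ) + 1) * x i)).le

end MeasB1

open MeasB1

theorem measurableSet_mem (k l : ℕ) :
    MeasurableSet {z : Par (HS m) × E m | z.2 ∈ z.1.U k l} := by
  have : {z : Par (HS m) × E m | z.2 ∈ z.1.U k l} =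
      ⋃ D : RBox m, {p : Par (HS m) | D.on (HS m) ⊆ p.U k l} ×ˢ D.on (HS m) := by
    ext z
    simp only [mem_ofPred_eq, mem_iUnion, mem_prod]
    constructor
    · intro h
      obtain ⟨D, h1, h2, -⟩ := exists_box (z.1.ropen k l) h
      exact ⟨D, h2, h1⟩
    · rintro ⟨D, h1, h2⟩
      exact h1 h2
  rw [this]
  exact MeasurableSet.iUnion fun D =>
    (measurableSet_gen k l D).prod (isClosed_on D isClosed_HS).measurableSet

theorem measurable_phi (k l : ℕ) :
    Measurable (fun z : Par (HS m) × E m => z.1.φ k l z.2) := by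
  classical
  -- approximations
  have hg : ∀ j : ℕ, Measurable (fun z : Par (HS m) × E m =>
      z.1.φ k l (fun i => ((rp j (ce j z.2) i : ℚ) : ℝ))) := by
    intro j
    have h1 : Measurable (fun z : Par (HS m) × (Fin (m + 2) → ℤ) =>
        z.1.φ k l (fun i => ((rp j z.2 i : ℚ) : ℝ))) := by
      refine measurable_from_prod_countable_left fun z => ?_
      exact measurable_gen k l (rp j z)
    exact h1.comp (measurable_fst.prodMk ((measurable_ce j).comp measurable_snd))
  have hgi := fun j => (hg j).indicator (measurableSet_mem (m := m) k l)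
  refine measurable_of_tendsto_metrizable hgi ?_
  rw [tendsto_pi_nhds]
  rintro ⟨p, x⟩
  by_cases hx : x ∈ p.U k l
  · have e : ∀ j : ℕ, ({z : Par (HS m) × E m | z.2 ∈ z.1.U k l}.indicator
        (fun z : Par (HS m) × E m => z.1.φ k l (fun i => ((rp j (ce j z.2) i : ℚ) : ℝ)))) (p, x) =
        p.φ k l (fun i => ((rp j (ce j x) i : ℚ) : ℝ)) := fun j => by
      rw [indicator_of_mem]
      exact hx
    simp only [e]
    have hc : ContinuousWithinAt (p.φ k l) (p.U k l) x := ((p.smooth k l).continuousOn) x hx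
    refine hc.tendsto.comp ?_
    obtain ⟨V, hV, hU⟩ := p.ropen k l
    rw [hU] at hx ⊢
    refine tendsto_nhdsWithin_iff.2 ⟨tendsto_rp_ce x, ?_⟩
    filter_upwards [(tendsto_rp_ce x).eventually (hV.mem_nhds hx.1)] with j hj
    exact ⟨hj, rp_ce_mem j hx.2⟩
  · have e : ∀ j : ℕ, ({z : Par (HS m) × E m | z.2 ∈ z.1.U k l}.indicator
        (fun z : Par (HS m) × E m => z.1.φ k l (fun i => ((rp j (ce j z.2) i : ℚ) : ℝ)))) (p, x) =
        0 := fun j => by
      rw [indicator_of_notMem]
      exact hx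
    simp only [e, p.off k l x hx]
    exact tendsto_const_nhds

section
variable (Q : QFam m)

theorem MeasB1.measurable_q (n : ℕ) : Measurable (Q.q n) := by
  classical
  have h := ContinuousOn.measurable_piecewise (f := Q.q n) (g := fun _ => (0 : E m))
    (Q.q_smooth n).continuousOn continuousOn_const (isClosed_HS (m := m)).measurableSet
  convert h using 1
  ext1 x
  by_cases hx : x ∈ HS m
  · rw [piecewise_eq_of_mem _ _ _ hx]
  · rw [piecewise_eq_of_notMem _ _ _ hx, Q.q_off n x hx]

theorem measurable_eval (T : PTerm) :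
    Measurable (fun z : Par (HS m) × E m => T.eval Q z.1 z.2) := by
  induction T with
  | q n => exact (measurable_q Q n).comp measurable_snd
  | tr l l' F ih => exact (measurable_phi l l').comp (measurable_fst.prodMk ih)
  | pre F n ih =>
    exact ih.comp (measurable_fst.prodMk ((measurable_q Q n).comp measurable_snd))
  | ip j F G ihF ihG =>
    have hψ : Measurable (fun z : Par (HS m) × E m => Q.ψ j z.2) :=
      (Q.ψ_smooth j).continuous.measurable.comp measurable_snd
    exact ((measurable_const.sub hψ).smul ihF).add (hψ.smul ihG)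

theorem MeasB1.measurable_eval_right (T : PTerm) (x : E m) :
    Measurable (fun p : Par (HS m) => T.eval Q p x) :=
  (measurable_eval Q T).comp measurable_prodMk_right

/-- terms take values in the half space -/
theorem MeasB1.eval_mem (p : Par (HS m)) (T : PTerm) :
    ∀ x ∈ T.good Q p, T.eval Q p x ∈ HS m := by
  induction T with
  | q n => exact fun x hx => (Q.q_bp n x hx).1
  | tr l l' F ih =>
    intro x hx
    obtain ⟨V, -, hU⟩ := p.ropen l' l
    have h := p.maps l l' _ hx.2
    rw [hU] at h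
    exact h.2
  | pre F n ih => exact fun x hx => ih _ hx.2
  | ip j F G ihF ihG =>
    intro x hx
    have h1 := ihF x hx.1
    have h2 := ihG x hx.2
    have h3 := Q.ψ_range j x
    simp only [HS, mem_ofPred_eq, PTerm.eval, Pi.add_apply, Pi.smul_apply, smul_eq_mul] at h1 h2 ⊢
    exact add_nonneg (mul_nonneg (by linarith) h1) (mul_nonneg h3.1 h2)

theorem MeasB1.eval_continuousOn (p : Par (HS m)) (T : PTerm) :
    ContinuousOn (T.eval Q p) (T.good Q p) := by
  induction T with
  | q n => exact (Q.q_smooth n).continuousOn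
  | tr l l' F ih =>
    exact (p.smooth l l').continuousOn.comp (ih.mono fun x hx => hx.1) fun x hx => hx.2
  | pre F n ih =>
    exact ih.comp ((Q.q_smooth n).continuousOn.mono fun x hx => hx.1) fun x hx => hx.2
  | ip j F G ihF ihG =>
    have hψ := (Q.ψ_smooth j).continuous.continuousOn (s := F.good Q p ∩ G.good Q p)
    exact ((continuousOn_const.sub hψ).smul (ihF.mono inter_subset_left)).add
      (hψ.smul (ihG.mono inter_subset_right))

/-- A continuous image of a compact set inside a relatively open set: countable criterion. -/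
theorem MeasB1.maps_iff {D D0 : Set (E m)} (hD : IsCompact D) (h0 : D0 ⊆ D) (h1 : D ⊆ closure D0)
    {X : Set (E m)} (hX : IsClosed X) {f : E m → E m} (hf : ContinuousOn f D) {U : Set (E m)}
    (hU : ROpen X U) :
    (∀ x ∈ D, f x ∈ U) ↔ ∃ s : Finset (RBox m), (∀ B ∈ s, B.on X ⊆ U) ∧
      ∀ x ∈ D0, ∃ B ∈ s, f x ∈ B.on X := by
  constructor
  · intro h
    have hc : IsCompact (f '' D) := hD.image_of_continuousOn hf
    have hb : ∀ y ∈ f '' D, ∃ B : RBox m, y ∈ B.on X ∧ B.on X ⊆ U ∧ B.on X ∈ 𝓝[X] y := by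
      rintro _ ⟨x, hx, rfl⟩
      exact exists_box hU (h x hx)
    choose! B hB1 hB2 hB3 using hb
    have hsub : f '' D ⊆ X := by
      rintro _ ⟨x, hx, rfl⟩
      obtain ⟨V, -, hV⟩ := hU
      have := h x hx
      rw [hV] at this
      exact this.2
    obtain ⟨t, ht, hcov⟩ := hc.elim_nhdsWithin_subcover (fun y => (B y).on X)
      (fun y hy => nhdsWithin_mono _ hsub (hB3 y hy))
    classical
    refine ⟨t.image B, ?_, ?_⟩
    · intro b hb
      obtain ⟨y, hy, rfl⟩ := Finset.mem_image.1 hb
      exact hB2 y (ht y hy)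
    · intro x hx
      have := hcov ⟨x, h0 hx, rfl⟩
      simp only [mem_iUnion] at this
      obtain ⟨y, hy, hxy⟩ := this
      exact ⟨B y, Finset.mem_image_of_mem _ hy, hxy⟩
  · rintro ⟨s, hs1, hs2⟩ x hx
    have hcl : IsClosed (⋃ B ∈ s, B.on X) :=
      s.finite_toSet.isClosed_biUnion fun B _ => isClosed_on B hX
    have hmem : f x ∈ ⋃ B ∈ s, B.on X := by
      have h2 : f x ∈ closure (f '' D0) := by
        have h3 : ContinuousWithinAt f D0 x := (hf x hx).mono h0
        exact h3.mem_closure_image (h1 hx)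
      refine hcl.closure_subset_iff.2 ?_ h2
      rintro _ ⟨z, hz, rfl⟩
      obtain ⟨B, hB, hzB⟩ := hs2 z hz
      exact mem_biUnion hB hzB
    simp only [mem_iUnion] at hmem
    obtain ⟨B, hB, hxB⟩ := hmem
    exact hs1 B hB hxB

theorem MeasB1.exists_dense (D : Set (E m)) : ∃ D0 ⊆ D, D0.Countable ∧ D ⊆ closure D0 :=
  (TopologicalSpace.IsSeparable.of_separableSpace D).exists_countable_dense_subset

/-- compact sets inside the domain of a term, with values inside `U k l` -/
theorem measurable_good (T : PTerm) (D : Set (E m)) (hD : IsCompact D) (hDH : D ⊆ HS m) :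
    MeasurableSet {p : Par (HS m) | D ⊆ T.good Q p} ∧ ∀ k l,
      MeasurableSet {p : Par (HS m) | D ⊆ T.good Q p ∧ ∀ x ∈ D, T.eval Q p x ∈ p.U k l} := by
  have key : ∀ (T : PTerm) (D : Set (E m)), IsCompact D →
      MeasurableSet {p : Par (HS m) | D ⊆ T.good Q p} → ∀ k l,
      MeasurableSet {p : Par (HS m) | D ⊆ T.good Q p ∧ ∀ x ∈ D, T.eval Q p x ∈ p.U k l} := by
    intro T D hD hm k l
    obtain ⟨D0, h0, hc, hcl⟩ := exists_dense D
    have e : {p : Par (HS m) | D ⊆ T.good Q p ∧ ∀ x ∈ D, T.eval Q p x ∈ p.U k l} =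
        {p : Par (HS m) | D ⊆ T.good Q p} ∩ ⋃ s : Finset (RBox m),
          ((⋂ B ∈ s, {p : Par (HS m) | B.on (HS m) ⊆ p.U k l}) ∩
            ⋂ x ∈ D0, ⋃ B ∈ s, {p : Par (HS m) | T.eval Q p x ∈ B.on (HS m)}) := by
      ext p
      simp only [mem_ofPred_eq, mem_inter_iff, mem_iUnion, mem_iInter]
      refine and_congr_right fun hg => ?_
      rw [maps_iff hD h0 hcl isClosed_HS ((eval_continuousOn Q p T).mono hg) (p.ropen k l)]
      simp only [exists_prop]
    rw [e]
    refine hm.inter (MeasurableSet.iUnion fun s => MeasurableSet.inter ?_ ?_)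
    · exact s.measurableSet_biInter fun B _ => measurableSet_gen k l B
    · refine MeasurableSet.biInter hc fun x _ => s.measurableSet_biUnion fun B _ => ?_
      exact measurable_eval_right Q T x (isClosed_on B isClosed_HS).measurableSet
  have hfirst : ∀ (T : PTerm) (D : Set (E m)), IsCompact D → D ⊆ HS m →
      MeasurableSet {p : Par (HS m) | D ⊆ T.good Q p} := by
    intro T
    induction T with
    | q n =>
      intro D hD hDH
      have : {p : Par (HS m) | D ⊆ (PTerm.q n).good Q p} = univ := by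
        ext p
        simp only [mem_ofPred_eq, mem_univ, iff_true]
        exact hDH
      rw [this]
      exact MeasurableSet.univ
    | tr l l' F ih =>
      intro D hD hDH
      have := key F D hD (ih D hD hDH) l l'
      convert this using 1
      ext p
      simp only [mem_ofPred_eq, PTerm.good]
      constructor
      · intro h
        exact ⟨fun x hx => (h hx).1, fun x hx => (h hx).2⟩
      · rintro ⟨h1, h2⟩ x hx
        exact ⟨h1 hx, h2 x hx⟩
    | pre F n ih =>
      intro D hD hDH
      have h1 : IsCompact (Q.q n '' D) :=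
        hD.image_of_continuousOn ((Q.q_smooth n).continuousOn.mono hDH)
      have h2 : Q.q n '' D ⊆ HS m := by
        rintro _ ⟨x, hx, rfl⟩
        exact (Q.q_bp n x (hDH hx)).1
      convert ih _ h1 h2 using 1
      ext p
      simp only [mem_ofPred_eq, PTerm.good, image_subset_iff]
      constructor
      · intro h x hx
        exact (h hx).2
      · intro h x hx
        exact ⟨hDH hx, h hx⟩
    | ip j F G ihF ihG =>
      intro D hD hDH
      convert (ihF D hD hDH).inter (ihG D hD hDH) using 1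
      ext p
      simp only [mem_ofPred_eq, PTerm.good, mem_inter_iff, subset_inter_iff]
  exact ⟨hfirst T D hD hDH, key T D hD (hfirst T D hD hDH)⟩

end

end Pool.Agent.Helper73.BR
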