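import Pool.Agent.BR.Glue
import Pool.Agent.BR.MeasB1

/-!
# Project BR, module MeasB2: measurability of coincidence and disjointness
-/

open Set Filter Topology MeasureTheory
open scoped ContDiff

namespace Pool.Agent.Helper73.BR

variable {m : ℕ}

namespace MeasB2

theorem ropen_mem {X U : Set (E m)} (h : ROpen X U) {x : E m} (hx : x ∈ U) : U ∈ 𝓝[X] x := by
  obtain ⟨V, hV, rfl⟩ := h
  exact inter_mem (mem_nhdsWithin_of_mem_nhds (hV.mem_nhds hx.1)) self_mem_nhdsWithin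

theorem ropen_sub {X U : Set (E m)} (h : ROpen X U) : U ⊆ X := by
  obtain ⟨V, hV, rfl⟩ := h
  exact inter_subset_right

/-- regularity of terms -/
theorem reg (Q : QFam m) (p : Par (HS m)) (T : PTerm) :
    ∀ x ∈ T.good Q p, x ∈ HS m ∧ T.eval Q p x ∈ HS m ∧
      ContinuousWithinAt (T.eval Q p) (HS m) x ∧ ∀ᶠ z in 𝓝[HS m] x, z ∈ T.good Q p := by
  induction T with
  | q n =>
    intro x hx
    have hx' : x ∈ HS m := hx
    exact ⟨hx', (Q.q_bp n x hx').1, (Q.q_smooth n).continuousOn x hx', self_mem_nhdsWithin⟩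
  | tr l l' F ih =>
    intro x hx
    obtain ⟨hx1, hx2⟩ := hx
    obtain ⟨h1, h2, h3, h4⟩ := ih x hx1
    have hev : ∀ᶠ z in 𝓝[HS m] x, F.eval Q p z ∈ HS m := by
      filter_upwards [h4] with z hz using (ih z hz).2.1
    have ht : Tendsto (F.eval Q p) (𝓝[HS m] x) (𝓝[HS m] (F.eval Q p x)) :=
      tendsto_nhdsWithin_iff.mpr ⟨h3, hev⟩
    have hU : ∀ᶠ z in 𝓝[HS m] x, F.eval Q p z ∈ p.U l l' :=
      ht.eventually (ropen_mem (p.ropen l l') hx2)
    refine ⟨h1, ropen_sub (p.ropen l' l) (p.maps _ _ _ hx2), ?_, ?_⟩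
    · have hc : ContinuousWithinAt (p.φ l l') (p.U l l') (F.eval Q p x) :=
        (p.smooth l l').continuousOn _ hx2
      exact Tendsto.comp hc (tendsto_nhdsWithin_iff.mpr ⟨h3, hU⟩)
    · filter_upwards [h4, hU] with z hz1 hz2 using ⟨hz1, hz2⟩
  | pre F n ih =>
    intro x hx
    obtain ⟨hx1, hx2⟩ := hx
    obtain ⟨h1, h2, h3, h4⟩ := ih _ hx2
    have hq : ContinuousWithinAt (Q.q n) (HS m) x := (Q.q_smooth n).continuousOn x hx1
    have hev : ∀ᶠ z in 𝓝[HS m] x, Q.q n z ∈ HS m := by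
      filter_upwards [self_mem_nhdsWithin] with z hz using (Q.q_bp n z hz).1
    have ht : Tendsto (Q.q n) (𝓝[HS m] x) (𝓝[HS m] (Q.q n x)) :=
      tendsto_nhdsWithin_iff.mpr ⟨hq, hev⟩
    refine ⟨hx1, h2, Tendsto.comp h3 ht, ?_⟩
    filter_upwards [self_mem_nhdsWithin, ht.eventually h4] with z hz1 hz2 using ⟨hz1, hz2⟩
  | ip j F G ihF ihG =>
    intro x hx
    obtain ⟨hx1, hx2⟩ := hx
    obtain ⟨h1, h2, h3, h4⟩ := ihF _ hx1
    obtain ⟨k1, k2, k3, k4⟩ := ihG _ hx2
    have hψ : ContinuousWithinAt (Q.ψ j) (HS m) x :=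
      (Q.ψ_smooth j).continuous.continuousWithinAt
    refine ⟨h1, ?_, ?_, ?_⟩
    · show 0 ≤ ((1 - Q.ψ j x) • F.eval Q p x + Q.ψ j x • G.eval Q p x) (Fin.last (m + 1))
      have h2' : 0 ≤ F.eval Q p x (Fin.last (m + 1)) := h2
      have k2' : 0 ≤ G.eval Q p x (Fin.last (m + 1)) := k2
      have hr := Q.ψ_range j x
      simp only [Pi.add_apply, Pi.smul_apply, smul_eq_mul]
      have := mul_nonneg (sub_nonneg.mpr hr.2) h2'
      have := mul_nonneg hr.1 k2'
      linarith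
    · exact ((continuousWithinAt_const.sub hψ).smul h3).add (hψ.smul k3)
    · filter_upwards [h4, k4] with z hz1 hz2 using ⟨hz1, hz2⟩

theorem eval_cont (Q : QFam m) (p : Par (HS m)) (T : PTerm) {D : Set (E m)}
    (hD : D ⊆ T.good Q p) : ContinuousOn (T.eval Q p) D := fun x hx =>
  (reg Q p T x (hD hx)).2.2.1.mono (fun z hz => (reg Q p T z (hD hz)).1)

theorem phi_cont (p : Par (HS m)) (k l : ℕ) : ContinuousOn (p.φ k l) (p.U k l) :=
  (p.smooth k l).continuousOn

theorem exists_dense (D : Set (E m)) : ∃ D0 : Set (E m), D0 ⊆ D ∧ D0.Countable ∧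
    D ⊆ closure D0 := by
  exact (TopologicalSpace.IsSeparable.of_separableSpace D).exists_countable_dense_subset

/-- measurability of the values of a term at a point -/
theorem meas_eval_pt (Q : QFam m) (T : PTerm) (x : E m) :
    Measurable (fun p : Par (HS m) => T.eval Q p x) :=
  (measurable_eval Q T).comp (measurable_id.prodMk measurable_const)

theorem meas_phi_comp (k l : ℕ) {f : Par (HS m) → E m} (hf : Measurable f) :
    Measurable (fun p : Par (HS m) => p.φ k l (f p)) :=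
  (measurable_phi k l).comp (measurable_id.prodMk hf)

theorem meas_box (k l : ℕ) (B : RBox m) :
    MeasurableSet {p : Par (HS m) | B.on (HS m) ⊆ p.U k l} := by
  have h : @MeasurableSet (Par (HS m)) (MeasurableSpace.comap
      (fun p : Par (HS m) => (B.on (HS m) ⊆ p.U k l : Prop)) ⊤)
      {p : Par (HS m) | B.on (HS m) ⊆ p.U k l} := by
    refine ⟨{q : Prop | q}, trivial, ?_⟩
    rfl
  have hle : MeasurableSpace.comap (fun p : Par (HS m) => (B.on (HS m) ⊆ p.U k l : Prop)) ⊤ ≤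
      (inferInstance : MeasurableSpace (Par (HS m))) := by
    refine le_trans ?_ le_sup_left
    exact le_iSup_of_le k (le_iSup_of_le l (le_iSup_of_le B le_rfl))
  exact hle _ h

/-- clamping to a box -/
noncomputable def clamp (B : RBox m) (x : E m) : E m := fun i =>
  max (if i = Fin.last (m + 1) then max (B.1 i : ℝ) 0 else (B.1 i : ℝ)) (min (B.2 i : ℝ) (x i))

theorem clamp_cont (B : RBox m) : Continuous (clamp B) := by
  refine continuous_pi (fun i => ?_)
  exact continuous_const.max (continuous_const.min (continuous_apply i))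

theorem clamp_eq {B : RBox m} {x : E m} (hx : x ∈ B.on (HS m)) : clamp B x = x := by
  obtain ⟨h1, h2⟩ := hx
  have h1' : 0 ≤ x (Fin.last (m + 1)) := h1
  funext i
  have h3 := h2 i
  unfold clamp
  rw [min_eq_right h3.2]
  split_ifs with h
  · subst h
    rw [max_eq_right]
    exact max_le h3.1 h1'
  · exact max_eq_right h3.1

theorem clamp_mem {B : RBox m} (hB : (B.on (HS m)).Nonempty) (x : E m) :
    clamp B x ∈ B.on (HS m) := by
  obtain ⟨y, hy1, hy2⟩ := hB
  have hy1' : 0 ≤ y (Fin.last (m + 1)) := hy1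
  refine ⟨?_, fun i => ⟨?_, ?_⟩⟩
  · show 0 ≤ clamp B x (Fin.last (m + 1))
    unfold clamp
    rw [if_pos rfl]
    exact le_trans (le_max_right _ _) (le_max_left _ _)
  · unfold clamp
    split_ifs with h
    · exact le_trans (le_max_left _ _) (le_max_left _ _)
    · exact le_max_left _ _
  · unfold clamp
    have h3 := hy2 i
    refine max_le ?_ (min_le_left _ _)
    split_ifs with h
    · subst h
      exact max_le (h3.1.trans h3.2) (hy1'.trans h3.2)
    · exact h3.1.trans h3.2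

/-- a point of a relatively open set lies in a rational box inside it -/
theorem exists_box {U : Set (E m)} (hU : ROpen (HS m) U) {x : E m} (hx : x ∈ U) :
    ∃ B : RBox m, x ∈ B.on (HS m) ∧ B.on (HS m) ⊆ U := by
  obtain ⟨V, hV, rfl⟩ := hU
  obtain ⟨ε, hε, hball⟩ := Metric.isOpen_iff.mp hV x hx.1
  have h1 : ∀ i, ∃ q : ℚ, x i - ε < q ∧ (q : ℝ) < x i := fun i =>
    exists_rat_btwn (by linarith)
  have h2 : ∀ i, ∃ q : ℚ, x i < q ∧ (q : ℝ) < x i + ε := fun i =>
    exists_rat_btwn (by linarith)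
  choose a ha using h1
  choose b hb using h2
  refine ⟨(a, b), ⟨hx.2, fun i => ⟨(ha i).2.le, (hb i).1.le⟩⟩, ?_⟩
  intro y hy
  refine ⟨hball ?_, hy.1⟩
  rw [Metric.mem_ball, dist_pi_lt_iff hε]
  intro i
  rw [Real.dist_eq, abs_lt]
  have h3 := hy.2 i
  have h3a : (a i : ℝ) ≤ y i := h3.1
  have h3b : y i ≤ (b i : ℝ) := h3.2
  constructor
  · linarith [(ha i).1]
  · linarith [(hb i).2]

/-- a lower bound passes from a dense subset to the whole set -/
theorem lower_bound {α : Type} [TopologicalSpace α] {D D0 : Set α} (h0 : D0 ⊆ D)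
    (hd : D ⊆ closure D0) {h : α → ℝ} (hc : ContinuousOn h D) {δ : ℝ}
    (hb : ∀ z ∈ D0, δ ≤ h z) : ∀ z ∈ D, δ ≤ h z := by
  intro z hz
  have hne : (𝓝[D0] z).NeBot := mem_closure_iff_nhdsWithin_neBot.mp (hd hz)
  have ht : Tendsto h (𝓝[D0] z) (𝓝 (h z)) := (hc z hz).mono h0
  exact ge_of_tendsto ht (by filter_upwards [self_mem_nhdsWithin] with w hw using hb w hw)

/-- positivity on a compact set -/
theorem pos_iff {α : Type} [TopologicalSpace α] {D D0 : Set α} (hK : IsCompact D)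
    (h0 : D0 ⊆ D) (hd : D ⊆ closure D0) {h : α → ℝ} (hc : ContinuousOn h D) :
    (∀ z ∈ D, 0 < h z) ↔ ∃ k : ℕ, ∀ z ∈ D0, 1 / ((k : ℝ) + 1) ≤ h z := by
  constructor
  · intro hpos
    rcases D.eq_empty_or_nonempty with he | hne
    · exact ⟨0, fun z hz => by have := h0 hz; rw [he] at this; exact this.elim⟩
    · obtain ⟨z0, hz0, hmin⟩ := hK.exists_isMinOn hne hc
      obtain ⟨k, hk⟩ := exists_nat_one_div_lt (hpos z0 hz0)
      exact ⟨k, fun z hz => hk.le.trans (hmin (h0 hz))⟩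
  · rintro ⟨k, hk⟩ z hz
    have := lower_bound h0 hd hc hk z hz
    have h1 : (0 : ℝ) < 1 / ((k : ℝ) + 1) := by positivity
    linarith

/-- the test function for coincidences inside a box -/
noncomputable def test (Q : QFam m) (p : Par (HS m)) (l l' : ℕ) (T T' : PTerm) (B : RBox m)
    (z : E m × E m) : ℝ :=
  ‖T.eval Q p z.1 - clamp B (T.eval Q p z.1)‖ +
    ‖p.φ l l' (clamp B (T.eval Q p z.1)) - T'.eval Q p z.2‖

theorem test_cont (Q : QFam m) (p : Par (HS m)) (l l' : ℕ) (T T' : PTerm) (B : RBox m)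
    (hB : B.on (HS m) ⊆ p.U l l') (hne : (B.on (HS m)).Nonempty) {D D' : Set (E m)}
    (hD : D ⊆ T.good Q p) (hD' : D' ⊆ T'.good Q p) :
    ContinuousOn (test Q p l l' T T' B) (D ×ˢ D') := by
  have h1 : ContinuousOn (fun z : E m × E m => T.eval Q p z.1) (D ×ˢ D') :=
    (eval_cont Q p T hD).comp continuousOn_fst (fun z hz => hz.1)
  have h2 : ContinuousOn (fun z : E m × E m => T'.eval Q p z.2) (D ×ˢ D') :=
    (eval_cont Q p T' hD').comp continuousOn_snd (fun z hz => hz.2)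
  have h3 : ContinuousOn (fun z : E m × E m => clamp B (T.eval Q p z.1)) (D ×ˢ D') :=
    (clamp_cont B).comp_continuousOn h1
  have h4 : ContinuousOn (fun z : E m × E m => p.φ l l' (clamp B (T.eval Q p z.1)))
      (D ×ˢ D') :=
    (phi_cont p l l').comp h3 (fun z _ => hB (clamp_mem hne _))
  exact (h1.sub h3).norm.add (h4.sub h2).norm

theorem test_pos_iff (Q : QFam m) (p : Par (HS m)) (l l' : ℕ) (T T' : PTerm) (B : RBox m)
    (hne : (B.on (HS m)).Nonempty) (x y : E m) :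
    0 < test Q p l l' T T' B (x, y) ↔
      ¬ (T.eval Q p x ∈ B.on (HS m) ∧ p.φ l l' (T.eval Q p x) = T'.eval Q p y) := by
  constructor
  · rintro hpos ⟨h1, h2⟩
    unfold test at hpos
    simp only [clamp_eq h1, h2, sub_self, norm_zero, add_zero, lt_self_iff_false] at hpos
  · intro h
    by_contra hle
    apply h
    unfold test at hle
    simp only [not_lt] at hle
    have h1 := norm_nonneg (T.eval Q p x - clamp B (T.eval Q p x))
    have h2 := norm_nonneg (p.φ l l' (clamp B (T.eval Q p x)) - T'.eval Q p y)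
    have h3 : ‖T.eval Q p x - clamp B (T.eval Q p x)‖ = 0 := by linarith
    have h4 : ‖p.φ l l' (clamp B (T.eval Q p x)) - T'.eval Q p y‖ = 0 := by linarith
    rw [norm_eq_zero, sub_eq_zero] at h3 h4
    rw [← h3] at h4
    refine ⟨?_, h4⟩
    rw [h3]
    exact clamp_mem hne _

theorem meas_test (Q : QFam m) (l l' : ℕ) (T T' : PTerm) (B : RBox m) (z : E m × E m) :
    Measurable (fun p : Par (HS m) => test Q p l l' T T' B z) := by
  have h1 := meas_eval_pt Q T z.1
  have h2 := meas_eval_pt Q T' z.2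
  have h3 : Measurable (fun p : Par (HS m) => clamp B (T.eval Q p z.1)) :=
    (clamp_cont B).measurable.comp h1
  have h4 := meas_phi_comp l l' h3
  exact (h1.sub h3).norm.add (h4.sub h2).norm

theorem meas_piece (Q : QFam m) (D : Set (E m)) (hD : IsCompact D) (hDH : D ⊆ HS m)
    (l : ℕ) (T : PTerm) : MeasurableSet {p : Par (HS m) | PieceOK Q p D l T} :=
  (measurable_good Q T D hD hDH).2 l l

/-- the version of `measurable_eq` on parameters -/
theorem meas_eq (Q : QFam m) (D : Set (E m)) (hD : IsCompact D) (hDH : D ⊆ HS m)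
    (l l' : ℕ) (T T' : PTerm) :
    MeasurableSet {p : Par (HS m) | PieceOK Q p D l T ∧ PieceOK Q p D l' T' ∧
      ∀ x ∈ D, T.eval Q p x ∈ p.U l l' ∧ p.φ l l' (T.eval Q p x) = T'.eval Q p x} := by
  obtain ⟨D0, h0, hcount, hd⟩ := exists_dense D
  have hset : {p : Par (HS m) | PieceOK Q p D l T ∧ PieceOK Q p D l' T' ∧
      ∀ x ∈ D, T.eval Q p x ∈ p.U l l' ∧ p.φ l l' (T.eval Q p x) = T'.eval Q p x} =
      ({p : Par (HS m) | PieceOK Q p D l T} ∩ {p : Par (HS m) | PieceOK Q p D l' T'}) ∩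
        ({p : Par (HS m) | D ⊆ T.good Q p ∧ ∀ x ∈ D, T.eval Q p x ∈ p.U l l'} ∩
          ⋂ x ∈ D0, {p : Par (HS m) | p.φ l l' (T.eval Q p x) = T'.eval Q p x}) := by
    ext p
    simp only [mem_ofPred_eq, mem_inter_iff, mem_iInter]
    constructor
    · rintro ⟨h1, h2, h3⟩
      exact ⟨⟨h1, h2⟩, ⟨h1.1, fun x hx => (h3 x hx).1⟩, fun x hx => (h3 x (h0 hx)).2⟩
    · rintro ⟨⟨h1, h2⟩, ⟨h3, h4⟩, h5⟩
      refine ⟨h1, h2, fun x hx => ⟨h4 x hx, ?_⟩⟩
      have hc1 : ContinuousOn (fun x => p.φ l l' (T.eval Q p x)) D :=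
        (phi_cont p l l').comp (eval_cont Q p T h1.1) h4
      have hc2 : ContinuousOn (T'.eval Q p) D := eval_cont Q p T' h2.1
      have heq : EqOn (fun x => p.φ l l' (T.eval Q p x)) (T'.eval Q p) D0 := fun x hx => h5 x hx
      exact heq.of_subset_closure hc1 hc2 h0 hd hx
  rw [hset]
  refine ((meas_piece Q D hD hDH l T).inter (meas_piece Q D hD hDH l' T')).inter
    (((measurable_good Q T D hD hDH).2 l l').inter ?_)
  refine MeasurableSet.biInter hcount (fun x _ => ?_)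
  exact measurableSet_eq_fun (meas_phi_comp l l' (meas_eval_pt Q T x)) (meas_eval_pt Q T' x)

/-- the version of `measurable_disj` on parameters -/
theorem meas_disj (Q : QFam m) (D D' : Set (E m)) (hD : IsCompact D) (hD' : IsCompact D')
    (hDH : D ⊆ HS m) (hDH' : D' ⊆ HS m) (l l' : ℕ) (T T' : PTerm) :
    MeasurableSet {p : Par (HS m) | PieceOK Q p D l T ∧ PieceOK Q p D' l' T' ∧
      ∀ x ∈ D, ∀ y ∈ D', ¬ (T.eval Q p x ∈ p.U l l' ∧
        p.φ l l' (T.eval Q p x) = T'.eval Q p y)} := by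
  obtain ⟨D0, h0, hcount, hd⟩ := exists_dense D
  obtain ⟨D0', h0', hcount', hd'⟩ := exists_dense D'
  have hsub : D0 ×ˢ D0' ⊆ D ×ˢ D' := prod_mono h0 h0'
  have hcl : D ×ˢ D' ⊆ closure (D0 ×ˢ D0') := by
    rw [closure_prod_eq]
    exact prod_mono hd hd'
  have hset : {p : Par (HS m) | PieceOK Q p D l T ∧ PieceOK Q p D' l' T' ∧
      ∀ x ∈ D, ∀ y ∈ D', ¬ (T.eval Q p x ∈ p.U l l' ∧
        p.φ l l' (T.eval Q p x) = T'.eval Q p y)} =
      ({p : Par (HS m) | PieceOK Q p D l T} ∩ {p : Par (HS m) | PieceOK Q p D' l' T'}) ∩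
        ⋂ B : RBox m, ({p : Par (HS m) | B.on (HS m) ⊆ p.U l l' ∧ (B.on (HS m)).Nonempty}ᶜ ∪
          ⋃ k : ℕ, ⋂ z ∈ D0 ×ˢ D0',
            {p : Par (HS m) | 1 / ((k : ℝ) + 1) ≤ test Q p l l' T T' B z}) := by
    ext p
    simp only [mem_ofPred_eq, mem_inter_iff, mem_iInter, mem_union, mem_compl_iff, mem_iUnion]
    constructor
    · rintro ⟨h1, h2, h3⟩
      refine ⟨⟨h1, h2⟩, fun B => ?_⟩
      by_cases hB : B.on (HS m) ⊆ p.U l l' ∧ (B.on (HS m)).Nonempty
      · right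
        refine (pos_iff (hD.prod hD') hsub hcl
          (test_cont Q p l l' T T' B hB.1 hB.2 h1.1 h2.1)).mp ?_
        rintro ⟨x, y⟩ ⟨hx, hy⟩
        rw [test_pos_iff Q p l l' T T' B hB.2]
        rintro ⟨h4, h5⟩
        exact h3 x hx y hy ⟨hB.1 h4, h5⟩
      · left
        exact hB
    · rintro ⟨⟨h1, h2⟩, h3⟩
      refine ⟨h1, h2, fun x hx y hy => ?_⟩
      rintro ⟨h4, h5⟩
      obtain ⟨B, hB1, hB2⟩ := exists_box (p.ropen l l') h4
      rcases h3 B with h6 | h6
      · exact h6 ⟨hB2, ⟨_, hB1⟩⟩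
      · have h7 := (pos_iff (hD.prod hD') hsub hcl
          (test_cont Q p l l' T T' B hB2 ⟨_, hB1⟩ h1.1 h2.1)).mpr h6 (x, y) ⟨hx, hy⟩
        rw [test_pos_iff Q p l l' T T' B ⟨_, hB1⟩] at h7
        exact h7 ⟨hB1, h5⟩
  rw [hset]
  refine ((meas_piece Q D hD hDH l T).inter (meas_piece Q D' hD' hDH' l' T')).inter ?_
  refine MeasurableSet.iInter (fun B => MeasurableSet.union ?_ ?_)
  · refine MeasurableSet.compl ?_
    by_cases hne : (B.on (HS m)).Nonempty
    · have : {p : Par (HS m) | B.on (HS m) ⊆ p.U l l' ∧ (B.on (HS m)).Nonempty} =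
          {p : Par (HS m) | B.on (HS m) ⊆ p.U l l'} := by
        ext p; simp [hne]
      rw [this]
      exact meas_box l l' B
    · have : {p : Par (HS m) | B.on (HS m) ⊆ p.U l l' ∧ (B.on (HS m)).Nonempty} = ∅ := by
        ext p; simp [hne]
      rw [this]
      exact MeasurableSet.empty
  · refine MeasurableSet.iUnion (fun k => ?_)
    refine MeasurableSet.biInter (hcount.prod hcount') (fun z _ => ?_)
    exact measurableSet_le measurable_const (meas_test Q l l' T T' B z)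

end MeasB2

section
variable (Q : QFam m)

theorem measurable_eq (D : Set (E m)) (hD : IsCompact D) (hDH : D ⊆ HS m)
    (l l' : ℕ) (T T' : PTerm) :
    MeasurableSet {p : ParC (HS m) | PieceOK Q p.1 D l T ∧ PieceOK Q p.1 D l' T' ∧
      ∀ x ∈ D, ptt p l (T.eval Q p.1 x) = ptt p l' (T'.eval Q p.1 x)} := by
  have h := measurable_subtype_coe (p := fun p : Par (HS m) => T2Space p.Space ∧
    ConnectedSpace p.Space) (MeasB2.meas_eq Q D hD hDH l l' T T')
  convert h using 1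
  ext p
  simp only [mem_ofPred_eq, mem_preimage]
  constructor
  · rintro ⟨h1, h2, h3⟩
    exact ⟨h1, h2, fun x hx => (ptt_eq_iff p (h1.2 x hx) (h2.2 x hx)).mp (h3 x hx)⟩
  · rintro ⟨h1, h2, h3⟩
    exact ⟨h1, h2, fun x hx => (ptt_eq_iff p (h1.2 x hx) (h2.2 x hx)).mpr (h3 x hx)⟩

theorem measurable_disj (D D' : Set (E m)) (hD : IsCompact D) (hD' : IsCompact D')
    (hDH : D ⊆ HS m) (hDH' : D' ⊆ HS m) (l l' : ℕ) (T T' : PTerm) :
    MeasurableSet {p : ParC (HS m) | PieceOK Q p.1 D l T ∧ PieceOK Q p.1 D' l' T' ∧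
      ∀ x ∈ D, ∀ y ∈ D', ptt p l (T.eval Q p.1 x) ≠ ptt p l' (T'.eval Q p.1 y)} := by
  have h := measurable_subtype_coe (p := fun p : Par (HS m) => T2Space p.Space ∧
    ConnectedSpace p.Space) (MeasB2.meas_disj Q D D' hD hD' hDH hDH' l l' T T')
  convert h using 1
  ext p
  simp only [mem_ofPred_eq, mem_preimage]
  constructor
  · rintro ⟨h1, h2, h3⟩
    exact ⟨h1, h2, fun x hx y hy h4 => h3 x hx y hy
      ((ptt_eq_iff p (h1.2 x hx) (h2.2 y hy)).mpr h4)⟩
  · rintro ⟨h1, h2, h3⟩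
    exact ⟨h1, h2, fun x hx y hy h4 => h3 x hx y hy
      ((ptt_eq_iff p (h1.2 x hx) (h2.2 y hy)).mp h4)⟩

end

end Pool.Agent.Helper73.BR
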