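import Pool.Agent.BR.MeasB1
import Pool.Agent.BR.MeasB2
import Pool.Agent.BR.PGerm

/-!
# Measurability of validity and of the labelled tree
-/

open Set Filter Topology MeasureTheory
open scoped ContDiff

namespace Pool.Agent.Helper73.BR

variable {m : ℕ}

variable (Q : QFam m)

namespace MeasB3

theorem meas_list {α β : Type*} [MeasurableSpace α] (L : List β) (P : β → α → Prop)
    (h : ∀ e ∈ L, MeasurableSet {p | P e p}) : MeasurableSet {p | ∀ e ∈ L, P e p} := by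
  have : {p | ∀ e ∈ L, P e p} = ⋂ e ∈ {e | e ∈ L}, {p | P e p} := by
    ext p; simp
  rw [this]
  exact MeasurableSet.biInter (List.finite_toSet L).countable h

theorem meas_forall₂ {α β γ : Type*} [MeasurableSpace α] (P : β → γ → α → Prop)
    (h : ∀ a b, MeasurableSet {p | P a b p}) (L : List β) (L' : List γ) :
    MeasurableSet {p | List.Forall₂ (fun a b => P a b p) L L'} := by
  induction L generalizing L' with
  | nil =>
    cases L' with
    | nil => simp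
    | cons b L' => simp
  | cons a L ih =>
    cases L' with
    | nil => simp
    | cons b L' =>
      simp only [List.forall₂_cons]
      exact (h a b).inter (ih L')

theorem on_sub (D : RBox m) : D.on (HS m) ⊆ HS m := fun _ h => h.1

theorem cont_eval (p : Par (HS m)) (T : PTerm) {D : Set (E m)} (hD : D ⊆ HS m)
    (h : D ⊆ T.good Q p) : ContinuousOn (T.eval Q p) D := fun x hx =>
  ((eval_smooth Q p T x (h hx)).continuousWithinAt).mono hD

variable {Q}

open Classical in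
theorem fn_eq {p : ParC (HS m)} {c : BCode m}
    (hc : ∀ e ∈ c.2, ∀ e' ∈ c.2, ∀ x ∈ e.1.on (HS m), x ∈ e'.1.on (HS m) →
      ptt p e.2.1 (e.2.2.eval Q p.1 x) = ptt p e'.2.1 (e'.2.2.eval Q p.1 x))
    {e : RBox m × ℕ × PTerm} (he : e ∈ c.2) {x : E m} (hx : x ∈ e.1.on (HS m)) :
    c.fn Q p x = ptt p e.2.1 (e.2.2.eval Q p.1 x) := by
  unfold BCode.fn
  cases hf : c.2.find? (fun e => decide (x ∈ e.1.on (HS m))) with
  | none =>
    exfalso
    rw [List.find?_eq_none] at hf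
    exact hf e he (by simpa using hx)
  | some e0 =>
    have h1 := List.mem_of_find?_eq_some hf
    have h2 := List.find?_some hf
    simp only [decide_eq_true_eq] at h2
    simp only [Option.map_some, Option.getD_some]
    exact hc e0 h1 e he x h2 hx

theorem exists_box (x : E m) {ε : ℝ} (hε : 0 < ε) : ∃ R : RBox m,
    ∀ i, ((R.1 i : ℝ) < x i ∧ x i < (R.2 i : ℝ)) ∧ x i - ε < (R.1 i : ℝ) ∧ (R.2 i : ℝ) < x i + ε := by
  have h1 : ∀ i, ∃ a : ℚ, x i - ε < (a : ℝ) ∧ (a : ℝ) < x i := fun i =>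
    exists_rat_btwn (by linarith)
  have h2 : ∀ i, ∃ a : ℚ, x i < (a : ℝ) ∧ (a : ℝ) < x i + ε := fun i =>
    exists_rat_btwn (by linarith)
  choose a ha ha' using h1
  choose b hb hb' using h2
  exact ⟨(a, b), fun i => ⟨⟨ha' i, hb i⟩, ha i, hb' i⟩⟩

theorem exists_sep {x y : E m} (hx : x ∈ HS m) (hy : y ∈ HS m) (h : x ≠ y) :
    ∃ R R' : RBox m, Disjoint (R.on (HS m)) (R'.on (HS m)) ∧ x ∈ R.on (HS m) ∧
      y ∈ R'.on (HS m) := by
  obtain ⟨i, hi⟩ := Function.ne_iff.1 h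
  have hε : 0 < |x i - y i| / 2 := by
    have := abs_pos.2 (sub_ne_zero.2 hi)
    linarith
  obtain ⟨R, hR⟩ := exists_box x hε
  obtain ⟨R', hR'⟩ := exists_box y hε
  refine ⟨R, R', ?_, ⟨hx, fun j => ⟨(hR j).1.1.le, (hR j).1.2.le⟩⟩,
    ⟨hy, fun j => ⟨(hR' j).1.1.le, (hR' j).1.2.le⟩⟩⟩
  rw [Set.disjoint_left]
  rintro z ⟨_, hz⟩ ⟨_, hz'⟩
  have h1 := hz i
  have h2 := hz' i
  have h3 := hR i
  have h4 := hR' i
  have h5 : |x i - z i| < |x i - y i| / 2 := by
    rw [abs_sub_lt_iff]; constructor <;> linarith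
  have h6 : |z i - y i| < |x i - y i| / 2 := by
    rw [abs_sub_lt_iff]; constructor <;> linarith
  have h7 := abs_sub_le (x i) (z i) (y i)
  linarith

variable (Q)

theorem meas_lip (T : PTerm) (D : Set (E m)) (hD : IsCompact D) (hDH : D ⊆ HS m) (δ : ℝ) :
    MeasurableSet {p : Par (HS m) | D ⊆ T.good Q p ∧ ∀ x ∈ D, ∀ y ∈ D, ‖x - y‖ < δ →
      δ * ‖x - y‖ ≤ ‖T.eval Q p x - T.eval Q p y‖} := by
  obtain ⟨D0, h0, hc, hd⟩ :=
    (TopologicalSpace.IsSeparable.of_separableSpace D).exists_countable_dense_subset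
  have key : {p : Par (HS m) | D ⊆ T.good Q p ∧ ∀ x ∈ D, ∀ y ∈ D, ‖x - y‖ < δ →
      δ * ‖x - y‖ ≤ ‖T.eval Q p x - T.eval Q p y‖} =
      {p : Par (HS m) | D ⊆ T.good Q p} ∩ ⋂ x ∈ D0, ⋂ y ∈ D0,
        {p : Par (HS m) | ‖x - y‖ < δ → δ * ‖x - y‖ ≤ ‖T.eval Q p x - T.eval Q p y‖} := by
    ext p
    simp only [mem_ofPred_eq, mem_inter_iff, mem_iInter]
    constructor
    · rintro ⟨h1, h2⟩
      exact ⟨h1, fun x hx y hy => h2 x (h0 hx) y (h0 hy)⟩
    · rintro ⟨h1, h2⟩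
      refine ⟨h1, fun x hx y hy hxy => ?_⟩
      have hcont : ContinuousOn (T.eval Q p) D := cont_eval Q p T hDH h1
      let U : Set (E m × E m) := {z | ‖z.1 - z.2‖ < δ}
      have hU : IsOpen U := isOpen_lt (by fun_prop) continuous_const
      have hcl : (x, y) ∈ closure (U ∩ D0 ×ˢ D0) := by
        apply hU.inter_closure
        refine ⟨hxy, ?_⟩
        rw [closure_prod_eq]
        exact ⟨hd hx, hd hy⟩
      have hsub : U ∩ D0 ×ˢ D0 ⊆ D ×ˢ D := fun z hz => ⟨h0 hz.2.1, h0 hz.2.2⟩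
      have hf : ContinuousOn (fun z : E m × E m => ‖T.eval Q p z.1 - T.eval Q p z.2‖) (D ×ˢ D) := by
        apply ContinuousOn.norm
        apply ContinuousOn.sub
        · exact hcont.comp continuousOn_fst (fun z hz => hz.1)
        · exact hcont.comp continuousOn_snd (fun z hz => hz.2)
      have hg : Continuous (fun z : E m × E m => δ * ‖z.1 - z.2‖) := by fun_prop
      exact ContinuousWithinAt.closure_le hcl hg.continuousWithinAt
        ((hf (x, y) ⟨hx, hy⟩).mono hsub)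
        (fun z hz => h2 z.1 hz.2.1 z.2 hz.2.2 hz.1)
  rw [key]
  refine (measurable_good Q T D hD hDH).1.inter ?_
  refine MeasurableSet.biInter hc fun x _ => MeasurableSet.biInter hc fun y _ => ?_
  have hmx : ∀ x : E m, Measurable (fun p : Par (HS m) => T.eval Q p x) := fun x =>
    (measurable_eval Q T).comp (measurable_id.prodMk measurable_const)
  by_cases hxy : ‖x - y‖ < δ
  · simp only [hxy, true_imp_iff]
    exact measurableSet_le measurable_const (((hmx x).sub (hmx y)).norm)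
  · simp [hxy]

end MeasB3

open MeasB3

theorem measurable_ok (c : BCode m) : MeasurableSet {p : ParC (HS m) | c.ok Q p} := by
  classical
  have e1 : {p : ParC (HS m) | c.ok Q p} = {p : ParC (HS m) |
      (c.core ⊆ c.dom) ∧
      (∀ e ∈ c.2, PieceOK Q p.1 (e.1.on (HS m)) e.2.1 e.2.2) ∧
      (∀ e ∈ c.2, ∀ e' ∈ c.2,
        (PieceOK Q p.1 (e.1.on (HS m) ∩ e'.1.on (HS m)) e.2.1 e.2.2 ∧
        PieceOK Q p.1 (e.1.on (HS m) ∩ e'.1.on (HS m)) e'.2.1 e'.2.2 ∧
        ∀ x ∈ e.1.on (HS m) ∩ e'.1.on (HS m),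
          ptt p e.2.1 (e.2.2.eval Q p.1 x) = ptt p e'.2.1 (e'.2.2.eval Q p.1 x))) ∧
      (∀ e ∈ c.2, ∀ e' ∈ c.2, ∀ R R' : RBox m, Disjoint (R.on (HS m)) (R'.on (HS m)) →
        (PieceOK Q p.1 (e.1.on (HS m) ∩ R.on (HS m)) e.2.1 e.2.2 ∧
        PieceOK Q p.1 (e'.1.on (HS m) ∩ R'.on (HS m)) e'.2.1 e'.2.2 ∧
        ∀ x ∈ e.1.on (HS m) ∩ R.on (HS m), ∀ y ∈ e'.1.on (HS m) ∩ R'.on (HS m),
          ptt p e.2.1 (e.2.2.eval Q p.1 x) ≠ ptt p e'.2.1 (e'.2.2.eval Q p.1 y))) ∧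
      (∀ e ∈ c.2, ∃ k : ℕ, e.1.on (HS m) ⊆ e.2.2.good Q p.1 ∧ 
        ∀ x ∈ e.1.on (HS m), ∀ y ∈ e.1.on (HS m), ‖x - y‖ < 1 / ((k : ℝ) + 1) →
        1 / ((k : ℝ) + 1) * ‖x - y‖ ≤ ‖e.2.2.eval Q p.1 x - e.2.2.eval Q p.1 y‖)} := by
    ext p
    simp only [mem_ofPred_eq]
    constructor
    · rintro ⟨h1, h2, h3, h4, h5⟩
      have hP : ∀ e ∈ c.2, PieceOK Q p.1 (e.1.on (HS m)) e.2.1 e.2.2 := fun e he =>
        ⟨fun x hx => (h2 e he x hx).1, fun x hx => (h2 e he x hx).2⟩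
      have hP' : ∀ e ∈ c.2, ∀ D, D ⊆ e.1.on (HS m) → PieceOK Q p.1 D e.2.1 e.2.2 :=
        fun e he D hD => ⟨hD.trans (hP e he).1, fun x hx => (hP e he).2 x (hD hx)⟩
      refine ⟨h1, hP, ?_, ?_, ?_⟩
      · intro e he e' he'
        exact ⟨hP' e he _ inter_subset_left, hP' e' he' _ inter_subset_right,
          fun x hx => h3 e he e' he' x hx.1 hx.2⟩
      · intro e he e' he' R R' hRR
        refine ⟨hP' e he _ inter_subset_left, hP' e' he' _ inter_subset_left,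
          fun x hx y hy hxy => ?_⟩
        rw [← fn_eq h3 he hx.1, ← fn_eq h3 he' hy.1] at hxy
        have := h4 ⟨e, he, hx.1⟩ ⟨e', he', hy.1⟩ hxy
        subst this
        exact (Set.disjoint_left.1 hRR) hx.2 hy.2
      · intro e he
        obtain ⟨δ, hδ, h⟩ := h5 e he
        obtain ⟨k, hk⟩ := exists_nat_one_div_lt hδ
        refine ⟨k, (hP e he).1, fun x hx y hy hxy => ?_⟩
        exact (mul_le_mul_of_nonneg_right hk.le (norm_nonneg _)).trans
          (h x hx y hy (hxy.trans hk))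
    · rintro ⟨h1, h2, h3, h4, h5⟩
      have h3' : ∀ e ∈ c.2, ∀ e' ∈ c.2, ∀ x ∈ e.1.on (HS m), x ∈ e'.1.on (HS m) →
          ptt p e.2.1 (e.2.2.eval Q p.1 x) = ptt p e'.2.1 (e'.2.2.eval Q p.1 x) :=
        fun e he e' he' x hx hx' => (h3 e he e' he').2.2 x ⟨hx, hx'⟩
      refine ⟨h1, fun e he x hx => ⟨(h2 e he).1 hx, (h2 e he).2 x hx⟩, h3', ?_, ?_⟩
      · rintro x ⟨e, he, hx⟩ y ⟨e', he', hy⟩ hxy
        by_contra hne
        obtain ⟨R, R', hRR, hxR, hyR⟩ := exists_sep hx.1 hy.1 hne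
        rw [fn_eq h3' he hx, fn_eq h3' he' hy] at hxy
        exact (h4 e he e' he' R R' hRR).2.2 x ⟨hx, hxR⟩ y ⟨hy, hyR⟩ hxy
      · intro e he
        obtain ⟨k, _, h⟩ := h5 e he
        exact ⟨1 / ((k : ℝ) + 1), by positivity, h⟩
  rw [e1]
  refine MeasurableSet.inter (MeasurableSet.const _) (MeasurableSet.inter ?_ (MeasurableSet.inter ?_
    (MeasurableSet.inter ?_ ?_)))
  · refine meas_list _ (fun e p => _) fun e _ => ?_
    exact ((measurable_good Q e.2.2 (e.1.on (HS m)) (isCompact_on e.1) (on_sub _)).2 e.2.1 e.2.1).preimage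
      measurable_subtype_coe
  · refine meas_list _ (fun e p => _) fun e _ => ?_
    refine meas_list _ (fun e p => _) fun e' _ => ?_
    exact measurable_eq Q _ ((isCompact_on e.1).inter (isCompact_on e'.1))
      (fun x hx => hx.1.1) _ _ _ _
  · refine meas_list _ (fun e p => _) fun e _ => ?_
    refine meas_list _ (fun e p => _) fun e' _ => ?_
    simp only [ofPred_forall]
    refine MeasurableSet.iInter fun R => MeasurableSet.iInter fun R' => ?_
    refine MeasurableSet.iInter fun _ => ?_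
    exact measurable_disj Q _ _ ((isCompact_on e.1).inter (isCompact_on R))
      ((isCompact_on e'.1).inter (isCompact_on R'))
      (fun x hx => hx.1.1) (fun x hx => hx.1.1) _ _ _ _
  · refine meas_list _ (fun e p => _) fun e _ => ?_
    simp only [ofPred_exists]
    refine MeasurableSet.iUnion fun k => ?_
    exact (meas_lip Q e.2.2 (e.1.on (HS m)) (isCompact_on e.1) (on_sub _) _).preimage
      measurable_subtype_coe

namespace MeasB3

variable {Q} in
theorem ok_pieces {p : ParC (HS m)} {c : BCode m} (h : c.ok Q p) {e : RBox m × ℕ × PTerm}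
    (he : e ∈ c.2) {D : Set (E m)} (hD : D ⊆ e.1.on (HS m)) : PieceOK Q p.1 D e.2.1 e.2.2 :=
  ⟨fun x hx => (h.2.1 e he x (hD hx)).1, fun x hx => (h.2.1 e he x (hD hx)).2⟩

theorem dom_sub_all (c : BCode m) : c.dom ⊆ c.all := by
  rintro x ⟨e, he, hx⟩
  exact ⟨e, he, mem_of_mem_nhdsWithin hx.1 hx.2⟩

theorem dom_nhds (c : BCode m) {x : E m} (hx : x ∈ c.dom) : c.dom ∈ 𝓝[HS m] x := by
  obtain ⟨e, he, hx1, hx2⟩ := hx
  have h := eventually_eventually_nhdsWithin.2 hx2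
  filter_upwards [h, self_mem_nhdsWithin] with z hz hz'
  exact ⟨e, he, hz', hz⟩

theorem hs_closed : IsClosed (HS m) := isClosed_le continuous_const (continuous_apply _)

/-- The overlap set. -/
def Tset (Q : QFam m) (c c' : BCode m) (e : RBox m × ℕ) : Set (E m) :=
  {x | x ∈ c.core ∧ x ∈ e.1.on (HS m) ∧ Q.q e.2 x ∈ c'.core}

theorem core_compact (c : BCode m) : IsCompact c.core := isCompact_on c.1

theorem q_pre_closed (n : ℕ) {D : Set (E m)} (hD : IsClosed D) :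
    IsClosed {x | x ∈ HS m ∧ Q.q n x ∈ D} :=
  ((Q.q_smooth n).continuousOn).preimage_isClosed_of_isClosed hs_closed hD

theorem Tset_compact (c c' : BCode m) (e : RBox m × ℕ) : IsCompact (Tset Q c c' e) := by
  have h : Tset Q c c' e = (c.core ∩ e.1.on (HS m)) ∩ {x | x ∈ HS m ∧ Q.q e.2 x ∈ c'.core} := by
    ext x
    constructor
    · rintro ⟨h1, h2, h3⟩
      exact ⟨⟨h1, h2⟩, h1.1, h3⟩
    · rintro ⟨⟨h1, h2⟩, _, h3⟩
      exact ⟨h1, h2, h3⟩
  rw [h]
  exact ((core_compact c).inter (isCompact_on e.1)).inter_right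
    (q_pre_closed Q _ (core_compact c').isClosed)

/-- First half of the list condition. -/
theorem meas_a (c c' : BCode m) (L : List (RBox m × ℕ)) :
    MeasurableSet {p : ParC (HS m) | c.ok Q p ∧ c'.ok Q p ∧
      ∀ x ∈ c.core, c.fn Q p x ∈ c'.fn Q p '' c'.core →
        ∃ e ∈ L, x ∈ e.1.on (HS m) ∧ Q.q e.2 x ∈ c'.core} := by
  have hT : IsClosed (⋃ e ∈ {e | e ∈ L}, Tset Q c c' e) :=
    (List.finite_toSet L).isClosed_biUnion fun e _ => (Tset_compact Q c c' e).isClosed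
  obtain ⟨F, hF1, hF2, hF3, _⟩ := hT.isOpen_compl.exists_iUnion_isClosed
  have key : {p : ParC (HS m) | c.ok Q p ∧ c'.ok Q p ∧
      ∀ x ∈ c.core, c.fn Q p x ∈ c'.fn Q p '' c'.core →
        ∃ e ∈ L, x ∈ e.1.on (HS m) ∧ Q.q e.2 x ∈ c'.core} =
      {p : ParC (HS m) | c.ok Q p} ∩ ({p : ParC (HS m) | c'.ok Q p} ∩ ⋂ n,
        {p : ParC (HS m) | ∀ e ∈ c.2, ∀ e' ∈ c'.2,
          (PieceOK Q p.1 (c.core ∩ e.1.on (HS m) ∩ F n) e.2.1 e.2.2 ∧
          PieceOK Q p.1 (c'.core ∩ e'.1.on (HS m)) e'.2.1 e'.2.2 ∧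
          ∀ x ∈ c.core ∩ e.1.on (HS m) ∩ F n, ∀ y ∈ c'.core ∩ e'.1.on (HS m),
            ptt p e.2.1 (e.2.2.eval Q p.1 x) ≠ ptt p e'.2.1 (e'.2.2.eval Q p.1 y))}) := by
    ext p
    simp only [mem_ofPred_eq, mem_inter_iff, mem_iInter]
    refine and_congr_right fun h1 => and_congr_right fun h2 => ?_
    constructor
    · intro h n e he e' he'
      refine ⟨ok_pieces h1 he (fun x hx => hx.1.2), ok_pieces h2 he' inter_subset_right,
        fun x hx y hy hxy => ?_⟩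
      rw [← fn_eq h1.2.2.1 he hx.1.2, ← fn_eq h2.2.2.1 he' hy.2] at hxy
      obtain ⟨e1, he1, h3, h4⟩ := h x hx.1.1 ⟨y, hy.1, hxy.symm⟩
      exact hF2 n hx.2 (mem_biUnion (show e1 ∈ {e | e ∈ L} from he1) ⟨hx.1.1, h3, h4⟩)
    · rintro h x hx ⟨y, hy, hxy⟩
      by_contra hcon
      push Not at hcon
      have hxT : x ∈ (⋃ e ∈ {e | e ∈ L}, Tset Q c c' e)ᶜ := by
        intro hmem
        obtain ⟨e1, he1, h3⟩ := mem_iUnion₂.1 hmem
        exact hcon e1 he1 h3.2.1 h3.2.2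
      rw [← hF3] at hxT
      obtain ⟨n, hn⟩ := mem_iUnion.1 hxT
      obtain ⟨e, he, hxe⟩ := dom_sub_all c (h1.1 hx)
      obtain ⟨e', he', hye⟩ := dom_sub_all c' (h2.1 hy)
      rw [fn_eq h1.2.2.1 he hxe, fn_eq h2.2.2.1 he' hye] at hxy
      exact (h n e he e' he').2.2 x ⟨⟨hx, hxe⟩, hn⟩ y ⟨hy, hye⟩ hxy.symm
  rw [key]
  refine (measurable_ok Q c).inter ((measurable_ok Q c').inter (MeasurableSet.iInter fun n => ?_))
  refine meas_list _ (fun e p => _) fun e _ => ?_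
  refine meas_list _ (fun e p => _) fun e' _ => ?_
  exact measurable_disj Q _ _ (((core_compact c).inter (isCompact_on e.1)).inter_right (hF1 n))
    ((core_compact c').inter (isCompact_on e'.1)) (fun x hx => hx.1.1.1) (fun x hx => hx.1.1)
    _ _ _ _

/-- Second half of the list condition, for one element of the list. -/
theorem meas_b (c c' : BCode m) (e : RBox m × ℕ) :
    MeasurableSet {p : ParC (HS m) | c.ok Q p ∧ c'.ok Q p ∧
      ∀ x ∈ c.core, x ∈ e.1.on (HS m) → Q.q e.2 x ∈ c'.core →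
        ∀ᶠ z in 𝓝[HS m] x, c.fn Q p z = c'.fn Q p (Q.q e.2 z)} := by
  classical
  have hTc := Tset_compact Q c c' e
  let N : ℕ → Set (E m) := fun k => HS m ∩ Metric.cthickening (1 / ((k : ℝ) + 1)) (Tset Q c c' e)
  have hN : ∀ k, IsCompact (N k) := fun k => (hTc.cthickening).inter_left hs_closed
  have key : {p : ParC (HS m) | c.ok Q p ∧ c'.ok Q p ∧
      ∀ x ∈ c.core, x ∈ e.1.on (HS m) → Q.q e.2 x ∈ c'.core →
        ∀ᶠ z in 𝓝[HS m] x, c.fn Q p z = c'.fn Q p (Q.q e.2 z)} =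
      {p : ParC (HS m) | c.ok Q p} ∩ ({p : ParC (HS m) | c'.ok Q p} ∩ ⋃ k,
        {p : ParC (HS m) | N k ⊆ c.all ∧ (∀ z ∈ N k, Q.q e.2 z ∈ c'.all) ∧
          ∀ e1 ∈ c.2, ∀ e2 ∈ c'.2,
          (PieceOK Q p.1 (N k ∩ e1.1.on (HS m) ∩ {x | x ∈ HS m ∧ Q.q e.2 x ∈ e2.1.on (HS m)})
            e1.2.1 e1.2.2 ∧
          PieceOK Q p.1 (N k ∩ e1.1.on (HS m) ∩ {x | x ∈ HS m ∧ Q.q e.2 x ∈ e2.1.on (HS m)})
            e2.2.1 (.pre e2.2.2 e.2) ∧
          ∀ z ∈ N k ∩ e1.1.on (HS m) ∩ {x | x ∈ HS m ∧ Q.q e.2 x ∈ e2.1.on (HS m)},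
            ptt p e1.2.1 (e1.2.2.eval Q p.1 z) =
              ptt p e2.2.1 ((PTerm.pre e2.2.2 e.2).eval Q p.1 z))}) := by
    ext p
    simp only [mem_ofPred_eq, mem_inter_iff, mem_iUnion]
    refine and_congr_right fun h1 => and_congr_right fun h2 => ?_
    constructor
    · intro h
      -- the set where everything is fine near `z` is open
      have hW : ∀ x ∈ Tset Q c c' e, ∀ᶠ z in 𝓝 x, z ∈ HS m →
          (z ∈ c.all ∧ Q.q e.2 z ∈ c'.all ∧ c.fn Q p z = c'.fn Q p (Q.q e.2 z)) := by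
        intro x hx
        rw [← eventually_nhdsWithin_iff]
        have hq : Tendsto (Q.q e.2) (𝓝[HS m] x) (𝓝[HS m] (Q.q e.2 x)) := by
          refine tendsto_nhdsWithin_iff.2 ⟨((Q.q_smooth e.2).continuousOn x hx.1.1), ?_⟩
          filter_upwards [self_mem_nhdsWithin] with z hz
          exact (Q.q_bp e.2 z hz).1
        filter_upwards [h x hx.1 hx.2.1 hx.2.2, dom_nhds c (h1.1 hx.1),
          hq.eventually (dom_nhds c' (h2.1 hx.2.2))] with z hz1 hz2 hz3
        exact ⟨dom_sub_all c hz2, dom_sub_all c' hz3, hz1⟩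
      let W : Set (E m) := interior {z | z ∈ HS m →
          (z ∈ c.all ∧ Q.q e.2 z ∈ c'.all ∧ c.fn Q p z = c'.fn Q p (Q.q e.2 z))}
      obtain ⟨δ, hδ, hδ'⟩ := hTc.exists_cthickening_subset_open (isOpen_interior (s := {z | z ∈ HS m →
          (z ∈ c.all ∧ Q.q e.2 z ∈ c'.all ∧ c.fn Q p z = c'.fn Q p (Q.q e.2 z))}))
          (fun x hx => mem_interior_iff_mem_nhds.2 (hW x hx))
      obtain ⟨k, hk⟩ := exists_nat_one_div_lt hδ
      have hNk : ∀ z ∈ N k, z ∈ c.all ∧ Q.q e.2 z ∈ c'.all ∧ c.fn Q p z = c'.fn Q p (Q.q e.2 z) :=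
        fun z hz => interior_subset (hδ' (Metric.cthickening_mono hk.le _ hz.2)) hz.1
      refine ⟨k, fun z hz => (hNk z hz).1, fun z hz => (hNk z hz).2.1, fun e1 he1 e2 he2 => ?_⟩
      refine ⟨ok_pieces h1 he1 (fun x hx => hx.1.2), ?_, ?_⟩
      · refine ⟨fun x hx => ?_, fun x hx => ?_⟩
        · exact ⟨hx.1.1.1, (h2.2.1 e2 he2 _ hx.2.2).1⟩
        · exact (h2.2.1 e2 he2 _ hx.2.2).2
      · intro z hz
        have := (hNk z hz.1.1).2.2
        rw [fn_eq h1.2.2.1 he1 hz.1.2, fn_eq h2.2.2.1 he2 hz.2.2] at this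
        exact this
    · rintro ⟨k, h3, h4, h5⟩ x hx hxe hxq
      have hxT : x ∈ Tset Q c c' e := ⟨hx, hxe, hxq⟩
      have hk : (0 : ℝ) < 1 / ((k : ℝ) + 1) := by positivity
      have hnb : N k ∈ 𝓝[HS m] x := by
        refine inter_mem self_mem_nhdsWithin (mem_nhdsWithin_of_mem_nhds ?_)
        refine mem_of_superset (Metric.ball_mem_nhds x hk) ?_
        intro z hz
        exact Metric.thickening_subset_cthickening _ _
          (Metric.mem_thickening_iff.2 ⟨x, hxT, hz⟩)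
      filter_upwards [hnb] with z hz
      obtain ⟨e1, he1, hz1⟩ := h3 hz
      obtain ⟨e2, he2, hz2⟩ := h4 z hz
      have := (h5 e1 he1 e2 he2).2.2 z ⟨⟨hz, hz1⟩, hz.1, hz2⟩
      rw [fn_eq h1.2.2.1 he1 hz1, fn_eq h2.2.2.1 he2 hz2]
      exact this
  rw [key]
  refine (measurable_ok Q c).inter ((measurable_ok Q c').inter (MeasurableSet.iUnion fun k => ?_))
  refine MeasurableSet.inter (MeasurableSet.const _) (MeasurableSet.inter (MeasurableSet.const _) ?_)
  refine meas_list _ (fun e p => _) fun e1 _ => ?_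
  refine meas_list _ (fun e p => _) fun e2 _ => ?_
  exact measurable_eq Q _ (((hN k).inter (isCompact_on e1.1)).inter_right
    (q_pre_closed Q _ (isCompact_on e2.1).isClosed)) (fun x hx => hx.1.1.1) _ _ _ _

end MeasB3

theorem measurable_list (c c' : BCode m) (L : List (RBox m × ℕ)) :
    MeasurableSet {p : ParC (HS m) | c.ok Q p ∧ c'.ok Q p ∧
      ListOK Q c.core (c.fn Q p) c'.core (c'.fn Q p) L} := by
  have key : {p : ParC (HS m) | c.ok Q p ∧ c'.ok Q p ∧
      ListOK Q c.core (c.fn Q p) c'.core (c'.fn Q p) L} =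
      {p : ParC (HS m) | c.ok Q p ∧ c'.ok Q p ∧
      ∀ x ∈ c.core, c.fn Q p x ∈ c'.fn Q p '' c'.core →
        ∃ e ∈ L, x ∈ e.1.on (HS m) ∧ Q.q e.2 x ∈ c'.core} ∩
      {p : ParC (HS m) | ∀ e ∈ L, (c.ok Q p ∧ c'.ok Q p ∧
      ∀ x ∈ c.core, x ∈ e.1.on (HS m) → Q.q e.2 x ∈ c'.core →
        ∀ᶠ z in 𝓝[HS m] x, c.fn Q p z = c'.fn Q p (Q.q e.2 z))} := by
    ext p
    simp only [mem_ofPred_eq, mem_inter_iff]
    constructor
    · rintro ⟨h1, h2, h3, h4⟩
      exact ⟨⟨h1, h2, h3⟩, fun e he => ⟨h1, h2, h4 e he⟩⟩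
    · rintro ⟨⟨h1, h2, h3⟩, h4⟩
      exact ⟨h1, h2, h3, fun e he => (h4 e he).2.2⟩
  rw [key]
  exact (meas_a Q c c' L).inter (meas_list _ (fun e p => _) fun e _ => meas_b Q c c' e)

namespace MeasB3

theorem meas_valid (s : List (NCode m)) : MeasurableSet {p : ParC (HS m) | Valid Q p s} := by
  induction s with
  | nil => exact MeasurableSet.const _
  | cons c s ih =>
    have key : {p : ParC (HS m) | Valid Q p (c :: s)} = {p : ParC (HS m) | Valid Q p s} ∩
        ({p : ParC (HS m) | c.1.ok Q p} ∩ {p : ParC (HS m) |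
          List.Forall₂ (fun L c' => (c.1.ok Q p ∧ c'.1.ok Q p ∧
            ListOK Q c.1.core (c.1.fn Q p) c'.1.core (c'.1.fn Q p) L)) c.2 s}) := by
      ext p
      simp only [mem_ofPred_eq, mem_inter_iff, Valid]
      refine and_congr_right fun h1 => and_congr_right fun h2 => ?_
      have hall : ∀ t : List (NCode m), Valid Q p t → ∀ c' ∈ t, c'.1.ok Q p := by
        intro t
        induction t with
        | nil => intro _ c' hc'; simp at hc'
        | cons a t iht =>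
          intro ht c' hc'
          rcases List.mem_cons.1 hc' with rfl | hc'
          · exact ht.2.1
          · exact iht ht.1 c' hc'
      constructor
      · intro h
        rw [List.forall₂_iff_get] at h ⊢
        exact ⟨h.1, fun i hi hi' => ⟨h2, hall s h1 _ (List.get_mem _ _), h.2 i hi hi'⟩⟩
      · intro h
        exact h.imp fun _ _ hab => hab.2.2
    rw [key]
    refine ih.inter ((measurable_ok Q c.1).inter ?_)
    exact meas_forall₂ (fun (L : List (RBox m × ℕ)) (c' : NCode m) (p : ParC (HS m)) =>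
      (c.1.ok Q p ∧ c'.1.ok Q p ∧
            ListOK Q c.1.core (c.1.fn Q p) c'.1.core (c'.1.fn Q p) L))
      (fun L c' => measurable_list Q c.1 c'.1 L) _ _

end MeasB3

theorem measurable_lam (t : List ℕ) : Measurable (fun p : ParC (HS m) => lam Q p t) := by
  classical
  have h : Measurable (fun p : ParC (HS m) =>
      (if Valid Q p (t.map (dec m)) then Encodable.encode (lab (t.map (dec m))) + 1 else 0)) :=
    Measurable.ite (meas_valid Q (t.map (dec m))) measurable_const measurable_const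
  have h2 : Measurable (fun n : ℕ => Nat.pair t.length n) := measurable_of_countable _
  have h3 := h2.comp h
  convert h3 using 1
  funext p
  simp only [lam, Function.comp]

end Pool.Agent.Helper73.BR
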