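import Pool.Agent.Helper73.BR.DefsB

/-!
# The countable `C^1`-dense family of smooth maps of the half space
-/

open Set Filter Topology MeasureTheory
open scoped ContDiff Manifold

namespace Pool.Agent.Helper73.BR

namespace QFamEx

variable {m : ℕ}

theorem isClosed_HS : IsClosed (HS m) :=
  isClosed_le continuous_const (continuous_apply _)

theorem convex_HS : Convex ℝ (HS m) := by
  intro x hx y hy a b ha hb _
  simp only [HS, mem_ofPred_eq, Pi.add_apply, Pi.smul_apply, smul_eq_mul] at *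
  positivity

theorem uniqueDiffOn_HS : UniqueDiffOn ℝ (HS m) := by
  refine uniqueDiffOn_convex convex_HS ?_
  have h : IsOpen {x : E m | 0 < x (Fin.last (m + 1))} :=
    isOpen_lt continuous_const (continuous_apply _)
  have h2 : {x : E m | 0 < x (Fin.last (m + 1))} ⊆ HS m := fun x hx =>
    show 0 ≤ x (Fin.last (m + 1)) from le_of_lt hx
  refine ⟨fun _ => 1, interior_maximal h2 h ?_⟩
  simp

/-! ### cut-off functions -/

/-- The finite unions of members of the countable basis. -/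
abbrev FB (m : ℕ) := Finset (TopologicalSpace.countableBasis (E m))

/-- The union. -/
def FB.un (F : FB m) : Set (E m) := ⋃ b ∈ F, b.1

theorem FB.isOpen (F : FB m) : IsOpen F.un :=
  isOpen_biUnion fun b _ => TopologicalSpace.isOpen_of_mem_countableBasis b.2

theorem exists_FB {B O : Set (E m)} (hB : IsCompact B) (hO : IsOpen O) (h : B ⊆ O) :
    ∃ F : FB m, B ⊆ F.un ∧ closure F.un ⊆ O := by
  have h1 : ∀ x ∈ B, ∃ b : TopologicalSpace.countableBasis (E m), x ∈ b.1 ∧ closure b.1 ⊆ O := by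
    intro x hx
    obtain ⟨t, ht, htc, htO⟩ := exists_mem_nhds_isClosed_subset (hO.mem_nhds (h hx))
    obtain ⟨b, hb, hxb, hbt⟩ :=
      (TopologicalSpace.isBasis_countableBasis (E m)).mem_nhds_iff.1 ht
    exact ⟨⟨b, hb⟩, hxb, (closure_minimal hbt htc).trans htO⟩
  have : Nonempty (TopologicalSpace.countableBasis (E m)) := by
    obtain ⟨b, hb, _⟩ := (TopologicalSpace.isBasis_countableBasis (E m)).mem_nhds_iff.1
      (univ_mem (f := 𝓝 (0 : E m)))
    exact ⟨⟨b, hb⟩⟩
  choose! f hf1 hf2 using h1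
  obtain ⟨t, ht, htB⟩ := hB.elim_nhds_subcover (fun x => (f x).1) fun x hx =>
    (TopologicalSpace.isOpen_of_mem_countableBasis (f x).2).mem_nhds (hf1 x hx)
  classical
  refine ⟨t.image f, ?_, ?_⟩
  · intro x hx
    obtain ⟨y, hy, hxy⟩ := mem_iUnion₂.1 (htB hx)
    exact mem_iUnion₂.2 ⟨f y, Finset.mem_image_of_mem f hy, hxy⟩
  · have : closure (FB.un (t.image f)) = ⋃ b ∈ t.image f, closure b.1 :=
      Finset.closure_biUnion _ _
    rw [this]
    refine iUnion₂_subset fun b hb => ?_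
    obtain ⟨y, hy, rfl⟩ := Finset.mem_image.1 hb
    exact hf2 y (ht y hy)

theorem exists_cut (F G : FB m) : ∃ ψ : E m → ℝ, ContDiff ℝ ∞ ψ ∧ (∀ x, 0 ≤ ψ x ∧ ψ x ≤ 1) ∧
    (closure F.un ⊆ G.un → (∀ x ∈ F.un, ψ x = 1) ∧ ∀ x ∉ G.un, ψ x = 0) := by
  by_cases h : closure F.un ⊆ G.un
  · obtain ⟨f, hf0, hf1, hf⟩ := exists_contMDiffMap_zero_one_of_isClosed (n := ⊤) 𝓘(ℝ, E m)
      (s := G.unᶜ) (t := closure F.un) G.isOpen.isClosed_compl isClosed_closure
      (disjoint_left.2 fun x hx hx' => hx (h hx'))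
    exact ⟨f, contMDiff_iff_contDiff.1 f.contMDiff, fun x => hf x, fun _ =>
      ⟨fun x hx => hf1 (subset_closure hx), fun x hx => hf0 hx⟩⟩
  · exact ⟨fun _ => 0, contDiff_const, fun x => ⟨le_refl _, zero_le_one⟩, fun h' => absurd h' h⟩

theorem exists_psi (m : ℕ) : ∃ ψ : ℕ → E m → ℝ, (∀ j, ContDiff ℝ ∞ (ψ j)) ∧
    (∀ j x, 0 ≤ ψ j x ∧ ψ j x ≤ 1) ∧
    ∀ A B : Set (E m), IsClosed A → IsCompact B → Disjoint A B →
      ∃ j, (∀ x ∈ A, ∀ᶠ y in 𝓝 x, ψ j y = 0) ∧ (∀ x ∈ B, ∀ᶠ y in 𝓝 x, ψ j y = 1) := by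
  choose ψ h1 h2 h3 using exists_cut (m := m)
  have : Countable (TopologicalSpace.countableBasis (E m)) :=
    (TopologicalSpace.countable_countableBasis (E m)).to_subtype
  obtain ⟨e, he⟩ := exists_surjective_nat (FB m × FB m)
  refine ⟨fun j => ψ (e j).1 (e j).2, fun j => h1 _ _, fun j => h2 _ _, ?_⟩
  intro A B hA hB hAB
  obtain ⟨K, hK, hBK, hKA⟩ := exists_compact_between hB hA.isOpen_compl
    (fun x hx hx' => hAB.le_bot ⟨hx', hx⟩)
  obtain ⟨F, hF1, hF2⟩ := exists_FB hB isOpen_interior hBK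
  have hFc : IsCompact (closure F.un) :=
    hK.of_isClosed_subset isClosed_closure (hF2.trans interior_subset)
  obtain ⟨G, hG1, hG2⟩ := exists_FB hFc hA.isOpen_compl
    (hF2.trans (interior_subset.trans hKA))
  obtain ⟨j, hj⟩ := he (F, G)
  refine ⟨j, ?_, ?_⟩
  · intro x hx
    have : (closure G.un)ᶜ ∈ 𝓝 x := isClosed_closure.isOpen_compl.mem_nhds fun h => hG2 h hx
    filter_upwards [this] with y hy
    simp only [hj]
    exact (h3 F G hG1).2 y fun h => hy (subset_closure h)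
  · intro x hx
    filter_upwards [F.isOpen.mem_nhds (hF1 hx)] with y hy
    simp only [hj]
    exact (h3 F G hG1).1 y hy

/-! ### dense families -/

/-- The class of maps. -/
def SS (m : ℕ) : Set (E m → E m) :=
  {f | ContDiffOn ℝ ∞ f (HS m) ∧ (∀ x ∉ HS m, f x = 0) ∧ BP f (HS m)}

/-- The compact half balls. -/
abbrev KB (m r : ℕ) := {x : E m // x ∈ HS m ∧ ‖x‖ ≤ r}

instance (m r : ℕ) : CompactSpace (KB m r) := by
  have h1 : {x : E m | x ∈ HS m ∧ ‖x‖ ≤ r} = HS m ∩ Metric.closedBall 0 r := by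
    ext x; simp
  have h2 : IsCompact {x : E m | x ∈ HS m ∧ ‖x‖ ≤ r} := by
    rw [h1]
    exact (isCompact_closedBall (0 : E m) r).inter_left isClosed_HS
  exact isCompact_iff_compactSpace.1 h2

/-- The `1`-jet. -/
noncomputable def jet (r : ℕ) (f : SS m) : C(KB m r, E m × (E m →L[ℝ] E m)) where
  toFun x := (f.1 x.1, fderivWithin ℝ f.1 (HS m) x.1)
  continuous_toFun := by
    have h1 : Continuous fun x : KB m r => f.1 x.1 :=
      f.2.1.continuousOn.comp_continuous continuous_subtype_val fun x => x.2.1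
    have h2 : ContinuousOn (fderivWithin ℝ f.1 (HS m)) (HS m) :=
      f.2.1.continuousOn_fderivWithin uniqueDiffOn_HS (by simp)
    have h3 : Continuous fun x : KB m r => fderivWithin ℝ f.1 (HS m) x.1 :=
      h2.comp_continuous continuous_subtype_val fun x => x.2.1
    exact h1.prodMk h3

theorem exists_dense (m r : ℕ) : ∃ P : ℕ → SS m, ∀ f : SS m, ∀ δ : ℝ, 0 < δ →
    ∃ n, ∀ x ∈ HS m, ‖x‖ ≤ r → ‖(P n).1 x - f.1 x‖ < δ ∧
      ‖fderivWithin ℝ (P n).1 (HS m) x - fderivWithin ℝ f.1 (HS m) x‖ < δ := by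
  have : Nonempty (SS m) := by
    classical
    refine ⟨⟨(HS m).indicator id, ?_, fun x hx => indicator_of_notMem hx _, ?_⟩⟩
    · exact contDiffOn_id.congr fun x hx => indicator_of_mem hx _
    · intro x hx
      rw [indicator_of_mem hx]
      exact ⟨hx, Iff.rfl⟩
  obtain ⟨s, hs, hd⟩ := TopologicalSpace.exists_countable_dense (range (jet (m := m) r))
  have hsn : s.Nonempty := hd.nonempty
  obtain ⟨e, he⟩ := hs.exists_eq_range hsn
  have h1 : ∀ n, ∃ g : SS m, jet r g = (e n).1 := fun n => (e n).2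
  choose P hP using h1
  refine ⟨P, fun f δ hδ => ?_⟩
  obtain ⟨g, hg, hgf⟩ := hd.exists_dist_lt (⟨jet r f, f, rfl⟩ : range (jet (m := m) r)) hδ
  rw [he] at hg
  obtain ⟨n, rfl⟩ := hg
  refine ⟨n, fun x hx hxr => ?_⟩
  have h2 : dist (jet r f) (e n).1 < δ := hgf
  rw [← hP n] at h2
  have h3 := (ContinuousMap.dist_apply_le_dist (f := jet r f) (g := jet r (P n)) ⟨x, hx, hxr⟩).trans_lt h2
  rw [Prod.dist_eq, max_lt_iff] at h3
  rw [dist_comm, dist_eq_norm, dist_comm, dist_eq_norm] at h3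
  exact h3

/-! ### closure -/

/-- Terms. -/
inductive TT
  | base (r n : ℕ)
  | comp (a b : TT)
  | ip (j : ℕ) (a b : TT)
  deriving DecidableEq, Countable

variable (ψ : ℕ → E m → ℝ) (P : ℕ → ℕ → SS m)

/-- Values. -/
noncomputable def TT.ev : TT → E m → E m
  | .base r n => (P r n).1
  | .comp a b => (HS m).indicator fun x => a.ev (b.ev x)
  | .ip j a b => (HS m).indicator fun x => (1 - ψ j x) • a.ev x + ψ j x • b.ev x

theorem TT.ev_mem (h1 : ∀ j, ContDiff ℝ ∞ (ψ j)) (h2 : ∀ j x, 0 ≤ ψ j x ∧ ψ j x ≤ 1) (T : TT) :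
    T.ev ψ P ∈ SS m := by
  induction T with
  | base r n => exact (P r n).2
  | comp a b iha ihb =>
    refine ⟨?_, fun x hx => indicator_of_notMem hx _, ?_⟩
    · refine ContDiffOn.congr (f := fun x => a.ev ψ P (b.ev ψ P x)) ?_
        fun x hx => indicator_of_mem hx _
      exact iha.1.comp ihb.1 fun x hx => (ihb.2.2 x hx).1
    · intro x hx
      simp only [TT.ev]
      rw [indicator_of_mem hx]
      have h3 := ihb.2.2 x hx
      have h4 := iha.2.2 _ h3.1
      exact ⟨h4.1, h4.2.trans h3.2⟩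
  | ip j a b iha ihb =>
    refine ⟨?_, fun x hx => indicator_of_notMem hx _, ?_⟩
    · refine ContDiffOn.congr (f := fun x => (1 - ψ j x) • a.ev ψ P x + ψ j x • b.ev ψ P x) ?_
        fun x hx => indicator_of_mem hx _
      exact ((contDiff_const.sub (h1 j)).contDiffOn.smul iha.1).add
        ((h1 j).contDiffOn.smul ihb.1)
    · intro x hx
      simp only [TT.ev]
      rw [indicator_of_mem hx]
      have h3 := ihb.2.2 x hx
      have h4 := iha.2.2 x hx
      obtain ⟨h5, h6⟩ := h2 j x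
      have h7 : 0 ≤ a.ev ψ P x (Fin.last (m + 1)) := h4.1
      have h8 : 0 ≤ b.ev ψ P x (Fin.last (m + 1)) := h3.1
      refine ⟨?_, ?_⟩
      · exact convex_HS h4.1 h3.1 (by linarith) h5 (by ring)
      · simp only [Pi.add_apply, Pi.smul_apply, smul_eq_mul]
        constructor
        · intro h
          by_contra h9
          have h10 : 0 < a.ev ψ P x (Fin.last (m + 1)) :=
            lt_of_le_of_ne h7 fun h => h9 (h4.2.1 h.symm)
          have h11 : 0 < b.ev ψ P x (Fin.last (m + 1)) :=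
            lt_of_le_of_ne h8 fun h => h9 (h3.2.1 h.symm)
          rcases h5.eq_or_lt with h12 | h12
          · rw [← h12] at h; simp at h; linarith
          · have : 0 < ψ j x * b.ev ψ P x (Fin.last (m + 1)) := mul_pos h12 h11
            have : 0 ≤ (1 - ψ j x) * a.ev ψ P x (Fin.last (m + 1)) :=
              mul_nonneg (by linarith) h7
            linarith
        · intro h
          rw [h4.2.2 h, h3.2.2 h]; simp

end QFamEx

open QFamEx in
theorem exists_QFam (m : ℕ) : Nonempty (QFam m) := by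
  obtain ⟨ψ, h1, h2, h3⟩ := exists_psi m
  choose P hP using exists_dense m
  have : Nonempty TT := ⟨.base 0 0⟩
  obtain ⟨e, he⟩ := exists_surjective_nat TT
  have hev : ∀ T : TT, T.ev ψ P ∈ SS m := TT.ev_mem ψ P h1 h2
  refine ⟨⟨fun n => (e n).ev ψ P, ψ, fun n => (hev _).1, fun n => (hev _).2.1,
    fun n => (hev _).2.2, h1, h2, ?_, ?_, h3, ?_⟩⟩
  · intro a b
    obtain ⟨k, hk⟩ := he (.comp (e a) (e b))
    exact ⟨k, fun x hx => by rw [hk]; exact indicator_of_mem hx _⟩
  · intro j a b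
    obtain ⟨k, hk⟩ := he (.ip j (e a) (e b))
    exact ⟨k, fun x hx => by rw [hk]; exact indicator_of_mem hx _⟩
  · intro f hf hb r δ hδ
    obtain ⟨R, hR⟩ := exists_nat_ge r
    have hm : (HS m).indicator f ∈ SS m := by
      refine ⟨hf.congr fun x hx => indicator_of_mem hx _, fun x hx => indicator_of_notMem hx _, ?_⟩
      intro x hx
      rw [indicator_of_mem hx]
      exact hb x hx
    obtain ⟨n, hn⟩ := hP R ⟨_, hm⟩ δ hδ
    obtain ⟨k, hk⟩ := he (.base R n)
    refine ⟨k, fun x hx hxr => ?_⟩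
    rw [hk]
    have h4 := hn x hx (hxr.trans hR)
    have h5 : fderivWithin ℝ ((HS m).indicator f) (HS m) x = fderivWithin ℝ f (HS m) x :=
      fderivWithin_congr (fun y hy => indicator_of_mem hy _) (indicator_of_mem hx _)
    simp only [h5] at h4
    rw [indicator_of_mem hx] at h4
    exact h4

end Pool.Agent.Helper73.BR
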