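import Pool.Agent.BR.PartA
import Pool.Agent.BR.QFamEx
import Pool.Agent.BR.BisimC
import Pool.Agent.BR.MeasB3

/-!
# Project BR: the reduction
-/

open Set Filter Topology MeasureTheory
open scoped ContDiff

namespace Pool.Agent.Helper73.BR

theorem partB (m : ℕ) : ∃ F : ParC (HS m) → List ℕ → ℕ, Measurable F ∧
    (∀ p, LabOK (F p)) ∧ ∀ p q, Diffeo p.1 q.1 ↔ Bisim (F p) (F q) := by
  obtain ⟨Q⟩ := exists_QFam m
  refine ⟨lam Q, ?_, ?_, ?_⟩
  · exact measurable_pi_iff.2 fun t => measurable_lam Q t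
  · intro p t
    simp [lam]
  · intro p q
    exact ⟨bisim_of_diffeo Q p q, diffeo_of_bisim Q p q⟩

/-- Diffeomorphism of connected smooth manifolds with boundary Borel reduces to diffeomorphism of
connected smooth manifolds without boundary. -/
theorem boundary_reduction (m : ℕ) :
    BorelRed (fun p q : ParC (HS m) => Diffeo p.1 q.1)
      (fun p q : ParC (univ : Set (E m)) => Diffeo p.1 q.1) := by
  obtain ⟨F, hF, hF'⟩ := partA m
  obtain ⟨G, hG, hG1, hG2⟩ := partB m
  refine ⟨fun p => F (G p), hF.comp hG, ?_⟩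
  intro p q
  exact (hG2 p q).trans (hF' _ _ (hG1 p) (hG1 q))

end Pool.Agent.Helper73.BR
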