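import Pool.Agent.BR.ThinKK

open Set Filter Topology MeasureTheory
open scoped ContDiff

namespace Pool.Agent.Helper73.BR

variable {m : ℕ}

namespace MeasA

theorem meas_ch (P : (List ℕ → ℕ) → St → Prop) (h : ∀ s, MeasurableSet {a | P a s}) (s : St)
    (i : ℕ) : MeasurableSet {a | P a (chS a s i)} := by
  cases s with
  | A t =>
    by_cases hi : i % 2 = 0
    · simpa [chS, hi] using h (.A ((i / 2).unpair.1 :: t))
    · have h1 : {a | P a (chS a (.A t) i)} = ⋃ n : ℕ, ({a | a t = n} ∩ {a | P a (.R n)}) := by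
        ext a
        simp [chS, hi]
      rw [h1]
      refine MeasurableSet.iUnion fun n => MeasurableSet.inter ?_ (h _)
      exact measurableSet_eq_fun (measurable_pi_apply t) measurable_const
  | R n =>
    by_cases hi : i % 2 = 0
    · simpa [chS, hi] using h (.R n)
    · simpa [chS, hi] using h (.O n)
  | O k =>
    cases k with
    | zero => simpa [chS] using h .dead
    | succ k => simpa [chS] using h (.O k)
  | dead => simpa [chS] using h .dead

theorem disj_succ {σ : Type} (al : σ → Prop) (ch : σ → ℕ → σ) (d : ℕ) (s : σ) (D : Set (E m)) :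
    Disjoint D (Kn m al ch (d + 1) s) ↔
      (¬ al s ∨ (0 ∉ D ∧ ∀ i, Disjoint ((nu m i) ⁻¹' D) (Kn m al ch d (ch s i)))) := by
  constructor
  · intro h
    by_cases hs : al s
    · right
      refine ⟨fun h0 => Set.disjoint_left.mp h h0 ⟨hs, Or.inl rfl⟩, fun i => ?_⟩
      rw [Set.disjoint_left]
      intro y hy hy'
      exact Set.disjoint_left.mp h hy ⟨hs, Or.inr ⟨i, y, hy', rfl⟩⟩
    · exact Or.inl hs
  · rintro (h | ⟨h0, h1⟩)
    · rw [Set.disjoint_left]
      rintro x - ⟨hx, -⟩
      exact h hx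
    · rw [Set.disjoint_left]
      rintro x hxD ⟨hx, rfl | ⟨i, y, hy, rfl⟩⟩
      · exact h0 hxD
      · exact Set.disjoint_left.mp (h1 i) hxD hy

theorem meas_Kn (d : ℕ) : ∀ (s : St) (D : Set (E m)),
    MeasurableSet {a : List ℕ → ℕ | Disjoint D (Kn m (alS 0) (chS a) d s)} := by
  induction d with
  | zero =>
    intro s D
    exact MeasurableSet.const (Disjoint D {x : E m | alS 0 s ∧ ‖x‖ ≤ 1})
  | succ d ih =>
    intro s D
    have h1 : {a : List ℕ → ℕ | Disjoint D (Kn m (alS 0) (chS a) (d + 1) s)} =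
        {_a | ¬ alS 0 s} ∪ ({_a | (0 : E m) ∉ D} ∩
          ⋂ i, {a | Disjoint ((nu m i) ⁻¹' D) (Kn m (alS 0) (chS a) d (chS a s i))}) := by
      ext a
      simp [disj_succ]
    rw [h1]
    refine MeasurableSet.union (MeasurableSet.const _) (MeasurableSet.inter (MeasurableSet.const _) ?_)
    exact MeasurableSet.iInter fun i =>
      meas_ch (fun a s' => Disjoint ((nu m i) ⁻¹' D) (Kn m (alS 0) (chS a) d s'))
        (fun s' => ih s' _) s i

end MeasA

open MeasA in
theorem measurable_KT (D : Set (E m)) (hD : IsCompact D) :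
    MeasurableSet {a : List ℕ → ℕ | Disjoint D (KT m a)} := by
  have h1 : {a : List ℕ → ℕ | Disjoint D (KT m a)} =
      ⋃ d, {a | Disjoint D (Kn m (alS 0) (chS a) d (.A []))} := by
    ext a
    rw [Set.mem_iUnion]
    simp only [Set.mem_ofPred_eq]
    constructor
    · intro h
      have h2 : (D ∩ ⋂ d, Kn m (alS 0) (chS a) d (.A [])) = ∅ := by
        rw [← Set.disjoint_iff_inter_eq_empty, Set.disjoint_left]
        intro x hx hx'
        exact Set.disjoint_left.mp h hx (fun d => Set.mem_iInter.mp hx' d)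
      obtain ⟨d, hd⟩ := hD.elim_directed_family_closed
        (fun d => Kn m (alS 0) (chS a) d (.A [])) (fun d => isClosed_Kn d _) h2
        (directed_of_isDirected_le (fun i j hij => Kn_antitone _ hij))
      exact ⟨d, Set.disjoint_iff_inter_eq_empty.mpr hd⟩
    · rintro ⟨d, hd⟩
      exact hd.mono_right (fun x hx => hx d)
  rw [h1]
  exact MeasurableSet.iUnion fun d => meas_Kn d _ D

end Pool.Agent.Helper73.BR
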