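import Pool.Agent.BR.Ends
import Pool.Agent.Helper73.BR.DefsA

open Set Filter Topology MeasureTheory
open scoped ContDiff

namespace Pool.Agent.Helper73.BR

variable {m : ℕ}

namespace ThinConn

/-- a convex open set minus a closed totally disconnected subset of the first axis -/
theorem convex_diff {K : Set (E m)} (hax : ∀ x ∈ K, ∀ j, j ≠ 0 → x j = 0)
    (htd : IsTotallyDisconnected K) {B : Set (E m)} (hB : IsOpen B) (hc : Convex ℝ B) :
    IsPreconnected (B \ K) := by
  classical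
  by_cases hBK : (B ∩ K).Nonempty
  swap
  · have : B \ K = B := by
      ext x
      refine ⟨fun h => h.1, fun h => ⟨h, fun hk => hBK ⟨x, h, hk⟩⟩⟩
    rw [this]
    exact hc.isPreconnected
  obtain ⟨k, hkB, hkK⟩ := hBK
  have hk1 : k 1 = 0 := hax k hkK 1 (by simp)
  obtain ⟨ε, hε, hball⟩ := Metric.isOpen_iff.1 hB k hkB
  -- moving from `k` in the coordinate directions
  have hmove : ∀ (j : Fin (m + 2)) (t : ℝ), |t| < ε → k + t • Pi.single j (1 : ℝ) ∈ B := by
    intro j t ht
    apply hball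
    rw [Metric.mem_ball, dist_eq_norm, add_sub_cancel_left, norm_smul]
    have h1 : ‖(Pi.single j (1 : ℝ) : E m)‖ = 1 := by
      rw [Pi.norm_single]; simp
    rw [h1, mul_one]
    exact ht
  have hhalf : |ε / 2| < ε := by rw [abs_of_pos (by positivity)]; linarith
  have hhalf' : |-(ε / 2)| < ε := by rw [abs_neg]; exact hhalf
  set P : Set (E m) := B ∩ {x | 0 < x 1} with hP
  set N : Set (E m) := B ∩ {x | x 1 < 0} with hN
  set SP : Set (E m) := (B ∩ {x | 0 ≤ x 1}) \ K with hSP
  set SN : Set (E m) := (B ∩ {x | x 1 ≤ 0}) \ K with hSN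
  have hPne : P.Nonempty := ⟨_, hmove 1 (ε / 2) hhalf, by simp [hk1]; positivity⟩
  have hNne : N.Nonempty := ⟨_, hmove 1 (-(ε / 2)) hhalf', by simp [hk1]; positivity⟩
  have hPc : Convex ℝ P := hc.inter (convex_halfSpace_gt (LinearMap.proj 1 : E m →ₗ[ℝ] ℝ).isLinear 0)
  have hNc : Convex ℝ N := hc.inter (convex_halfSpace_lt (LinearMap.proj 1 : E m →ₗ[ℝ] ℝ).isLinear 0)
  have hseg : ∀ (y z : E m), Tendsto (fun t : ℝ => y + t • (z - y)) (𝓝[>] 0) (𝓝 y) := by
    intro y z
    have h1 : Tendsto (fun t : ℝ => y + t • (z - y)) (𝓝 0) (𝓝 (y + (0 : ℝ) • (z - y))) :=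
      (continuous_const.add (continuous_id.smul continuous_const)).tendsto 0
    rw [zero_smul, add_zero] at h1
    exact h1.mono_left nhdsWithin_le_nhds
  have hSPp : IsPreconnected SP := by
    refine hPc.isPreconnected.subset_closure ?_ ?_
    · rintro x ⟨hx, hx1⟩
      have hx2 : (0 : ℝ) < x 1 := hx1
      have hx3 : (0 : ℝ) ≤ x 1 := hx2.le
      refine ⟨⟨hx, hx3⟩, fun hk => ?_⟩
      have := hax x hk 1 (by simp)
      linarith
    · rintro y ⟨⟨hy, hy1⟩, -⟩
      obtain ⟨z, hz, hz1⟩ := hPne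
      refine mem_closure_of_tendsto (hseg y z) ?_
      filter_upwards [Ioc_mem_nhdsGT (zero_lt_one (α := ℝ))] with t ht
      refine ⟨?_, ?_⟩
      · have := hc hy hz (a := 1 - t) (b := t) (by linarith [ht.2]) ht.1.le (by ring)
        convert this using 1
        module
      · simp only [mem_ofPred_eq, Pi.add_apply, Pi.smul_apply, Pi.sub_apply, smul_eq_mul] at hy1 hz1 ⊢
        nlinarith [mul_pos ht.1 hz1, mul_nonneg (sub_nonneg.2 ht.2) hy1]
  have hSNp : IsPreconnected SN := by
    refine hNc.isPreconnected.subset_closure ?_ ?_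
    · rintro x ⟨hx, hx1⟩
      have hx2 : x 1 < (0 : ℝ) := hx1
      have hx3 : x 1 ≤ (0 : ℝ) := hx2.le
      refine ⟨⟨hx, hx3⟩, fun hk => ?_⟩
      have := hax x hk 1 (by simp)
      linarith
    · rintro y ⟨⟨hy, hy1⟩, -⟩
      obtain ⟨z, hz, hz1⟩ := hNne
      refine mem_closure_of_tendsto (hseg y z) ?_
      filter_upwards [Ioc_mem_nhdsGT (zero_lt_one (α := ℝ))] with t ht
      refine ⟨?_, ?_⟩
      · have := hc hy hz (a := 1 - t) (b := t) (by linarith [ht.2]) ht.1.le (by ring)
        convert this using 1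
        module
      · simp only [mem_ofPred_eq, Pi.add_apply, Pi.smul_apply, Pi.sub_apply, smul_eq_mul] at hy1 hz1 ⊢
        nlinarith [mul_pos ht.1 (neg_pos.2 hz1), mul_nonneg (sub_nonneg.2 ht.2) (neg_nonneg.2 hy1)]
  have hinter : (SP ∩ SN).Nonempty := by
    by_contra hne
    -- the segment through `k` in the direction of the axis would lie in `K`
    have hL : ∀ t : ℝ, |t| < ε → k + t • Pi.single (0 : Fin (m + 2)) (1 : ℝ) ∈ K := by
      intro t ht
      by_contra hk
      have h0 : (k + t • Pi.single (0 : Fin (m + 2)) (1 : ℝ) : E m) 1 = 0 := by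
        simp [hk1]
      exact hne ⟨_, ⟨⟨hmove 0 t ht, h0.ge⟩, hk⟩, ⟨⟨hmove 0 t ht, h0.le⟩, hk⟩⟩
    have hcont : Continuous (fun t : ℝ => (k + t • Pi.single (0 : Fin (m + 2)) (1 : ℝ) : E m)) := by
      fun_prop
    have himg : IsPreconnected ((fun t : ℝ => (k + t • Pi.single (0 : Fin (m + 2)) (1 : ℝ) : E m)) ''
        Ioo (-ε) ε) := isPreconnected_Ioo.image _ hcont.continuousOn
    have hsub := htd _ (by
      rintro _ ⟨t, ht, rfl⟩
      exact hL t (abs_lt.2 ht)) himg
    have h1 := hsub ⟨0, by constructor <;> linarith, rfl⟩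
      ⟨ε / 2, by constructor <;> linarith, rfl⟩
    have h2 := congrFun h1 0
    simp at h2
    linarith
  have hunion : B \ K = SP ∪ SN := by
    ext x
    simp only [hSP, hSN, Set.mem_sdiff, mem_inter_iff, mem_ofPred_eq, mem_union]
    constructor
    · rintro ⟨h1, h2⟩
      rcases le_total 0 (x 1) with h | h
      · exact Or.inl ⟨⟨h1, h⟩, h2⟩
      · exact Or.inr ⟨⟨h1, h⟩, h2⟩
    · rintro (⟨⟨h1, _⟩, h2⟩ | ⟨⟨h1, _⟩, h2⟩) <;> exact ⟨h1, h2⟩
  rw [hunion]
  obtain ⟨z, hz1, hz2⟩ := hinter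
  exact hSPp.union z hz1 hz2 hSNp

theorem isPreconnected_gt (R : ℝ) : IsPreconnected {x : E m | R < ‖x‖} := by
  rcases lt_or_ge R 0 with hR | hR
  · have : {x : E m | R < ‖x‖} = univ := by
      ext x
      simp only [mem_ofPred_eq, mem_univ, iff_true]
      exact hR.trans_le (norm_nonneg _)
    rw [this]
    exact isPreconnected_univ
  · have hrank : 1 < Module.rank ℝ (E m) := by
      rw [rank_fin_fun]
      exact_mod_cast (by omega : 1 < m + 2)
    have h1 : IsPreconnected (Ioi R ×ˢ Metric.sphere (0 : E m) 1) :=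
      isPreconnected_Ioi.prod (isPreconnected_sphere hrank 0 1)
    have h2 := h1.image (fun p : ℝ × E m => p.1 • p.2) (by fun_prop)
    convert h2 using 1
    ext x
    simp only [mem_ofPred_eq, mem_image, mem_prod, mem_Ioi, mem_sphere_iff_norm, sub_zero, Prod.exists]
    constructor
    · intro hx
      have hx0 : 0 < ‖x‖ := hR.trans_lt hx
      refine ⟨‖x‖, ‖x‖⁻¹ • x, ⟨hx, ?_⟩, ?_⟩
      · rw [norm_smul, norm_inv, norm_norm, inv_mul_cancel₀ hx0.ne']
      · rw [smul_smul, mul_inv_cancel₀ hx0.ne', one_smul]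
    · rintro ⟨t, u, ⟨ht, hu⟩, rfl⟩
      rw [norm_smul, hu, mul_one, Real.norm_of_nonneg (hR.trans ht.le)]
      exact ht

end ThinConn

open ThinConn

theorem thin_conn {K : Set (E m)} (hK : Thin K) :
    (∀ (x : E m) (r : ℝ), IsPreconnected (Metric.ball x r \ K)) ∧ IsConnected Kᶜ ∧ Dense Kᶜ ∧
      ∀ R : ℝ, IsPreconnected {x : E m | R < ‖x‖} := by
  obtain ⟨_, hb, hax, htd⟩ := hK
  refine ⟨fun x r => convex_diff hax htd Metric.isOpen_ball (convex_ball x r), ⟨?_, ?_⟩, ?_,
    isPreconnected_gt⟩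
  · refine ⟨Pi.single 1 (1 : ℝ), fun h => ?_⟩
    have := hax _ h 1 (by simp)
    simp at this
  · have := convex_diff hax htd isOpen_univ (convex_univ (𝕜 := ℝ))
    rwa [← compl_eq_univ_sdiff] at this
  · intro x
    by_cases hx : x ∈ K
    swap
    · exact subset_closure hx
    rw [Metric.mem_closure_iff]
    intro ε hε
    refine ⟨x + (ε / 2) • Pi.single 1 (1 : ℝ), fun h => ?_, ?_⟩
    · have h1 := hax _ h 1 (by simp)
      have h2 := hax _ hx 1 (by simp)
      simp [h2] at h1
      linarith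
    · rw [dist_eq_norm, sub_add_cancel_left, norm_neg, norm_smul]
      have h1 : ‖(Pi.single 1 (1 : ℝ) : E m)‖ = 1 := by
        rw [Pi.norm_single]; simp
      rw [h1, mul_one, Real.norm_of_nonneg (by positivity)]
      linarith

namespace ThinConn

/-- the compactified set -/
def TT (K : Set (E m)) : Set (OnePoint (E m)) :=
  ((↑) : E m → OnePoint (E m)) '' K ∪ {OnePoint.infty}

theorem coe_mem_TT {K : Set (E m)} {x : E m} : (x : OnePoint (E m)) ∈ TT K ↔ x ∈ K := by
  simp [TT]

theorem infty_mem_TT {K : Set (E m)} : OnePoint.infty ∈ TT K := by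
  simp [TT]

theorem not_mem_TT {K : Set (E m)} {s : OnePoint (E m)} (h : s ∉ TT K) :
    ∃ x : E m, x ∉ K ∧ (x : OnePoint (E m)) = s := by
  induction s using OnePoint.rec with
  | infty => exact absurd infty_mem_TT h
  | coe x => exact ⟨x, fun hx => h (coe_mem_TT.2 hx), rfl⟩

theorem compact_of_thin {K : Set (E m)} (hK : Thin K) : IsCompact K := by
  refine Metric.isCompact_of_isClosed_isBounded hK.1 ?_
  refine (Metric.isBounded_closedBall (x := (0 : E m)) (r := 1)).subset fun x hx => ?_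
  simpa using hK.2.1 x hx

theorem isClosed_image {K : Set (E m)} (hK : Thin K) :
    IsClosed (((↑) : E m → OnePoint (E m)) '' K) :=
  ((compact_of_thin hK).image OnePoint.continuous_coe).isClosed

theorem isClosed_TT {K : Set (E m)} (hK : Thin K) : IsClosed (TT K) :=
  (isClosed_image hK).union OnePoint.isClosed_infty

theorem td_TT {K : Set (E m)} (hK : Thin K) : IsTotallyDisconnected (TT K) := by
  intro t ht hp
  have h1 := (isPreconnected_iff_subset_of_disjoint_closed.1 hp) _ _ (isClosed_image hK)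
    OnePoint.isClosed_infty ht (by
      ext s
      simp only [mem_inter_iff, mem_image, mem_singleton_iff, mem_empty_iff_false, iff_false]
      rintro ⟨-, ⟨x, -, hx⟩, rfl⟩
      exact OnePoint.coe_ne_infty x hx)
  rcases h1 with h1 | h1
  · exact (OnePoint.isOpenEmbedding_coe.isEmbedding.isTotallyDisconnected_image.2 hK.2.2.2) t h1 hp
  · exact subsingleton_singleton.anti h1

theorem dense_TT {K : Set (E m)} (hK : Thin K) : Dense (TT K)ᶜ := by
  have hn : NoncompactSpace (E m) := NormedSpace.noncompactSpace ℝ (E m)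
  have h1 : Dense (((↑) : E m → OnePoint (E m)) '' Kᶜ) :=
    OnePoint.denseRange_coe.dense_image OnePoint.continuous_coe (thin_conn hK).2.2.1
  refine h1.mono ?_
  rintro _ ⟨x, hx, rfl⟩
  exact fun h => hx (coe_mem_TT.1 h)

theorem basis_TT {K : Set (E m)} (hK : Thin K) :
    ∀ x ∈ TT K, ∀ O ∈ 𝓝 x, ∃ B ∈ 𝓝 x, B ⊆ O ∧ IsPreconnected (B \ TT K) := by
  intro s hs O hO
  obtain ⟨hball, -, -, hgt⟩ := thin_conn hK
  induction s using OnePoint.rec with
  | infty =>
    obtain ⟨C, ⟨hC1, hC2⟩, hC3⟩ := OnePoint.hasBasis_nhds_infty.mem_iff.1 hO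
    obtain ⟨R, hR⟩ := hC2.isBounded.subset_closedBall (0 : E m)
    set R' := max R 1 with hR'
    refine ⟨((↑) : E m → OnePoint (E m)) '' (Metric.closedBall 0 R')ᶜ ∪ {OnePoint.infty}, ?_, ?_, ?_⟩
    · exact OnePoint.hasBasis_nhds_infty.mem_of_mem
        ⟨Metric.isClosed_closedBall, isCompact_closedBall _ _⟩
    · refine Subset.trans ?_ hC3
      refine union_subset_union_left _ (image_mono (compl_subset_compl.2 ?_))
      exact hR.trans (Metric.closedBall_subset_closedBall (le_max_left _ _))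
    · have h1 : (((↑) : E m → OnePoint (E m)) '' (Metric.closedBall 0 R')ᶜ ∪ {OnePoint.infty}) \ TT K
          = ((↑) : E m → OnePoint (E m)) '' {x | R' < ‖x‖} := by
        ext s
        simp only [Set.mem_sdiff, mem_union, mem_image, mem_compl_iff, Metric.mem_closedBall,
          dist_zero_right, not_le, mem_singleton_iff, mem_ofPred_eq]
        constructor
        · rintro ⟨⟨x, hx, rfl⟩ | rfl, h2⟩
          · exact ⟨x, hx, rfl⟩
          · exact absurd infty_mem_TT h2
        · rintro ⟨x, hx, rfl⟩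
          refine ⟨Or.inl ⟨x, hx, rfl⟩, fun h => ?_⟩
          have := hK.2.1 x (coe_mem_TT.1 h)
          have h3 : (1 : ℝ) ≤ R' := le_max_right _ _
          linarith
      rw [h1]
      exact (hgt R').image _ OnePoint.continuous_coe.continuousOn
  | coe x =>
    have h1 : ((↑) : E m → OnePoint (E m)) ⁻¹' O ∈ 𝓝 x :=
      OnePoint.continuous_coe.continuousAt.preimage_mem_nhds hO
    obtain ⟨r, hr, hrO⟩ := Metric.mem_nhds_iff.1 h1
    refine ⟨((↑) : E m → OnePoint (E m)) '' Metric.ball x r, ?_, ?_, ?_⟩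
    · rw [OnePoint.nhds_coe_eq]
      exact image_mem_map (Metric.ball_mem_nhds x hr)
    · rintro _ ⟨y, hy, rfl⟩
      exact hrO hy
    · have h2 : (((↑) : E m → OnePoint (E m)) '' Metric.ball x r) \ TT K
          = ((↑) : E m → OnePoint (E m)) '' (Metric.ball x r \ K) := by
        ext s
        constructor
        · rintro ⟨⟨y, hy, rfl⟩, h3⟩
          exact ⟨y, ⟨hy, fun h => h3 (coe_mem_TT.2 h)⟩, rfl⟩
        · rintro ⟨y, ⟨hy, h3⟩, rfl⟩
          exact ⟨⟨y, hy, rfl⟩, fun h => h3 (coe_mem_TT.1 h)⟩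
      rw [h2]
      exact (hball x r).image _ OnePoint.continuous_coe.continuousOn

theorem contOn {K : Set (E m)} (hK : Thin K) {f : E m → E m} (hf : ContDiffOn ℝ ∞ f Kᶜ) :
    ContinuousOn (OnePoint.map f) (TT K)ᶜ := by
  intro s hs
  obtain ⟨x, hx, rfl⟩ := not_mem_TT hs
  refine ContinuousAt.continuousWithinAt ?_
  rw [OnePoint.continuousAt_coe]
  have h1 : ContinuousAt f x := hf.continuousOn.continuousAt (hK.1.isOpen_compl.mem_nhds hx)
  exact OnePoint.continuous_coe.continuousAt.comp h1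

end ThinConn

theorem onepoint_ext {K K' : Set (E m)} (hK : Thin K) (hK' : Thin K') (h : DiffOpen Kᶜ K'ᶜ) :
    ∃ H : OnePoint (E m) ≃ₜ OnePoint (E m),
      H '' (((↑) : E m → OnePoint (E m)) '' K ∪ {OnePoint.infty}) =
        ((↑) : E m → OnePoint (E m)) '' K' ∪ {OnePoint.infty} := by
  obtain ⟨f, g, hf, hg, hfm, hgm, hgf, hfg⟩ := h
  obtain ⟨H, -, hH⟩ := ends_ext (TT K) (TT K') (isClosed_TT hK) (isClosed_TT hK') (td_TT hK)
    (td_TT hK') (dense_TT hK) (dense_TT hK') (basis_TT hK) (basis_TT hK')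
    (OnePoint.map f) (OnePoint.map g) (contOn hK hf) (contOn hK' hg)
    (by
      intro s hs
      obtain ⟨x, hx, rfl⟩ := not_mem_TT hs
      rw [OnePoint.map_some]
      exact fun h => hfm hx (coe_mem_TT.1 h))
    (by
      intro s hs
      obtain ⟨x, hx, rfl⟩ := not_mem_TT hs
      rw [OnePoint.map_some]
      exact fun h => hgm hx (coe_mem_TT.1 h))
    (by
      intro s hs
      obtain ⟨x, hx, rfl⟩ := not_mem_TT hs
      rw [OnePoint.map_some, OnePoint.map_some, hgf x hx])
    (by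
      intro s hs
      obtain ⟨x, hx, rfl⟩ := not_mem_TT hs
      rw [OnePoint.map_some, OnePoint.map_some, hfg x hx])
  exact ⟨H, hH⟩

end Pool.Agent.Helper73.BR
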