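import Pool.Agent.Helper73.BR.DefsA

/-!
MP_70674c_lc, Q2, project BR, module ThinKK: the compact sets `KK`.
-/

open Set Filter Topology MeasureTheory
open scoped ContDiff

namespace Pool.Agent.Helper73.BR

variable {m : ℕ}

namespace ThinKK

theorem pow_pos' (i : ℕ) : (0 : ℝ) < (1 / 8 : ℝ) ^ i := by positivity

theorem pow_le (i : ℕ) : (1 / 8 : ℝ) ^ i ≤ 1 := pow_le_one₀ (by norm_num) (by norm_num)

theorem pow_lt {i j : ℕ} (h : i < j) : (1 / 8 : ℝ) ^ j ≤ (1 / 8 : ℝ) ^ i / 8 := by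
  have h1 : (1 / 8 : ℝ) ^ j ≤ (1 / 8 : ℝ) ^ (i + 1) :=
    pow_le_pow_of_le_one (by norm_num) (by norm_num) h
  rw [pow_succ] at h1
  linarith

theorem nu_zero_coord (i : ℕ) (y : E m) :
    nu m i y 0 = (1 / 8 : ℝ) ^ i / 2 + (1 / 8 : ℝ) ^ i / 8 * y 0 := by
  simp [nu]

theorem nu_coord (i : ℕ) (y : E m) {j : Fin (m + 2)} (hj : j ≠ 0) :
    nu m i y j = (1 / 8 : ℝ) ^ i / 8 * y j := by
  simp [nu, hj]

/-- the inverse of `nu` -/
noncomputable def nuInv (m : ℕ) (i : ℕ) (x : E m) : E m :=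
  fun j => (x j - (if j = 0 then (1 / 8 : ℝ) ^ i / 2 else 0)) / ((1 / 8 : ℝ) ^ i / 8)

theorem nu_nuInv (i : ℕ) (x : E m) : nu m i (nuInv m i x) = x := by
  funext j
  have h : ((1 / 8 : ℝ) ^ i / 8) ≠ 0 := by positivity
  simp only [nu, nuInv]
  rw [mul_div_cancel₀ _ h]
  ring

theorem nuInv_nu (i : ℕ) (y : E m) : nuInv m i (nu m i y) = y := by
  funext j
  have h : ((1 / 8 : ℝ) ^ i / 8) ≠ 0 := by positivity
  simp only [nu, nuInv]
  rw [div_eq_iff h]
  ring

theorem continuous_nu (i : ℕ) : Continuous (nu m i) := by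
  unfold nu
  fun_prop

theorem continuous_nuInv (i : ℕ) : Continuous (nuInv m i) := by
  unfold nuInv
  fun_prop

/-- `nu` as a homeomorphism -/
noncomputable def nuH (m : ℕ) (i : ℕ) : E m ≃ₜ E m where
  toFun := nu m i
  invFun := nuInv m i
  left_inv := nuInv_nu i
  right_inv := nu_nuInv i
  continuous_toFun := continuous_nu i
  continuous_invFun := continuous_nuInv i

theorem nuH_apply (i : ℕ) (y : E m) : nuH m i y = nu m i y := rfl

theorem nu_sub (i : ℕ) (x y : E m) :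
    nu m i x - nu m i y = ((1 / 8 : ℝ) ^ i / 8) • (x - y) := by
  funext j
  simp only [nu, Pi.sub_apply, Pi.smul_apply, smul_eq_mul]
  ring

theorem norm_nu_sub (i : ℕ) (x y : E m) :
    ‖nu m i x - nu m i y‖ = (1 / 8 : ℝ) ^ i / 8 * ‖x - y‖ := by
  rw [nu_sub, norm_smul, Real.norm_of_nonneg (by positivity)]

theorem dist_nu (i : ℕ) (x y : E m) :
    dist (nu m i x) (nu m i y) = (1 / 8 : ℝ) ^ i / 8 * dist x y := by
  rw [dist_eq_norm, dist_eq_norm, norm_nu_sub]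

theorem coord_le {y : E m} {r : ℝ} (h : ‖y‖ ≤ r) (j : Fin (m + 2)) : -r ≤ y j ∧ y j ≤ r := by
  have h1 : ‖y j‖ ≤ r := (norm_le_pi_norm y j).trans h
  rw [Real.norm_eq_abs] at h1
  exact abs_le.1 h1

/-- bounds for the first coordinate of the points of the balls -/
theorem nu_zero_bounds {i : ℕ} {y : E m} (h : ‖y‖ ≤ 5 / 4) :
    (1 / 8 : ℝ) ^ i * (11 / 32) ≤ nu m i y 0 ∧ nu m i y 0 ≤ (1 / 8 : ℝ) ^ i * (21 / 32) := by
  obtain ⟨h1, h2⟩ := coord_le h 0
  have hp := pow_pos' i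
  rw [nu_zero_coord]
  constructor <;> nlinarith

theorem nu_zero_bounds' {i : ℕ} {y : E m} (h : ‖y‖ ≤ 1) :
    (1 / 8 : ℝ) ^ i * (3 / 8) ≤ nu m i y 0 ∧ nu m i y 0 ≤ (1 / 8 : ℝ) ^ i * (5 / 8) := by
  obtain ⟨h1, h2⟩ := coord_le h 0
  have hp := pow_pos' i
  rw [nu_zero_coord]
  constructor <;> nlinarith

theorem nu_ne_zero {i : ℕ} {y : E m} (h : ‖y‖ ≤ 5 / 4) : nu m i y ≠ 0 := by
  intro h0
  have h1 := (nu_zero_bounds (i := i) h).1
  rw [h0] at h1
  have hp := pow_pos' i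
  simp only [Pi.zero_apply] at h1
  nlinarith

end ThinKK

open ThinKK

theorem nu_inj (i : ℕ) : Function.Injective (nu m i) := (nuH m i).injective

theorem nu_disjoint {i j : ℕ} {y z : E m} (hij : i ≠ j) (hy : ‖y‖ ≤ 5 / 4) (hz : ‖z‖ ≤ 5 / 4) :
    nu m i y ≠ nu m j z := by
  have key : ∀ (i j : ℕ) (y z : E m), i < j → ‖y‖ ≤ 5 / 4 → ‖z‖ ≤ 5 / 4 →
      nu m i y ≠ nu m j z := by
    intro i j y z hij hy hz h
    have h1 := (nu_zero_bounds (i := i) hy).1
    have h2 := (nu_zero_bounds (i := j) hz).2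
    have h3 := pow_lt hij
    have hp := pow_pos' i
    rw [h] at h1
    nlinarith
  rcases lt_or_gt_of_ne hij with h | h
  · exact key i j y z h hy hz
  · exact fun h' => key j i z y h hz hy h'.symm

theorem norm_nu_lt {i : ℕ} {y : E m} (hy : ‖y‖ ≤ 5 / 4) :
    ‖nu m i y‖ < 3 / 4 * (1 / 8 : ℝ) ^ i := by
  have hp := pow_pos' i
  rw [pi_norm_lt_iff (by positivity)]
  intro j
  rw [Real.norm_eq_abs, abs_lt]
  by_cases hj : j = 0
  · subst hj
    have := nu_zero_bounds (i := i) hy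
    constructor <;> nlinarith
  · rw [nu_coord i y hj]
    obtain ⟨h1, h2⟩ := coord_le hy j
    constructor <;> nlinarith

section
variable {σ : Type} {al : σ → Prop} {ch : σ → ℕ → σ}

theorem norm_nu_le_one {i : ℕ} {y : E m} (hy : ‖y‖ ≤ 5 / 4) : ‖nu m i y‖ ≤ 1 := by
  have h1 := norm_nu_lt (i := i) hy
  have h2 := pow_le i
  linarith

theorem Kn_zero_iff {s : σ} {x : E m} : x ∈ Kn m al ch 0 s ↔ al s ∧ ‖x‖ ≤ 1 := Iff.rfl

theorem Kn_succ_iff {d : ℕ} {s : σ} {x : E m} : x ∈ Kn m al ch (d + 1) s ↔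
    al s ∧ (x = 0 ∨ ∃ i, ∃ y ∈ Kn m al ch d (ch s i), x = nu m i y) := Iff.rfl

theorem Kn_al {d : ℕ} {s : σ} {x : E m} (h : x ∈ Kn m al ch d s) : al s := by
  cases d with
  | zero => exact h.1
  | succ d => exact h.1

theorem Kn_norm {d : ℕ} {s : σ} {x : E m} (h : x ∈ Kn m al ch d s) : ‖x‖ ≤ 1 := by
  induction d generalizing s x with
  | zero => exact h.2
  | succ d ih =>
    rcases h.2 with h0 | ⟨i, y, hy, rfl⟩
    · rw [h0]; simp
    · exact norm_nu_le_one ((ih hy).trans (by norm_num))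

theorem Kn_succ_subset (d : ℕ) (s : σ) : Kn m al ch (d + 1) s ⊆ Kn m al ch d s := by
  induction d generalizing s with
  | zero => exact fun x h => ⟨h.1, Kn_norm h⟩
  | succ d ih =>
    rintro x ⟨h1, h0 | ⟨i, y, hy, rfl⟩⟩
    · exact ⟨h1, Or.inl h0⟩
    · exact ⟨h1, Or.inr ⟨i, y, ih _ hy, rfl⟩⟩

theorem Kn_antitone (s : σ) : Antitone (fun d => Kn m al ch d s) :=
  antitone_nat_of_succ_le (fun d => Kn_succ_subset d s)

theorem Kn_anti {d e : ℕ} (h : d ≤ e) (s : σ) : Kn m al ch e s ⊆ Kn m al ch d s :=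
  Kn_antitone s h

theorem zero_mem_Kn {d : ℕ} {s : σ} (h : al s) : (0 : E m) ∈ Kn m al ch d s := by
  cases d with
  | zero => exact ⟨h, by simp⟩
  | succ d => exact ⟨h, Or.inl rfl⟩

theorem nu_mem_Kn {d : ℕ} {s : σ} {i : ℕ} {y : E m} (h : al s) (hy : y ∈ Kn m al ch d (ch s i)) :
    nu m i y ∈ Kn m al ch (d + 1) s := ⟨h, Or.inr ⟨i, y, hy, rfl⟩⟩

/-- locality of the approximations -/
theorem Kn_local {d : ℕ} {s : σ} {i : ℕ} {y : E m} (hy : ‖y‖ ≤ 5 / 4) :
    nu m i y ∈ Kn m al ch (d + 1) s ↔ al s ∧ y ∈ Kn m al ch d (ch s i) := by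
  constructor
  · rintro ⟨h1, h0 | ⟨j, z, hz, h⟩⟩
    · exact absurd h0 (nu_ne_zero hy)
    · refine ⟨h1, ?_⟩
      by_cases hij : i = j
      · subst hij
        rwa [nu_inj i h]
      · exact absurd h (nu_disjoint hij hy ((Kn_norm hz).trans (by norm_num)))
  · rintro ⟨h1, h2⟩
    exact nu_mem_Kn h1 h2

theorem ThinKK.closed_union (A : ℕ → Set (E m)) (hA : ∀ i, IsClosed (A i))
    (hb : ∀ i, ∀ y ∈ A i, ‖y‖ ≤ (1 / 8 : ℝ) ^ i) :
    IsClosed {x : E m | x = 0 ∨ ∃ i, x ∈ A i} := by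
  rw [← isOpen_compl_iff, isOpen_iff_mem_nhds]
  intro x hx
  have hx1 : x ≠ 0 := fun h => hx (Or.inl h)
  have hx2 : ∀ i, x ∉ A i := fun i h => hx (Or.inr ⟨i, h⟩)
  have hpos : 0 < ‖x‖ / 2 := by have := norm_pos_iff.2 hx1; linarith
  obtain ⟨N, hN⟩ := exists_pow_lt_of_lt_one hpos (by norm_num : (1 / 8 : ℝ) < 1)
  have hc : IsClosed (⋃ i ∈ Finset.range N, A i) :=
    isClosed_biUnion_finset (fun i _ => hA i)
  have h1 : (⋃ i ∈ Finset.range N, A i)ᶜ ∈ 𝓝 x := by
    refine hc.isOpen_compl.mem_nhds ?_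
    simp only [mem_compl_iff, mem_iUnion, not_exists]
    exact fun i _ => hx2 i
  have h2 : {y : E m | ‖x‖ / 2 < ‖y‖} ∈ 𝓝 x :=
    (isOpen_lt continuous_const continuous_norm).mem_nhds (by
      show ‖x‖ / 2 < ‖x‖
      linarith)
  filter_upwards [h1, h2] with y hy1 hy2
  rintro (h0 | ⟨i, hi⟩)
  · rw [h0, norm_zero] at hy2
    linarith
  · by_cases hiN : i < N
    · exact hy1 (mem_iUnion₂.2 ⟨i, Finset.mem_range.2 hiN, hi⟩)
    · have h3 := hb i y hi
      have h4 : (1 / 8 : ℝ) ^ i ≤ (1 / 8 : ℝ) ^ N :=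
        pow_le_pow_of_le_one (by norm_num) (by norm_num) (not_lt.1 hiN)
      linarith

theorem isClosed_Kn (d : ℕ) (s : σ) : IsClosed (Kn m al ch d s) := by
  induction d generalizing s with
  | zero =>
    by_cases hs : al s
    · have : Kn m al ch 0 s = {x | ‖x‖ ≤ 1} := by
        ext x; simp [Kn, hs]
      rw [this]
      exact isClosed_le continuous_norm continuous_const
    · have : Kn m al ch 0 s = ∅ := by
        ext x; simp [Kn, hs]
      rw [this]
      exact isClosed_empty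
  | succ d ih =>
    by_cases hs : al s
    · have : Kn m al ch (d + 1) s =
          {x | x = 0 ∨ ∃ i, x ∈ nu m i '' Kn m al ch d (ch s i)} := by
        ext x
        rw [Kn_succ_iff]
        constructor
        · rintro ⟨_, h0 | ⟨i, y, hy, rfl⟩⟩
          · exact Or.inl h0
          · exact Or.inr ⟨i, y, hy, rfl⟩
        · rintro (h0 | ⟨i, y, hy, rfl⟩)
          · exact ⟨hs, Or.inl h0⟩
          · exact ⟨hs, Or.inr ⟨i, y, hy, rfl⟩⟩
      rw [this]
      refine closed_union _ (fun i => (nuH m i).isClosedMap _ (ih _)) ?_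
      rintro i _ ⟨y, hy, rfl⟩
      have h1 := norm_nu_lt (i := i) ((Kn_norm hy).trans (by norm_num : (1 : ℝ) ≤ 5 / 4))
      have h2 := pow_pos' i
      linarith
    · have : Kn m al ch (d + 1) s = ∅ := by
        ext x; simp [Kn, hs]
      rw [this]
      exact isClosed_empty

theorem isCompact_Kn (d : ℕ) (s : σ) : IsCompact (Kn m al ch d s) := by
  refine (isCompact_closedBall (0 : E m) 1).of_isClosed_subset (isClosed_Kn d s) ?_
  intro x hx
  rw [mem_closedBall_zero_iff]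
  exact Kn_norm hx

theorem mem_KK {s : σ} {x : E m} : x ∈ KK m al ch s ↔ ∀ d, x ∈ Kn m al ch d s := Iff.rfl

theorem KK_subset_Kn (d : ℕ) (s : σ) : KK m al ch s ⊆ Kn m al ch d s := fun _ h => h d

theorem KK_eq_iInter (s : σ) : KK m al ch s = ⋂ d, Kn m al ch d s := by
  ext x; simp [KK]

theorem KK_al {s : σ} {x : E m} (h : x ∈ KK m al ch s) : al s := (h 0).1

theorem KK_norm {s : σ} {x : E m} (h : x ∈ KK m al ch s) : ‖x‖ ≤ 1 := (h 0).2

theorem zero_mem_KK {s : σ} (h : al s) : (0 : E m) ∈ KK m al ch s := fun _ => zero_mem_Kn h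

theorem isClosed_KK (s : σ) : IsClosed (KK m al ch s) := by
  rw [KK_eq_iInter]
  exact isClosed_iInter (fun d => isClosed_Kn d s)

theorem isCompact_KK (s : σ) : IsCompact (KK m al ch s) := by
  refine (isCompact_closedBall (0 : E m) 1).of_isClosed_subset (isClosed_KK s) ?_
  intro x hx
  rw [mem_closedBall_zero_iff]
  exact KK_norm hx

theorem KK_local_le {s : σ} {i : ℕ} {y : E m} (hy : ‖y‖ ≤ 5 / 4) :
    nu m i y ∈ KK m al ch s ↔ al s ∧ y ∈ KK m al ch (ch s i) := by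
  constructor
  · intro h
    refine ⟨KK_al h, fun d => ?_⟩
    exact ((Kn_local hy).1 (h (d + 1))).2
  · rintro ⟨h1, h2⟩ d
    cases d with
    | zero => exact ⟨h1, norm_nu_le_one hy⟩
    | succ d => exact nu_mem_Kn h1 (h2 d)

theorem KK_local {s : σ} {i : ℕ} {y : E m} (hy : ‖y‖ < 5 / 4) :
    nu m i y ∈ KK m al ch s ↔ al s ∧ y ∈ KK m al ch (ch s i) := KK_local_le hy.le

theorem mem_KK_iff {s : σ} {x : E m} : x ∈ KK m al ch s ↔
    al s ∧ (x = 0 ∨ ∃ i, ∃ y ∈ KK m al ch (ch s i), x = nu m i y) := by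
  constructor
  · intro h
    refine ⟨KK_al h, ?_⟩
    rcases (h 1).2 with h0 | ⟨i, y, hy, rfl⟩
    · exact Or.inl h0
    · exact Or.inr ⟨i, y, ((KK_local_le ((Kn_norm hy).trans (by norm_num))).1 h).2, rfl⟩
  · rintro ⟨h1, rfl | ⟨i, y, hy, rfl⟩⟩
    · exact zero_mem_KK h1
    · exact (KK_local_le ((KK_norm hy).trans (by norm_num))).2 ⟨h1, hy⟩

theorem KK_eq_empty {s : σ} (h : ¬ al s) : KK m al ch s = ∅ := by
  ext x
  simp only [mem_empty_iff_false, iff_false]
  exact fun hx => h (KK_al hx)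

theorem nu_mem_KK {s : σ} {i : ℕ} {y : E m} (h : al s) (hy : y ∈ KK m al ch (ch s i)) :
    nu m i y ∈ KK m al ch s := mem_KK_iff.2 ⟨h, Or.inr ⟨i, y, hy, rfl⟩⟩

theorem Kn_axis {d : ℕ} {s : σ} {x : E m} (h : x ∈ Kn m al ch d s) {j : Fin (m + 2)}
    (hj : j ≠ 0) : |x j| ≤ (1 / 8 : ℝ) ^ d := by
  induction d generalizing s x with
  | zero =>
    rw [pow_zero]
    exact (norm_le_pi_norm x j).trans h.2
  | succ d ih =>
    rcases h.2 with h0 | ⟨i, y, hy, rfl⟩
    · rw [h0]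
      simp
    · rw [nu_coord i y hj, abs_mul, abs_of_pos (by positivity), pow_succ]
      have h1 := ih hy
      have h2 := pow_le i
      have h3 := pow_pos' i
      have h4 := abs_nonneg (y j)
      nlinarith

theorem KK_axis {s : σ} {x : E m} (h : x ∈ KK m al ch s) {j : Fin (m + 2)}
    (hj : j ≠ 0) : x j = 0 := by
  have h1 : ∀ d : ℕ, |x j| ≤ (1 / 8 : ℝ) ^ d := fun d => Kn_axis (h d) hj
  have h2 : Tendsto (fun d : ℕ => (1 / 8 : ℝ) ^ d) atTop (𝓝 0) :=
    tendsto_pow_atTop_nhds_zero_of_lt_one (by norm_num) (by norm_num)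
  have h3 : |x j| ≤ 0 := ge_of_tendsto' h2 h1
  exact abs_nonpos_iff.1 h3

/-- the first coordinate of a point of `KK` near the `i`-th ball -/
theorem ThinKK.slab {s : σ} {x : E m} (h : x ∈ KK m al ch s) {i : ℕ} :
    x 0 ≠ (1 / 8 : ℝ) ^ i / 3 ∧ x 0 ≠ (1 / 8 : ℝ) ^ i * (2 / 3) := by
  have hp := pow_pos' i
  rcases (mem_KK_iff.1 h).2 with h0 | ⟨j, y, hy, rfl⟩
  · rw [h0]
    simp only [Pi.zero_apply]
    constructor <;> intro h' <;> linarith
  · obtain ⟨h1, h2⟩ := nu_zero_bounds' (i := j) (KK_norm hy)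
    have hq := pow_pos' j
    rcases lt_trichotomy i j with hij | rfl | hij
    · have h3 := pow_lt hij
      constructor <;> intro h' <;> nlinarith
    · constructor <;> intro h' <;> nlinarith
    · have h3 := pow_lt hij
      constructor <;> intro h' <;> nlinarith

theorem ThinKK.in_slab {s : σ} {x : E m} (h : x ∈ KK m al ch s) {i : ℕ}
    (h1 : (1 / 8 : ℝ) ^ i / 3 < x 0) (h2 : x 0 < (1 / 8 : ℝ) ^ i * (2 / 3)) :
    ∃ y ∈ KK m al ch (ch s i), x = nu m i y := by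
  have hp := pow_pos' i
  rcases (mem_KK_iff.1 h).2 with h0 | ⟨j, y, hy, rfl⟩
  · rw [h0] at h1
    simp only [Pi.zero_apply] at h1
    linarith
  · obtain ⟨h3, h4⟩ := nu_zero_bounds' (i := j) (KK_norm hy)
    have hq := pow_pos' j
    rcases lt_trichotomy i j with hij | rfl | hij
    · have h3 := pow_lt hij
      nlinarith
    · exact ⟨y, hy, rfl⟩
    · have h3 := pow_lt hij
      nlinarith

theorem ThinKK.diam (d : ℕ) (s : σ) (C : Set (E m)) (hC : C ⊆ KK m al ch s)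
    (hp : IsPreconnected C) (x y : E m) (hx : x ∈ C) (hy : y ∈ C) :
    ‖x - y‖ ≤ 2 * (1 / 8 : ℝ) ^ d := by
  induction d generalizing s C x y with
  | zero =>
    have h1 := norm_sub_le x y
    have h2 := KK_norm (hC hx)
    have h3 := KK_norm (hC hy)
    rw [pow_zero]
    linarith
  | succ d ih =>
    by_cases h0 : ∃ z ∈ C, z ≠ 0
    · obtain ⟨z, hz, hz0⟩ := h0
      rcases (mem_KK_iff.1 (hC hz)).2 with h | ⟨i, z', hz', rfl⟩
      · exact absurd h hz0
      · have hpi := pow_pos' i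
        have hb := nu_zero_bounds' (i := i) (KK_norm hz')
        have hcont : Continuous (fun w : E m => w 0) := continuous_apply 0
        have himg : IsPreconnected ((fun w : E m => w 0) '' C) := hp.image _ hcont.continuousOn
        have hord : OrdConnected ((fun w : E m => w 0) '' C) := himg.ordConnected
        have hin : ∀ w ∈ C, (1 / 8 : ℝ) ^ i / 3 < w 0 ∧ w 0 < (1 / 8 : ℝ) ^ i * (2 / 3) := by
          intro w hw
          constructor
          · by_contra hcon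
            have hmem := hord.out ⟨w, hw, rfl⟩ ⟨nu m i z', hz, rfl⟩
              (show (1 / 8 : ℝ) ^ i / 3 ∈ Icc (w 0) (nu m i z' 0) from
                ⟨not_lt.1 hcon, by nlinarith [hb.1]⟩)
            obtain ⟨v, hv, hv0⟩ := hmem
            exact (slab (hC hv) (i := i)).1 hv0
          · by_contra hcon
            have hmem := hord.out ⟨nu m i z', hz, rfl⟩ ⟨w, hw, rfl⟩
              (show (1 / 8 : ℝ) ^ i * (2 / 3) ∈ Icc (nu m i z' 0) (w 0) from
                ⟨by nlinarith [hb.2], not_lt.1 hcon⟩)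
            obtain ⟨v, hv, hv0⟩ := hmem
            exact (slab (hC hv) (i := i)).2 hv0
        obtain ⟨x', hx', rfl⟩ := in_slab (hC hx) (hin x hx).1 (hin x hx).2
        obtain ⟨y', hy', rfl⟩ := in_slab (hC hy) (hin y hy).1 (hin y hy).2
        have hC' : nuInv m i '' C ⊆ KK m al ch (ch s i) := by
          rintro _ ⟨w, hw, rfl⟩
          obtain ⟨w', hw', rfl⟩ := in_slab (hC hw) (hin w hw).1 (hin w hw).2
          rwa [nuInv_nu]
        have h := ih (ch s i) (nuInv m i '' C) hC'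
          (hp.image _ (continuous_nuInv i).continuousOn) x' y'
          ⟨_, hx, nuInv_nu i x'⟩ ⟨_, hy, nuInv_nu i y'⟩
        rw [norm_nu_sub, pow_succ]
        have h4 := pow_le i
        have h5 := norm_nonneg (x' - y')
        nlinarith
    · have h1 : ∀ z ∈ C, z = 0 := by
        intro z hz
        by_contra h
        exact h0 ⟨z, hz, h⟩
      rw [h1 x hx, h1 y hy, sub_self, norm_zero]
      positivity

theorem isTotallyDisconnected_KK (s : σ) : IsTotallyDisconnected (KK m al ch s) := by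
  intro C hC hp x hx y hy
  have h1 : ∀ d : ℕ, ‖x - y‖ ≤ 2 * (1 / 8 : ℝ) ^ d := fun d => diam d s C hC hp x y hx hy
  have h2 : Tendsto (fun d : ℕ => 2 * (1 / 8 : ℝ) ^ d) atTop (𝓝 (2 * 0)) :=
    (tendsto_pow_atTop_nhds_zero_of_lt_one (by norm_num) (by norm_num)).const_mul 2
  rw [mul_zero] at h2
  have h3 : ‖x - y‖ ≤ 0 := ge_of_tendsto' h2 h1
  exact sub_eq_zero.1 (norm_le_zero_iff.1 h3)

end

theorem thin_KK {σ : Type} (al : σ → Prop) (ch : σ → ℕ → σ) (s : σ) : Thin (KK m al ch s) :=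
  ⟨isClosed_KK s, fun _ h => KK_norm h, fun _ h _ hj => KK_axis h hj, isTotallyDisconnected_KK s⟩

end Pool.Agent.Helper73.BR
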