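import Pool.Agent.BR.Single
import Pool.Agent.BR.ThinKK
import Pool.Agent.BR.ThinConn
import Pool.Agent.BR.BisimA
import Pool.Agent.BR.BisimB
import Pool.Agent.BR.MeasA

/-!
# Project BR, part A: labelled trees up to bisimulation reduce to manifolds without boundary
-/

open Set Filter Topology MeasureTheory
open scoped ContDiff

namespace Pool.Agent.Helper73.BR

variable {m : ℕ}

theorem measurable_toPar {α : Type} [MeasurableSpace α] {X : Set (E m)} {f : α → Par X}
    (h1 : ∀ k l (D : RBox m), MeasurableSet {a | D.on X ⊆ (f a).U k l})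
    (h2 : ∀ k l (x : Fin (m + 2) → ℚ), Measurable (fun a => (f a).φ k l (fun i => (x i : ℝ)))) :
    Measurable f := by
  rw [measurable_iff_comap_le]
  simp only [instMeasurableSpacePar, MeasurableSpace.comap_sup, MeasurableSpace.comap_iSup,
    MeasurableSpace.comap_comp]
  refine sup_le ?_ ?_
  · refine iSup_le fun k => iSup_le fun l => iSup_le fun D => ?_
    rw [← measurable_iff_comap_le]
    exact measurableSet_setOfPred.1 (h1 k l D)
  · refine iSup_le fun k => iSup_le fun l => iSup_le fun x => ?_
    rw [← measurable_iff_comap_le]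
    exact h2 k l x

theorem isCompact_box (D : RBox m) : IsCompact (D.on (univ : Set (E m))) := by
  have : D.on (univ : Set (E m)) = Icc (fun i => (D.1 i : ℝ)) (fun i => (D.2 i : ℝ)) := by
    ext x
    constructor
    · rintro ⟨-, h⟩
      exact ⟨fun i => (h i).1, fun i => (h i).2⟩
    · rintro ⟨h1, h2⟩
      exact ⟨mem_univ _, fun i => ⟨h1 i, h2 i⟩⟩
  rw [this]
  exact isCompact_Icc

theorem partA (m : ℕ) : ∃ F : (List ℕ → ℕ) → ParC (univ : Set (E m)), Measurable F ∧
    ∀ a b, LabOK a → LabOK b → (Bisim a b ↔ Diffeo (F a).1 (F b).1) := by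
  obtain ⟨P, hP1, hP2, hP3, hP4⟩ := exists_single m
  have hthin : ∀ a : List ℕ → ℕ, Thin (KT m a) := fun a => thin_KK _ _ _
  let G : (List ℕ → ℕ) → {G : Set (E m) // IsOpen G} :=
    fun a => ⟨(KT m a)ᶜ, (hthin a).1.isOpen_compl⟩
  refine ⟨fun a => ⟨P (G a), hP3 _ (thin_conn (hthin a)).2.1⟩, ?_, ?_⟩
  · apply Measurable.subtype_mk
    apply measurable_toPar
    · intro k l D
      by_cases h : k = 0 ∧ l = 0
      · obtain ⟨rfl, rfl⟩ := h
        have h1 := measurable_KT (m := m) _ (isCompact_box D)
        have h2 : {a : List ℕ → ℕ | D.on univ ⊆ (P (G a)).U 0 0} =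
            {a : List ℕ → ℕ | Disjoint (D.on univ) (KT m a)} := by
          ext a
          show D.on univ ⊆ (P (G a)).U 0 0 ↔ Disjoint (D.on univ) (KT m a)
          rw [show (P (G a)).U 0 0 = (KT m a)ᶜ from hP1 (G a)]
          exact ⟨fun h => disjoint_left.2 h, fun h => disjoint_left.1 h⟩
        rw [h2]
        exact h1
      · have h' : k ≠ 0 ∨ l ≠ 0 := by tauto
        simp only [hP2 _ k l h']
        exact MeasurableSet.const _
    · intro k l x
      by_cases h : k = 0 ∧ l = 0
      · obtain ⟨rfl, rfl⟩ := h
        have hm : MeasurableSet {a : List ℕ → ℕ | (fun i => (x i : ℝ)) ∈ KT m a} := by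
          have h1 := (measurable_KT (m := m) {(fun i => (x i : ℝ))} isCompact_singleton).compl
          have h2 : {a : List ℕ → ℕ | (fun i => (x i : ℝ)) ∈ KT m a} =
              {a : List ℕ → ℕ | Disjoint {(fun i => (x i : ℝ))} (KT m a)}ᶜ := by
            ext a
            constructor
            · intro h hd
              exact disjoint_singleton_left.1 hd h
            · intro h
              by_contra hx
              exact h (disjoint_singleton_left.2 hx)
          rw [h2]
          exact h1
        classical
        have h3 : (fun a => (P (G a)).φ 0 0 (fun i => (x i : ℝ))) =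
            fun a => if (fun i => (x i : ℝ)) ∈ KT m a then 0 else (fun i => (x i : ℝ)) := by
          funext a
          split_ifs with hx
          · apply (P (G a)).off
            rw [show (P (G a)).U 0 0 = (KT m a)ᶜ from hP1 (G a)]
            exact fun h => h hx
          · apply (P (G a)).diag
            rw [show (P (G a)).U 0 0 = (KT m a)ᶜ from hP1 (G a)]
            exact hx
        rw [h3]
        exact Measurable.ite hm measurable_const measurable_const
      · have h' : k ≠ 0 ∨ l ≠ 0 := by tauto
        have h3 : (fun a => (P (G a)).φ k l (fun i => (x i : ℝ))) = fun _ => 0 := by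
          funext a
          apply (P (G a)).off
          rw [hP2 _ k l h']
          exact fun h => h
        rw [h3]
        exact measurable_const
  · intro a b ha hb
    rw [hP4]
    constructor
    · exact fun h => diffOpen_of_bisim a b h
    · intro h
      obtain ⟨H, hH⟩ := onepoint_ext (hthin a) (hthin b) h
      exact bisim_of_homeo a b ha hb H hH

end Pool.Agent.Helper73.BR
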