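import Pool.Agent.Helper73.BR.DefsA

open Set Filter Topology MeasureTheory
open scoped ContDiff

namespace Pool.Agent.Helper73.BR

namespace PermFactor

/-- Two exhaustions by finite sets with equal cardinalities are exchanged by a permutation. -/
theorem exists_perm (s t : ℕ → Finset ℕ) (hs : Monotone s) (ht : Monotone t)
    (hc : ∀ j, (s j).card = (t j).card) (hsu : ∀ i, ∃ j, i ∈ s j) (htu : ∀ i, ∃ j, i ∈ t j) :
    ∃ α : Equiv.Perm ℕ, ∀ i j, i ∈ s j ↔ α i ∈ t j := by
  classical
  have key : ∀ (u : ℕ → Finset ℕ) (hu : Monotone u) (huu : ∀ i, ∃ j, i ∈ u j) (i j : ℕ),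
      Nat.find (huu i) ≤ j ↔ i ∈ u j := by
    intro u hu huu i j
    constructor
    · intro h
      exact hu h (Nat.find_spec (huu i))
    · intro h
      exact Nat.find_min' _ h
  have fib0 : ∀ (u : ℕ → Finset ℕ) (hu : Monotone u) (huu : ∀ i, ∃ j, i ∈ u j) (i : ℕ),
      Nat.find (huu i) = 0 ↔ i ∈ u 0 := by
    intro u hu huu i
    rw [← key u hu huu, Nat.le_zero]
  have fib1 : ∀ (u : ℕ → Finset ℕ) (hu : Monotone u) (huu : ∀ i, ∃ j, i ∈ u j) (i j : ℕ),
      Nat.find (huu i) = j + 1 ↔ i ∈ u (j + 1) \ u j := by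
    intro u hu huu i j
    rw [Finset.mem_sdiff, ← key u hu huu, ← key u hu huu]
    omega
  have hcard : ∀ j, (s (j + 1) \ s j).card = (t (j + 1) \ t j).card := by
    intro j
    rw [Finset.card_sdiff_of_subset (hs (Nat.le_succ j)), Finset.card_sdiff_of_subset (ht (Nat.le_succ j)),
      hc, hc]
  let e : ∀ j, {i // Nat.find (hsu i) = j} ≃ {i // Nat.find (htu i) = j} := fun j =>
    match j with
    | 0 => (Equiv.subtypeEquivRight (fib0 s hs hsu)).trans
        ((Finset.equivOfCardEq (hc 0)).trans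
          (Equiv.subtypeEquivRight (fib0 t ht htu)).symm)
    | j + 1 => (Equiv.subtypeEquivRight (fun i => fib1 s hs hsu i j)).trans
        ((Finset.equivOfCardEq (hcard j)).trans
          (Equiv.subtypeEquivRight (fun i => fib1 t ht htu i j)).symm)
  refine ⟨Equiv.ofFiberEquiv (f := fun i => Nat.find (hsu i)) (g := fun i => Nat.find (htu i)) e,
    fun i j => ?_⟩
  have h1 := Equiv.ofFiberEquiv_map (f := fun i => Nat.find (hsu i))
    (g := fun i => Nat.find (htu i)) e i
  rw [← key s hs hsu, ← key t ht htu, h1]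

/-- A bound for the values below `n`. -/
def bd (π : Equiv.Perm ℕ) (n : ℕ) : ℕ :=
  n + 1 + ∑ i ∈ Finset.range n, (π i + π.symm i + 1)

theorem lt_bd (π : Equiv.Perm ℕ) (n : ℕ) : n < bd π n := by
  unfold bd; omega

theorem bd_spec (π : Equiv.Perm ℕ) (n i : ℕ) (h : i < n) :
    π i < bd π n ∧ π.symm i < bd π n := by
  have h1 := Finset.single_le_sum (f := fun i => π i + π.symm i + 1)
    (fun _ _ => Nat.zero_le _) (Finset.mem_range.mpr h)
  unfold bd
  constructor <;> omega

/-- The sequence of cuts. -/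
def cut (π : Equiv.Perm ℕ) : ℕ → ℕ
  | 0 => 0
  | k + 1 => bd π (cut π k)

theorem cut_strictMono (π : Equiv.Perm ℕ) : StrictMono (cut π) :=
  strictMono_nat_of_lt_succ fun k => lt_bd π (cut π k)

theorem cut_spec (π : Equiv.Perm ℕ) (k i : ℕ) (h : i < cut π k) :
    π i < cut π (k + 1) ∧ π.symm i < cut π (k + 1) :=
  bd_spec π _ i h

/-- The exhaustion of the source. -/
def src (π : Equiv.Perm ℕ) (j : ℕ) : Finset ℕ :=
  if Even j then Finset.range (cut π j) else (Finset.range (cut π j)).map π.symm.toEmbedding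

theorem mem_src_even (π : Equiv.Perm ℕ) (j i : ℕ) (h : Even j) :
    i ∈ src π j ↔ i < cut π j := by
  simp [src, h]

theorem mem_src_odd (π : Equiv.Perm ℕ) (j i : ℕ) (h : ¬ Even j) :
    i ∈ src π j ↔ π i < cut π j := by
  simp only [src, h, if_false, Finset.mem_map, Finset.mem_range, Equiv.coe_toEmbedding]
  constructor
  · rintro ⟨a, ha, rfl⟩
    simpa using ha
  · intro h
    exact ⟨π i, h, by simp⟩

theorem src_mono (π : Equiv.Perm ℕ) : Monotone (src π) := by
  refine monotone_nat_of_le_succ fun j i hi => ?_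
  by_cases h : Even j
  · have h' : ¬ Even (j + 1) := by rw [Nat.even_add_one]; simpa using h
    rw [mem_src_even π j i h] at hi
    rw [mem_src_odd π _ i h']
    exact (cut_spec π j i hi).1
  · have h' : Even (j + 1) := by rw [Nat.even_add_one]; exact h
    rw [mem_src_odd π j i h] at hi
    rw [mem_src_even π _ i h']
    simpa using (cut_spec π j (π i) hi).2

end PermFactor

open PermFactor in
theorem perm_factor (π : Equiv.Perm ℕ) :
    ∃ α β : Equiv.Perm ℕ, BlockFin α ∧ BlockFin β ∧ ∀ i, π i = β (α i) := by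
  have hub : ∀ i, ∃ j, i < cut π (2 * j) := fun i =>
    ⟨i + 1, lt_of_lt_of_le (by omega) ((cut_strictMono π).le_apply)⟩
  obtain ⟨α, hα⟩ := exists_perm (src π) (fun j => Finset.range (cut π j)) (src_mono π)
    (fun a b h => Finset.range_mono ((cut_strictMono π).monotone h))
    (fun j => by
      unfold src
      split_ifs <;> simp)
    (fun i => by
      obtain ⟨j, hj⟩ := hub i
      exact ⟨2 * j, (mem_src_even π _ i (even_two_mul j)).mpr hj⟩)
    (fun i => by
      obtain ⟨j, hj⟩ := hub i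
      exact ⟨2 * j, Finset.mem_range.mpr hj⟩)
  simp only [Finset.mem_range] at hα
  refine ⟨α, α.symm.trans π, ?_, ?_, fun i => by simp⟩
  · intro M
    refine ⟨cut π (2 * (M + 1)), lt_of_lt_of_le (by omega) ((cut_strictMono π).le_apply), fun i => ?_⟩
    rw [← hα i, mem_src_even π _ i (even_two_mul _)]
  · intro M
    refine ⟨cut π (2 * M + 1), lt_of_lt_of_le (by omega) ((cut_strictMono π).le_apply), fun i => ?_⟩
    have h1 := hα (α.symm i) (2 * M + 1)
    rw [mem_src_odd π _ _ (by simp)] at h1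
    simp only [Equiv.apply_symm_apply] at h1
    simpa using h1.symm

end Pool.Agent.Helper73.BR
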