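import Pool.Agent.Helper73.BR.DefsA

/-!
# Module A1a (Swap): diffeomorphisms moving balls
-/

open Set Filter Topology MeasureTheory
open scoped ContDiff Manifold NNReal

namespace Pool.Agent.Helper73.BR

variable {m : ℕ}

namespace Swap

/-- `x ↦ x + v x` is a diffeomorphism if `v` is smooth and `1/2`-Lipschitz. -/
theorem diffeo_of_lip (v : E m → E m) (hv : ContDiff ℝ ∞ v) (hL : LipschitzWith (1 / 2 : ℝ≥0) v) :
    ∃ F G : E m → E m, ContDiff ℝ ∞ F ∧ ContDiff ℝ ∞ G ∧ (∀ x, G (F x) = x) ∧ (∀ x, F (G x) = x) ∧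
      ∀ x, F x = x + v x := by
  set f : E m → E m := fun x => x + v x with hf
  have hfc : ContDiff ℝ ∞ f := contDiff_id.add hv
  have happ : ApproximatesLinearOn f
      ((ContinuousLinearEquiv.refl ℝ (E m) : E m ≃L[ℝ] E m) : E m →L[ℝ] E m) univ (1 / 2 : ℝ≥0) := by
    intro x _ y _
    have h1 := hL.dist_le_mul x y
    rw [dist_eq_norm, dist_eq_norm] at h1
    have h2 : f x - f y - ((ContinuousLinearEquiv.refl ℝ (E m) : E m ≃L[ℝ] E m) : E m →L[ℝ] E m)
        (x - y) = v x - v y := by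
      simp only [hf, ContinuousLinearEquiv.coe_refl, ContinuousLinearMap.coe_id', id_eq]
      abel
    rw [h2]
    exact h1
  have hN : ‖((ContinuousLinearEquiv.refl ℝ (E m)).symm : E m →L[ℝ] E m)‖₊ = 1 := by
    have : ((ContinuousLinearEquiv.refl ℝ (E m)).symm : E m →L[ℝ] E m) =
      ContinuousLinearMap.id ℝ (E m) := rfl
    rw [this]
    ext
    simp
  have hc : (1 / 2 : ℝ≥0) < ‖((ContinuousLinearEquiv.refl ℝ (E m)).symm : E m →L[ℝ] E m)‖₊⁻¹ := by
    rw [hN, inv_one]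
    exact NNReal.coe_lt_coe.mp (by norm_num)
  let Φ : E m ≃ₜ E m := happ.toHomeomorph f (Or.inr hc)
  have hΦ : ∀ x, Φ x = f x := fun x => rfl
  have hder : ∀ a : E m, ∃ e : E m ≃L[ℝ] E m, HasFDerivAt f (e : E m →L[ℝ] E m) a := by
    intro a
    have h1 : ‖-(fderiv ℝ v a)‖ < 1 := by
      rw [norm_neg]
      have := norm_fderiv_le_of_lipschitz ℝ hL (x₀ := a)
      refine lt_of_le_of_lt this ?_
      norm_num
    let u := Units.oneSub (-(fderiv ℝ v a)) h1
    refine ⟨ContinuousLinearEquiv.ofUnit u, ?_⟩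
    have h2 : ((ContinuousLinearEquiv.ofUnit u : E m ≃L[ℝ] E m) : E m →L[ℝ] E m) =
        ContinuousLinearMap.id ℝ (E m) + fderiv ℝ v a := by
      ext x i
      simp [u, ContinuousLinearEquiv.ofUnit, Units.oneSub]
    rw [h2]
    exact (hasFDerivAt_id a).add ((hv.differentiable (by simp)) a).hasFDerivAt
  choose e he using hder
  refine ⟨Φ, Φ.symm, hfc, ?_, fun x => Φ.symm_apply_apply x, fun x => Φ.apply_symm_apply x,
    fun x => rfl⟩
  exact Homeomorph.contDiff_symm Φ (f₀' := e) (fun a => he a) hfc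

/-- A compactly supported smooth vector field equal to `a + b • y` on the ball of radius `5/4`. -/
theorem exists_field (a : E m) (b : ℝ) (e : ℝ) (he : 0 < e) :
    ∃ w : E m → E m, ContDiff ℝ ∞ w ∧ (∃ K : ℝ≥0, LipschitzWith K w) ∧
      (∀ y, ‖y‖ ≤ 5 / 4 → w y = a + b • y) ∧ ∀ y, 5 / 4 + e ≤ ‖y‖ → w y = 0 := by
  have hs : IsClosed {y : E m | 5 / 4 + e ≤ ‖y‖} := isClosed_le continuous_const continuous_norm
  have ht : IsClosed {y : E m | ‖y‖ ≤ 5 / 4} := isClosed_le continuous_norm continuous_const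
  have hd : Disjoint {y : E m | 5 / 4 + e ≤ ‖y‖} {y : E m | ‖y‖ ≤ 5 / 4} := by
    rw [Set.disjoint_left]
    intro y h1 h2
    simp only [mem_ofPred_eq] at h1 h2
    linarith
  obtain ⟨χ, h0, h1, -⟩ := exists_contMDiffMap_zero_one_of_isClosed (n := ⊤) 𝓘(ℝ, E m) hs ht hd
  have hχ : ContDiff ℝ ∞ (fun y => χ y) := by
    rw [← contMDiff_iff_contDiff]
    exact χ.contMDiff
  have hw : ContDiff ℝ ∞ (fun y : E m => χ y • (a + b • y)) :=
    hχ.smul (contDiff_const.add (contDiff_id.const_smul b))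
  have hcs : HasCompactSupport (fun y : E m => χ y • (a + b • y)) := by
    refine HasCompactSupport.of_support_subset_isCompact
      (isCompact_closedBall (0 : E m) (5 / 4 + e)) ?_
    intro y hy
    rw [mem_closedBall_zero_iff]
    by_contra hlt
    rw [not_le] at hlt
    apply hy
    have : χ y = 0 := h0 (show y ∈ {y : E m | 5 / 4 + e ≤ ‖y‖} from hlt.le)
    simp [this]
  refine ⟨fun y => χ y • (a + b • y), hw, ?_, ?_, ?_⟩
  · exact hw.lipschitzWith_of_hasCompactSupport hcs (by simp)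
  · intro y hy
    have : χ y = 1 := h1 (show y ∈ {y : E m | ‖y‖ ≤ 5 / 4} from hy)
    simp [this]
  · intro y hy
    have : χ y = 0 := h0 (show y ∈ {y : E m | 5 / 4 + e ≤ ‖y‖} from hy)
    simp [this]

/-- The relation realised by diffeomorphisms supported in `V`. -/
def Moves (V : Set (E m)) (c : E m) (r : ℝ) (c' : E m) (r' : ℝ) : Prop :=
  ∃ F G : E m → E m, ContDiff ℝ ∞ F ∧ ContDiff ℝ ∞ G ∧ (∀ x, G (F x) = x) ∧ (∀ x, F (G x) = x) ∧
      (∀ x ∉ V, F x = x) ∧ ∀ y : E m, ‖y‖ < 5 / 4 → F (c + r • y) = c' + r' • y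

theorem Moves.refl (V : Set (E m)) (c : E m) (r : ℝ) : Moves V c r c r :=
  ⟨id, id, contDiff_id, contDiff_id, fun _ => rfl, fun _ => rfl, fun _ _ => rfl, fun _ _ => rfl⟩

theorem Moves.trans {V : Set (E m)} {c c' c'' : E m} {r r' r'' : ℝ} (h : Moves V c r c' r')
    (h' : Moves V c' r' c'' r'') : Moves V c r c'' r'' := by
  obtain ⟨F, G, hF, hG, h1, h2, h3, h4⟩ := h
  obtain ⟨F', G', hF', hG', h1', h2', h3', h4'⟩ := h'
  refine ⟨F' ∘ F, G ∘ G', hF'.comp hF, hG.comp hG', fun x => ?_, fun x => ?_, fun x hx => ?_,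
    fun y hy => ?_⟩
  · simp only [Function.comp_apply]; rw [h1', h1]
  · simp only [Function.comp_apply]; rw [h2, h2']
  · simp only [Function.comp_apply]; rw [h3 x hx, h3' x hx]
  · simp only [Function.comp_apply]; rw [h4 y hy, h4' y hy]

/-- A compact set in an open set: enlarge the ball. -/
theorem exists_enlarge (V : Set (E m)) (hV : IsOpen V) (c : E m) (r : ℝ) (hr : 0 < r)
    (h : Metric.closedBall c (5 / 4 * r) ⊆ V) :
    ∃ e : ℝ, 0 < e ∧ Metric.closedBall c ((5 / 4 + e) * r) ⊆ V := by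
  obtain ⟨δ, hδ, hs⟩ := (isCompact_closedBall c (5 / 4 * r)).exists_cthickening_subset_open hV h
  refine ⟨δ / r, by positivity, ?_⟩
  refine subset_trans ?_ hs
  rw [cthickening_closedBall hδ.le (by positivity)]
  apply Metric.closedBall_subset_closedBall
  have : (5 / 4 + δ / r) * r = 5 / 4 * r + δ := by field_simp
  rw [this, add_comm]

/-- Small steps. -/
theorem moves_small (V : Set (E m)) (c c' : E m) (r r' : ℝ) (e : ℝ) (he : 0 < e)
    (hball : ∀ t ∈ Icc (0 : ℝ) 1, ∀ y : E m, ‖y‖ ≤ 5 / 4 + e →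
      (c + t • (c' - c)) + (r + t * (r' - r)) • y ∈ V)
    (ρ : ℝ) (hρ : 0 < ρ) (hrρ : ∀ t ∈ Icc (0 : ℝ) 1, ρ ≤ r + t * (r' - r)) :
    ∃ η > 0, ∀ s ∈ Icc (0 : ℝ) 1, ∀ t ∈ Icc (0 : ℝ) 1, |t - s| ≤ η →
      Moves V (c + s • (c' - c)) (r + s * (r' - r)) (c + t • (c' - c)) (r + t * (r' - r)) := by
  obtain ⟨w, hw, ⟨K, hK⟩, h1, h0⟩ := exists_field (c' - c) (r' - r) e he
  refine ⟨ρ / (2 * (K + 1)), by positivity, ?_⟩
  intro s hs t ht hst
  set cs : E m := c + s • (c' - c) with hcs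
  set rs : ℝ := r + s * (r' - r) with hrs
  have hrs0 : 0 < rs := lt_of_lt_of_le hρ (hrρ s hs)
  set v : E m → E m := fun x => (t - s) • w (rs⁻¹ • (x - cs)) with hvdef
  have hv : ContDiff ℝ ∞ v := by
    exact (hw.comp ((contDiff_id.sub contDiff_const).const_smul rs⁻¹)).const_smul (t - s)
  have hL : LipschitzWith (1 / 2 : ℝ≥0) v := by
    apply LipschitzWith.of_dist_le_mul
    intro x y
    have h2 := hK.dist_le_mul (rs⁻¹ • (x - cs)) (rs⁻¹ • (y - cs))
    rw [dist_eq_norm, dist_eq_norm] at h2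
    have h3 : rs⁻¹ • (x - cs) - rs⁻¹ • (y - cs) = rs⁻¹ • (x - y) := by
      rw [← smul_sub]; congr 1; abel
    rw [h3, norm_smul, Real.norm_eq_abs, abs_of_pos (inv_pos.mpr hrs0)] at h2
    rw [dist_eq_norm, dist_eq_norm]
    have h4 : v x - v y = (t - s) • (w (rs⁻¹ • (x - cs)) - w (rs⁻¹ • (y - cs))) := by
      simp only [hvdef, smul_sub]
    rw [h4, norm_smul, Real.norm_eq_abs]
    have h5 : rs⁻¹ ≤ ρ⁻¹ := inv_anti₀ hρ (hrρ s hs)
    calc |t - s| * ‖w (rs⁻¹ • (x - cs)) - w (rs⁻¹ • (y - cs))‖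
        ≤ (ρ / (2 * (K + 1))) * (K * (ρ⁻¹ * ‖x - y‖)) := by
          apply mul_le_mul hst _ (norm_nonneg _) (by positivity)
          refine h2.trans ?_
          gcongr
      _ = (K / (K + 1)) * (1 / 2) * ‖x - y‖ := by field_simp
      _ ≤ 1 * (1 / 2) * ‖x - y‖ := by
          gcongr
          rw [div_le_one (by positivity)]
          linarith
      _ = ((1 / 2 : ℝ≥0) : ℝ) * ‖x - y‖ := by push_cast; ring
  obtain ⟨F, G, hF, hG, hGF, hFG, hFx⟩ := diffeo_of_lip v hv hL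
  refine ⟨F, G, hF, hG, hGF, hFG, ?_, ?_⟩
  · intro x hx
    rw [hFx]
    have h2 : 5 / 4 + e ≤ ‖rs⁻¹ • (x - cs)‖ := by
      by_contra hlt
      rw [not_le] at hlt
      apply hx
      have := hball s hs _ hlt.le
      rw [← hcs, ← hrs, smul_smul, mul_inv_cancel₀ hrs0.ne', one_smul] at this
      simpa using this
    simp only [hvdef]
    rw [h0 _ h2]
    simp
  · intro y hy
    rw [hFx]
    simp only [hvdef]
    have h2 : rs⁻¹ • (cs + rs • y - cs) = y := by
      rw [add_sub_cancel_left, smul_smul, inv_mul_cancel₀ hrs0.ne', one_smul]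
    rw [h2, h1 y hy.le]
    ext i
    simp only [hcs, hrs, Pi.add_apply, Pi.smul_apply, Pi.sub_apply, smul_eq_mul]
    ring

theorem moves_nat (V : Set (E m)) (c c' : E m) (r r' : ℝ) (N : ℕ) (hN : 0 < N)
    (h : ∀ s ∈ Icc (0 : ℝ) 1, ∀ t ∈ Icc (0 : ℝ) 1, |t - s| ≤ 1 / N →
      Moves V (c + s • (c' - c)) (r + s * (r' - r)) (c + t • (c' - c)) (r + t * (r' - r))) :
    ∀ k : ℕ, k ≤ N → Moves V c r (c + ((k : ℝ) / N) • (c' - c)) (r + ((k : ℝ) / N) * (r' - r)) := by
  have hN' : (0 : ℝ) < N := by exact_mod_cast hN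
  intro k
  induction k with
  | zero =>
    intro _
    have := Moves.refl V c r
    simpa using this
  | succ k ih =>
    intro hk
    have hk' : (k : ℝ) + 1 ≤ N := by exact_mod_cast hk
    refine (ih (by omega)).trans (h _ ⟨by positivity, ?_⟩ _ ⟨by positivity, ?_⟩ ?_)
    · rw [div_le_one hN']; linarith
    · rw [div_le_one hN']; push_cast; linarith
    · have : ((k + 1 : ℕ) : ℝ) / N - (k : ℝ) / N = 1 / N := by push_cast; ring
      rw [this, abs_of_pos (by positivity)]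

end Swap

open Swap in
/-- moving a ball inside a convex open set -/
theorem transport (V : Set (E m)) (hV : IsOpen V) (hc : Convex ℝ V) (c c' : E m) (r r' : ℝ)
    (hr : 0 < r) (hr' : 0 < r') (h : Metric.closedBall c (5 / 4 * r) ⊆ V)
    (h' : Metric.closedBall c' (5 / 4 * r') ⊆ V) :
    ∃ F G : E m → E m, ContDiff ℝ ∞ F ∧ ContDiff ℝ ∞ G ∧ (∀ x, G (F x) = x) ∧ (∀ x, F (G x) = x) ∧
      (∀ x ∉ V, F x = x) ∧ ∀ y : E m, ‖y‖ < 5 / 4 → F (c + r • y) = c' + r' • y := by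
  obtain ⟨e₁, he₁, hs₁⟩ := exists_enlarge V hV c r hr h
  obtain ⟨e₂, he₂, hs₂⟩ := exists_enlarge V hV c' r' hr' h'
  have hpt : ∀ t ∈ Icc (0 : ℝ) 1, ∀ y : E m, ‖y‖ ≤ 5 / 4 + min e₁ e₂ →
      (c + t • (c' - c)) + (r + t * (r' - r)) • y ∈ V := by
    intro t ht y hy
    have h1 : c + r • y ∈ V := by
      apply hs₁
      rw [Metric.mem_closedBall, dist_eq_norm, add_sub_cancel_left, norm_smul, Real.norm_eq_abs,
        abs_of_pos hr, mul_comm]
      gcongr
      exact hy.trans (by gcongr; exact min_le_left _ _)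
    have h2 : c' + r' • y ∈ V := by
      apply hs₂
      rw [Metric.mem_closedBall, dist_eq_norm, add_sub_cancel_left, norm_smul, Real.norm_eq_abs,
        abs_of_pos hr', mul_comm]
      gcongr
      exact hy.trans (by gcongr; exact min_le_right _ _)
    have h3 := hc h1 h2 (sub_nonneg.mpr ht.2) ht.1 (by ring)
    convert h3 using 1
    ext i
    simp only [Pi.add_apply, Pi.smul_apply, Pi.sub_apply, smul_eq_mul]
    ring
  have hρ : ∀ t ∈ Icc (0 : ℝ) 1, min r r' ≤ r + t * (r' - r) := by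
    intro t ht
    have h1 : min r r' ≤ r := min_le_left _ _
    have h2 : min r r' ≤ r' := min_le_right _ _
    nlinarith [ht.1, ht.2, mul_le_mul_of_nonneg_left h2 ht.1,
      mul_le_mul_of_nonneg_left h1 (sub_nonneg.mpr ht.2)]
  obtain ⟨η, hη, hsm⟩ := moves_small V c c' r r' (min e₁ e₂) (lt_min he₁ he₂) hpt (min r r')
    (lt_min hr hr') hρ
  obtain ⟨N, hN⟩ := exists_nat_gt (1 / η)
  have hN0 : (0 : ℝ) < N := lt_trans (by positivity) hN
  have hN1 : 0 < N := by exact_mod_cast hN0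
  have := moves_nat V c c' r r' N hN1 (fun s hs t ht hst => hsm s hs t ht (hst.trans ?_)) N le_rfl
  · rw [div_self hN0.ne'] at this
    simpa [Moves] using this
  · rw [div_le_iff₀ hN0]
    rw [div_lt_iff₀ hη] at hN
    linarith

/-- swapping two consecutive balls -/
theorem swap_realize (m : ℕ) :
    ∃ F G : E m → E m, ContDiff ℝ ∞ F ∧ ContDiff ℝ ∞ G ∧ (∀ x, G (F x) = x) ∧ (∀ x, F (G x) = x) ∧
      (∀ x, ¬ (1 / 50 < x 0 ∧ ‖x‖ < 3 / 4) → F x = x) ∧
      ∀ y : E m, ‖y‖ < 5 / 4 → F (nu m 0 y) = nu m 1 y ∧ F (nu m 1 y) = nu m 0 y := by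
  set c0 : E m := fun j => if j = 0 then 1 / 2 else 0 with hc0
  set c1 : E m := fun j => if j = 0 then 1 / 16 else 0 with hc1
  set cs : E m := fun j => if j = 0 then 1 / 4 else if j = 1 then 1 / 2 else 0 with hcs
  have hnu0 : ∀ y : E m, nu m 0 y = c0 + (1 / 8 : ℝ) • y := by
    intro y; ext j
    simp only [nu, hc0, pow_zero, Pi.add_apply, Pi.smul_apply, smul_eq_mul]
  have hnu1 : ∀ y : E m, nu m 1 y = c1 + (1 / 64 : ℝ) • y := by
    intro y; ext j
    simp only [nu, hc1, pow_one, Pi.add_apply, Pi.smul_apply, smul_eq_mul]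
    by_cases hj : j = 0
    · simp only [hj, if_true]; ring
    · simp only [hj, if_false]; ring
  have h01 : (1 : Fin (m + 2)) ≠ 0 := by simp
  have key : ∀ (c : E m) (r : ℝ), 0 ≤ r → ∀ x ∈ Metric.closedBall c (5 / 4 * r),
      (∀ j, |x j - c j| ≤ 5 / 4 * r) := by
    intro c r hr x hx j
    rw [Metric.mem_closedBall, dist_pi_le_iff (by positivity)] at hx
    exact hx j
  -- open convex sets
  have hO : ∀ f : E m → ℝ, Continuous f → ∀ a, IsOpen {x : E m | a < f x} :=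
    fun f hf a => isOpen_lt continuous_const hf
  have hlin : ∀ j : Fin (m + 2), Continuous fun x : E m => x j := fun j => continuous_apply j
  have hB : IsOpen {x : E m | ‖x‖ < 3 / 4} := isOpen_lt continuous_norm continuous_const
  have hBc : Convex ℝ {x : E m | ‖x‖ < 3 / 4} := by
    have h1 := convex_ball (0 : E m) (3 / 4)
    have h2 : Metric.ball (0 : E m) (3 / 4) = {x : E m | ‖x‖ < 3 / 4} := by
      ext x; simp
    rw [h2] at h1
    exact h1
  have hlt : ∀ (a : ℝ) (j : Fin (m + 2)), Convex ℝ {x : E m | a < x j} := by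
    intro a j
    exact convex_halfSpace_gt (LinearMap.isLinear (LinearMap.proj j : E m →ₗ[ℝ] ℝ)) a
  have hgt : ∀ (a : ℝ) (j : Fin (m + 2)), Convex ℝ {x : E m | x j < a} := by
    intro a j
    exact convex_halfSpace_lt (LinearMap.isLinear (LinearMap.proj j : E m →ₗ[ℝ] ℝ)) a
  -- norms
  have hnorm : ∀ x : E m, (∀ j, |x j| < 3 / 4) → ‖x‖ < 3 / 4 := by
    intro x hx
    rw [pi_norm_lt_iff (by norm_num)]
    exact hx
  set V1 : Set (E m) := {x | 1 / 10 < x 0} ∩ {x | ‖x‖ < 3 / 4} with hV1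
  set V2 : Set (E m) := ({x | 1 / 50 < x 0} ∩ ({x | -(3 / 10) < x 1} ∩ {x | x 1 < 3 / 10})) ∩
    {x | ‖x‖ < 3 / 4} with hV2
  set V3 : Set (E m) := ({x | 1 / 50 < x 0} ∩ {x | x 0 < 3 / 10}) ∩ {x | ‖x‖ < 3 / 4} with hV3
  have hin : ∀ (c : E m) (r : ℝ), 0 ≤ r → (∀ j, |c j| + 5 / 4 * r < 3 / 4) →
      ∀ x ∈ Metric.closedBall c (5 / 4 * r), ‖x‖ < 3 / 4 := by
    intro c r hr hcr x hx
    apply hnorm
    intro j
    have h1 := key c r hr x hx j
    have h2 : |x j| ≤ |x j - c j| + |c j| := by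
      have := abs_add_le (x j - c j) (c j)
      simpa using this
    linarith [hcr j]
  have n0 : ∀ x ∈ Metric.closedBall c0 (5 / 4 * (1 / 8)), ‖x‖ < 3 / 4 := by
    apply hin _ _ (by norm_num)
    intro j
    by_cases hj : j = 0
    · simp only [hc0, hj, if_true]; rw [abs_of_pos] <;> norm_num
    · simp only [hc0, hj, if_false]; norm_num
  have n1 : ∀ x ∈ Metric.closedBall c1 (5 / 4 * (1 / 64)), ‖x‖ < 3 / 4 := by
    apply hin _ _ (by norm_num)
    intro j
    by_cases hj : j = 0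
    · simp only [hc1, hj, if_true]; rw [abs_of_pos] <;> norm_num
    · simp only [hc1, hj, if_false]; norm_num
  have ns : ∀ x ∈ Metric.closedBall cs (5 / 4 * (1 / 50)), ‖x‖ < 3 / 4 := by
    apply hin _ _ (by norm_num)
    intro j
    by_cases hj : j = 0
    · simp only [hcs, hj, if_true]; rw [abs_of_pos] <;> norm_num
    · by_cases hj1 : j = 1
      · simp only [hcs, hj1, h01, if_true, if_false]; rw [abs_of_pos] <;> norm_num
      · simp only [hcs, hj, hj1, if_false]; norm_num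
  have a0 : c0 0 = 1 / 2 := by simp [hc0]
  have b0 : c0 1 = 0 := by simp [hc0]
  have a1 : c1 0 = 1 / 16 := by simp [hc1]
  have b1 : c1 1 = 0 := by simp [hc1]
  have as : cs 0 = 1 / 4 := by simp [hcs]
  have bs : cs 1 = 1 / 2 := by simp [hcs]
  obtain ⟨F1, G1, hF1, hG1, hGF1, hFG1, hoff1, hmv1⟩ := transport V1
    ((hO _ (hlin 0) _).inter hB) ((hlt _ _).inter hBc) c0 cs (1 / 8) (1 / 50) (by norm_num)
    (by norm_num)
    (fun x hx => ⟨by
      have := abs_le.mp (key _ _ (by norm_num) x hx 0)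
      rw [a0] at this
      simp only [mem_ofPred_eq]
      linarith [this.1], n0 x hx⟩)
    (fun x hx => ⟨by
      have := abs_le.mp (key _ _ (by norm_num) x hx 0)
      rw [as] at this
      simp only [mem_ofPred_eq]
      linarith [this.1], ns x hx⟩)
  obtain ⟨F2, G2, hF2, hG2, hGF2, hFG2, hoff2, hmv2⟩ := transport V2
    (((hO _ (hlin 0) _).inter ((hO _ (hlin 1) _).inter
      (isOpen_lt (hlin 1) continuous_const))).inter hB)
    (((hlt _ _).inter ((hlt _ _).inter (hgt _ _))).inter hBc) c1 c0 (1 / 64) (1 / 8) (by norm_num)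
    (by norm_num)
    (fun x hx => ⟨by
      have h0 := abs_le.mp (key _ _ (by norm_num) x hx 0)
      have h1 := abs_le.mp (key _ _ (by norm_num) x hx 1)
      rw [a1] at h0
      rw [b1] at h1
      simp only [mem_inter_iff, mem_ofPred_eq]
      refine ⟨?_, ?_, ?_⟩ <;> linarith [h0.1, h1.1, h1.2], n1 x hx⟩)
    (fun x hx => ⟨by
      have h0 := abs_le.mp (key _ _ (by norm_num) x hx 0)
      have h1 := abs_le.mp (key _ _ (by norm_num) x hx 1)
      rw [a0] at h0
      rw [b0] at h1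
      simp only [mem_inter_iff, mem_ofPred_eq]
      refine ⟨?_, ?_, ?_⟩ <;> linarith [h0.1, h1.1, h1.2], n0 x hx⟩)
  obtain ⟨F3, G3, hF3, hG3, hGF3, hFG3, hoff3, hmv3⟩ := transport V3
    (((hO _ (hlin 0) _).inter (isOpen_lt (hlin 0) continuous_const)).inter hB)
    (((hlt _ _).inter (hgt _ _)).inter hBc) cs c1 (1 / 50) (1 / 64) (by norm_num) (by norm_num)
    (fun x hx => ⟨by
      have h0 := abs_le.mp (key _ _ (by norm_num) x hx 0)
      rw [as] at h0
      simp only [mem_inter_iff, mem_ofPred_eq]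
      refine ⟨?_, ?_⟩ <;> linarith [h0.1, h0.2], ns x hx⟩)
    (fun x hx => ⟨by
      have h0 := abs_le.mp (key _ _ (by norm_num) x hx 0)
      rw [a1] at h0
      simp only [mem_inter_iff, mem_ofPred_eq]
      refine ⟨?_, ?_⟩ <;> linarith [h0.1, h0.2], n1 x hx⟩)
  have hco : ∀ y : E m, ‖y‖ < 5 / 4 → ∀ j, -(5 / 4) < y j ∧ y j < 5 / 4 := by
    intro y hy j
    have := (pi_norm_lt_iff (by norm_num)).mp hy j
    rw [Real.norm_eq_abs, abs_lt] at this
    exact this
  refine ⟨F3 ∘ F2 ∘ F1, G1 ∘ G2 ∘ G3, hF3.comp (hF2.comp hF1), hG1.comp (hG2.comp hG3), ?_, ?_,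
    ?_, ?_⟩
  · intro x; simp only [Function.comp_apply]; rw [hGF3, hGF2, hGF1]
  · intro x; simp only [Function.comp_apply]; rw [hFG1, hFG2, hFG3]
  · intro x hx
    have h1 : x ∉ V1 := fun h => hx ⟨lt_trans (by norm_num) h.1, h.2⟩
    have h2 : x ∉ V2 := fun h => hx ⟨h.1.1, h.2⟩
    have h3 : x ∉ V3 := fun h => hx ⟨h.1.1, h.2⟩
    simp only [Function.comp_apply]
    rw [hoff1 x h1, hoff2 x h2, hoff3 x h3]
  · intro y hy
    have hy0 := hco y hy 0
    have hy1 := hco y hy 1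
    rw [hnu0, hnu1]
    constructor
    · simp only [Function.comp_apply]
      rw [hmv1 y hy, hoff2, hmv3 y hy]
      intro h
      have h2 : (cs + (1 / 50 : ℝ) • y) 1 < 3 / 10 := h.1.2.2
      simp only [Pi.add_apply, Pi.smul_apply, smul_eq_mul, bs] at h2
      linarith [hy1.1]
    · simp only [Function.comp_apply]
      rw [hoff1, hmv2 y hy, hoff3]
      · intro h
        have h2 : (c0 + (1 / 8 : ℝ) • y) 0 < 3 / 10 := h.1.2
        simp only [Pi.add_apply, Pi.smul_apply, smul_eq_mul, a0] at h2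
        linarith [hy0.1]
      · intro h
        have h2 : 1 / 10 < (c1 + (1 / 64 : ℝ) • y) 0 := h.1
        simp only [Pi.add_apply, Pi.smul_apply, smul_eq_mul, a1] at h2
        linarith [hy0.2]

end Pool.Agent.Helper73.BR
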