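import Pool.Agent.BR.PermRealCore
import Pool.Agent.BR.PermFactor
import Pool.Agent.BR.Swap

/-!
# Realising permutations of the balls
-/

open Set Filter Topology MeasureTheory
open scoped ContDiff

namespace Pool.Agent.Helper73.BR

variable {m : ℕ}

theorem block_realize (α : Equiv.Perm ℕ) (h : BlockFin α) : Realized m α :=
  PermReal.block_realize_of (swap_realize m) α h

theorem perm_realize (π : Equiv.Perm ℕ) : Realized m π := by
  obtain ⟨α, β, hα, hβ, hπ⟩ := perm_factor π
  exact PermReal.realized_comp (block_realize α hα) (block_realize β hβ) hπ

end Pool.Agent.Helper73.BR
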