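import Pool.Agent.Helper73.BR.DefsA

/-!
# Realising permutations of the balls: the construction
-/

open Set Filter Topology MeasureTheory
open scoped ContDiff

namespace Pool.Agent.Helper73.BR

variable {m : ℕ}

namespace PermReal

/-- The support of the `j`-th swap. -/
def V (m j : ℕ) : Set (E m) := {x | (1 / 8 : ℝ) ^ j / 50 < x 0 ∧ ‖x‖ < 3 / 4 * (1 / 8 : ℝ) ^ j}

/-- The support of the diffeomorphisms permuting the balls `a, …, b - 1`. -/
def Wab (m a b : ℕ) : Set (E m) := {x | ∃ j, a ≤ j ∧ j + 1 < b ∧ x ∈ V m j}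

/-- A diffeomorphism swapping the first two balls. -/
def SwapHyp (m : ℕ) : Prop :=
  ∃ F G : E m → E m, ContDiff ℝ ∞ F ∧ ContDiff ℝ ∞ G ∧ (∀ x, G (F x) = x) ∧ (∀ x, F (G x) = x) ∧
    (∀ x, ¬ (1 / 50 < x 0 ∧ ‖x‖ < 3 / 4) → F x = x) ∧
    ∀ y : E m, ‖y‖ < 5 / 4 → F (nu m 0 y) = nu m 1 y ∧ F (nu m 1 y) = nu m 0 y

/-- Realised by a diffeomorphism with support in `Wab m a b`. -/
def RL (m a b : ℕ) (π : Equiv.Perm ℕ) : Prop :=
  ∃ F G : E m → E m, ContDiff ℝ ∞ F ∧ ContDiff ℝ ∞ G ∧ (∀ x, G (F x) = x) ∧ (∀ x, F (G x) = x) ∧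
    (∀ x ∉ Wab m a b, F x = x) ∧ ∀ i, ∀ y : E m, ‖y‖ < 5 / 4 → F (nu m i y) = nu m (π i) y

theorem abs_le_norm (x : E m) : |x 0| ≤ ‖x‖ := norm_le_pi_norm x 0

theorem nu_zero_coord (i : ℕ) (y : E m) :
    (nu m i y) 0 = (1 / 8 : ℝ) ^ i / 2 + (1 / 8 : ℝ) ^ i / 8 * y 0 := by
  simp [nu]

theorem nu_notMem_V {i j : ℕ} (h1 : i ≠ j) (h2 : i ≠ j + 1) {y : E m} (hy : ‖y‖ < 5 / 4) :
    nu m i y ∉ V m j := by
  rintro ⟨h3, h4⟩
  have hy0 := abs_lt.1 (lt_of_le_of_lt (abs_le_norm y) hy)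
  have hx0 := le_abs_self ((nu m i y) 0)
  have hx1 := abs_le_norm (nu m i y)
  rw [nu_zero_coord] at h3 hx0 hx1
  have hi : (0 : ℝ) < (1 / 8) ^ i := by positivity
  have hj : (0 : ℝ) < (1 / 8) ^ j := by positivity
  rcases lt_or_ge i j with h | h
  · have h5 : (1 / 8 : ℝ) ^ j ≤ (1 / 8) ^ (i + 1) :=
      pow_le_pow_of_le_one (by norm_num) (by norm_num) h
    rw [pow_succ] at h5
    nlinarith
  · have h5 : (1 / 8 : ℝ) ^ i ≤ (1 / 8) ^ (j + 2) :=
      pow_le_pow_of_le_one (by norm_num) (by norm_num) (by omega)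
    rw [pow_add] at h5
    nlinarith

theorem smul_nu (i j : ℕ) (y : E m) : (1 / 8 : ℝ) ^ j • nu m i y = nu m (i + j) y := by
  ext l
  simp only [nu, Pi.smul_apply, smul_eq_mul]
  rw [pow_add]
  split_ifs <;> ring

theorem smul_nu' (i j : ℕ) (y : E m) : (8 : ℝ) ^ j • nu m (i + j) y = nu m i y := by
  rw [← smul_nu, smul_smul, ← mul_pow]
  norm_num

theorem RL.one (a b : ℕ) : RL m a b 1 :=
  ⟨id, id, contDiff_id, contDiff_id, fun _ => rfl, fun _ => rfl, fun _ _ => rfl, fun _ _ _ => rfl⟩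

theorem RL.mul {a b : ℕ} {π σ : Equiv.Perm ℕ} (h : RL m a b π) (h' : RL m a b σ) :
    RL m a b (π * σ) := by
  obtain ⟨F, G, hF, hG, hGF, hFG, hs, hn⟩ := h
  obtain ⟨F', G', hF', hG', hGF', hFG', hs', hn'⟩ := h'
  refine ⟨F ∘ F', G' ∘ G, hF.comp hF', hG'.comp hG, fun x => ?_, fun x => ?_, fun x hx => ?_,
    fun i y hy => ?_⟩
  · simp only [Function.comp_apply, hGF, hGF']
  · simp only [Function.comp_apply, hFG, hFG']
  · simp only [Function.comp_apply, hs' x hx, hs x hx]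
  · simp only [Function.comp_apply, hn' i y hy, hn _ y hy, Equiv.Perm.mul_apply]

theorem RL.mono {a b c : ℕ} (hbc : b ≤ c) {π : Equiv.Perm ℕ} (h : RL m a b π) :
    RL m a c π := by
  obtain ⟨F, G, hF, hG, hGF, hFG, hs, hn⟩ := h
  refine ⟨F, G, hF, hG, hGF, hFG, fun x hx => hs x fun hx' => hx ?_, hn⟩
  obtain ⟨j, h1, h2, h3⟩ := hx'
  exact ⟨j, h1, by omega, h3⟩

theorem RL.swap_succ (hsw : SwapHyp m) {a b j : ℕ} (haj : a ≤ j) (hjb : j + 1 < b) :
    RL m a b (Equiv.swap j (j + 1)) := by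
  obtain ⟨F, G, hF, hG, hGF, hFG, hs, hn⟩ := hsw
  have hV : ∀ x ∉ V m j, (1 / 8 : ℝ) ^ j • F ((8 : ℝ) ^ j • x) = x := by
    intro x hx
    have h1 : ¬ (1 / 50 < ((8 : ℝ) ^ j • x) 0 ∧ ‖(8 : ℝ) ^ j • x‖ < 3 / 4) := by
      rintro ⟨h1, h2⟩
      refine hx ⟨?_, ?_⟩
      · rw [Pi.smul_apply, smul_eq_mul] at h1
        have h3 : (1 / 8 : ℝ) ^ j * (1 / 50) < (1 / 8 : ℝ) ^ j * ((8 : ℝ) ^ j * x 0) :=
          mul_lt_mul_of_pos_left h1 (by positivity)
        rw [← mul_assoc, ← mul_pow] at h3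
        norm_num at h3
        norm_num
        linarith
      · rw [norm_smul, Real.norm_eq_abs, abs_of_pos (by positivity)] at h2
        have h3 : (1 / 8 : ℝ) ^ j * ((8 : ℝ) ^ j * ‖x‖) < (1 / 8 : ℝ) ^ j * (3 / 4) :=
          mul_lt_mul_of_pos_left h2 (by positivity)
        rw [← mul_assoc, ← mul_pow] at h3
        norm_num at h3
        norm_num
        linarith
    rw [hs _ h1, smul_smul, ← mul_pow]
    norm_num
  refine ⟨fun x => (1 / 8 : ℝ) ^ j • F ((8 : ℝ) ^ j • x),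
    fun x => (1 / 8 : ℝ) ^ j • G ((8 : ℝ) ^ j • x),
    (hF.comp (contDiff_id.const_smul ((8 : ℝ) ^ j))).const_smul ((1 / 8 : ℝ) ^ j),
    (hG.comp (contDiff_id.const_smul ((8 : ℝ) ^ j))).const_smul ((1 / 8 : ℝ) ^ j),
    fun x => ?_, fun x => ?_, fun x hx => hV x fun hx' => hx ⟨j, haj, hjb, hx'⟩,
    fun i y hy => ?_⟩
  · dsimp only
    have h1 : (8 : ℝ) ^ j • (1 / 8 : ℝ) ^ j • F ((8 : ℝ) ^ j • x) = F ((8 : ℝ) ^ j • x) := by
      rw [smul_smul, ← mul_pow]; norm_num
    rw [h1, hGF, smul_smul, ← mul_pow]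
    norm_num
  · dsimp only
    have h1 : (8 : ℝ) ^ j • (1 / 8 : ℝ) ^ j • G ((8 : ℝ) ^ j • x) = G ((8 : ℝ) ^ j • x) := by
      rw [smul_smul, ← mul_pow]; norm_num
    rw [h1, hFG, smul_smul, ← mul_pow]
    norm_num
  · dsimp only
    by_cases h1 : i = j
    · subst h1
      have h2 := smul_nu' 0 i y
      rw [zero_add] at h2
      rw [h2, (hn y hy).1, smul_nu, Equiv.swap_apply_left, add_comm]
    by_cases h2 : i = j + 1
    · subst h2
      have h3 := smul_nu' 1 j y
      rw [add_comm 1 j] at h3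
      rw [h3, (hn y hy).2, smul_nu, Equiv.swap_apply_right, zero_add]
    · rw [hV _ (nu_notMem_V h1 h2 hy), Equiv.swap_apply_of_ne_of_ne h1 h2]

theorem RL.swap (hsw : SwapHyp m) {a b : ℕ} : ∀ (n i : ℕ), a ≤ i → i + n < b → RL m a b (Equiv.swap i (i + n)) := by
  intro n
  induction n with
  | zero =>
    intro i _ _
    rw [add_zero, Equiv.swap_self]
    exact RL.one a b
  | succ n ih =>
    intro i hi hb
    rcases Nat.eq_zero_or_pos n with hn | hn
    · subst hn
      exact RL.swap_succ hsw hi (by omega)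
    · have h1 : Equiv.swap i (i + (n + 1)) =
          Equiv.swap (i + n) (i + n + 1) * Equiv.swap i (i + n) *
            Equiv.swap (i + n) (i + n + 1) := by
        rw [Equiv.swap_mul_swap_mul_swap (by omega) (by omega), Equiv.swap_comm]
        rfl
      rw [h1]
      have h2 : RL m a b (Equiv.swap (i + n) (i + n + 1)) :=
        RL.swap_succ hsw (by omega) (by omega)
      exact (h2.mul (ih i hi (by omega))).mul h2

theorem RL.of_supp (hsw : SwapHyp m) {a : ℕ} : ∀ (b : ℕ) (π : Equiv.Perm ℕ),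
    (∀ i, ¬ (a ≤ i ∧ i < b) → π i = i) → RL m a b π := by
  intro b
  induction b with
  | zero =>
    intro π h
    have : π = 1 := Equiv.ext fun i => h i (by omega)
    rw [this]
    exact RL.one _ _
  | succ c ih =>
    intro π h
    by_cases hac : a ≤ c
    · have hd : a ≤ π c ∧ π c < c + 1 := by
        by_contra hd
        have h1 := h _ hd
        have h2 := π.injective h1
        rw [h2] at hd
        exact hd ⟨hac, Nat.lt_succ_self c⟩
      have h1 : RL m a c (Equiv.swap (π c) c * π) := by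
        refine ih _ fun i hi => ?_
        rw [Equiv.Perm.mul_apply]
        by_cases hic : i = c
        · subst hic
          rw [Equiv.swap_apply_left]
        · have h2 : π i = i := h i (by omega)
          rw [h2]
          refine Equiv.swap_apply_of_ne_of_ne (fun h3 => ?_) hic
          rw [← h3] at hd
          omega
      have h2 : RL m a (c + 1) (Equiv.swap (π c) c) := by
        have h3 := RL.swap (m := m) hsw (a := a) (b := c + 1) (c - π c) (π c) hd.1 (by omega)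
        rwa [show π c + (c - π c) = c by omega] at h3
      have h3 : π = Equiv.swap (π c) c * (Equiv.swap (π c) c * π) := by
        rw [← mul_assoc, Equiv.swap_mul_self, one_mul]
      rw [h3]
      exact h2.mul (h1.mono (Nat.le_succ c))
    · have : π = 1 := Equiv.ext fun i => h i (by omega)
      rw [this]
      exact RL.one _ _

/-! ### gluing countably many diffeomorphisms with disjoint supports -/

section glue

variable (W : ℕ → Set (E m)) (f : ℕ → E m → E m)

open Classical in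
/-- Glue maps supported in `W k`. -/
noncomputable def gl (x : E m) : E m := if h : ∃ k, x ∈ W k then f h.choose x else x

variable {W f}

theorem gl_of_mem (hd : ∀ k l x, x ∈ W k → x ∈ W l → k = l) {k : ℕ} {x : E m} (hx : x ∈ W k) :
    gl W f x = f k x := by
  have h : ∃ k, x ∈ W k := ⟨k, hx⟩
  unfold gl
  rw [dif_pos h, hd _ _ x h.choose_spec hx]

theorem gl_of_notMem {x : E m} (hx : ∀ k, x ∉ W k) : gl W f x = x := by
  unfold gl
  rw [dif_neg]
  rintro ⟨k, hk⟩
  exact hx k hk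

/-- finite compositions -/
noncomputable def fin (f : ℕ → E m → E m) : ℕ → E m → E m
  | 0 => id
  | n + 1 => fin f n ∘ f n

theorem fin_smooth (hf : ∀ k, ContDiff ℝ ∞ (f k)) : ∀ n, ContDiff ℝ ∞ (fin f n)
  | 0 => contDiff_id
  | n + 1 => (fin_smooth hf n).comp (hf n)

theorem fin_eq (hd : ∀ k l x, x ∈ W k → x ∈ W l → k = l) (hid : ∀ k, ∀ x ∉ W k, f k x = x)
    (hm : ∀ k, ∀ x ∈ W k, f k x ∈ W k) : ∀ n, (∀ x, (∀ k < n, x ∉ W k) → fin f n x = x) ∧
      (∀ k < n, ∀ x ∈ W k, fin f n x = f k x) := by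
  intro n
  induction n with
  | zero => exact ⟨fun x _ => rfl, fun k hk => absurd hk (Nat.not_lt_zero k)⟩
  | succ n ih =>
    refine ⟨fun x hx => ?_, fun k hk x hx => ?_⟩
    · change fin f n (f n x) = x
      rw [hid n x (hx n (Nat.lt_succ_self n))]
      exact ih.1 x fun k hk => hx k (Nat.lt_succ_of_lt hk)
    · change fin f n (f n x) = f k x
      by_cases hkn : k = n
      · subst hkn
        refine ih.1 _ fun l hl hxl => ?_
        have := hd _ _ _ (hm k x hx) hxl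
        omega
      · rw [hid n x fun hx' => hkn (hd _ _ _ hx hx')]
        exact ih.2 k (by omega) x hx

theorem gl_eq_fin (hd : ∀ k l x, x ∈ W k → x ∈ W l → k = l) (hid : ∀ k, ∀ x ∉ W k, f k x = x)
    (hm : ∀ k, ∀ x ∈ W k, f k x ∈ W k) {n : ℕ} {x : E m} (hx : ∀ k, n ≤ k → x ∉ W k) :
    gl W f x = fin f n x := by
  by_cases h : ∃ k, x ∈ W k
  · obtain ⟨k, hk⟩ := h
    have hkn : k < n := by
      by_contra hkn
      exact hx k (by omega) hk
    rw [gl_of_mem hd hk, (fin_eq hd hid hm n).2 k hkn x hk]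
  · push Not at h
    rw [gl_of_notMem h, (fin_eq hd hid hm n).1 x fun k _ => h k]

theorem gl_smooth (hd : ∀ k l x, x ∈ W k → x ∈ W l → k = l) (hid : ∀ k, ∀ x ∉ W k, f k x = x)
    (hm : ∀ k, ∀ x ∈ W k, f k x ∈ W k) (hf : ∀ k, ContDiff ℝ ∞ (f k))
    (hW : ∀ r : ℝ, 0 < r → ∃ n, ∀ k, n ≤ k → ∀ x ∈ W k, ‖x‖ < r) :
    ContDiffOn ℝ ∞ (gl W f) {0}ᶜ := by
  intro x hx
  have hx0 : 0 < ‖x‖ := norm_pos_iff.2 hx
  obtain ⟨n, hn⟩ := hW (‖x‖ / 2) (by linarith)
  have h1 : ∀ᶠ y in 𝓝 x, gl W f y = fin f n y := by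
    have h2 : ∀ᶠ y in 𝓝 x, ‖x‖ / 2 < ‖y‖ :=
      continuous_norm.continuousAt.eventually (lt_mem_nhds (by linarith))
    filter_upwards [h2] with y hy
    exact gl_eq_fin hd hid hm fun k hk hyk => absurd (hn k hk y hyk) (by linarith)
  exact (((fin_smooth hf n).contDiffAt).congr_of_eventuallyEq h1).contDiffWithinAt

end glue

theorem block_realize_of (hsw : SwapHyp m) (α : Equiv.Perm ℕ) (h : BlockFin α) :
    Realized m α := by
  choose nx hnx1 hnx2 using h
  -- the block ends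
  let N : ℕ → ℕ := fun k => Nat.rec 0 (fun _ n => nx n) k
  have hN0 : N 0 = 0 := rfl
  have hNs : ∀ k, N (k + 1) = nx (N k) := fun _ => rfl
  have hlt : ∀ k, N k < N (k + 1) := fun k => by rw [hNs]; exact hnx1 _
  have hmono : StrictMono N := strictMono_nat_of_lt_succ hlt
  have hinv : ∀ k i, i < N k ↔ α i < N k := by
    intro k
    cases k with
    | zero => intro i; rw [hN0]; simp
    | succ k => intro i; rw [hNs]; exact hnx2 _ i
  have hblock : ∀ i, ∃ k, N k ≤ i ∧ i < N (k + 1) := by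
    intro i
    have hex : ∃ k, i < N (k + 1) := ⟨i, lt_of_lt_of_le (Nat.lt_succ_self i) (hmono.le_apply)⟩
    classical
    refine ⟨Nat.find hex, ?_, Nat.find_spec hex⟩
    rcases Nat.eq_zero_or_pos (Nat.find hex) with h0 | h0
    · rw [h0, hN0]; exact Nat.zero_le i
    · have := Nat.find_min hex (m := Nat.find hex - 1) (by omega)
      rw [show Nat.find hex - 1 + 1 = Nat.find hex by omega] at this
      omega
  -- the permutations of the blocks
  have hp : ∀ k, ∀ x, (N k ≤ α x ∧ α x < N (k + 1)) ↔ (N k ≤ x ∧ x < N (k + 1)) := by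
    intro k x
    have h1 := hinv k x
    have h2 := hinv (k + 1) x
    constructor
    · rintro ⟨h3, h4⟩
      exact ⟨by by_contra h5; have := h1.1 (by omega); omega, h2.2 h4⟩
    · rintro ⟨h3, h4⟩
      exact ⟨by by_contra h5; have := h1.2 (by omega); omega, h2.1 h4⟩
  have hαk : ∀ k, ∃ ρ : Equiv.Perm ℕ, (∀ i, (N k ≤ i ∧ i < N (k + 1)) → ρ i = α i) ∧
      ∀ i, ¬ (N k ≤ i ∧ i < N (k + 1)) → ρ i = i := by
    intro k
    obtain ⟨p, hpd⟩ : ∃ p : ℕ → Prop, p = fun x : ℕ => N k ≤ x ∧ x < N (k + 1) := ⟨_, rfl⟩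
    have hp' : ∀ x, p (α x) ↔ p x := by
      intro x; rw [hpd]; exact hp k x
    classical
    refine ⟨Equiv.Perm.ofSubtype (α.subtypePerm hp'), fun i hi => ?_, fun i hi => ?_⟩
    · exact Equiv.Perm.ofSubtype_apply_of_mem (α.subtypePerm hp') (by rw [hpd]; exact hi)
    · exact Equiv.Perm.ofSubtype_apply_of_not_mem (α.subtypePerm hp') (by rw [hpd]; exact hi)
  choose αk hα1 hα2 using hαk
  have hR : ∀ k, RL m (N k) (N (k + 1)) (αk k) := fun k =>
    RL.of_supp hsw _ _ (hα2 k)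
  choose F G hF hG hGF hFG hs hn using hR
  have hs' : ∀ k, ∀ x ∉ Wab m (N k) (N (k + 1)), G k x = x := by
    intro k x hx
    conv_lhs => rw [← hs k x hx]
    exact hGF k x
  have hFm : ∀ k, ∀ x ∈ Wab m (N k) (N (k + 1)), F k x ∈ Wab m (N k) (N (k + 1)) := by
    intro k x hx
    by_contra hc
    have h1 := hs' k _ hc
    rw [hGF] at h1
    rw [← h1] at hc
    exact hc hx
  have hGm : ∀ k, ∀ x ∈ Wab m (N k) (N (k + 1)), G k x ∈ Wab m (N k) (N (k + 1)) := by
    intro k x hx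
    by_contra hc
    have h1 := hs k _ hc
    rw [hFG] at h1
    rw [← h1] at hc
    exact hc hx
  have hdV : ∀ i j : ℕ, i + 2 ≤ j → ∀ x : E m, x ∈ V m i → x ∈ V m j → False := by
    rintro i j hij x ⟨h1, -⟩ ⟨-, h2⟩
    have h3 := (le_abs_self (x 0)).trans (abs_le_norm x)
    have h5 : (1 / 8 : ℝ) ^ j ≤ (1 / 8) ^ (i + 2) :=
      pow_le_pow_of_le_one (by norm_num) (by norm_num) hij
    have hi : (0 : ℝ) < (1 / 8) ^ i := by positivity
    rw [pow_add] at h5
    nlinarith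
  have hd : ∀ k l x, x ∈ Wab m (N k) (N (k + 1)) → x ∈ Wab m (N l) (N (l + 1)) → k = l := by
    rintro k l x ⟨i, hi1, hi2, hi3⟩ ⟨j, hj1, hj2, hj3⟩
    rcases lt_trichotomy k l with hkl | hkl | hkl
    · exfalso
      have h1 : N (k + 1) ≤ N l := hmono.monotone hkl
      exact hdV i j (by omega) x hi3 hj3
    · exact hkl
    · exfalso
      have h1 : N (l + 1) ≤ N k := hmono.monotone hkl
      exact hdV j i (by omega) x hj3 hi3
  have hW : ∀ r : ℝ, 0 < r → ∃ n, ∀ k, n ≤ k → ∀ x ∈ Wab m (N k) (N (k + 1)), ‖x‖ < r := by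
    intro r hr
    obtain ⟨n, hn⟩ := exists_pow_lt_of_lt_one hr (show (1 / 8 : ℝ) < 1 by norm_num)
    refine ⟨n, ?_⟩
    rintro k hk x ⟨j, hj1, -, hj2⟩
    have h1 : n ≤ j := hk.trans ((hmono.le_apply).trans hj1)
    have h2 : (1 / 8 : ℝ) ^ j ≤ (1 / 8) ^ n :=
      pow_le_pow_of_le_one (by norm_num) (by norm_num) h1
    have h3 := hj2.2
    have h4 : (0 : ℝ) < (1 / 8) ^ j := by positivity
    linarith
  let W : ℕ → Set (E m) := fun k => Wab m (N k) (N (k + 1))
  have hcomp : ∀ (f g : ℕ → E m → E m), (∀ k x, g k (f k x) = x) → (∀ k, ∀ x ∈ W k, f k x ∈ W k) →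
      ∀ x, gl W g (gl W f x) = x := by
    intro f g hgf hfm x
    by_cases h : ∃ k, x ∈ W k
    · obtain ⟨k, hk⟩ := h
      rw [gl_of_mem hd hk, gl_of_mem hd (hfm k x hk), hgf]
    · push Not at h
      rw [gl_of_notMem h, gl_of_notMem h]
  refine ⟨gl W F, gl W G, hcomp F G hGF hFm, hcomp G F hFG hGm, ?_,
    gl_smooth hd hs hFm hF hW, gl_smooth hd hs' hGm hG hW, fun i y hy => ?_, fun x hx => ?_⟩
  · refine gl_of_notMem ?_
    rintro k ⟨j, -, -, hj, -⟩
    have h4 : (0 : ℝ) < (1 / 8) ^ j := by positivity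
    have : (0 : ℝ) < (0 : E m) 0 := lt_trans (by positivity) hj
    exact lt_irrefl _ this
  · obtain ⟨k, hk1, hk2⟩ := hblock i
    have h1 : gl W F (nu m i y) = F k (nu m i y) := by
      by_cases hx : nu m i y ∈ W k
      · exact gl_of_mem hd hx
      · rw [hs k _ hx]
        refine gl_of_notMem ?_
        rintro l ⟨j, hj1, hj2, hj3⟩
        have h2 : i = j ∨ i = j + 1 := by
          by_contra hc
          push Not at hc
          exact nu_notMem_V hc.1 hc.2 hy hj3
        have h3 : N l ≤ i ∧ i < N (l + 1) := by omega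
        have h4 : l = k := by
          rcases lt_trichotomy k l with hkl | hkl | hkl
          · have h1 : N (k + 1) ≤ N l := hmono.monotone hkl
            omega
          · exact hkl.symm
          · have h1 : N (l + 1) ≤ N k := hmono.monotone hkl
            omega
        subst h4
        exact hx ⟨j, hj1, hj2, hj3⟩
    rw [h1, hn k i y hy, hα1 k i ⟨hk1, hk2⟩]
  · refine gl_of_notMem ?_
    rintro k ⟨j, -, -, hj⟩
    have h2 : (1 / 8 : ℝ) ^ j ≤ 1 := pow_le_one₀ (by norm_num) (by norm_num)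
    have h3 := hj.2
    linarith

theorem realized_comp {π α β : Equiv.Perm ℕ} (hα : Realized m α) (hβ : Realized m β)
    (hπ : ∀ i, π i = β (α i)) : Realized m π := by
  obtain ⟨F, G, hGF, hFG, hF0, hF, hG, hn, h1⟩ := hα
  obtain ⟨F', G', hGF', hFG', hF0', hF', hG', hn', h1'⟩ := hβ
  have hG0 : G 0 = 0 := by conv_lhs => rw [← hF0]; exact hGF 0
  have hG0' : G' 0 = 0 := by conv_lhs => rw [← hF0']; exact hGF' 0
  refine ⟨F' ∘ F, G ∘ G', fun x => ?_, fun x => ?_, ?_, ?_, ?_, fun i y hy => ?_, fun x hx => ?_⟩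
  · simp only [Function.comp_apply, hGF', hGF]
  · simp only [Function.comp_apply, hFG', hFG]
  · simp only [Function.comp_apply, hF0, hF0']
  · refine hF'.comp hF fun x hx => ?_
    intro h
    refine hx ?_
    have h2 : F x = 0 := h
    have h3 := congrArg G h2
    rw [hGF, hG0] at h3
    exact h3
  · refine hG.comp hG' fun x hx => ?_
    intro h
    refine hx ?_
    have h2 : G' x = 0 := h
    have h3 := congrArg F' h2
    rw [hFG', hF0'] at h3
    exact h3
  · simp only [Function.comp_apply, hn i y hy, hn' _ y hy, hπ]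
  · simp only [Function.comp_apply, h1 x hx, h1' x hx]

end PermReal

end Pool.Agent.Helper73.BR
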