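import Pool.Agent.BR.Base

/-!
# Making overlaps exact
-/

open Set Filter Topology MeasureTheory
open scoped ContDiff

namespace Pool.Agent.Helper73.BR

variable {m : ℕ}

theorem isNice_QGerm (Q : QFam m) : IsNice Q (QGerm Q) := by
  refine ⟨?_, ?_, ?_, ?_⟩
  · rintro F F' x ⟨hx, n, hn⟩ h
    exact ⟨hx, n, h.trans hn⟩
  · rintro F x ⟨hx, n, hn⟩
    have h1 : ∀ᶠ z in 𝓝[HS m] x, ∀ᶠ w in 𝓝[HS m] z, F w = Q.q n w :=
      eventually_eventually_nhdsWithin.mpr hn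
    filter_upwards [h1, self_mem_nhdsWithin] with z hz hz'
    exact ⟨hz', n, hz⟩
  · intro n x hx
    exact ⟨hx, n, EventuallyEq.rfl⟩
  · rintro F x ⟨hx, a, ha⟩ j n
    obtain ⟨k, hk⟩ := Q.interp j a n
    refine ⟨hx, k, ?_⟩
    filter_upwards [ha, self_mem_nhdsWithin] with z hz hz'
    rw [hz, hk z hz']

namespace Qify

variable {M : Type} [TopologicalSpace M]

/-- The statement of `adj` for a fixed manifold. -/
def AdjSt (Q : QFam m) (A : Man (HS m) M) : Prop :=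
  ∀ {nice : (E m → E m) → E m → Prop}
    (_ : IsNice Q nice) {u c : E m → M} {W V : Set (E m)} (_ : Param A u W) (_ : Param A c V)
    {K : Set (E m)} (_ : IsCompact K) (_ : K ⊆ W) (_ : ∀ x ∈ K, u x ∈ c '' V)
    {C : Set M} (_ : IsClosed C) (_ : ∀ x ∈ K, u x ∈ C → NRel nice u c V x)
    {D : Set (M × M)} (_ : IsOpen D) (_ : ∀ z, (z, z) ∈ D),
    ∃ ρ : M ≃ M, DM A A ρ ∧ (∀ z ∈ C, ∀ᶠ w in 𝓝 z, ρ w = w) ∧ (∀ z, (z, ρ z) ∈ D) ∧
      ∀ x ∈ K, NRel nice (ρ ∘ u) c V x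

theorem tendsto_q (Q : QFam m) (n : ℕ) {x : E m} (hx : x ∈ HS m) :
    Tendsto (Q.q n) (𝓝[HS m] x) (𝓝[HS m] (Q.q n x)) := by
  apply tendsto_nhdsWithin_of_tendsto_nhds_of_eventually_within
  · exact ((Q.q_smooth n).continuousOn x hx)
  · filter_upwards [self_mem_nhdsWithin] with z hz
    exact (Q.q_bp n z hz).1

omit [TopologicalSpace M] in
theorem nrel_spread {Q : QFam m} {nice : (E m → E m) → E m → Prop} (hN : IsNice Q nice)
    {u c : E m → M} {V : Set (E m)} {x : E m} (h : NRel nice u c V x) :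
    ∀ᶠ z in 𝓝[HS m] x, NRel nice u c V z := by
  obtain ⟨F, hF, hF'⟩ := h
  have h1 := hN.spread F x hF
  have h2 := eventually_eventually_nhdsWithin.mpr hF'
  filter_upwards [h1, h2] with z hz hz'
  exact ⟨F, hz, hz'⟩

omit [TopologicalSpace M] in
theorem nrel_congr {nice : (E m → E m) → E m → Prop}
    {u u' c : E m → M} {V : Set (E m)} {x : E m} (h : NRel nice u c V x)
    (he : ∀ᶠ z in 𝓝[HS m] x, u' z = u z) : NRel nice u' c V x := by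
  obtain ⟨F, hF, hF'⟩ := h
  refine ⟨F, hF, ?_⟩
  filter_upwards [hF', he] with z hz hz'
  exact ⟨hz.1, hz'.trans hz.2⟩

omit [TopologicalSpace M] in
theorem nrel_comp (Q : QFam m) {u b c : E m → M} {Vb V Qb : Set (E m)} {x : E m}
    (hinj : InjOn b Vb) (hQV : Qb ⊆ Vb) (h1 : NRel (QGerm Q) u b Vb x) (hx : u x ∈ b '' Qb)
    (h2 : ∀ y ∈ Qb, u x = b y → NRel (QGerm Q) b c V y) : NRel (QGerm Q) u c V x := by
  obtain ⟨F, ⟨hxH, n, hn⟩, hF⟩ := h1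
  have hev : ∀ᶠ z in 𝓝[HS m] x, Q.q n z ∈ Vb ∧ u z = b (Q.q n z) := by
    filter_upwards [hF, hn] with z hz hz'
    rwa [← hz']
  have hself := hev.self_of_nhdsWithin hxH
  obtain ⟨y, hy, hyx⟩ := hx
  have hyq : y = Q.q n x := hinj (hQV hy) hself.1 (hyx.trans hself.2)
  obtain ⟨F', ⟨hyH, n', hn'⟩, hF'⟩ := h2 y hy hyx.symm
  obtain ⟨k, hk⟩ := Q.comp n' n
  have hev' : ∀ᶠ w in 𝓝[HS m] (Q.q n x), Q.q n' w ∈ V ∧ b w = c (Q.q n' w) := by
    rw [← hyq]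
    filter_upwards [hF', hn'] with z hz hz'
    rwa [← hz']
  refine ⟨Q.q k, ⟨hxH, k, EventuallyEq.rfl⟩, ?_⟩
  filter_upwards [hev, (tendsto_q Q n hxH).eventually hev', self_mem_nhdsWithin] with z h3 h4 h5
  rw [hk z h5]
  exact ⟨h4.1, h3.2.trans h4.2⟩

theorem step (Q : QFam m) [T2Space M] (A : Man (HS m) M) (hadj : AdjSt Q A)
    (s : List ((E m → M) × Set (E m) × Set (E m)))
    (hs : ∀ b ∈ s, Param A b.1 b.2.1 ∧ IsCompact b.2.2 ∧ b.2.2 ⊆ b.2.1)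
    {c : E m → M} {V Qc : Set (E m)} (hc : Param A c V) (hQc : IsCompact Qc) (hQV : Qc ⊆ V)
    (hp : ∀ bj ∈ s, ∀ x ∈ bj.2.2, bj.1 x ∈ c '' Qc → NRel (QGerm Q) bj.1 c V x)
    {u : E m → M} {W : Set (E m)} (hu : Param A u W)
    {K : Set (E m)} (hK : IsCompact K) (hKW : K ⊆ W)
    (hex : ∀ b ∈ s, ∀ x ∈ K, u x ∈ b.1 '' b.2.2 → NRel (QGerm Q) u b.1 b.2.1 x)
    {D : Set (M × M)} (hD : IsOpen D) (hd : ∀ z, (z, z) ∈ D) :
    ∃ ρ : M ≃ M, DM A A ρ ∧ (∀ z, (z, ρ z) ∈ D) ∧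
      (∀ x ∈ K, ρ (u x) ∈ c '' Qc → NRel (QGerm Q) (ρ ∘ u) c V x) ∧
      ∀ b ∈ s, ∀ x ∈ K, ρ (u x) ∈ b.1 '' b.2.2 → NRel (QGerm Q) (ρ ∘ u) b.1 b.2.1 x := by
  have hN := isNice_QGerm Q
  have hKH : K ⊆ HS m := hKW.trans hu.1.subset
  set C : Set M := ⋃ b ∈ {b | b ∈ s}, b.1 '' b.2.2 with hCdef
  have hC : IsClosed C := by
    apply Set.Finite.isClosed_biUnion (List.finite_toSet s)
    intro b hb
    obtain ⟨h1, h2, h3⟩ := hs b hb
    exact (h2.image_of_continuousOn (h1.continuousOn.mono h3)).isClosed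
  have hmemC : ∀ b ∈ s, ∀ z ∈ b.1 '' b.2.2, z ∈ C := by
    intro b hb z hz
    exact Set.mem_biUnion hb hz
  have hCc : ∀ x ∈ K, u x ∈ C → u x ∈ c '' Qc → NRel (QGerm Q) u c V x := by
    intro x hx hxC hxc
    obtain ⟨b, hb, hxb⟩ := Set.mem_iUnion₂.mp hxC
    obtain ⟨h1, h2, h3⟩ := hs b hb
    apply nrel_comp Q h1.2.1 h3 (hex b hb x hx hxb) hxb
    intro y hy hxy
    exact hp b hb y hy (hxy ▸ hxc)
  -- the bad set
  set N0 : Set (E m) := {x | ∀ᶠ z in 𝓝[HS m] x, NRel (QGerm Q) u c V z} with hN0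
  have hN0o : IsOpen N0 := by
    have : N0 = {x | ∀ᶠ z in 𝓝 x, z ∈ HS m → NRel (QGerm Q) u c V z} := by
      ext x
      exact eventually_nhdsWithin_iff
    rw [this]
    exact isOpen_setOfPred_eventually_nhds
  have hN0' : ∀ x ∈ HS m, NRel (QGerm Q) u c V x → x ∈ N0 := fun x _ h => nrel_spread hN h
  have hN0'' : ∀ x ∈ HS m, x ∈ N0 → NRel (QGerm Q) u c V x := fun x hx h =>
    Filter.Eventually.self_of_nhdsWithin h hx
  have hcu : ContinuousOn u K := hu.continuousOn.mono hKW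
  have hBadc : IsClosed ((K ∩ u ⁻¹' C) \ N0) :=
    (hcu.preimage_isClosed_of_isClosed hK.isClosed hC).sdiff hN0o
  have hBad : IsCompact ((K ∩ u ⁻¹' C) \ N0) :=
    hK.of_isClosed_subset hBadc (fun x hx => hx.1.1)
  have hBadi : IsClosed (u '' ((K ∩ u ⁻¹' C) \ N0)) :=
    (hBad.image_of_continuousOn (hcu.mono (fun x hx => hx.1.1))).isClosed
  have hV' : ROpen (HS m) {y ∈ V | c y ∉ u '' ((K ∩ u ⁻¹' C) \ N0)} := by
    rw [ropen_iff]
    refine ⟨fun y hy => hc.1.subset hy.1, ?_⟩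
    rintro y ⟨hyV, hyb⟩
    have h1 : V ∈ 𝓝[HS m] y := hc.1.mem_nhdsWithin hyV
    have h2 : c ⁻¹' (u '' ((K ∩ u ⁻¹' C) \ N0))ᶜ ∈ 𝓝[HS m] y := by
      have h3 : (u '' ((K ∩ u ⁻¹' C) \ N0))ᶜ ∈ 𝓝 (c y) := hBadi.isOpen_compl.mem_nhds hyb
      rw [hc.2.2.1 y hyV] at h3
      exact h3
    exact Filter.inter_mem h1 h2
  obtain ⟨O, hO, hOV⟩ := hV'
  have hQO : Qc ⊆ O := by
    intro y hy
    have : y ∈ {y ∈ V | c y ∉ u '' ((K ∩ u ⁻¹' C) \ N0)} := by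
      refine ⟨hQV hy, ?_⟩
      rintro ⟨x, ⟨⟨hxK, hxC⟩, hxN⟩, hxy⟩
      exact hxN (hN0' x (hKH hxK) (hCc x hxK hxC ⟨y, hy, hxy.symm⟩))
    rw [hOV] at this
    exact this.1
  obtain ⟨L, hL, hQL, hLO⟩ := exists_compact_between hQc hO hQO
  have hHSc : IsClosed (HS m) := by
    have : HS m = (fun x : E m => x (Fin.last (m + 1))) ⁻¹' (Set.Ici 0) := rfl
    rw [this]
    exact isClosed_Ici.preimage (continuous_apply _)
  have hLV : L ∩ HS m ⊆ {y ∈ V | c y ∉ u '' ((K ∩ u ⁻¹' C) \ N0)} := by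
    rw [hOV]
    exact fun y hy => ⟨hLO hy.1, hy.2⟩
  have hLc : IsCompact (L ∩ HS m) := hL.inter_right hHSc
  have hcL : IsClosed (c '' (L ∩ HS m)) :=
    (hLc.image_of_continuousOn (hc.continuousOn.mono (fun y hy => (hLV hy).1))).isClosed
  have hK' : IsCompact (K ∩ u ⁻¹' (c '' (L ∩ HS m))) :=
    hK.of_isClosed_subset (hcu.preimage_isClosed_of_isClosed hK.isClosed hcL)
      (fun x hx => hx.1)
  have hVi : ROpen (HS m) (interior L ∩ HS m) := ⟨interior L, isOpen_interior, rfl⟩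
  have hVio : IsOpen (c '' (interior L ∩ HS m)) := by
    refine (hc.mono hVi ?_).isOpen_image
    intro y hy
    exact (hLV ⟨interior_subset hy.1, hy.2⟩).1
  have hQcc : IsClosed (c '' Qc) :=
    (hQc.image_of_continuousOn (hc.continuousOn.mono hQV)).isClosed
  have hD' : IsOpen (D ∩ {z : M × M | z.1 ∈ c '' (interior L ∩ HS m) ∨ z.2 ∉ c '' Qc}) := by
    apply hD.inter
    exact (hVio.preimage continuous_fst).union (hQcc.isOpen_compl.preimage continuous_snd)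
  have hd' : ∀ z, (z, z) ∈ D ∩ {z : M × M | z.1 ∈ c '' (interior L ∩ HS m) ∨ z.2 ∉ c '' Qc} := by
    intro z
    refine ⟨hd z, ?_⟩
    by_cases hz : z ∈ c '' Qc
    · left
      obtain ⟨y, hy, rfl⟩ := hz
      exact ⟨y, ⟨hQL hy, hc.1.subset (hQV hy)⟩, rfl⟩
    · exact Or.inr hz
  obtain ⟨ρ, hρ, hρC, hρD, hρK⟩ := hadj hN hu hc hK' (fun x hx => hKW hx.1)
    (fun x hx => by
      obtain ⟨y, hy, hyx⟩ := hx.2
      exact ⟨y, (hLV hy).1, hyx⟩) hC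
    (fun x hx hxC => by
      obtain ⟨y, hy, hyx⟩ := hx.2
      apply hN0'' x (hKH hx.1)
      by_contra hxN
      exact (hLV hy).2 (hyx ▸ ⟨x, ⟨⟨hx.1, hxC⟩, hxN⟩, rfl⟩)) hD' hd'
  refine ⟨ρ, hρ, fun z => (hρD z).1, ?_, ?_⟩
  · intro x hx hxQ
    rcases (hρD (u x)).2 with h | h
    · apply hρK x
      refine ⟨hx, ?_⟩
      obtain ⟨y, hy, hyx⟩ := h
      exact ⟨y, ⟨interior_subset hy.1, hy.2⟩, hyx⟩
    · exact absurd hxQ h
  · intro b hb x hx hxb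
    have h1 : ρ (u x) ∈ C := hmemC b hb _ hxb
    have h2 : ρ (ρ (u x)) = ρ (u x) := (hρC _ h1).self_of_nhds
    have h3 : ρ (u x) = u x := ρ.injective h2
    rw [h3] at h1 hxb
    have h4 : NRel (QGerm Q) u b.1 b.2.1 x := hex b hb x hx hxb
    apply nrel_congr h4
    have h5 : ∀ᶠ w in 𝓝 (u x), ρ w = w := hρC _ h1
    rw [hu.2.2.1 x (hKW hx)] at h5
    exact h5

theorem qify_of (Q : QFam m) [T2Space M] (A : Man (HS m) M) (hadj : AdjSt Q A)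
    (s : List ((E m → M) × Set (E m) × Set (E m)))
    (hs : ∀ b ∈ s, Param A b.1 b.2.1 ∧ IsCompact b.2.2 ∧ b.2.2 ⊆ b.2.1)
    (hp : s.Pairwise (fun bj bi => ∀ x ∈ bj.2.2, bj.1 x ∈ bi.1 '' bi.2.2 →
      NRel (QGerm Q) bj.1 bi.1 bi.2.1 x))
    {u : E m → M} {W : Set (E m)} (hu : Param A u W)
    {K : Set (E m)} (hK : IsCompact K) (hKW : K ⊆ W)
    {D : Set (M × M)} (hD : IsOpen D) (hd : ∀ z, (z, z) ∈ D) :
    ∃ ρ : M ≃ M, DM A A ρ ∧ (∀ z, (z, ρ z) ∈ D) ∧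
      ∀ b ∈ s, ∀ x ∈ K, ρ (u x) ∈ b.1 '' b.2.2 → NRel (QGerm Q) (ρ ∘ u) b.1 b.2.1 x := by
  induction s using List.reverseRecOn with
  | nil =>
    exact ⟨Equiv.refl M, DM.refl A, hd, by simp⟩
  | append_singleton s b ih =>
    rw [List.pairwise_append] at hp
    obtain ⟨ρ1, h1, h2, h3⟩ := ih (fun b' hb' => hs b' (by simp [hb'])) hp.1
    obtain ⟨hb1, hb2, hb3⟩ := hs b (by simp)
    have hcont : Continuous ρ1.symm := h1.symm.continuous
    have hD' : IsOpen {z : M × M | (ρ1.symm z.1, z.2) ∈ D} :=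
      hD.preimage ((hcont.comp continuous_fst).prodMk continuous_snd)
    have hd' : ∀ z, (z, z) ∈ {z : M × M | (ρ1.symm z.1, z.2) ∈ D} := by
      intro z
      have := h2 (ρ1.symm z)
      rw [Equiv.apply_symm_apply] at this
      exact this
    obtain ⟨ρ2, g1, g2, g3, g4⟩ := Qify.step Q A hadj s (fun b' hb' => hs b' (by simp [hb']))
      hb1 hb2 hb3 (fun bj hbj => hp.2.2 bj hbj b (by simp)) (hu.map h1) hK hKW h3 hD' hd'
    refine ⟨ρ1.trans ρ2, h1.trans g1, ?_, ?_⟩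
    · intro z
      have := g2 (ρ1 z)
      simp only [Set.mem_ofPred_eq, Equiv.symm_apply_apply] at this
      exact this
    · intro b' hb' x hx hxb
      rcases List.mem_append.mp hb' with h | h
      · exact g4 b' h x hx hxb
      · obtain rfl := List.mem_singleton.mp h
        exact g3 x hx hxb

end Qify

end Pool.Agent.Helper73.BR
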