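import Pool.Agent.Helper73.BR.DefsA

/-!
# Parameters with a single chart
-/

open Set Filter Topology MeasureTheory
open scoped ContDiff

namespace Pool.Agent.Helper73.BR

variable {m : ℕ}

namespace Single

open Classical in
/-- The parameter with the single chart `G`. -/
noncomputable def P (G : {G : Set (E m) // IsOpen G}) : Par (univ : Set (E m)) where
  U k l := {x | k = 0 ∧ l = 0 ∧ x ∈ G.1}
  φ k l x := if k = 0 ∧ l = 0 ∧ x ∈ G.1 then x else 0
  ropen k l := by
    refine ⟨{x | k = 0 ∧ l = 0 ∧ x ∈ G.1}, ?_, (inter_univ _).symm⟩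
    by_cases h : k = 0 ∧ l = 0
    · have : {x : E m | k = 0 ∧ l = 0 ∧ x ∈ G.1} = G.1 := by
        ext x; simp [h.1, h.2]
      rw [this]; exact G.2
    · have : {x : E m | k = 0 ∧ l = 0 ∧ x ∈ G.1} = ∅ := by
        ext x
        refine ⟨fun h' => ?_, fun h' => h'.elim⟩
        obtain ⟨h1, h2, -⟩ := h'
        exact h ⟨h1, h2⟩
      rw [this]; exact isOpen_empty
  sub k l := by rintro x ⟨h1, -, h3⟩; exact ⟨h1, h1, h3⟩
  maps k l := by
    intro x hx
    have hx' : k = 0 ∧ l = 0 ∧ x ∈ G.1 := hx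
    rw [if_pos hx']
    exact ⟨hx'.2.1, hx'.1, hx'.2.2⟩
  smooth k l := by
    refine contDiffOn_id.congr ?_
    intro x hx
    have hx' : k = 0 ∧ l = 0 ∧ x ∈ G.1 := hx
    rw [if_pos hx']; rfl
  diag k := by
    intro x hx
    have hx' : k = 0 ∧ k = 0 ∧ x ∈ G.1 := hx
    rw [if_pos hx']
  inv k l := by
    intro x hx
    have hx' : k = 0 ∧ l = 0 ∧ x ∈ G.1 := hx
    have hx'' : l = 0 ∧ k = 0 ∧ x ∈ G.1 := ⟨hx'.2.1, hx'.1, hx'.2.2⟩
    rw [if_pos hx', if_pos hx'']
  cocycle j k l := by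
    intro x h1 h2
    have h1' : j = 0 ∧ k = 0 ∧ x ∈ G.1 := h1
    have h2' : j = 0 ∧ l = 0 ∧ x ∈ G.1 := h2
    have h3 : k = 0 ∧ l = 0 ∧ x ∈ G.1 := ⟨h1'.2.1, h2'.2.1, h2'.2.2⟩
    rw [if_pos h1', if_pos h2']
    exact ⟨h3, if_pos h3⟩
  off k l := by
    intro x hx
    exact if_neg hx

variable (G : {G : Set (E m) // IsOpen G})

theorem mem_U {k l : ℕ} {x : E m} : x ∈ (P G).U k l ↔ k = 0 ∧ l = 0 ∧ x ∈ G.1 := Iff.rfl

theorem φ_eq {x : E m} (hx : x ∈ G.1) : (P G).φ 0 0 x = x := by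
  exact if_pos ⟨rfl, rfl, hx⟩

/-- The point with coordinate `x`. -/
noncomputable def pt (x : G.1) : (P G).Space := (P G).point 0 x.1 ⟨rfl, rfl, x.2⟩

theorem point_eq {k : ℕ} {x : E m} (h : x ∈ (P G).U k k) :
    (P G).point k x h = pt G ⟨x, h.2.2⟩ := by
  obtain ⟨rfl, -, h3⟩ := h
  rfl

/-- The coordinate of a point. -/
noncomputable def co : (P G).Space → G.1 :=
  Quotient.lift (fun z : (P G).Pre => (⟨z.1.2, z.2.2.2⟩ : G.1)) (by
    rintro ⟨⟨k, x⟩, hzz⟩ ⟨⟨l, y⟩, hww⟩ ⟨h1, h2⟩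
    have hk : k = 0 := hzz.1
    have h3 : x ∈ G.1 := hzz.2.2
    have hl : l = 0 := hww.1
    subst hk
    subst hl
    apply Subtype.ext
    exact (φ_eq G h3).symm.trans h2)

theorem co_pt (x : G.1) : co G (pt G x) = x := rfl

theorem pt_co (z : (P G).Space) : pt G (co G z) = z := by
  obtain ⟨w, rfl⟩ := Quotient.exists_rep z
  rcases w with ⟨⟨k, x⟩, hzz⟩
  obtain ⟨hk, h2, h3⟩ := hzz
  dsimp only at hk
  subst hk
  rfl

theorem continuous_co : Continuous (co G) := by
  refine Continuous.quotient_lift ?_ _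
  exact Continuous.subtype_mk (continuous_snd.comp continuous_subtype_val) _

theorem continuous_pt : Continuous (pt G) := by
  have h : Continuous (fun x : G.1 => (⟨(0, x.1), ⟨rfl, rfl, x.2⟩⟩ : (P G).Pre)) :=
    Continuous.subtype_mk (continuous_const.prodMk continuous_subtype_val) _
  exact continuous_quotient_mk'.comp h

/-- The glued space is the open set. -/
noncomputable def homeo : G.1 ≃ₜ (P G).Space where
  toFun := pt G
  invFun := co G
  left_inv := co_pt G
  right_inv := pt_co G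
  continuous_toFun := continuous_pt G
  continuous_invFun := continuous_co G

theorem t2conn (h : IsConnected G.1) : T2Space (P G).Space ∧ ConnectedSpace (P G).Space := by
  refine ⟨(homeo G).t2Space, ?_⟩
  have : ConnectedSpace G.1 := isConnected_iff_connectedSpace.1 h
  exact (homeo G).surjective.connectedSpace (homeo G).continuous

variable {G} {G' : {G : Set (E m) // IsOpen G}}

theorem pt_inj {x y : G.1} (h : pt G x = pt G y) : x = y := (homeo G).injective h

open Classical in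
/-- The coordinate expression of a map. -/
noncomputable def coord (f : (P G).Space → (P G').Space) (x : E m) : E m :=
  if h : x ∈ G.1 then (co G' (f (pt G ⟨x, h⟩))).1 else 0

theorem coord_eq (f : (P G).Space → (P G').Space) {x : E m} (h : x ∈ G.1) :
    coord f x = (co G' (f (pt G ⟨x, h⟩))).1 := by
  unfold coord
  rw [dif_pos h]

theorem coord_mem (f : (P G).Space → (P G').Space) {x : E m} (h : x ∈ G.1) :
    coord f x ∈ G'.1 := by
  rw [coord_eq f h]; exact (co G' _).2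

theorem coord_spec (f : (P G).Space → (P G').Space) {x : E m} (h : x ∈ G.1) :
    f (pt G ⟨x, h⟩) = pt G' ⟨coord f x, coord_mem f h⟩ := by
  have : (⟨coord f x, coord_mem f h⟩ : G'.1) = co G' (f (pt G ⟨x, h⟩)) :=
    Subtype.ext (coord_eq f h)
  rw [this, pt_co]

theorem coord_smooth (f : (P G).Space → (P G').Space) (hf : SmoothMap (P G) (P G') f) :
    ContDiffOn ℝ ∞ (coord f) G.1 := by
  intro x hx
  obtain ⟨g, hg, hev⟩ := hf 0 x ⟨rfl, rfl, hx⟩ 0 (coord f x) ⟨rfl, rfl, coord_mem f hx⟩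
    (coord_spec f hx)
  rw [nhdsWithin_univ] at hev
  have h1 : ContDiffAt ℝ ∞ g x := hg.contDiffAt univ_mem
  have h2 : coord f =ᶠ[𝓝 x] g := by
    filter_upwards [hev] with z hz
    obtain ⟨hz1, hz2, hz3⟩ := hz
    have hzG : z ∈ G.1 := hz1.2.2
    have h4 : f (pt G ⟨z, hzG⟩) = pt G' ⟨g z, hz2.2.2⟩ := by
      rw [point_eq G hz1, point_eq G' hz2] at hz3
      exact hz3
    rw [coord_spec f hzG] at h4
    exact congrArg Subtype.val (pt_inj h4)
  exact (h1.congr_of_eventuallyEq h2).contDiffWithinAt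

theorem smoothMap_of (F : E m → E m) (hF : ContDiffOn ℝ ∞ F G.1) (hm : MapsTo F G.1 G'.1)
    (f : (P G).Space → (P G').Space) (hf : ∀ x : G.1, f (pt G x) = pt G' ⟨F x.1, hm x.2⟩) :
    SmoothMap (P G) (P G') f := by
  intro k x hx l y hy he
  have hxG : x ∈ G.1 := hx.2.2
  have hk : k = 0 := hx.1
  have hl : l = 0 := hy.1
  subst hk
  subst hl
  refine ⟨F, ?_, ?_⟩
  · exact ((hF x hxG).contDiffAt (G.2.mem_nhds hxG)).contDiffWithinAt
  · rw [nhdsWithin_univ]
    filter_upwards [G.2.mem_nhds hxG] with z hz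
    refine ⟨⟨rfl, rfl, hz⟩, ⟨rfl, rfl, hm hz⟩, ?_⟩
    exact hf ⟨z, hz⟩

theorem diffeo_iff : Diffeo (P G) (P G') ↔ DiffOpen G.1 G'.1 := by
  constructor
  · rintro ⟨f, h1, h2⟩
    refine ⟨coord f, coord f.symm, coord_smooth _ h1, coord_smooth _ h2,
      fun x hx => coord_mem _ hx, fun x hx => coord_mem _ hx, ?_, ?_⟩
    · intro x hx
      have h3 := coord_spec (f.symm : (P G').Space → (P G).Space) (coord_mem (⇑f) hx)
      rw [← coord_spec (⇑f) hx, Equiv.symm_apply_apply] at h3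
      exact (congrArg Subtype.val (pt_inj h3)).symm
    · intro y hy
      have h3 := coord_spec (f : (P G).Space → (P G').Space) (coord_mem (⇑f.symm) hy)
      rw [← coord_spec (⇑f.symm) hy, Equiv.apply_symm_apply] at h3
      exact (congrArg Subtype.val (pt_inj h3)).symm
  · rintro ⟨F, F', hF, hF', hm, hm', hl, hr⟩
    refine ⟨⟨fun z => pt G' ⟨F (co G z).1, hm (co G z).2⟩,
      fun z => pt G ⟨F' (co G' z).1, hm' (co G' z).2⟩, ?_, ?_⟩, ?_, ?_⟩
    · intro z
      show pt G ⟨F' (F (co G z).1), _⟩ = z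
      have : (⟨F' (F (co G z).1), hm' (hm (co G z).2)⟩ : G.1) = co G z :=
        Subtype.ext (hl _ (co G z).2)
      rw [this, pt_co]
    · intro z
      show pt G' ⟨F (F' (co G' z).1), _⟩ = z
      have : (⟨F (F' (co G' z).1), hm (hm' (co G' z).2)⟩ : G'.1) = co G' z :=
        Subtype.ext (hr _ (co G' z).2)
      rw [this, pt_co]
    · exact smoothMap_of F hF hm _ (fun x => rfl)
    · exact smoothMap_of F' hF' hm' _ (fun x => rfl)

end Single

/-- The parameter with a single chart, an open set. -/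
theorem exists_single (m : ℕ) : ∃ P : {G : Set (E m) // IsOpen G} → Par (univ : Set (E m)),
    (∀ G, (P G).U 0 0 = G.1) ∧ (∀ G k l, (k ≠ 0 ∨ l ≠ 0) → (P G).U k l = ∅) ∧
    (∀ G, IsConnected G.1 → T2Space (P G).Space ∧ ConnectedSpace (P G).Space) ∧
    ∀ G G', Diffeo (P G) (P G') ↔ DiffOpen G.1 G'.1 := by
  refine ⟨Single.P, ?_, ?_, fun G => Single.t2conn G, fun G G' => Single.diffeo_iff⟩
  · intro G
    ext x
    rw [Single.mem_U]
    simp
  · intro G k l h
    ext x
    rw [Single.mem_U]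
    simp only [mem_empty_iff_false, iff_false]
    rintro ⟨h1, h2, -⟩
    rcases h with h | h
    · exact h h1
    · exact h h2

end Pool.Agent.Helper73.BR
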